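import Mathlib

/-! # NCQ: numerical inequalities (real numbers only)

`s` is a common bound for `|T|, |T1|, |T2|` with `10^5 s² ≤ k0 k1`. In all lemmas
`q1 = X1 u² + Y1 m² - 2 Y T1 u m`, `Z = X u - T Y m`,
`Z1 = X1 u - T1 Y m - T Y1 m + T Y T1 u`. -/

namespace Pool.Agent.NCQ

/-- The interval `-2 ≤ r ≤ -1` (where `T1 = T2 = 0`); `b` is the value of `beta (-r)`. Put
`x = -X1 ∈ [0, 8 k1 b]`. From `q1 = -x u² + Y1 m² < 0`: `u ≠ 0`, `x > 0`,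
`m² < (2 x / k0) u²`, `s² m² ≤ (2 k1 x / 100000) u²`, so `|T Y m| ≤ (1 / 50) k1 √b |u|`, hence
`Z² ≥ u² / 8`. `-q2 ≥ k1 b u²`, so `-2 Z² q2 ≥ k1 b u⁴ / 4`. On the other hand
`|q1| ≤ x u²` and
`4 Z Z1 - q1 (X + Y T²) ≤ -3 X x u² + 4 X |T| Y1 |u m| + 4 |T Y m| x |u| + 4 T² Y Y1 m² + x T² u²
 ≤ 200 k0 k1 u²`, so
`-q1 (4 Z Z1 - q1 (..)) ≤ 8 k1 b · 200 k0 k1 u⁴ ≤ k1 b u⁴ / 4`. -/
theorem num_left {k0 k1 s b X Y T X1 Y1 X2 Y2 u m : ℝ} (hk0 : 0 < k0) (hk1 : 0 < k1)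
    (hk0' : k0 ≤ 1 / 1000) (hk1' : k1 ≤ 1 / 100) (hs : 0 ≤ s) (hs' : 100000 * s ^ 2 ≤ k0 * k1)
    (hb : 0 ≤ b) (hb' : b ≤ 1)
    (hX : 1 / 2 ≤ X) (hX' : X ≤ 1) (hY : 0 ≤ Y) (hY' : Y ≤ 1)
    (hX1 : X1 ≤ 0) (hX1' : -(8 * k1 * b) ≤ X1) (hY1 : k0 / 2 ≤ Y1) (hY1' : Y1 ≤ 8 * k0)
    (hX2 : X2 ≤ -(k1 * b)) (hY2 : Y2 ≤ 0)
    (hT : |T| ≤ s)
    (hq : X1 * u ^ 2 + Y1 * m ^ 2 < 0) :
    X * u - T * Y * m ≠ 0 ∧
    2 * (X * u - T * Y * m) ^ 2 * (X2 * u ^ 2 + Y2 * m ^ 2)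
      - 4 * (X * u - T * Y * m) * (X1 * u ^ 2 + Y1 * m ^ 2) * (X1 * u - T * Y1 * m)
      + (X1 * u ^ 2 + Y1 * m ^ 2) ^ 2 * (X + Y * T ^ 2) ≤ 0 := by
  obtain ⟨x, hx⟩ : ∃ x, x = -X1 := ⟨_, rfl⟩
  have hX1e : X1 = -x := by rw [hx]; ring
  subst hX1e
  have hx0 : 0 ≤ x := by linarith
  have hx1 : x ≤ 8 * k1 * b := by linarith
  have hY1p : 0 < Y1 := by linarith
  have hu : u ≠ 0 := by
    rintro rfl
    have : 0 ≤ Y1 * m ^ 2 := by positivity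
    rw [zero_pow two_ne_zero, mul_zero, zero_add] at hq
    linarith
  obtain ⟨w, hw⟩ : ∃ w, w = |u| := ⟨_, rfl⟩
  have hw0 : 0 < w := by rw [hw]; exact abs_pos.mpr hu
  have hw2 : u ^ 2 = w ^ 2 := by rw [hw, sq_abs]
  have hwp : 0 < w ^ 2 := by positivity
  obtain ⟨a, ha⟩ : ∃ a, a = T * m := ⟨_, rfl⟩
  obtain ⟨A, hA⟩ : ∃ A, A = |a| := ⟨_, rfl⟩
  have hA0 : 0 ≤ A := by rw [hA]; exact abs_nonneg a
  have hA2 : a ^ 2 = A ^ 2 := by rw [hA, sq_abs]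
  have hT2 : T ^ 2 ≤ s ^ 2 := by
    rw [← sq_abs T]
    exact pow_le_pow_left₀ (abs_nonneg T) hT 2
  have hm : k0 / 2 * m ^ 2 ≤ x * w ^ 2 := by
    have h1 : k0 / 2 * m ^ 2 ≤ Y1 * m ^ 2 := mul_le_mul_of_nonneg_right hY1 (sq_nonneg m)
    rw [hw2] at hq
    linarith
  have hkk : 0 < k0 * k1 := mul_pos hk0 hk1
  have hkk2 : k0 * k1 ≤ 1 / 1000 * (1 / 100) := mul_le_mul hk0' hk1' hk1.le (by norm_num)
  have hAsq : A ^ 2 ≤ (k1 * w / 50) ^ 2 := by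
    rw [← hA2, ha, mul_pow]
    have h1 : T ^ 2 * m ^ 2 ≤ s ^ 2 * m ^ 2 := mul_le_mul_of_nonneg_right hT2 (sq_nonneg m)
    have h2 : 100000 * s ^ 2 * m ^ 2 ≤ k0 * k1 * m ^ 2 :=
      mul_le_mul_of_nonneg_right hs' (sq_nonneg m)
    have h3 : k0 * k1 * m ^ 2 ≤ 2 * k1 * (x * w ^ 2) := by
      have := mul_le_mul_of_nonneg_left hm (by positivity : (0 : ℝ) ≤ 2 * k1)
      linarith
    have h4 : x * w ^ 2 ≤ 8 * k1 * w ^ 2 := by
      refine mul_le_mul_of_nonneg_right ?_ hwp.le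
      exact hx1.trans (mul_le_of_le_one_right (by positivity) hb')
    have h5 : 2 * k1 * (x * w ^ 2) ≤ 2 * k1 * (8 * k1 * w ^ 2) :=
      mul_le_mul_of_nonneg_left h4 (by positivity)
    have h6 : 0 ≤ k1 ^ 2 * w ^ 2 := by positivity
    have h7 : (k1 * w / 50) ^ 2 = k1 ^ 2 * w ^ 2 / 2500 := by ring
    have h8 : 2 * k1 * (8 * k1 * w ^ 2) = 16 * (k1 ^ 2 * w ^ 2) := by ring
    rw [h7]
    rw [h8] at h5
    linarith
  have hAle : A ≤ k1 * w / 50 := by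
    have h0 : 0 ≤ k1 * w / 50 := by positivity
    rw [← abs_of_nonneg hA0]
    exact abs_le_of_sq_le_sq hAsq h0
  -- size of `Z`
  have hYa : |Y * a| ≤ A := by
    rw [abs_mul, abs_of_nonneg hY, ← hA]
    exact mul_le_of_le_one_left hA0 hY'
  have hZabs : 49 / 100 * w ≤ |X * u - T * Y * m| := by
    have e : T * Y * m = Y * a := by rw [ha]; ring
    rw [e]
    have h1 := abs_sub_abs_le_abs_sub (X * u) (Y * a)
    have h2 : |X * u| = X * w := by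
      rw [abs_mul, abs_of_nonneg (by linarith : (0 : ℝ) ≤ X), ← hw]
    have h3 : 1 / 2 * w ≤ X * w := mul_le_mul_of_nonneg_right hX hw0.le
    have h4 : k1 * w ≤ 1 / 100 * w := mul_le_mul_of_nonneg_right hk1' hw0.le
    rw [h2] at h1
    linarith
  have hZpos : 0 < |X * u - T * Y * m| := lt_of_lt_of_le (by positivity) hZabs
  refine ⟨abs_pos.mp hZpos, ?_⟩
  obtain ⟨Z, hZ⟩ : ∃ Z, Z = X * u - T * Y * m := ⟨_, rfl⟩
  rw [← hZ] at hZabs ⊢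
  have hZ2 : w ^ 2 / 8 ≤ Z ^ 2 := by
    rw [← sq_abs Z]
    have := pow_le_pow_left₀ (by positivity : (0 : ℝ) ≤ 49 / 100 * w) hZabs 2
    linarith
  obtain ⟨q, hqd⟩ : ∃ q, q = -(-x * u ^ 2 + Y1 * m ^ 2) := ⟨_, rfl⟩
  have hq0 : 0 < q := by rw [hqd]; linarith
  have hqx : q ≤ x * w ^ 2 := by
    have : 0 ≤ Y1 * m ^ 2 := by positivity
    rw [hqd, hw2]
    linarith
  have hq2 : X2 * u ^ 2 + Y2 * m ^ 2 ≤ -(k1 * b * w ^ 2) := by
    have h1 : X2 * w ^ 2 ≤ -(k1 * b) * w ^ 2 := mul_le_mul_of_nonneg_right hX2 hwp.le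
    have h2 : Y2 * m ^ 2 ≤ 0 := mul_nonpos_of_nonpos_of_nonneg hY2 (sq_nonneg m)
    rw [hw2]
    linarith
  -- the second factor
  have hua : |u * a| = w * A := by rw [abs_mul, ← hw, ← hA]
  have hua1 : u * a ≤ w * A := by rw [← hua]; exact le_abs_self _
  have hua2 : -(u * a) ≤ w * A := by rw [← hua]; exact neg_le_abs _
  have hwA : w * A ≤ k1 / 50 * w ^ 2 := by
    have := mul_le_mul_of_nonneg_left hAle hw0.le
    linarith
  have hwA0 : 0 ≤ w * A := by positivity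
  have hE : 4 * Z * (-x * u - T * Y1 * m) + q * (X + Y * T ^ 2) ≤ k0 * k1 * w ^ 2 := by
    have e : 4 * Z * (-x * u - T * Y1 * m) = -(4 * X * x * w ^ 2) + 4 * X * Y1 * (-(u * a))
        + 4 * Y * x * (u * a) + 4 * Y * Y1 * A ^ 2 := by
      rw [hZ, ← hA2, ← hw2, ha]
      ring
    rw [e]
    have b1 : 4 * X * Y1 * (-(u * a)) ≤ 32 * k0 * (k1 / 50 * w ^ 2) := by
      have h1 : 4 * X * Y1 * (-(u * a)) ≤ 4 * X * Y1 * (w * A) :=
        mul_le_mul_of_nonneg_left hua2 (by positivity)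
      have h2 : 4 * X * Y1 ≤ 32 * k0 := by
        have := mul_le_mul hX' hY1' hY1p.le zero_le_one
        linarith
      have h3 : 4 * X * Y1 * (w * A) ≤ 32 * k0 * (w * A) := mul_le_mul_of_nonneg_right h2 hwA0
      have h4 : 32 * k0 * (w * A) ≤ 32 * k0 * (k1 / 50 * w ^ 2) :=
        mul_le_mul_of_nonneg_left hwA (by positivity)
      linarith
    have b2 : 4 * Y * x * (u * a) ≤ 1 / 10 * (x * w ^ 2) := by
      have h1 : 4 * Y * x * (u * a) ≤ 4 * Y * x * (w * A) :=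
        mul_le_mul_of_nonneg_left hua1 (by positivity)
      have h2 : 4 * Y * x ≤ 4 * x := by
        have := mul_le_mul_of_nonneg_right hY' hx0
        linarith
      have h3 : 4 * Y * x * (w * A) ≤ 4 * x * (w * A) := mul_le_mul_of_nonneg_right h2 hwA0
      have h4 : 4 * x * (w * A) ≤ 4 * x * (k1 / 50 * w ^ 2) :=
        mul_le_mul_of_nonneg_left hwA (by positivity)
      have h5 : 4 * x * (k1 / 50 * w ^ 2) ≤ 1 / 10 * (x * w ^ 2) := by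
        have : 0 ≤ x * w ^ 2 := by positivity
        have := mul_le_mul_of_nonneg_right hk1' this
        linarith
      linarith
    have b3 : 4 * Y * Y1 * A ^ 2 ≤ 1 / 100 * (k0 * k1 * w ^ 2) := by
      have h1 : 4 * Y * Y1 ≤ 32 * k0 := by
        have := mul_le_mul hY' hY1' hY1p.le zero_le_one
        linarith
      have h2 : 4 * Y * Y1 * A ^ 2 ≤ 32 * k0 * A ^ 2 :=
        mul_le_mul_of_nonneg_right h1 (sq_nonneg A)
      have h3 : 32 * k0 * A ^ 2 ≤ 32 * k0 * (k1 * w / 50) ^ 2 :=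
        mul_le_mul_of_nonneg_left hAsq (by positivity)
      have h4 : 32 * k0 * (k1 * w / 50) ^ 2 ≤ 1 / 100 * (k0 * k1 * w ^ 2) := by
        have : 0 ≤ k0 * k1 * w ^ 2 := by positivity
        have := mul_le_mul_of_nonneg_right hk1' this
        linarith
      linarith
    have b4 : q * X ≤ X * x * w ^ 2 := by
      have := mul_le_mul_of_nonneg_right hqx (by linarith : (0 : ℝ) ≤ X)
      linarith
    have b5 : q * (Y * T ^ 2) ≤ 1 / 10 * (x * w ^ 2) := by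
      have h1 : Y * T ^ 2 ≤ 1 / 10 := by
        have hT3 : T ^ 2 ≤ 1 / 10 := by linarith
        exact (mul_le_of_le_one_left (sq_nonneg T) hY').trans hT3
      have h2 : 0 ≤ Y * T ^ 2 := by positivity
      calc q * (Y * T ^ 2) ≤ (x * w ^ 2) * (1 / 10) := mul_le_mul hqx h1 h2 (by positivity)
        _ = 1 / 10 * (x * w ^ 2) := by ring
    have b6 : 1 / 2 * (x * w ^ 2) ≤ X * x * w ^ 2 := by
      have : 0 ≤ x * w ^ 2 := by positivity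
      have := mul_le_mul_of_nonneg_right hX this
      linarith
    have b7 : 0 ≤ x * w ^ 2 := by positivity
    have b8 : 0 ≤ k0 * k1 * w ^ 2 := by positivity
    linarith
  have f1 : 2 * Z ^ 2 * (X2 * u ^ 2 + Y2 * m ^ 2) ≤ -(k1 * b * (w ^ 2) ^ 2 / 4) := by
    have h1 : 2 * Z ^ 2 * (X2 * u ^ 2 + Y2 * m ^ 2) ≤ 2 * Z ^ 2 * (-(k1 * b * w ^ 2)) :=
      mul_le_mul_of_nonneg_left hq2 (by positivity)
    have h2 : 0 ≤ k1 * b * w ^ 2 := by positivity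
    have h3 : w ^ 2 / 8 * (k1 * b * w ^ 2) ≤ Z ^ 2 * (k1 * b * w ^ 2) :=
      mul_le_mul_of_nonneg_right hZ2 h2
    linarith
  have f2 : q * (4 * Z * (-x * u - T * Y1 * m) + q * (X + Y * T ^ 2))
      ≤ k1 * b * (w ^ 2) ^ 2 / 4 := by
    have h1 : q * (4 * Z * (-x * u - T * Y1 * m) + q * (X + Y * T ^ 2))
        ≤ q * (k0 * k1 * w ^ 2) := mul_le_mul_of_nonneg_left hE hq0.le
    have h2 : q * (k0 * k1 * w ^ 2) ≤ (8 * k1 * b * w ^ 2) * (k0 * k1 * w ^ 2) := by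
      refine mul_le_mul_of_nonneg_right ?_ (by positivity)
      exact hqx.trans (mul_le_mul_of_nonneg_right hx1 hwp.le)
    have h3 : (8 * k1 * b * w ^ 2) * (k0 * k1 * w ^ 2) = 8 * (k0 * k1) * (k1 * b * (w ^ 2) ^ 2) := by
      ring
    have h4 : 0 ≤ k1 * b * (w ^ 2) ^ 2 := by positivity
    have h5 : 8 * (k0 * k1) ≤ 1 / 4 := by linarith
    have h6 := mul_le_mul_of_nonneg_right h5 h4
    linarith
  have hfin : 2 * Z ^ 2 * (X2 * u ^ 2 + Y2 * m ^ 2)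
      - 4 * Z * (-x * u ^ 2 + Y1 * m ^ 2) * (-x * u - T * Y1 * m)
      + (-x * u ^ 2 + Y1 * m ^ 2) ^ 2 * (X + Y * T ^ 2)
      = 2 * Z ^ 2 * (X2 * u ^ 2 + Y2 * m ^ 2)
        + q * (4 * Z * (-x * u - T * Y1 * m) + q * (X + Y * T ^ 2)) := by
    rw [hqd]
    ring
  rw [hfin]
  linarith

end Pool.Agent.NCQ
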