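import Mathlib

/-! # NCQ: numerical inequalities (real numbers only)

`s` is a common bound for `|T|, |T1|, |T2|` with `10^5 s² ≤ k0 k1`. In all lemmas
`q1 = X1 u² + Y1 m² - 2 Y T1 u m`, `Z = X u - T Y m`,
`Z1 = X1 u - T1 Y m - T Y1 m + T Y T1 u`. -/

namespace Pool.Agent.NCQ

/-- The middle interval `-1 ≤ r ≤ 1`. Proof: put `x = -X1`. First `u ≠ 0`. From `q1 < 0`:
`(k0 / 2) m² ≤ 8 k1 u² + 2 s |u| |m| ≤ 8 k1 u² + (k0 / 4) m² + (4 s² / k0) u²`, so
`k0 m² ≤ 36 k1 u²` and `s |m| ≤ n k1 |u|` with `n = 6 / √100000 ≤ 1 / 50` (square both sides).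
Then `|Z - X u| ≤ n k1 |u|`, `|Z1 - X1 u| ≤ 2 n k1 |u|`,
`4 Z Z1 ≤ -4 x X u² + 12 n k1 u²` and `-q1 (X + Y T²) ≤ x X u² + 3 n k1 u²`,
so the sum is `≤ -3 x X u² + 15 n k1 u² ≤ (-3/4 + 15 n) k1 u² ≤ 0`. -/
theorem num_mid {k0 k1 s X Y T X1 Y1 T1 u m : ℝ} (hk0 : 0 < k0) (hk1 : 0 < k1)
    (hk0' : k0 ≤ 1 / 1000) (hk1' : k1 ≤ 1 / 100) (hs : 0 ≤ s) (hs' : 100000 * s ^ 2 ≤ k0 * k1)
    (hX : 1 / 2 ≤ X) (hX' : X ≤ 1) (hY : 0 ≤ Y) (hY' : Y ≤ 1)
    (hX1 : X1 ≤ -(k1 / 2)) (hX1' : -(8 * k1) ≤ X1) (hY1 : k0 / 2 ≤ Y1) (hY1' : Y1 ≤ 8 * k0)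
    (hT : |T| ≤ s) (hT1 : |T1| ≤ s)
    (hq : X1 * u ^ 2 + Y1 * m ^ 2 - 2 * Y * T1 * u * m < 0) :
    X * u - T * Y * m ≠ 0 ∧
    4 * (X * u - T * Y * m) * (X1 * u - T1 * Y * m - T * Y1 * m + T * Y * T1 * u)
      - (X1 * u ^ 2 + Y1 * m ^ 2 - 2 * Y * T1 * u * m) * (X + Y * T ^ 2) ≤ 0 := by
  -- the cross term
  have hu0 : 0 ≤ |u| := abs_nonneg u
  have hm0 : 0 ≤ |m| := abs_nonneg m
  have hau : |u| ^ 2 = u ^ 2 := sq_abs u
  have ham : |m| ^ 2 = m ^ 2 := sq_abs m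
  have hYT1 : |Y * T1| ≤ s := by
    rw [abs_mul, abs_of_nonneg hY]
    calc Y * |T1| ≤ 1 * |T1| := mul_le_mul_of_nonneg_right hY' (abs_nonneg _)
      _ ≤ s := by linarith
  have hYT : |T * Y| ≤ s := by
    rw [abs_mul, abs_of_nonneg hY]
    calc |T| * Y ≤ |T| * 1 := mul_le_mul_of_nonneg_left hY' (abs_nonneg _)
      _ ≤ s := by linarith
  have hcr : |2 * Y * T1 * u * m| ≤ 2 * s * (|u| * |m|) := by
    have e : 2 * Y * T1 * u * m = (Y * T1) * (2 * (u * m)) := by ring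
    have e2 : |2 * (u * m)| = 2 * (|u| * |m|) := by rw [abs_mul, abs_mul, abs_two]
    rw [e, abs_mul (Y * T1), e2]
    have h1 : 0 ≤ 2 * (|u| * |m|) := by positivity
    have h2 := mul_le_mul_of_nonneg_right hYT1 h1
    linarith
  have hcr' := abs_le.mp hcr
  -- `k0 m² ≤ 36 k1 u²`
  have hkey : k0 * m ^ 2 ≤ 36 * k1 * u ^ 2 := by
    have h1 : k0 / 2 * m ^ 2 ≤ 8 * k1 * u ^ 2 + 2 * s * (|u| * |m|) := by
      have h2 : k0 / 2 * m ^ 2 ≤ Y1 * m ^ 2 := mul_le_mul_of_nonneg_right hY1 (sq_nonneg m)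
      have h3 : -(8 * k1) * u ^ 2 ≤ X1 * u ^ 2 := mul_le_mul_of_nonneg_right hX1' (sq_nonneg u)
      linarith [hcr'.2]
    have h4 : 2 * s * (|u| * |m|) * k0 ≤ k0 ^ 2 / 4 * m ^ 2 + 4 * s ^ 2 * u ^ 2 := by
      rw [← hau, ← ham]
      have := sq_nonneg (k0 * |m| / 2 - 2 * s * |u|)
      have e : (k0 * |m| / 2 - 2 * s * |u|) ^ 2 = k0 ^ 2 / 4 * |m| ^ 2 + 4 * s ^ 2 * |u| ^ 2
        - 2 * s * (|u| * |m|) * k0 := by ring
      linarith
    have h5 : 4 * s ^ 2 * u ^ 2 ≤ k0 * k1 * u ^ 2 := by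
      have : 4 * s ^ 2 ≤ k0 * k1 := by linarith [sq_nonneg s]
      exact mul_le_mul_of_nonneg_right this (sq_nonneg u)
    have h6 : k0 * (k0 * m ^ 2) ≤ k0 * (36 * k1 * u ^ 2) := by
      have h7 := mul_le_mul_of_nonneg_right h1 hk0.le
      have e1 : k0 / 2 * m ^ 2 * k0 = k0 * (k0 * m ^ 2) / 2 := by ring
      have e2 : (8 * k1 * u ^ 2 + 2 * s * (|u| * |m|)) * k0 = 8 * (k0 * k1 * u ^ 2)
        + 2 * s * (|u| * |m|) * k0 := by ring
      have e3 : k0 ^ 2 / 4 * m ^ 2 = k0 * (k0 * m ^ 2) / 4 := by ring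
      have e4 : k0 * (36 * k1 * u ^ 2) = 36 * (k0 * k1 * u ^ 2) := by ring
      rw [e1, e2] at h7
      rw [e3] at h4
      rw [e4]
      linarith
    exact le_of_mul_le_mul_left h6 hk0
  -- `u ≠ 0`
  have hu : u ≠ 0 := by
    rintro rfl
    have h1 : m ^ 2 ≤ 0 := by
      have : k0 * m ^ 2 ≤ 0 := by simpa using hkey
      by_contra hc
      push Not at hc
      have := mul_pos hk0 hc
      linarith
    have h2 : m = 0 := pow_eq_zero_iff (two_ne_zero) |>.mp (le_antisymm h1 (sq_nonneg m))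
    rw [h2] at hq
    simp at hq
  have hu' : 0 < |u| := abs_pos.mpr hu
  have hu2 : 0 < u ^ 2 := by positivity
  have huu : |u| * |u| = u ^ 2 := by rw [← hau]; ring
  have hk : 0 ≤ k1 * u ^ 2 := by positivity
  have hku : 0 ≤ k1 * |u| := by positivity
  have hs2 : 100000 * s ^ 2 ≤ k1 / 1000 := by
    have : k0 * k1 ≤ 1 / 1000 * k1 := mul_le_mul_of_nonneg_right hk0' hk1.le
    linarith
  -- `s |m| ≤ k1 |u| / 50`
  have hsm : s * |m| ≤ k1 * |u| / 50 := by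
    have h1 : (s * |m|) ^ 2 ≤ (k1 * |u| / 50) ^ 2 := by
      have e1 : (s * |m|) ^ 2 = s ^ 2 * m ^ 2 := by rw [mul_pow, ham]
      have e2 : (k1 * |u| / 50) ^ 2 = k1 ^ 2 * u ^ 2 / 2500 := by
        rw [div_pow, mul_pow, hau]; norm_num
      rw [e1, e2]
      have h2 : 100000 * s ^ 2 * m ^ 2 ≤ k0 * k1 * m ^ 2 :=
        mul_le_mul_of_nonneg_right hs' (sq_nonneg m)
      have h3 : k1 * (k0 * m ^ 2) ≤ k1 * (36 * k1 * u ^ 2) :=
        mul_le_mul_of_nonneg_left hkey hk1.le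
      have e3 : k0 * k1 * m ^ 2 = k1 * (k0 * m ^ 2) := by ring
      have e4 : k1 * (36 * k1 * u ^ 2) = 36 * (k1 ^ 2 * u ^ 2) := by ring
      have h4 : 0 ≤ k1 ^ 2 * u ^ 2 := by positivity
      linarith
    exact (abs_le_of_sq_le_sq' h1 (by positivity)).2
  have husm : |u| * (s * |m|) ≤ k1 * u ^ 2 / 50 := by
    have h8 := mul_le_mul_of_nonneg_left hsm hu0
    have e : |u| * (k1 * |u| / 50) = k1 * (|u| * |u|) / 50 := by ring
    rw [e, huu] at h8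
    exact h8
  -- the errors
  have hα : |T * Y * m| ≤ k1 * |u| / 50 := by
    rw [abs_mul (T * Y)]
    have h1 := mul_le_mul_of_nonneg_right hYT hm0
    linarith
  have hβ : |T1 * Y * m + T * Y1 * m - T * Y * T1 * u| ≤ k1 * |u| / 25 := by
    have h1 : |T1 * Y * m| ≤ k1 * |u| / 50 := by
      rw [mul_comm T1 Y, abs_mul (Y * T1)]
      have h1 := mul_le_mul_of_nonneg_right hYT1 hm0
      linarith
    have hY1p : 0 ≤ Y1 := by linarith
    have h2 : |T * Y1 * m| ≤ k1 * |u| / 50 / 100 := by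
      have e : T * Y1 * m = Y1 * (T * m) := by ring
      rw [e, abs_mul, abs_mul, abs_of_nonneg hY1p]
      have h3 : |T| * |m| ≤ s * |m| := mul_le_mul_of_nonneg_right hT hm0
      have h4 : Y1 * (|T| * |m|) ≤ (1 / 100) * (k1 * |u| / 50) :=
        mul_le_mul (by linarith) (by linarith) (by positivity) (by norm_num)
      linarith
    have h3 : |T * Y * T1 * u| ≤ k1 * |u| / 1000 := by
      rw [abs_mul (T * Y * T1), abs_mul (T * Y)]
      have h4 : |T * Y| * |T1| ≤ s * s := mul_le_mul hYT hT1 (abs_nonneg _) hs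
      have h5 := mul_le_mul_of_nonneg_right h4 hu0
      have h6 : s ^ 2 ≤ k1 / 1000 := by linarith [sq_nonneg s]
      have h7 := mul_le_mul_of_nonneg_right h6 hu0
      have e : s * s * |u| = s ^ 2 * |u| := by ring
      rw [e] at h5
      linarith
    have h4 := abs_le.mp h1
    have h5 := abs_le.mp h2
    have h6 := abs_le.mp h3
    rw [abs_le]
    constructor
    · linarith
    · linarith
  have hZ1 : X1 * u - T1 * Y * m - T * Y1 * m + T * Y * T1 * u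
      = X1 * u - (T1 * Y * m + T * Y1 * m - T * Y * T1 * u) := by ring
  rw [hZ1]
  generalize T1 * Y * m + T * Y1 * m - T * Y * T1 * u = β at *
  have hYT2 : Y * T ^ 2 ≤ k1 / 1000 := by
    have h6 : T ^ 2 ≤ s ^ 2 := by
      rw [← sq_abs T]
      exact pow_le_pow_left₀ (abs_nonneg _) hT 2
    have h7 : Y * T ^ 2 ≤ 1 * T ^ 2 := mul_le_mul_of_nonneg_right hY' (sq_nonneg T)
    linarith [sq_nonneg s]
  generalize T * Y * m = α at *
  constructor
  · intro h0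
    have h1 : X * |u| = |α| := by
      have : X * u = α := by linarith
      rw [← this, abs_mul, abs_of_nonneg (by linarith : (0:ℝ) ≤ X)]
    have h2 : 1 / 2 * |u| ≤ X * |u| := mul_le_mul_of_nonneg_right hX hu0
    have h3 : k1 * |u| ≤ 1 / 100 * |u| := mul_le_mul_of_nonneg_right hk1' hu0
    linarith
  · -- bounds of the products
    have huα : |u * α| ≤ k1 * u ^ 2 / 50 := by
      rw [abs_mul]
      have h1 := mul_le_mul_of_nonneg_left hα hu0
      have e : |u| * (k1 * |u| / 50) = k1 * (|u| * |u|) / 50 := by ring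
      rw [e, huu] at h1
      exact h1
    have huβ : |u * β| ≤ k1 * u ^ 2 / 25 := by
      rw [abs_mul]
      have h1 := mul_le_mul_of_nonneg_left hβ hu0
      have e : |u| * (k1 * |u| / 25) = k1 * (|u| * |u|) / 25 := by ring
      rw [e, huu] at h1
      exact h1
    have hαβ : |α * β| ≤ k1 * u ^ 2 / 1000 := by
      rw [abs_mul]
      have h1 : |α| * |β| ≤ (k1 * |u| / 50) * (k1 * |u| / 25) :=
        mul_le_mul hα hβ (abs_nonneg _) (by positivity)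
      have e : (k1 * |u| / 50) * (k1 * |u| / 25) = k1 * (k1 * (|u| * |u|)) / 1250 := by ring
      rw [e, huu] at h1
      have h2 : k1 * (k1 * u ^ 2) ≤ (1 / 100) * (k1 * u ^ 2) :=
        mul_le_mul_of_nonneg_right hk1' hk
      linarith
    have hXuβ : |X * (u * β)| ≤ k1 * u ^ 2 / 25 := by
      rw [abs_mul, abs_of_nonneg (by linarith : (0:ℝ) ≤ X)]
      calc X * |u * β| ≤ 1 * |u * β| := mul_le_mul_of_nonneg_right hX' (abs_nonneg _)
        _ ≤ _ := by linarith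
    have hX1uα : |X1 * (u * α)| ≤ k1 * u ^ 2 / 500 := by
      rw [abs_mul]
      have h1 : |X1| ≤ 8 / 100 := by
        rw [abs_le]; constructor <;> linarith
      have h2 : |X1| * |u * α| ≤ 8 / 100 * (k1 * u ^ 2 / 50) :=
        mul_le_mul h1 huα (abs_nonneg _) (by norm_num)
      linarith
    have h1 := abs_le.mp huα
    have h3 := abs_le.mp hαβ
    have h4 := abs_le.mp hXuβ
    have h5 := abs_le.mp hX1uα
    -- `-q1`
    have hXT : 0 ≤ X + Y * T ^ 2 := by positivity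
    have hq1 : -(X1 * u ^ 2 + Y1 * m ^ 2 - 2 * Y * T1 * u * m) ≤ (-X1 + k1 / 25) * u ^ 2 := by
      have h6 : 0 ≤ Y1 * m ^ 2 := mul_nonneg (by linarith) (sq_nonneg m)
      have e : 2 * s * (|u| * |m|) = 2 * (|u| * (s * |m|)) := by ring
      rw [e] at hcr'
      have e2 : (-X1 + k1 / 25) * u ^ 2 = -(X1 * u ^ 2) + k1 * u ^ 2 / 25 := by ring
      rw [e2]
      linarith [hcr'.2]
    have hq2 : -(X1 * u ^ 2 + Y1 * m ^ 2 - 2 * Y * T1 * u * m) * (X + Y * T ^ 2) ≤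
        (-X1 + k1 / 25) * u ^ 2 * (X + k1 / 1000) := by
      apply mul_le_mul hq1 (by linarith) hXT
      exact mul_nonneg (by linarith) (sq_nonneg u)
    have hxX : k1 / 4 * u ^ 2 ≤ -X1 * X * u ^ 2 := by
      apply mul_le_mul_of_nonneg_right _ (sq_nonneg u)
      have : k1 / 2 * (1 / 2) ≤ -X1 * X := mul_le_mul (by linarith) hX (by norm_num) (by linarith)
      linarith
    have e1 : 4 * (X * u - α) * (X1 * u - β) = 4 * (X1 * X * u ^ 2) - 4 * (X * (u * β))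
        - 4 * (X1 * (u * α)) + 4 * (α * β) := by ring
    have e2 : (-X1 + k1 / 25) * u ^ 2 * (X + k1 / 1000) = -X1 * X * u ^ 2
        + (k1 * u ^ 2) * X / 25 + (-X1) * (k1 * u ^ 2) / 1000 + k1 * (k1 * u ^ 2) / 25000 := by ring
    have h8 : (k1 * u ^ 2) * X ≤ k1 * u ^ 2 := by
      calc (k1 * u ^ 2) * X ≤ (k1 * u ^ 2) * 1 := mul_le_mul_of_nonneg_left hX' hk
        _ = _ := mul_one _
    have h9 : (-X1) * (k1 * u ^ 2) ≤ 8 / 100 * (k1 * u ^ 2) :=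
      mul_le_mul_of_nonneg_right (by linarith) hk
    have h10 : k1 * (k1 * u ^ 2) ≤ 1 / 100 * (k1 * u ^ 2) :=
      mul_le_mul_of_nonneg_right hk1' hk
    rw [e1]
    rw [e2] at hq2
    have e3 : -X1 * X * u ^ 2 = -(X1 * X * u ^ 2) := by ring
    rw [e3] at hq2 hxX
    generalize X1 * u ^ 2 + Y1 * m ^ 2 - 2 * Y * T1 * u * m = q at *
    have e4 : -q * (X + Y * T ^ 2) = -(q * (X + Y * T ^ 2)) := by ring
    rw [e4] at hq2
    linarith

end Pool.Agent.NCQ
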