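import Mathlib

/-! # NCQ: numerical inequalities (real numbers only)

`s` is a common bound for `|T|, |T1|, |T2|` with `10^5 s² ≤ k0 k1`. In all lemmas
`q1 = X1 u² + Y1 m² - 2 Y T1 u m`, `Z = X u - T Y m`,
`Z1 = X1 u - T1 Y m - T Y1 m + T Y T1 u`. -/

namespace Pool.Agent.NCQ

/-- `q2 ≤ 0` for `-1 ≤ r ≤ 1`. Proof: the cross terms are at most `3 s |u m| + 2 s² u²`
and `3 s |u m| ≤ (k0 / 2) m² + (9 s² / (2 k0)) u² ≤ (k0 / 2) m² + (k1 / 2) u²`. -/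
theorem num_q2 {k0 k1 s Y Y1 T1 T2 X2 Y2 u m : ℝ} (hk0 : 0 < k0) (hk1 : 0 < k1)
    (hk0' : k0 ≤ 1 / 1000) (hk1' : k1 ≤ 1 / 100) (hs : 0 ≤ s) (hs' : 100000 * s ^ 2 ≤ k0 * k1)
    (hY : 0 ≤ Y) (hY' : Y ≤ 1) (hY1 : 0 ≤ Y1) (hY1' : Y1 ≤ 8 * k0) (hT1 : |T1| ≤ s)
    (hT2 : |T2| ≤ s) (hX2 : X2 ≤ -k1) (hY2 : Y2 ≤ -k0) :
    X2 * u ^ 2 + Y2 * m ^ 2 - 4 * Y1 * T1 * u * m + 2 * Y * T1 ^ 2 * u ^ 2
      - 2 * Y * T2 * u * m ≤ 0 := by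
  have ha : 0 ≤ |u| := abs_nonneg u
  have hb : 0 ≤ |m| := abs_nonneg m
  have hab : 0 ≤ |u| * |m| := mul_nonneg ha hb
  have hT1' : 0 ≤ |T1| := abs_nonneg _
  have hT2' : 0 ≤ |T2| := abs_nonneg _
  have e1 : -(4 * Y1 * T1 * u * m) ≤ s * (|u| * |m|) := by
    have h1 : -(4 * Y1 * T1 * u * m) ≤ |4 * Y1 * T1 * u * m| := neg_le_abs _
    have h2 : |4 * Y1 * T1 * u * m| = (4 * Y1) * |T1| * (|u| * |m|) := by
      rw [abs_mul, abs_mul, abs_mul, abs_of_nonneg (by positivity : 0 ≤ 4 * Y1)]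
      ring
    have h3 : (4 * Y1) * |T1| ≤ 1 * s :=
      mul_le_mul (by linarith) hT1 hT1' (by norm_num)
    have h4 : (4 * Y1) * |T1| * (|u| * |m|) ≤ 1 * s * (|u| * |m|) :=
      mul_le_mul_of_nonneg_right h3 hab
    linarith
  have e2 : -(2 * Y * T2 * u * m) ≤ 2 * s * (|u| * |m|) := by
    have h1 : -(2 * Y * T2 * u * m) ≤ |2 * Y * T2 * u * m| := neg_le_abs _
    have h2 : |2 * Y * T2 * u * m| = (2 * Y) * |T2| * (|u| * |m|) := by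
      rw [abs_mul, abs_mul, abs_mul, abs_of_nonneg (by positivity : 0 ≤ 2 * Y)]
      ring
    have h3 : (2 * Y) * |T2| ≤ 2 * s :=
      mul_le_mul (by linarith) hT2 hT2' (by norm_num)
    have h4 : (2 * Y) * |T2| * (|u| * |m|) ≤ 2 * s * (|u| * |m|) :=
      mul_le_mul_of_nonneg_right h3 hab
    linarith
  have hT1s : T1 ^ 2 ≤ s ^ 2 := by
    rw [← sq_abs T1]
    exact pow_le_pow_left₀ hT1' hT1 2
  have e3 : 2 * Y * T1 ^ 2 * u ^ 2 ≤ 2 * s ^ 2 * u ^ 2 := by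
    have h1 : Y * T1 ^ 2 ≤ 1 * s ^ 2 := mul_le_mul hY' hT1s (sq_nonneg _) (by norm_num)
    have h2 := mul_le_mul_of_nonneg_right h1 (sq_nonneg u)
    linarith
  have e4 : X2 * u ^ 2 ≤ -k1 * u ^ 2 := mul_le_mul_of_nonneg_right hX2 (sq_nonneg u)
  have e5 : Y2 * m ^ 2 ≤ -k0 * m ^ 2 := mul_le_mul_of_nonneg_right hY2 (sq_nonneg m)
  have hu2 : u ^ 2 = |u| ^ 2 := (sq_abs u).symm
  have hm2 : m ^ 2 = |m| ^ 2 := (sq_abs m).symm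
  have key : -k1 * |u| ^ 2 - k0 * |m| ^ 2 + 3 * s * (|u| * |m|) + 2 * s ^ 2 * |u| ^ 2 ≤ 0 := by
    have h1 : k0 * (-k1 * |u| ^ 2 - k0 * |m| ^ 2 + 3 * s * (|u| * |m|) + 2 * s ^ 2 * |u| ^ 2) ≤ 0 := by
      have h2 := sq_nonneg (k0 * |m| - 3 / 2 * s * |u|)
      have h3 : 100000 * s ^ 2 * |u| ^ 2 ≤ k0 * k1 * |u| ^ 2 :=
        mul_le_mul_of_nonneg_right hs' (sq_nonneg _)
      have h4 : k0 * (s ^ 2 * |u| ^ 2) ≤ 1 / 1000 * (s ^ 2 * |u| ^ 2) :=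
        mul_le_mul_of_nonneg_right hk0' (by positivity)
      have h5 : 0 ≤ s ^ 2 * |u| ^ 2 := by positivity
      nlinarith
    by_contra h
    push Not at h
    have := mul_pos hk0 h
    linarith
  rw [hu2] at e3 e4 ⊢
  rw [hm2] at e5 ⊢
  linarith

/-- The interval `1 ≤ r ≤ 2` (where `T = T1 = T2 = 0`): exact algebra,
`4 X u X1 u - q1 X = X (3 X1 u² - Y1 m²) ≤ 0`. -/
theorem num_right {X Y1 X1 X2 Y2 u m : ℝ} (hX : 0 < X) (hX1 : X1 ≤ 0) (hY1 : 0 ≤ Y1)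
    (hX2 : X2 ≤ 0) (hY2 : Y2 ≤ 0) (hq : X1 * u ^ 2 + Y1 * m ^ 2 < 0) :
    X * u ≠ 0 ∧
    2 * (X * u) ^ 2 * (X2 * u ^ 2 + Y2 * m ^ 2)
      - 4 * (X * u) * (X1 * u ^ 2 + Y1 * m ^ 2) * (X1 * u)
      + (X1 * u ^ 2 + Y1 * m ^ 2) ^ 2 * X ≤ 0 := by
  have hu : u ≠ 0 := by
    rintro rfl
    have := mul_nonneg hY1 (sq_nonneg m)
    simp at hq
    linarith
  refine ⟨mul_ne_zero hX.ne' hu, ?_⟩
  have h1 : (X * u) ^ 2 * (X2 * u ^ 2 + Y2 * m ^ 2) ≤ 0 := by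
    apply mul_nonpos_of_nonneg_of_nonpos (sq_nonneg _)
    have h2 := mul_nonpos_of_nonpos_of_nonneg hX2 (sq_nonneg u)
    have h3 := mul_nonpos_of_nonpos_of_nonneg hY2 (sq_nonneg m)
    linarith
  have h4 : X * ((X1 * u ^ 2 + Y1 * m ^ 2) * (-(3 * (X1 * u ^ 2)) + Y1 * m ^ 2)) ≤ 0 := by
    apply mul_nonpos_of_nonneg_of_nonpos hX.le
    apply mul_nonpos_of_nonpos_of_nonneg hq.le
    have h2 := mul_nonpos_of_nonpos_of_nonneg hX1 (sq_nonneg u)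
    have h3 := mul_nonneg hY1 (sq_nonneg m)
    linarith
  have h5 : - 4 * (X * u) * (X1 * u ^ 2 + Y1 * m ^ 2) * (X1 * u)
      + (X1 * u ^ 2 + Y1 * m ^ 2) ^ 2 * X =
      X * ((X1 * u ^ 2 + Y1 * m ^ 2) * (-(3 * (X1 * u ^ 2)) + Y1 * m ^ 2)) := by ring
  linarith

end Pool.Agent.NCQ
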