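import Pool.Agent.NCQ.Fun

/-! # NCQ: the cut-off function `theta` -/

open Set Filter Topology MeasureTheory
open scoped ContDiff

namespace Pool.Agent.NCQ

theorem contDiff_theta : ContDiff ℝ ∞ theta := by
  unfold theta
  refine contDiff_const.sub (Real.smoothTransition.contDiff.comp ?_)
  exact (contDiff_id.add contDiff_const).div_const _

theorem theta_left {r : ℝ} (h : r ≤ -1) : theta r = 1 := by
  unfold theta
  rw [Real.smoothTransition.zero_of_nonpos (by linarith), sub_zero]

theorem theta_right {r : ℝ} (h : 1 ≤ r) : theta r = 0 := by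
  unfold theta
  rw [Real.smoothTransition.one_of_one_le (by linarith), sub_self]

theorem contDiff_deriv_theta : ContDiff ℝ ∞ (deriv theta) :=
  (contDiff_infty_iff_deriv.1 contDiff_theta).2

theorem contDiff_deriv_deriv_theta : ContDiff ℝ ∞ (deriv (deriv theta)) :=
  (contDiff_infty_iff_deriv.1 contDiff_deriv_theta).2

theorem deriv_theta_Iic {r : ℝ} (h : r ≤ -1) : deriv theta r = 0 := by
  have hc : ContinuousAt (deriv theta) r := contDiff_deriv_theta.continuous.continuousAt
  have h1 : ∀ s, s < -1 → deriv theta s = 0 := by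
    intro s hs
    have : theta =ᶠ[𝓝 s] fun _ => (1 : ℝ) := by
      filter_upwards [Iio_mem_nhds hs] with x hx using theta_left (le_of_lt hx)
    rw [this.deriv_eq, deriv_const]
  rcases lt_or_eq_of_le h with h2 | h2
  · exact h1 r h2
  · have hcl : r ∈ closure (Iio (-1 : ℝ)) := by
      rw [closure_Iio]; exact h
    have hcw := hc.continuousWithinAt (s := Iio (-1 : ℝ))
    haveI := mem_closure_iff_nhdsWithin_neBot.1 hcl
    refine tendsto_nhds_unique (f := deriv theta) (l := 𝓝[Iio (-1 : ℝ)] r) ?_ ?_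
    · exact hcw
    · refine tendsto_const_nhds.congr' ?_
      filter_upwards [self_mem_nhdsWithin] with s hs using (h1 s hs).symm

theorem deriv_theta_Ici {r : ℝ} (h : 1 ≤ r) : deriv theta r = 0 := by
  have hc : ContinuousAt (deriv theta) r := contDiff_deriv_theta.continuous.continuousAt
  have h1 : ∀ s, 1 < s → deriv theta s = 0 := by
    intro s hs
    have : theta =ᶠ[𝓝 s] fun _ => (0 : ℝ) := by
      filter_upwards [Ioi_mem_nhds hs] with x hx using theta_right (le_of_lt hx)
    rw [this.deriv_eq, deriv_const]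
  have hcl : r ∈ closure (Ioi (1 : ℝ)) := by
    rw [closure_Ioi]; exact h
  have hcw := hc.continuousWithinAt (s := Ioi (1 : ℝ))
  haveI := mem_closure_iff_nhdsWithin_neBot.1 hcl
  refine tendsto_nhds_unique (f := deriv theta) (l := 𝓝[Ioi (1 : ℝ)] r) ?_ ?_
  · exact hcw
  · refine tendsto_const_nhds.congr' ?_
    filter_upwards [self_mem_nhdsWithin] with s hs using (h1 s hs).symm

theorem deriv2_theta_Iic {r : ℝ} (h : r ≤ -1) : deriv (deriv theta) r = 0 := by
  have hc : ContinuousAt (deriv (deriv theta)) r :=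
    contDiff_deriv_deriv_theta.continuous.continuousAt
  have h1 : ∀ s, s < -1 → deriv (deriv theta) s = 0 := by
    intro s hs
    have : deriv theta =ᶠ[𝓝 s] fun _ => (0 : ℝ) := by
      filter_upwards [Iio_mem_nhds hs] with x hx using deriv_theta_Iic (le_of_lt hx)
    rw [this.deriv_eq, deriv_const]
  have hcl : r ∈ closure (Iio (-1 : ℝ)) := by
    rw [closure_Iio]; exact h
  have hcw := hc.continuousWithinAt (s := Iio (-1 : ℝ))
  haveI := mem_closure_iff_nhdsWithin_neBot.1 hcl
  refine tendsto_nhds_unique (f := deriv (deriv theta)) (l := 𝓝[Iio (-1 : ℝ)] r) ?_ ?_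
  · exact hcw
  · refine tendsto_const_nhds.congr' ?_
    filter_upwards [self_mem_nhdsWithin] with s hs using (h1 s hs).symm

theorem deriv2_theta_Ici {r : ℝ} (h : 1 ≤ r) : deriv (deriv theta) r = 0 := by
  have hc : ContinuousAt (deriv (deriv theta)) r :=
    contDiff_deriv_deriv_theta.continuous.continuousAt
  have h1 : ∀ s, 1 < s → deriv (deriv theta) s = 0 := by
    intro s hs
    have : deriv theta =ᶠ[𝓝 s] fun _ => (0 : ℝ) := by
      filter_upwards [Ioi_mem_nhds hs] with x hx using deriv_theta_Ici (le_of_lt hx)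
    rw [this.deriv_eq, deriv_const]
  have hcl : r ∈ closure (Ioi (1 : ℝ)) := by
    rw [closure_Ioi]; exact h
  have hcw := hc.continuousWithinAt (s := Ioi (1 : ℝ))
  haveI := mem_closure_iff_nhdsWithin_neBot.1 hcl
  refine tendsto_nhds_unique (f := deriv (deriv theta)) (l := 𝓝[Ioi (1 : ℝ)] r) ?_ ?_
  · exact hcw
  · refine tendsto_const_nhds.congr' ?_
    filter_upwards [self_mem_nhdsWithin] with s hs using (h1 s hs).symm

theorem deriv_theta_left {r : ℝ} (h : r ≤ -1) : deriv theta r = 0 ∧ deriv (deriv theta) r = 0 :=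
  ⟨deriv_theta_Iic h, deriv2_theta_Iic h⟩

theorem deriv_theta_right {r : ℝ} (h : 1 ≤ r) : deriv theta r = 0 ∧ deriv (deriv theta) r = 0 :=
  ⟨deriv_theta_Ici h, deriv2_theta_Ici h⟩

/-- `theta` and its derivatives are bounded (smooth and locally constant outside a compact set) -/
theorem theta_bdd : ∃ M : ℝ, 1 ≤ M ∧ ∀ r, |theta r| ≤ M ∧ |deriv theta r| ≤ M ∧
    |deriv (deriv theta) r| ≤ M := by
  obtain ⟨M0, hM0⟩ := (isCompact_Icc (a := (-1 : ℝ)) (b := 1)).exists_bound_of_continuousOn
    (contDiff_theta.continuous.continuousOn)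
  obtain ⟨M1, hM1⟩ := (isCompact_Icc (a := (-1 : ℝ)) (b := 1)).exists_bound_of_continuousOn
    (contDiff_deriv_theta.continuous.continuousOn)
  obtain ⟨M2, hM2⟩ := (isCompact_Icc (a := (-1 : ℝ)) (b := 1)).exists_bound_of_continuousOn
    (contDiff_deriv_deriv_theta.continuous.continuousOn)
  refine ⟨max 1 (max M0 (max M1 M2)), le_max_left _ _, fun r => ?_⟩
  have e1 : (1 : ℝ) ≤ max 1 (max M0 (max M1 M2)) := le_max_left _ _
  have e2 : M0 ≤ max 1 (max M0 (max M1 M2)) := le_trans (le_max_left _ _) (le_max_right _ _)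
  have e3 : M1 ≤ max 1 (max M0 (max M1 M2)) :=
    le_trans (le_trans (le_max_left _ _) (le_max_right _ _)) (le_max_right _ _)
  have e4 : M2 ≤ max 1 (max M0 (max M1 M2)) :=
    le_trans (le_trans (le_max_right _ _) (le_max_right _ _)) (le_max_right _ _)
  rcases le_total r (-1) with h | h
  · rw [theta_left h, (deriv_theta_left h).1, (deriv_theta_left h).2]
    simp only [abs_one, abs_zero]
    exact ⟨e1, by linarith, by linarith⟩
  · rcases le_total 1 r with h' | h'
    · rw [theta_right h', (deriv_theta_right h').1, (deriv_theta_right h').2]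
      simp only [abs_zero]
      exact ⟨by linarith, by linarith, by linarith⟩
    · exact ⟨le_trans (hM0 r ⟨h, h'⟩) e2, le_trans (hM1 r ⟨h, h'⟩) e3,
        le_trans (hM2 r ⟨h, h'⟩) e4⟩

end Pool.Agent.NCQ
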