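import Pool.Agent.NCQ.ProfBd
import Pool.Agent.NCQ.Theta
import Pool.Agent.NCQ.NumQ2
import Pool.Agent.NCQ.NumMid
import Pool.Agent.NCQ.NumLeft

/-! # NCQ: the concrete profile is good -/

open Set Filter Topology
open scoped ContDiff

namespace Pool.Agent.NCQ

theorem pe_eta_pos {k1 : ℝ} (hk1 : 0 < k1) (r : ℝ) : 0 < eta k1 r := by
  have := mul_nonneg hk1.le (G0_nonneg (-r))
  unfold eta
  linarith

theorem pe_ff_pos {k0 : ℝ} (hk0 : 0 < k0) (r : ℝ) : 0 < ff k0 r := by
  have := mul_nonneg hk0.le (G0_nonneg r)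
  unfold ff
  linarith

theorem pe_hasDerivAt_eta (k1 r : ℝ) : HasDerivAt (eta k1) (k1 * G1 (-r)) r := by
  have h1 : HasDerivAt (fun x => G0 (-x)) (-(G1 (-r)) * -1) r :=
    (hasDerivAt_G0 (-r)).comp r (hasDerivAt_neg r)
  have h2 := (h1.const_mul k1).const_add 1
  have h3 : k1 * (-(G1 (-r)) * -1) = k1 * G1 (-r) := by ring
  rw [h3] at h2
  exact h2

theorem pe_hasDerivAt_ff (k0 r : ℝ) : HasDerivAt (ff k0) (-(k0 * G1 r)) r := by
  have h2 := ((hasDerivAt_G0 r).const_mul k0).const_add 1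
  have h3 : k0 * (-(G1 r)) = -(k0 * G1 r) := by ring
  rw [h3] at h2
  exact h2

theorem pe_hasDerivAt_G1neg (r : ℝ) : HasDerivAt (fun x => G1 (-x)) (beta (-r)) r := by
  have h1 : HasDerivAt (fun x => G1 (-x)) (-(beta (-r)) * -1) r :=
    (hasDerivAt_G1 (-r)).comp r (hasDerivAt_neg r)
  have h3 : -(beta (-r)) * -1 = beta (-r) := by ring
  rw [h3] at h1
  exact h1

theorem pe_d2 {f : ℝ → ℝ} {f' r : ℝ} (h : HasDerivAt f f' r) (h0 : f r ≠ 0) :
    HasDerivAt (fun x => 1 / f x ^ 2) (-(2 * f') / f r ^ 3) r := by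
  have h1 := (hasDerivAt_const r (1 : ℝ)).fun_div (h.fun_pow 2) (pow_ne_zero 2 h0)
  refine h1.congr_deriv ?_
  field_simp
  ring

theorem pe_d3 {f g : ℝ → ℝ} {f' g' r : ℝ} (h : HasDerivAt f f' r) (hg : HasDerivAt g g' r)
    (h0 : f r ≠ 0) :
    HasDerivAt (fun x => g x / f x ^ 3) ((g' * f r - 3 * g r * f') / f r ^ 4) r := by
  have h1 := hg.fun_div (h.fun_pow 3) (pow_ne_zero 3 h0)
  refine h1.congr_deriv ?_
  field_simp
  ring

/-- The profile is good if `e` is small: the cases `[-2, -1]` (`num_left`), `[-1, 1]` (`num_mid`,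
`num_q2`; there `beta r = beta (-r) = 1`), `[1, 2]` (`num_right`); `left_conv`: for `r ≤ -2`
`2 Y Y2 - 3 Y1² = -4 k0 beta r / ff⁵ ≤ 0`. -/
theorem prof_good {k0 e M : ℝ} (hk0 : 0 < k0) (hk0' : k0 ≤ 1 / 1000)
    (hM : ∀ r, |theta r| ≤ M ∧ |deriv theta r| ≤ M ∧ |deriv (deriv theta) r| ≤ M)
    (he : 100000 * (|e| * M) ^ 2 ≤ k0 * (1 / 200)) : (prof k0 (1 / 200) e).Good := by
  have hk1 : (0 : ℝ) < 1 / 200 := by norm_num
  have hep := fun r => pe_eta_pos hk1 r
  have hfp := fun r => pe_ff_pos hk0 r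
  have cG0 : Continuous G0 := contDiff_G0.continuous
  have cG1 : Continuous G1 := contDiff_G1.continuous
  have cb : Continuous beta := contDiff_beta.continuous
  have ceta : Continuous (eta (1 / 200)) := by
    unfold eta
    fun_prop
  have cff : Continuous (ff k0) := by
    unfold ff
    fun_prop
  have hth1 : ∀ r, HasDerivAt theta (deriv theta r) r := fun r =>
    (contDiff_theta.differentiable (by simp)).differentiableAt.hasDerivAt
  have hcd1 : ContDiff ℝ ∞ (deriv theta) := (contDiff_infty_iff_deriv.mp contDiff_theta).2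
  have hth2 : ∀ r, HasDerivAt (deriv theta) (deriv (deriv theta) r) r := fun r =>
    (hcd1.differentiable (by simp)).differentiableAt.hasDerivAt
  have hcd2 : ContDiff ℝ ∞ (deriv (deriv theta)) := (contDiff_infty_iff_deriv.mp hcd1).2
  have hM0 : 0 ≤ M := (abs_nonneg _).trans (hM 0).1
  set s : ℝ := |e| * M with hs
  have hs0 : 0 ≤ s := mul_nonneg (abs_nonneg _) hM0
  have hT : ∀ r, |(prof k0 (1 / 200) e).T r| ≤ s := fun r => by
    change |e * theta r| ≤ s
    rw [abs_mul]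
    exact mul_le_mul_of_nonneg_left (hM r).1 (abs_nonneg _)
  have hT1 : ∀ r, |(prof k0 (1 / 200) e).T1 r| ≤ s := fun r => by
    change |e * deriv theta r| ≤ s
    rw [abs_mul]
    exact mul_le_mul_of_nonneg_left (hM r).2.1 (abs_nonneg _)
  have hT2 : ∀ r, |(prof k0 (1 / 200) e).T2 r| ≤ s := fun r => by
    change |e * deriv (deriv theta) r| ≤ s
    rw [abs_mul]
    exact mul_le_mul_of_nonneg_left (hM r).2.2 (abs_nonneg _)
  have lT1 : ∀ r ≤ -1, (prof k0 (1 / 200) e).T1 r = 0 := fun r hr => by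
    change e * deriv theta r = 0
    rw [(deriv_theta_left hr).1, mul_zero]
  have lT2 : ∀ r ≤ -1, (prof k0 (1 / 200) e).T2 r = 0 := fun r hr => by
    change e * deriv (deriv theta) r = 0
    rw [(deriv_theta_left hr).2, mul_zero]
  have rT : ∀ r, 1 ≤ r → (prof k0 (1 / 200) e).T r = 0 := fun r hr => by
    change e * theta r = 0
    rw [theta_right hr, mul_zero]
  have rT1 : ∀ r, 1 ≤ r → (prof k0 (1 / 200) e).T1 r = 0 := fun r hr => by
    change e * deriv theta r = 0
    rw [(deriv_theta_right hr).1, mul_zero]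
  have rT2 : ∀ r, 1 ≤ r → (prof k0 (1 / 200) e).T2 r = 0 := fun r hr => by
    change e * deriv (deriv theta) r = 0
    rw [(deriv_theta_right hr).2, mul_zero]
  -- the three cases
  have hq2 : ∀ r ∈ Icc (-2 : ℝ) 2, ∀ u v, (prof k0 (1 / 200) e).q2 r u v ≤ 0 := by
    intro r hr u v
    obtain ⟨x1, x2, x3, x4, x5, x6⟩ := prof_X_bounds (k0 := k0) (e := e) hr
    obtain ⟨y1, y2, y3, y4, y5, y6⟩ := prof_Y_bounds (e := e) hk0 hk0' hr
    have hX2n : (prof k0 (1 / 200) e).X2 r ≤ 0 := by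
      have := beta_nonneg (-r)
      linarith
    have hY2n : (prof k0 (1 / 200) e).Y2 r ≤ 0 := by
      have := mul_nonneg hk0.le (beta_nonneg r)
      linarith
    by_cases h1 : r ≤ -1
    · rw [Profile.q2, lT1 r h1, lT2 r h1]
      have e1 := mul_nonneg (neg_nonneg.mpr hX2n) (sq_nonneg u)
      have e2 := mul_nonneg (neg_nonneg.mpr hY2n)
        (sq_nonneg ((prof k0 (1 / 200) e).m r u v))
      nlinarith
    by_cases h2 : 1 ≤ r
    · rw [Profile.q2, rT1 r h2, rT2 r h2]
      have e1 := mul_nonneg (neg_nonneg.mpr hX2n) (sq_nonneg u)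
      have e2 := mul_nonneg (neg_nonneg.mpr hY2n)
        (sq_nonneg ((prof k0 (1 / 200) e).m r u v))
      nlinarith
    push Not at h1 h2
    have b1 : beta (-r) = 1 := beta_eq_one ⟨by linarith, by linarith⟩
    have b2 : beta r = 1 := beta_eq_one ⟨by linarith, by linarith⟩
    rw [b1] at x4 x6
    rw [b2] at y6
    exact num_q2 hk0 hk1 hk0' (by norm_num) hs0 he y1 y2 y3 y4 (hT1 r) (hT2 r)
      (by linarith) (by linarith)
  have hH : ∀ r ∈ Icc (-2 : ℝ) 2, ∀ u v, (prof k0 (1 / 200) e).q1 r u v < 0 →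
      (prof k0 (1 / 200) e).ZH r u v ≠ 0 ∧
      2 * (prof k0 (1 / 200) e).ZH r u v ^ 2 * (prof k0 (1 / 200) e).q2 r u v
      - 4 * (prof k0 (1 / 200) e).ZH r u v * (prof k0 (1 / 200) e).q1 r u v *
        (prof k0 (1 / 200) e).ZH1 r u v
      + (prof k0 (1 / 200) e).q1 r u v ^ 2 *
        ((prof k0 (1 / 200) e).X r + (prof k0 (1 / 200) e).Y r *
          (prof k0 (1 / 200) e).T r ^ 2) ≤ 0 := by
    intro r hr u v hq
    obtain ⟨x1, x2, x3, x4, x5, x6⟩ := prof_X_bounds (k0 := k0) (e := e) hr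
    obtain ⟨y1, y2, y3, y4, y5, y6⟩ := prof_Y_bounds (e := e) hk0 hk0' hr
    have hX2n : (prof k0 (1 / 200) e).X2 r ≤ 0 := by
      have := beta_nonneg (-r)
      linarith
    have hY2n : (prof k0 (1 / 200) e).Y2 r ≤ 0 := by
      have := mul_nonneg hk0.le (beta_nonneg r)
      linarith
    have hq2' := hq2 r hr u v
    by_cases h1 : r ≤ -1
    · rw [Profile.q1, lT1 r h1] at hq
      have hq' : (prof k0 (1 / 200) e).X1 r * u ^ 2 +
          (prof k0 (1 / 200) e).Y1 r * (prof k0 (1 / 200) e).m r u v ^ 2 < 0 := by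
        have : (prof k0 (1 / 200) e).X1 r * u ^ 2 +
          (prof k0 (1 / 200) e).Y1 r * (prof k0 (1 / 200) e).m r u v ^ 2 =
          (prof k0 (1 / 200) e).X1 r * u ^ 2 +
          (prof k0 (1 / 200) e).Y1 r * (prof k0 (1 / 200) e).m r u v ^ 2 -
          2 * (prof k0 (1 / 200) e).Y r * 0 * u * (prof k0 (1 / 200) e).m r u v := by ring
        rw [this]
        exact hq
      have h2 : r ≤ 1 := by linarith
      obtain ⟨a1, a2⟩ := num_left hk0 hk1 hk0' (by norm_num) hs0 he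
        (beta_nonneg (-r)) (beta_le_one (-r)) x1 x2 y1 y2 x3 x4 (y5 h2) y4 x6 hY2n
        (hT r) hq'
      refine ⟨a1, ?_⟩
      rw [Profile.ZH, Profile.q1, Profile.q2, Profile.ZH1, lT1 r h1, lT2 r h1]
      convert a2 using 1
      ring
    by_cases h2 : 1 ≤ r
    · rw [Profile.q1, rT1 r h2] at hq
      have hq' : (prof k0 (1 / 200) e).X1 r * u ^ 2 +
          (prof k0 (1 / 200) e).Y1 r * (prof k0 (1 / 200) e).m r u v ^ 2 < 0 := by
        have : (prof k0 (1 / 200) e).X1 r * u ^ 2 +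
          (prof k0 (1 / 200) e).Y1 r * (prof k0 (1 / 200) e).m r u v ^ 2 =
          (prof k0 (1 / 200) e).X1 r * u ^ 2 +
          (prof k0 (1 / 200) e).Y1 r * (prof k0 (1 / 200) e).m r u v ^ 2 -
          2 * (prof k0 (1 / 200) e).Y r * 0 * u * (prof k0 (1 / 200) e).m r u v := by ring
        rw [this]
        exact hq
      obtain ⟨a1, a2⟩ := num_right (X := (prof k0 (1 / 200) e).X r) (by linarith) x3 y3
        hX2n hY2n hq'
      rw [Profile.ZH, Profile.q1, Profile.q2, Profile.ZH1, rT1 r h2, rT2 r h2, rT r h2]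
      constructor
      · convert a1 using 1
        ring
      · convert a2 using 1
        ring
    push Not at h1 h2
    obtain ⟨a1, a2⟩ := num_mid hk0 hk1 hk0' (by norm_num) hs0 he x1 x2 y1 y2
      (by have := x5 h1.le; linarith)
      (by
        have : beta (-r) = 1 := beta_eq_one ⟨by linarith, by linarith⟩
        rw [this] at x4
        linarith) (y5 h2.le) y4 (hT r) (hT1 r) hq
    refine ⟨a1, ?_⟩
    have e1 : 0 ≤ (prof k0 (1 / 200) e).ZH r u v ^ 2 * -((prof k0 (1 / 200) e).q2 r u v) :=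
      mul_nonneg (sq_nonneg _) (neg_nonneg.mpr hq2')
    have a2' : 4 * (prof k0 (1 / 200) e).ZH r u v * (prof k0 (1 / 200) e).ZH1 r u v
      - (prof k0 (1 / 200) e).q1 r u v * ((prof k0 (1 / 200) e).X r +
        (prof k0 (1 / 200) e).Y r * (prof k0 (1 / 200) e).T r ^ 2) ≤ 0 := a2
    have e2 := mul_nonneg (neg_nonneg.mpr hq.le) (neg_nonneg.mpr a2')
    nlinarith
  refine
    { hX := fun r => ?_
      hX1 := fun r => ?_
      cX2 := ?_
      hY := fun r => ?_
      hY1 := fun r => ?_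
      cY2 := ?_
      hT := fun r => (hth1 r).const_mul e
      hT1 := fun r => (hth2 r).const_mul e
      cT2 := continuous_const.mul hcd2.continuous
      X_pos := fun r => ?_
      Y_pos := fun r => ?_
      X1_nonpos := fun r => ?_
      Y1_nonneg := fun r => ?_
      left_X1 := fun r hr => ?_
      left_X2 := fun r hr => ?_
      left_T1 := fun r hr => lT1 r (by linarith)
      left_T2 := fun r hr => lT2 r (by linarith)
      left_Y1 := fun r hr => ?_
      left_conv := fun r hr => ?_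
      right_T := fun r hr => rT r (by linarith)
      right_T1 := fun r hr => rT1 r (by linarith)
      right_T2 := fun r hr => rT2 r (by linarith)
      right_Y1 := fun r hr => ?_
      right_Y2 := fun r hr => ?_
      right_X1 := fun r hr => ?_
      right_conv := fun r hr => ?_
      q2_nonpos := hq2
      H_ne := fun r hr u v h => (hH r hr u v h).1
      H_ineq := fun r hr u v h => (hH r hr u v h).2 }
  · -- hX
    exact pe_d2 (pe_hasDerivAt_eta (1 / 200) r) (hep r).ne'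
  · -- hX1
    have h := pe_d3 (pe_hasDerivAt_eta (1 / 200) r)
      (((pe_hasDerivAt_G1neg r).const_mul (1 / 200 : ℝ)).const_mul 2).fun_neg (hep r).ne'
    refine h.congr_deriv ?_
    change _ = (6 * (1 / 200 * G1 (-r)) ^ 2 -
      2 * (1 / 200 * beta (-r)) * eta (1 / 200) r) / eta (1 / 200) r ^ 4
    congr 1
    ring
  · -- cX2
    change Continuous fun r => (6 * (1 / 200 * G1 (-r)) ^ 2 -
      2 * (1 / 200 * beta (-r)) * eta (1 / 200) r) / eta (1 / 200) r ^ 4
    refine Continuous.div (by fun_prop) (by fun_prop) fun r => pow_ne_zero 4 (hep r).ne'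
  · -- hY
    refine (pe_d2 (pe_hasDerivAt_ff k0 r) (hfp r).ne').congr_deriv ?_
    change _ = 2 * (k0 * G1 r) / ff k0 r ^ 3
    congr 1
    ring
  · -- hY1
    have h := pe_d3 (pe_hasDerivAt_ff k0 r)
      (((hasDerivAt_G1 r).const_mul k0).const_mul 2) (hfp r).ne'
    refine h.congr_deriv ?_
    change _ = (6 * (k0 * G1 r) ^ 2 - 2 * (k0 * beta r) * ff k0 r) / ff k0 r ^ 4
    congr 1
    ring
  · -- cY2
    change Continuous fun r => (6 * (k0 * G1 r) ^ 2 -
      2 * (k0 * beta r) * ff k0 r) / ff k0 r ^ 4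
    refine Continuous.div (by fun_prop) (by fun_prop) fun r => pow_ne_zero 4 (hfp r).ne'
  · -- X_pos
    change 0 < 1 / eta (1 / 200) r ^ 2
    have := hep r
    positivity
  · -- Y_pos
    change 0 < 1 / ff k0 r ^ 2
    have := hfp r
    positivity
  · -- X1_nonpos
    change -(2 * (1 / 200 * G1 (-r))) / eta (1 / 200) r ^ 3 ≤ 0
    have h1 := hep r
    have h2 := G1_nonneg (-r)
    rw [neg_div]
    have : 0 ≤ 2 * (1 / 200 * G1 (-r)) / eta (1 / 200) r ^ 3 := by positivity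
    linarith
  · -- Y1_nonneg
    change 0 ≤ 2 * (k0 * G1 r) / ff k0 r ^ 3
    have h1 := hfp r
    have h2 := G1_nonneg r
    positivity
  · -- left_X1
    change -(2 * (1 / 200 * G1 (-r))) / eta (1 / 200) r ^ 3 = 0
    rw [G1_right (by linarith : (2 : ℝ) ≤ -r)]
    simp
  · -- left_X2
    change (6 * (1 / 200 * G1 (-r)) ^ 2 -
      2 * (1 / 200 * beta (-r)) * eta (1 / 200) r) / eta (1 / 200) r ^ 4 = 0
    rw [G1_right (by linarith : (2 : ℝ) ≤ -r), beta_right (by linarith : (2 : ℝ) ≤ -r)]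
    simp
  · -- left_Y1
    change 0 < 2 * (k0 * G1 r) / ff k0 r ^ 3
    have h1 := hfp r
    have h2 := G1_pos (by linarith : r < 2)
    positivity
  · -- left_conv
    change 2 * (1 / ff k0 r ^ 2) * ((6 * (k0 * G1 r) ^ 2 -
      2 * (k0 * beta r) * ff k0 r) / ff k0 r ^ 4) ≤ 3 * (2 * (k0 * G1 r) / ff k0 r ^ 3) ^ 2
    have h1 := hfp r
    have h2 := beta_nonneg r
    have e1 : 3 * (2 * (k0 * G1 r) / ff k0 r ^ 3) ^ 2 - 2 * (1 / ff k0 r ^ 2) *
      ((6 * (k0 * G1 r) ^ 2 - 2 * (k0 * beta r) * ff k0 r) / ff k0 r ^ 4) =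
      4 * (k0 * beta r) / ff k0 r ^ 5 := by
      have := h1.ne'
      field_simp
      ring
    have e2 : 0 ≤ 4 * (k0 * beta r) / ff k0 r ^ 5 := by positivity
    linarith
  · -- right_Y1
    change 2 * (k0 * G1 r) / ff k0 r ^ 3 = 0
    rw [G1_right hr]
    simp
  · -- right_Y2
    change (6 * (k0 * G1 r) ^ 2 - 2 * (k0 * beta r) * ff k0 r) / ff k0 r ^ 4 = 0
    rw [G1_right hr, beta_right hr]
    simp
  · -- right_X1
    change -(2 * (1 / 200 * G1 (-r))) / eta (1 / 200) r ^ 3 < 0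
    have h1 := hep r
    have h2 := G1_pos (by linarith : -r < 2)
    rw [neg_div]
    have : 0 < 2 * (1 / 200 * G1 (-r)) / eta (1 / 200) r ^ 3 := by positivity
    linarith
  · -- right_conv
    change 2 * (1 / eta (1 / 200) r ^ 2) * ((6 * (1 / 200 * G1 (-r)) ^ 2 -
      2 * (1 / 200 * beta (-r)) * eta (1 / 200) r) / eta (1 / 200) r ^ 4) ≤
      3 * (-(2 * (1 / 200 * G1 (-r))) / eta (1 / 200) r ^ 3) ^ 2
    have h1 := hep r
    have h2 := beta_nonneg (-r)
    have e1 : 3 * (-(2 * (1 / 200 * G1 (-r))) / eta (1 / 200) r ^ 3) ^ 2 -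
      2 * (1 / eta (1 / 200) r ^ 2) * ((6 * (1 / 200 * G1 (-r)) ^ 2 -
      2 * (1 / 200 * beta (-r)) * eta (1 / 200) r) / eta (1 / 200) r ^ 4) =
      4 * (1 / 200 * beta (-r)) / eta (1 / 200) r ^ 5 := by
      have := h1.ne'
      field_simp
      ring
    have e2 : 0 ≤ 4 * (1 / 200 * beta (-r)) / eta (1 / 200) r ^ 5 := by positivity
    linarith

end Pool.Agent.NCQ
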