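import Pool.Agent.NCQ.Lift

/-! # NCQ: exchange of the two pieces (`A` is replaced by `A⁻¹`) -/

open Set Filter Topology
open scoped ContDiff

namespace Pool.Agent.NCQ

variable {A : Matrix.SpecialLinearGroup (Fin 2) ℤ}

/-- Exchange of the copies. -/
def sw (i : Fin 2) : Fin 2 := if i = 0 then 1 else 0

theorem sw_sw (i : Fin 2) : sw (sw i) = i := by
  fin_cases i <;> rfl

/-- the entries of the inverse -/
theorem inv_entries (A : Matrix.SpecialLinearGroup (Fin 2) ℤ) :
    (A⁻¹).1 0 0 = A.1 1 1 ∧ (A⁻¹).1 0 1 = -A.1 0 1 ∧ (A⁻¹).1 1 0 = -A.1 1 0 ∧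
      (A⁻¹).1 1 1 = A.1 0 0 := by
  have h : (A⁻¹).1 = Matrix.adjugate A.1 := Matrix.SpecialLinearGroup.coe_inv A
  rw [h, Matrix.adjugate_fin_two]
  refine ⟨rfl, rfl, rfl, rfl⟩

theorem det_entries (A : Matrix.SpecialLinearGroup (Fin 2) ℤ) :
    (A.1 0 0 : ℝ) * A.1 1 1 - A.1 0 1 * A.1 1 0 = 1 := by
  have h := A.2
  rw [Matrix.det_fin_two] at h
  exact_mod_cast h

theorem flip_inv_flip (A : Matrix.SpecialLinearGroup (Fin 2) ℤ) (y : ℝ × ℝ × ℝ) :
    flip A⁻¹ (flip A y) = y := by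
  obtain ⟨h1, h2, h3, h4⟩ := inv_entries A
  have hd := det_entries A
  unfold flip
  rw [h1, h2, h3, h4]
  ext
  · simp
  · push_cast
    linear_combination y.2.1 * hd
  · push_cast
    linear_combination y.2.2 * hd

theorem flip_flip_inv (A : Matrix.SpecialLinearGroup (Fin 2) ℤ) (y : ℝ × ℝ × ℝ) :
    flip A (flip A⁻¹ y) = y := by
  have h := flip_inv_flip A⁻¹ y
  rwa [inv_inv] at h

/-- The metric on `MBar A` obtained from a metric on `MBar A⁻¹`: `form i = g.form (sw i)`. For `glue` at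
`(y, v)` use `g.glue` at `flip A y` (note `flip A⁻¹ (flip A y) = y` and `(flip A y).1 = 1/4 - y.1`) and
the chain rule. -/
noncomputable def GMMetric.swap (g : GMMetric A⁻¹) : GMMetric A where
  form i := g.form (sw i)
  smooth i v w := g.smooth (sw i) v w
  add_left i := g.add_left (sw i)
  smul_left i := g.smul_left (sw i)
  symm i := g.symm (sw i)
  pos i := g.pos (sw i)
  trans i := g.trans (sw i)
  glue := by
    intro y v h0 h1
    have hb := flip_bounds (A := A) h0 h1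
    have hg := g.glue (flip A y) (-v.1, A.1 0 0 * v.2.1 + A.1 0 1 * v.2.2,
      A.1 1 0 * v.2.1 + A.1 1 1 * v.2.2) hb.1 hb.2
    have e1 : fderiv ℝ (fun z => polar (flip A⁻¹ z)) (flip A y)
        (-v.1, A.1 0 0 * v.2.1 + A.1 0 1 * v.2.2, A.1 1 0 * v.2.1 + A.1 1 1 * v.2.2) =
        fderiv ℝ polar y v := by
      rw [fderiv_flip, flip_inv_flip]
      congr 1
      obtain ⟨h1, h2, h3, h4⟩ := inv_entries A
      have hd := det_entries A
      rw [h1, h2, h3, h4]
      ext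
      · simp
      · push_cast
        linear_combination v.2.1 * hd
      · push_cast
        linear_combination v.2.2 * hd
    rw [e1, flip_inv_flip, ← fderiv_flip] at hg
    exact hg.symm

theorem swap_glue (A : Matrix.SpecialLinearGroup (Fin 2) ℤ) {a b : Fin 2 × piece} (h : Glue A a b) :
    (Quot.mk (Glue A⁻¹) (sw a.1, a.2)) = Quot.mk (Glue A⁻¹) (sw b.1, b.2) := by
  cases h with
  | trans i x y m n k h => exact Quot.sound (Glue.trans (sw i) x y m n k h)
  | collar x y p h0 h1 hx hy =>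
    refine (Quot.sound (Glue.collar y x (flip A p) (flip_bounds h0 h1).1 (flip_bounds h0 h1).2
      hy ?_)).symm
    rw [flip_inv_flip, hx]

/-- The identification `MBar A → MBar A⁻¹`, `(i, x) ↦ (sw i, x)`. -/
def swapMap (A : Matrix.SpecialLinearGroup (Fin 2) ℤ) : MBar A → MBar A⁻¹ :=
  Quot.lift (fun x => Quot.mk _ (sw x.1, x.2)) (fun _ _ h => swap_glue A h)

/-- and its inverse -/
def swapInv (A : Matrix.SpecialLinearGroup (Fin 2) ℤ) : MBar A⁻¹ → MBar A :=
  Quot.lift (fun x => Quot.mk _ (sw x.1, x.2)) (fun a b h => by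
    have h1 := swap_glue A⁻¹ h
    rw [inv_inv] at h1
    exact h1)

theorem swapInv_swapMap (x : MBar A) : swapInv A (swapMap A x) = x := by
  induction x using Quot.ind with
  | mk x =>
    change Quot.mk (Glue A) (sw (sw x.1), x.2) = Quot.mk (Glue A) x
    rw [sw_sw]

theorem IsLift.swap {α : ℝ × ℝ → MBar A} {p : ℝ × ℝ} {i : Fin 2} {x : ℝ × ℝ → ℂ × ℝ}
    (h : IsLift α p i x) : IsLift (fun q => swapMap A (α q)) p (sw i) x := by
  unfold IsLift at *
  filter_upwards [h] with q hq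
  obtain ⟨h1, h2, h3⟩ := hq
  refine ⟨h1, h2, ?_⟩
  rw [h3]
  rfl

theorem IsLift.swapInv {α : ℝ × ℝ → MBar A} {p : ℝ × ℝ} {i : Fin 2} {x : ℝ × ℝ → ℂ × ℝ}
    (h : IsLift (fun q => swapMap A (α q)) p i x) : IsLift α p (sw i) x := by
  unfold IsLift at *
  filter_upwards [h] with q hq
  obtain ⟨h1, h2, h3⟩ := hq
  refine ⟨h1, h2, ?_⟩
  have h4 := congrArg (NCQ.swapInv A) h3
  rw [swapInv_swapMap] at h4
  rw [h4]
  rfl

theorem jacobiZero_swap_iff (α : ℝ × ℝ → MBar A) (t : ℝ) :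
    JacobiZero (fun q => swapMap A (α q)) t ↔ JacobiZero α t := by
  constructor
  · rintro ⟨i, x, h1, h2⟩
    exact ⟨sw i, x, h1.swapInv, h2⟩
  · rintro ⟨i, x, h1, h2⟩
    exact ⟨sw i, x, h1.swap, h2⟩

/-- Lifts correspond, so variations through geodesics and zeros of Jacobi fields correspond. -/
theorem GMMetric.NoConjugatePoints.swap {g : GMMetric A⁻¹} (h : g.NoConjugatePoints) :
    g.swap.NoConjugatePoints := by
  intro α hα t₁ t₂ ht h1 h2 t
  have hv : g.IsVariation (fun q => swapMap A (α q)) := by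
    intro p
    obtain ⟨i, x, hx, hg⟩ := hα p
    exact ⟨sw i, x, hx.swap, hg⟩
  rw [← jacobiZero_swap_iff] at h1 h2 ⊢
  exact h _ hv t₁ t₂ ht h1 h2 t

end Pool.Agent.NCQ
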