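import Pool.Agent.NCQ.Build
import Pool.Agent.NCQ.ProfEx
import Pool.Agent.NCQ.Swap

/-! # NCQ: the positive half -/

open Set Filter Topology
open scoped ContDiff

namespace Pool.Agent.NCQ

variable {A : Matrix.SpecialLinearGroup (Fin 2) ℤ}

/-- For small `k0` the profile is good: `|e| M ≤ |a b| (k0 / k1) M`, so
`10^5 (|e| M)² ≤ k0 k1` as soon as `10^5 (a b)² M² k0 ≤ k1³`. -/
theorem exists_k0 (A : Matrix.SpecialLinearGroup (Fin 2) ℤ) :
    ∃ k0 : ℝ, 0 < k0 ∧ k0 ≤ 1 / 1000 ∧ (pr A k0).Good := by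
  obtain ⟨M, hM1, hM⟩ := theta_bdd
  set c : ℝ := (A.1 0 0 : ℝ) * (A.1 0 1 : ℝ) with hc
  have hM0 : 0 < M := by linarith
  have hd : 0 < 1000 + 100000 * (c ^ 2 * M ^ 2) * 200 ^ 3 := by positivity
  refine ⟨1 / (1000 + 100000 * (c ^ 2 * M ^ 2) * 200 ^ 3), by positivity, ?_, ?_⟩
  · exact one_div_le_one_div_of_le (by norm_num) (by nlinarith [sq_nonneg (c * M)])
  · set k0 : ℝ := 1 / (1000 + 100000 * (c ^ 2 * M ^ 2) * 200 ^ 3) with hk0
    have hk : 0 < k0 := by positivity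
    have hk' : k0 ≤ 1 / 1000 :=
      one_div_le_one_div_of_le (by norm_num) (by nlinarith [sq_nonneg (c * M)])
    have h1 : k0 * (1000 + 100000 * (c ^ 2 * M ^ 2) * 200 ^ 3) = 1 := by
      rw [hk0]; field_simp
    refine prof_good (M := M) hk hk' (fun r => hM r) ?_
    have h2 : (|ee A k0| * M) ^ 2 = c ^ 2 * M ^ 2 * k0 ^ 2 * 200 ^ 2 := by
      rw [mul_pow, sq_abs]
      simp only [ee, k1, ← hc]
      ring
    rw [h2]
    have h3 : 100000 * (c ^ 2 * M ^ 2) * 200 ^ 3 * k0 ≤ 1 := by nlinarith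
    have h4 : 0 ≤ (1 - 100000 * (c ^ 2 * M ^ 2) * 200 ^ 3 * k0) * k0 :=
      mul_nonneg (by linarith) hk.le
    nlinarith

/-- **Positive half.** -/
theorem exists_noConjugatePoints (A : Matrix.SpecialLinearGroup (Fin 2) ℤ)
    (h : A.1 0 0 = 0 ∨ A.1 1 1 = 0) : ∃ g : GMMetric A, g.NoConjugatePoints := by
  rcases h with h | h
  · have h' : (A⁻¹).1 1 1 = 0 := by
      simp [Matrix.SpecialLinearGroup.SL2_inv_expl, h]
    obtain ⟨k0, hk, hk', hP⟩ := exists_k0 A⁻¹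
    exact ⟨_, (gm_noConjugatePoints h' hk hk' hP).swap⟩
  · obtain ⟨k0, hk, hk', hP⟩ := exists_k0 A
    exact ⟨_, gm_noConjugatePoints h hk hk' hP⟩

end Pool.Agent.NCQ
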