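import Pool.Agent.NCQ.ColLift

/-! # NCQ: uniqueness of collar lifts, comparison with flat lifts -/

open Set Filter Topology
open scoped ContDiff

namespace Pool.Agent.NCQ

variable {A : Matrix.SpecialLinearGroup (Fin 2) ℤ} {k0 : ℝ} {α : ℝ × ℝ → MBar A}

/-- **Uniqueness.** Two collar lifts differ by a constant torus vector near `p`: `IsLift.unique`,
`polar_inj` at every `q` near `p` (the integer `j` is constant near `p` by continuity), `col0` is
linear in the torus directions. -/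
theorem IsCol.unique (hk : 0 < k0) (hk' : k0 ≤ 1 / 1000) {p : ℝ × ℝ}
    {κ κ' : ℝ × ℝ → ℝ × ℝ × ℝ} (h : IsCol A k0 α p κ) (h' : IsCol A k0 α p κ') :
    ∃ a b : ℝ, ∀ᶠ q in 𝓝 p, κ' q = κ q + (0, a, b) := by
  obtain ⟨m, n, k, hmn⟩ := h.lift.unique h'.lift
  have hF := kF_pos hk
  have hH := kH_pos
  obtain ⟨-, -, hl⟩ := cc_bounds hk hk'
  have key : ∀ᶠ q in 𝓝 p, ∃ j : ℤ, col0 A k0 (κ' q) =
      ((col0 A k0 (κ q)).1, (col0 A k0 (κ q)).2.1 + j, (col0 A k0 (κ q)).2.2 + k) := by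
    filter_upwards [h.eventually, h'.eventually, hmn] with q h1 h2 h3
    obtain ⟨a0, a1⟩ := col0_bounds (A := A) hk hk' h1.lower h1.upper
    obtain ⟨b0, b1⟩ := col0_bounds (A := A) hk hk' h2.lower h2.upper
    exact (polar_inj a0 a1 b0 b1 h3).2.2
  obtain ⟨j, hj⟩ := key.self_of_nhds
  have hc : ContinuousAt κ p := h.smooth.self_of_nhds.continuousAt
  have hc' : ContinuousAt κ' p := h'.smooth.self_of_nhds.continuousAt
  have hcol : Continuous (col0 A k0) := contDiff_col0.continuous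
  have hD : ContinuousAt (fun q => (col0 A k0 (κ' q)).2.1 - (col0 A k0 (κ q)).2.1) p := by
    refine ContinuousAt.sub ?_ ?_
    · exact (continuous_fst.comp continuous_snd).continuousAt.comp
        (hcol.continuousAt.comp hc')
    · exact (continuous_fst.comp continuous_snd).continuousAt.comp
        (hcol.continuousAt.comp hc)
  have hDp : (col0 A k0 (κ' p)).2.1 - (col0 A k0 (κ p)).2.1 = j := by
    rw [hj]
    simp
  have hnear : ∀ᶠ q in 𝓝 p,
      |((col0 A k0 (κ' q)).2.1 - (col0 A k0 (κ q)).2.1) - j| < 1 := by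
    have := hD.sub (continuousAt_const (y := (j : ℝ)))
    have h1 := this.abs
    have h2 : |((col0 A k0 (κ' p)).2.1 - (col0 A k0 (κ p)).2.1) - (j : ℝ)| < 1 := by
      rw [hDp]; simp
    exact h1.eventually (gt_mem_nhds h2)
  refine ⟨kH * k - ee A k0 * (kF k0 * j), kF k0 * j, ?_⟩
  filter_upwards [key, hnear] with q hq hq'
  obtain ⟨j', hj'⟩ := hq
  have hjj : j' = j := by
    have h1 : (col0 A k0 (κ' q)).2.1 - (col0 A k0 (κ q)).2.1 = j' := by
      rw [hj']
      simp
    rw [h1] at hq'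
    have h2 : |(j' - j : ℤ)| < 1 := by
      exact_mod_cast hq'
    have h3 := Int.abs_lt_one_iff.1 h2
    omega
  subst hjj
  simp only [col0, Prod.mk.injEq] at hj'
  obtain ⟨e1, e2, e3⟩ := hj'
  have e1' : (κ' q).1 = (κ q).1 := by
    rw [div_left_inj' hl.ne'] at e1
    linarith
  have e2' : (κ' q).2.2 = (κ q).2.2 + kF k0 * j' := by
    field_simp at e2
    linarith
  have e3' : (κ' q).2.1 = (κ q).2.1 + (kH * k - ee A k0 * (kF k0 * j')) := by
    rw [e2'] at e3
    field_simp at e3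
    linarith
  ext
  · simp [e1']
  · simp [e3']
  · simp [e2']

theorem norm_polar_fst {y : ℝ × ℝ × ℝ} (h : 0 < y.1) : ‖(polar y).1‖ = y.1 := by
  simp only [polar, norm_mul, Complex.norm_real]
  rw [show (2 * Real.pi * y.2.1 * Complex.I : ℂ) = ((2 * Real.pi * y.2.1 : ℝ) : ℂ) * Complex.I by
    push_cast; ring, Complex.norm_exp_ofReal_mul_I, mul_one, Real.norm_eq_abs, abs_of_pos h]

/-- A collar lift at a time in the flat zone of copy `i` has `r ≤ -3` or `3 ≤ r`. Copy `0`: `x` and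
`polar ∘ col0 ∘ κ` are lifts to copy `0`, they differ by a lattice vector at `p`, so
`rs 0 < ‖x.1 - ℓ‖ = (cc0 - r) / lam`. Copy `1`: same with `IsCol.lift1`, `(flip A y).1 = 1/4 - y.1`. -/
theorem IsCol.sep (hk : 0 < k0) (hk' : k0 ≤ 1 / 1000) {p : ℝ × ℝ} {κ : ℝ × ℝ → ℝ × ℝ × ℝ}
    (h : IsCol A k0 α p κ) {i : Fin 2} {x : ℝ × ℝ → ℂ × ℝ} (hx : IsLift α p i x)
    (hf : x p ∈ FlatZone k0 i) : (κ p).1 ≤ -3 ∨ 3 ≤ (κ p).1 := by
  obtain ⟨-, -, hl⟩ := cc_bounds hk hk'
  obtain ⟨a0, a1⟩ := col0_bounds (A := A) hk hk' h.lower h.upper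
  obtain ⟨b0, b1⟩ := flip_bounds (A := A) a0 a1
  fin_cases i
  · left
    obtain ⟨m, n, k, hmn⟩ := h.lift.unique hx
    have h1 := hmn.self_of_nhds
    have h2 := hf m n
    rw [h1] at h2
    simp only [Prod.fst_add, lat, add_sub_cancel_right] at h2
    rw [norm_polar_fst a0] at h2
    simp only [rs, Fin.zero_eta, if_true, col0] at h2
    rw [div_lt_div_iff_of_pos_right hl] at h2
    linarith
  · right
    obtain ⟨m, n, k, hmn⟩ := (h.lift1 hk hk').unique hx
    have h1 := hmn.self_of_nhds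
    have h2 := hf m n
    rw [h1] at h2
    simp only [Prod.fst_add, lat, add_sub_cancel_right] at h2
    rw [norm_polar_fst b0] at h2
    simp only [rs, Fin.mk_one, one_ne_zero, if_false, flip, col0] at h2
    rw [div_lt_iff₀ hl, sub_mul, div_mul_cancel₀ _ hl.ne'] at h2
    simp only [lam] at h2
    linarith

/-- the squared length of the Jacobi field in the collar (`NN_eq`, chain rule, `pull0`,
`pathOf_N`) -/
theorem IsCol.NN_eq (hd : A.1 1 1 = 0) (hk : 0 < k0) (hk' : k0 ≤ 1 / 1000) {t : ℝ}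
    {κ : ℝ × ℝ → ℝ × ℝ × ℝ} (h : IsCol A k0 α (0, t) κ) :
    (gm A hd k0 hk hk').NN α t = ((pathOf (pr A k0) κ).orb t).N (pr A k0) t := by
  rw [(gm A hd k0 hk hk').NN_eq h.lift, pathOf_N, ← pull0 hk hk' h.lower h.upper]
  have hκ : HasDerivAt (fun s => κ (s, t)) (dS κ (0, t)) 0 := by
    have h1 : DifferentiableAt ℝ κ (0, t) :=
      h.smooth.self_of_nhds.differentiableAt (by norm_cast)
    have h2 : DifferentiableAt ℝ (fun s : ℝ => (s, t)) 0 := by fun_prop
    exact (DifferentiableAt.comp (0 : ℝ) (g := κ) h1 h2).hasDerivAt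
  have hd' : dS (fun q => polar (col0 A k0 (κ q))) (0, t) =
      fderiv ℝ (fun z => polar (col0 A k0 z)) (κ (0, t)) (dS κ (0, t)) := by
    have h3 : HasFDerivAt (fun z => polar (col0 A k0 z))
        (fderiv ℝ (fun z => polar (col0 A k0 z)) (κ (0, t))) (κ (0, t)) :=
      ((contDiff_polar.comp contDiff_col0).differentiable (by norm_cast)).differentiableAt.hasFDerivAt
    exact (h3.comp_hasDerivAt (0 : ℝ) hκ).deriv
  rw [hd']
  rfl

end Pool.Agent.NCQ
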