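import Pool.Agent.NCQ.BuildDef
import Pool.Agent.NCQ.ColUn

/-! # NCQ: the collar data of a variation through geodesics -/

open Set Filter Topology
open scoped ContDiff

namespace Pool.Agent.NCQ

variable {A : Matrix.SpecialLinearGroup (Fin 2) ℤ} {k0 : ℝ}

variable {α : ℝ × ℝ → MBar A}

/-- the path agrees with the collar data of any collar lift (`IsCol.unique`, `pathOf_eqAt`) -/
theorem thePath_eqAt (hk : 0 < k0) (hk' : k0 ≤ 1 / 1000) {t : ℝ} {κ : ℝ × ℝ → ℝ × ℝ × ℝ}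
    (h : IsCol A k0 α (0, t) κ) : (thePath A k0 α).EqAt (pathOf (pr A k0) κ) t := by
  have h0 : IsCol A k0 α (0, t) (theCol A k0 α t) := by
    unfold theCol
    rw [dif_pos ⟨κ, h⟩]
    exact Exists.choose_spec (⟨κ, h⟩ : ∃ κ, IsCol A k0 α (0, t) κ)
  obtain ⟨a, b, hab⟩ := IsCol.unique hk hk' h h0
  exact pathOf_eqAt (P := pr A k0) hab

/-- `pathOf_solves`, `thePath_eqAt` near `t`, `Path.Solves.congr` -/
theorem thePath_solves (hk : 0 < k0) (hk' : k0 ≤ 1 / 1000) (hP : (pr A k0).Good) {t : ℝ}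
    (h : t ∈ CSet A k0 α) : (thePath A k0 α).Solves (pr A k0) t := by
  obtain ⟨κ, hκ⟩ := h
  have h1 : (pathOf (pr A k0) κ).Solves (pr A k0) t :=
    (pathOf_solves hP hκ.smooth hκ.geo).self_of_nhds
  refine h1.congr ?_
  have hc : ContinuousAt (fun s : ℝ => ((0 : ℝ), s)) t := by fun_prop
  filter_upwards [hc.eventually hκ.eventually] with s hs
  exact thePath_eqAt hk hk' hs

theorem thePath_N (hd : A.1 1 1 = 0) (hk : 0 < k0) (hk' : k0 ≤ 1 / 1000) {t : ℝ}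
    (h : t ∈ CSet A k0 α) :
    (gm A hd k0 hk hk').NN α t = ((thePath A k0 α).orb t).N (pr A k0) t := by
  obtain ⟨κ, hκ⟩ := h
  rw [hκ.NN_eq hd hk hk', (thePath_eqAt hk hk' hκ).N_eq]

theorem thePath_sep (hk : 0 < k0) (hk' : k0 ≤ 1 / 1000) {t : ℝ} (h : t ∈ FSet A k0 α)
    (h' : t ∈ CSet A k0 α) : (thePath A k0 α).r t ≤ -3 ∨ 3 ≤ (thePath A k0 α).r t := by
  obtain ⟨κ, hκ⟩ := h'
  obtain ⟨i, x, hx, _, hf⟩ := h
  have h1 := (thePath_eqAt hk hk' hκ).1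
  have h2 : (pathOf (pr A k0) κ).r t = (κ (0, t)).1 := rfl
  rw [h1, h2]
  exact hκ.sep hk hk' hx hf

end Pool.Agent.NCQ
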