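import Pool.Agent.NCQ.TrackConst

/-! # NCQ: zeros of positive length -/

open Set Filter Topology

namespace Pool.Agent.NCQ

namespace Track

variable {P : Profile} (T : Track P)

private theorem quad_zero {a b c t t' : ℝ}
    (h : ∀ᶠ s in 𝓝 t', a + b * (s - t) + c * (s - t) ^ 2 = 0) : a = 0 ∧ b = 0 ∧ c = 0 := by
  obtain ⟨δ, hδ, h⟩ := Metric.eventually_nhds_iff.1 h
  have h0 := h (y := t') (by simpa using hδ)
  have h1 := h (y := t' + δ / 2) (by
    rw [Real.dist_eq]
    have : t' + δ / 2 - t' = δ / 2 := by ring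
    rw [this, abs_of_pos (by linarith)]
    linarith)
  have h2 := h (y := t' - δ / 2) (by
    rw [Real.dist_eq]
    have : t' - δ / 2 - t' = -(δ / 2) := by ring
    rw [this, abs_neg, abs_of_pos (by linarith)]
    linarith)
  have hc : c * δ ^ 2 = 0 := by linear_combination 2 * h1 + 2 * h2 - 4 * h0
  have hc : c = 0 := by
    rcases mul_eq_zero.1 hc with hc | hc
    · exact hc
    · exact absurd hc (pow_ne_zero 2 hδ.ne')
  subst hc
  have hb : b * δ = 0 := by linear_combination 2 * h1 - 2 * h0
  have hb : b = 0 := by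
    rcases mul_eq_zero.1 hb with hb | hb
    · exact hb
    · exact absurd hb hδ.ne'
  subst hb
  refine ⟨?_, rfl, rfl⟩
  linear_combination h0

/-- The set of times near which `N` vanishes is closed (and open). Let `t` be a limit of such times.
If `t ∈ F`, the quadratic polynomial which is equal to `N` near `t` vanishes on a nonempty open set,
so it is zero. If `t ∈ C`, take an interval `[t - ε, t + ε] ⊆ C`; it contains a time `s` near which
`N` vanishes, so the orbit `T.p.orb s` has zero initial data at `s`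
(`Orb.not_nontriv_of_eventually`), and `Orb.zero_of_zero` shows that it vanishes on the interval. -/
theorem closed_zero (hP : P.Good) : IsClosed {t | ∀ᶠ s in 𝓝 t, T.N s = 0} := by
  refine isClosed_of_closure_subset fun t ht => ?_
  change ∀ᶠ s in 𝓝 t, T.N s = 0
  have hcov : t ∈ T.F ∪ T.C := by rw [T.cover]; exact mem_univ t
  rcases hcov with htF | htC
  · obtain ⟨a, b, c, -, hev⟩ := T.flat t htF
    obtain ⟨U, hU, hUo, htU⟩ := eventually_nhds_iff.1 hev
    obtain ⟨t', ht'U, ht'⟩ := mem_closure_iff.1 ht U hUo htU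
    change ∀ᶠ s in 𝓝 t', T.N s = 0 at ht'
    have h1 : ∀ᶠ s in 𝓝 t', a + b * (s - t) + c * (s - t) ^ 2 = 0 := by
      filter_upwards [ht', hUo.mem_nhds ht'U] with s hs hsU
      rw [← hU s hsU]
      exact hs
    obtain ⟨rfl, rfl, rfl⟩ := quad_zero h1
    filter_upwards [hev] with s hs
    rw [hs]
    ring
  · obtain ⟨ε, hε, hball⟩ := Metric.isOpen_iff.1 T.C_open t htC
    have hIcc : ∀ s ∈ Icc (t - ε / 2) (t + ε / 2), s ∈ T.C := by
      intro s hs
      refine hball ?_
      rw [Metric.mem_ball, Real.dist_eq, abs_lt]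
      constructor <;> linarith [hs.1, hs.2]
    obtain ⟨t', ht'U, ht'⟩ := mem_closure_iff.1 ht (Ioo (t - ε / 2) (t + ε / 2)) isOpen_Ioo
      ⟨by linarith, by linarith⟩
    change ∀ᶠ s in 𝓝 t', T.N s = 0 at ht'
    have ht'I : t' ∈ Icc (t - ε / 2) (t + ε / 2) := Ioo_subset_Icc_self ht'U
    have hcon := Path.const_on (fun s hs => T.solves s (hIcc s hs)) ht'I
    have hz : ∀ᶠ s in 𝓝 t', (T.p.orb t').Zero s := by
      filter_upwards [ht', isOpen_Ioo.mem_nhds ht'U] with s hs hsI
      have hsI' := Ioo_subset_Icc_self hsI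
      rw [T.N_col s (hIcc s hsI'), (hcon s hsI').1] at hs
      exact (Orb.N_eq_zero_iff hP s).1 hs
    have hnt := Orb.not_nontriv_of_eventually hP (hcon t' ht'I).2 hz
    have hall := Orb.zero_of_zero hP (fun s hs => (hcon s hs).2) ht'I hz.self_of_nhds hnt
    have hmem : Icc (t - ε / 2) (t + ε / 2) ∈ 𝓝 t :=
      Icc_mem_nhds (by linarith) (by linarith)
    filter_upwards [hmem] with s hs
    rw [T.N_col s (hIcc s hs), (hcon s hs).1]
    exact (Orb.N_eq_zero_iff hP s).2 (hall s hs)

end Track

end Pool.Agent.NCQ
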