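import Pool.Agent.NCQ.TrackProp
import Pool.Agent.NCQ.TrackZero

/-! # NCQ: main theorem of the abstract part -/

open Set Filter Topology

namespace Pool.Agent.NCQ

namespace Track

variable {P : Profile} (T : Track P)

/-- **Main theorem of the abstract part.** -/
theorem main (hP : P.Good) {t₁ t₂ : ℝ} (hne : t₁ ≠ t₂) (h1 : T.N t₁ = 0) (h2 : T.N t₂ = 0) :
    ∀ t, T.N t = 0 := by
  wlog h : t₁ < t₂ generalizing t₁ t₂
  · exact this hne.symm h2 h1 (lt_of_le_of_ne (not_lt.1 h) hne.symm)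
  have hopen : IsOpen {t | ∀ᶠ s in 𝓝 t, T.N s = 0} := isOpen_setOf_eventually_nhds
  rcases isClopen_iff.1 ⟨T.closed_zero hP, hopen⟩ with he | he
  · exfalso
    have h3 : T.Start t₁ := by
      refine Or.inl ⟨h1, fun hcon => ?_⟩
      have : t₁ ∈ {t | ∀ᶠ s in 𝓝 t, T.N s = 0} := hcon
      rw [he] at this
      exact this
    exact (T.propagate hP h h3).1 h2
  · intro t
    have : t ∈ {t | ∀ᶠ s in 𝓝 t, T.N s = 0} := by rw [he]; trivial
    exact this.self_of_nhds

end Track

end Pool.Agent.NCQ
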