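import Pool.Agent.NCQ.BuildA
import Pool.Agent.NCQ.BuildB
import Pool.Agent.NCQ.TrackMain

/-! # NCQ: the track of a variation through geodesics -/

open Set Filter Topology
open scoped ContDiff

namespace Pool.Agent.NCQ

variable {A : Matrix.SpecialLinearGroup (Fin 2) ℤ} {k0 : ℝ}

variable {α : ℝ × ℝ → MBar A}

/-- the track of a variation through geodesics -/
noncomputable def theTrack (hd : A.1 1 1 = 0) (hk : 0 < k0) (hk' : k0 ≤ 1 / 1000)
    (hP : (pr A k0).Good) (hα : (gm A hd k0 hk hk').IsVariation α) : Track (pr A k0) where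
  N := (gm A hd k0 hk hk').NN α
  F := FSet A k0 α
  C := CSet A k0 α
  p := thePath A k0 α
  F_open := isOpen_FSet
  C_open := isOpen_CSet
  cover := cover_sets hd hk hk' hα
  N_nonneg := (gm A hd k0 hk hk').NN_nonneg
  solves _ h := thePath_solves hk hk' hP h
  N_col _ h := thePath_N hd hk hk' h
  sep _ h h' := thePath_sep hk hk' h h'
  flat _ h := flat_N hd hk hk' h

/-- the metric has no conjugate points -/
theorem gm_noConjugatePoints (hd : A.1 1 1 = 0) (hk : 0 < k0) (hk' : k0 ≤ 1 / 1000)
    (hP : (pr A k0).Good) : (gm A hd k0 hk hk').NoConjugatePoints := by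
  intro α hα t₁ t₂ hne h1 h2 t
  rw [(gm A hd k0 hk hk').jacobiZero_iff hα] at h1 h2 ⊢
  exact (theTrack hd hk hk' hP hα).main hP hne h1 h2 t

end Pool.Agent.NCQ
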