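import Pool.Agent.NCQ.ColLift

/-! # NCQ: existence of collar lifts -/

open Set Filter Topology
open scoped ContDiff

namespace Pool.Agent.NCQ

variable {A : Matrix.SpecialLinearGroup (Fin 2) ℤ} {k0 : ℝ} {α : ℝ × ℝ → MBar A}

/-- A point of `ℂ × ℝ` with first coordinate at distance `< 1/4` from a lattice point (not equal to it)
has polar coordinates around it. -/
theorem exists_polar_point {x : ℂ × ℝ} {m n : ℤ} (h0 : x.1 ≠ m + n * Complex.I)
    (h1 : ‖x.1 - (m + n * Complex.I)‖ < 1 / 4) :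
    ∃ y : ℝ × ℝ × ℝ, 0 < y.1 ∧ y.1 < 1 / 4 ∧ x = polar y + lat m n 0 := by
  set z : ℂ := x.1 - (m + n * Complex.I) with hz
  have hz0 : z ≠ 0 := sub_ne_zero.2 h0
  refine ⟨(‖z‖, Complex.arg z / (2 * Real.pi), x.2), norm_pos_iff.2 hz0, h1, ?_⟩
  have hpi : (Real.pi : ℂ) ≠ 0 := by exact_mod_cast Real.pi_ne_zero
  have e1 : (2 * Real.pi * ((Complex.arg z / (2 * Real.pi) : ℝ) : ℂ) * Complex.I)
      = (Complex.arg z : ℂ) * Complex.I := by
    push_cast
    field_simp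
  have e2 : (‖z‖ : ℂ) * Complex.exp ((Complex.arg z : ℂ) * Complex.I) = z :=
    Complex.norm_mul_exp_arg_mul_I z
  refine Prod.ext ?_ ?_
  · simp only [polar, lat, Prod.fst_add]
    rw [e1, e2, hz]
    ring
  · simp [polar, lat]

/-- the inverse of `flip A` -/
noncomputable def flipinv (A : Matrix.SpecialLinearGroup (Fin 2) ℤ) (y : ℝ × ℝ × ℝ) : ℝ × ℝ × ℝ :=
  (1 / 4 - y.1, A.1 1 1 * y.2.1 - A.1 0 1 * y.2.2, -A.1 1 0 * y.2.1 + A.1 0 0 * y.2.2)

theorem det_real (A : Matrix.SpecialLinearGroup (Fin 2) ℤ) :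
    (A.1 0 0 : ℝ) * A.1 1 1 - (A.1 0 1 : ℝ) * A.1 1 0 = 1 := by
  have h := A.2
  rw [Matrix.det_fin_two] at h
  exact_mod_cast h

theorem flip_flipinv (y : ℝ × ℝ × ℝ) : Pool.Agent.NCQ.flip A (flipinv A y) = y := by
  have h := det_real A
  refine Prod.ext ?_ (Prod.ext ?_ ?_)
  · simp only [Pool.Agent.NCQ.flip, flipinv]
    ring
  · simp only [Pool.Agent.NCQ.flip, flipinv]
    linear_combination y.2.1 * h
  · simp only [Pool.Agent.NCQ.flip, flipinv]
    linear_combination y.2.2 * h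

theorem contDiff_flipinv : ContDiff ℝ ∞ (flipinv A) := by
  unfold flipinv
  fun_prop

theorem contDiff_col0inv : ContDiff ℝ ∞ (col0inv A k0) := by
  unfold col0inv
  fun_prop

/-- restriction of an eventual statement to vertical lines -/
theorem eventually_line {P : ℝ × ℝ → Prop} {q : ℝ × ℝ} (h : ∀ᶠ r in 𝓝 q, P r) :
    ∀ᶠ t in 𝓝 q.2, P (q.1, t) := by
  have hc : ContinuousAt (fun t : ℝ => (q.1, t)) q.2 := by fun_prop
  exact hc.eventually (by simpa using h)

/-- **Existence.** A lift through geodesics whose value at `p` is in a disc of radius `1/4` around a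
lattice point gives a collar lift. Copy `0`: `exists_polar` for `x - lat m n 0`,
`κ = col0inv ∘ (polar coordinates)`, `geo_of_lift0`. Copy `1`: polar coordinates `κ'` of
`x - lat m n 0`; `flip A` is invertible with inverse `(ρ, φ, s) ↦ (1/4 - ρ, A⁻¹ (φ, s))`; let
`κ = col0inv (flip A ⁻¹ κ')`; `IsLift.unflip`, `geo_of_lift1`. -/
theorem exists_col (hd : A.1 1 1 = 0) (hk : 0 < k0) (hk' : k0 ≤ 1 / 1000) {p : ℝ × ℝ} {i : Fin 2}
    {x : ℝ × ℝ → ℂ × ℝ} (hx : IsLift α p i x)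
    (hgeo : ∀ᶠ q in 𝓝 p, GeodesicAt (gform A k0 i) (fun t => x (q.1, t)) q.2) {m n : ℤ}
    (h1 : ‖(x p).1 - (m + n * Complex.I)‖ < 1 / 4) : ∃ κ, IsCol A k0 α p κ := by
  obtain ⟨-, -, hlam⟩ := cc_bounds hk hk'
  have hl4 : lam k0 = 4 * (cc0 k0 + cc1) := rfl
  obtain ⟨hmem, -⟩ := hx.self_of_nhds.2
  obtain ⟨y₀, hy0, hy1, hxy⟩ := exists_polar_point (x := x p) (hmem m n) h1
  set x' : ℝ × ℝ → ℂ × ℝ := fun q => x q + lat (-m) (-n) 0 with hx'
  have hx'l : IsLift α p i x' := hx.add_lat _ _ _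
  have hx'p : x' p = polar y₀ := by
    simp only [hx', hxy, add_assoc, lat_add, add_neg_cancel, zero_add]
    simp [lat]
  obtain ⟨κ', hκ0, hκ⟩ := exists_polar (hx'l.mono fun q hq => hq.1) hx'p hy0
  have hxx : ∀ᶠ q in 𝓝 p, x q = polar (κ' q) + lat m n 0 := by
    filter_upwards [hκ] with q hq
    rw [← hq.2]
    simp only [hx', add_assoc, lat_add, neg_add_cancel, zero_add]
    simp [lat]
  have hxs : ∀ᶠ q in 𝓝 p, ContDiffAt ℝ ∞ x q := hx.mono fun q hq => hq.1
  -- general construction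
  have key : ∀ (F : ℝ × ℝ × ℝ → ℝ × ℝ × ℝ), ContDiff ℝ ∞ F →
      0 < (F y₀).1 → (F y₀).1 < 1 / 4 →
      (∀ q, ContDiffAt ℝ ∞ κ' q → ContDiffAt ℝ ∞ (fun q => F (κ' q)) q) →
      (∀ q, ContDiffAt ℝ ∞ κ' q → ContDiffAt ℝ ∞ (fun q => col0inv A k0 (F (κ' q))) q) ∧
      -cc1 < (col0inv A k0 (F (κ' p))).1 ∧ (col0inv A k0 (F (κ' p))).1 < cc0 k0 := by
    intro F hF hF0 hF1 _
    refine ⟨fun q hq => ?_, ?_, ?_⟩
    · exact (contDiff_col0inv.comp hF).contDiffAt.comp q hq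
    · simp only [col0inv, hκ0]
      nlinarith
    · simp only [col0inv, hκ0]
      nlinarith
  have line2 : ∀ {κ : ℝ × ℝ → ℝ × ℝ × ℝ} {q : ℝ × ℝ}, ContDiffAt ℝ ∞ κ q →
      ContDiffAt ℝ 2 (fun t => κ (q.1, t)) q.2 := by
    intro κ q h
    have h2 : ContDiffAt ℝ 2 κ (q.1, q.2) := h.of_le (WithTop.coe_le_coe.2 le_top)
    exact h2.comp q.2 (by fun_prop)
  have linec : ∀ {q : ℝ × ℝ}, ContDiffAt ℝ ∞ x q → ContinuousAt (fun t => x (q.1, t)) q.2 := by
    intro q h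
    have h2 : ContinuousAt x (q.1, q.2) := h.continuousAt
    exact h2.comp (f := fun t : ℝ => (q.1, t)) (by fun_prop)
  have hi : i = 0 ∨ i = 1 := by fin_cases i <;> simp
  rcases hi with rfl | rfl
  · obtain ⟨ks, kl, ku⟩ := key id contDiff_id hy0 hy1 (fun q hq => hq)
    set κ : ℝ × ℝ → ℝ × ℝ × ℝ := fun q => col0inv A k0 (κ' q) with hκdef
    have hsm : ∀ᶠ q in 𝓝 p, ContDiffAt ℝ ∞ κ q := hκ.mono fun q hq => ks q hq.1
    have hcol : ∀ q, col0 A k0 (κ q) = κ' q := fun q => col0_col0inv hk hk' _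
    have hcont : ContinuousAt (fun q => (κ q).1) p :=
      continuous_fst.continuousAt.comp hsm.self_of_nhds.continuousAt
    refine ⟨κ, hsm, kl, ku, ?_, ?_⟩
    · refine hx'l.congr ?_
      filter_upwards [hκ] with q hq
      rw [hcol, hq.2]
    · filter_upwards [hsm, hxx.eventually_nhds, hgeo, hxs,
        hcont.eventually_const_lt kl, hcont.eventually_lt_const ku] with q q1 q2 q3 q4 q5 q6
      refine geo_of_lift0 (m := m) (n := n) (k := 0) hd hk hk' (line2 q1) q5 q6 ?_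
      refine GeodesicAt.congr (Eventually.of_forall fun _ _ _ => rfl) (linec q4) ?_ q3
      filter_upwards [eventually_line q2] with t ht
      rw [ht, hcol]
  · have hf0 : 0 < (flipinv A y₀).1 := by simp only [flipinv]; linarith
    have hf1 : (flipinv A y₀).1 < 1 / 4 := by simp only [flipinv]; linarith
    have hfc : ∀ q, ContDiffAt ℝ ∞ κ' q → ContDiffAt ℝ ∞ (fun q => flipinv A (κ' q)) q :=
      fun q hq => contDiff_flipinv.contDiffAt.comp q hq
    obtain ⟨ks, kl, ku⟩ := key (flipinv A) contDiff_flipinv hf0 hf1 hfc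
    set κ : ℝ × ℝ → ℝ × ℝ × ℝ := fun q => col0inv A k0 (flipinv A (κ' q)) with hκdef
    have hsm : ∀ᶠ q in 𝓝 p, ContDiffAt ℝ ∞ κ q := hκ.mono fun q hq => ks q hq.1
    have hcol : ∀ q, col0 A k0 (κ q) = flipinv A (κ' q) := fun q => col0_col0inv hk hk' _
    have hcont : ContinuousAt (fun q => (κ q).1) p :=
      continuous_fst.continuousAt.comp hsm.self_of_nhds.continuousAt
    refine ⟨κ, hsm, kl, ku, ?_, ?_⟩
    · simp only [hcol]
      refine IsLift.unflip (hκ.mono fun q hq => hfc q hq.1) ?_ ?_ ?_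
      · rw [hκ0]; exact hf0
      · rw [hκ0]; exact hf1
      · refine hx'l.congr ?_
        filter_upwards [hκ] with q hq
        rw [flip_flipinv, hq.2]
    · filter_upwards [hsm, hxx.eventually_nhds, hgeo, hxs,
        hcont.eventually_const_lt kl, hcont.eventually_lt_const ku] with q q1 q2 q3 q4 q5 q6
      refine geo_of_lift1 (m := m) (n := n) (k := 0) hd hk hk' (line2 q1) q5 q6 ?_
      refine GeodesicAt.congr (Eventually.of_forall fun _ _ _ => rfl) (linec q4) ?_ q3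
      filter_upwards [eventually_line q2] with t ht
      rw [ht, hcol, flip_flipinv]

end Pool.Agent.NCQ
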