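import Pool.Agent.NCQ.MDefs

/-! # NCQ: the geodesic equation is covariant -/

open Set Filter Topology
open scoped ContDiff

namespace Pool.Agent.NCQ

variable {E₁ E₂ : Type*} [NormedAddCommGroup E₁] [NormedSpace ℝ E₁] [NormedAddCommGroup E₂]
  [NormedSpace ℝ E₂]

/-- The geodesic equation at `t` only depends on the metric near `c t` and on the curve near `t`. -/
theorem GeodesicAt.congr {g g' : E₁ → E₁ → E₁ → ℝ} {c c' : ℝ → E₁} {t : ℝ}
    (hg : ∀ᶠ x in 𝓝 (c t), ∀ v w, g' x v w = g x v w) (hcc : ContinuousAt c t)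
    (hc : ∀ᶠ s in 𝓝 t, c' s = c s) (h : GeodesicAt g c t) : GeodesicAt g' c' t := by
  intro w
  have hc0 : c' =ᶠ[𝓝 t] c := hc
  have e0 : c' t = c t := hc.self_of_nhds
  have e1 : deriv c' =ᶠ[𝓝 t] deriv c := hc0.deriv
  have e2 : deriv c' t = deriv c t := e1.self_of_nhds
  have h1 : (fun t' => g' (c' t') (deriv c' t') w) =ᶠ[𝓝 t]
      fun t' => g (c t') (deriv c t') w := by
    filter_upwards [hc, e1, hcc.eventually hg] with s hs1 hs2 hs3
    rw [hs1, hs2, hs3]
  have h2 : (fun a : ℝ => g' (c' t + a • w) (deriv c' t) (deriv c' t)) =ᶠ[𝓝 0]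
      fun a : ℝ => g (c t + a • w) (deriv c t) (deriv c t) := by
    have hcont : ContinuousAt (fun a : ℝ => c t + a • w) 0 := by fun_prop
    have h3 : ∀ᶠ x in 𝓝 ((fun a : ℝ => c t + a • w) 0), ∀ v w, g' x v w = g x v w := by
      simpa using hg
    filter_upwards [hcont.eventually h3] with a ha
    rw [e0, e2, ha]
  rw [h1.deriv_eq, h2.deriv_eq]
  exact h w

private theorem diff_deriv' {E : Type*} [NormedAddCommGroup E] [NormedSpace ℝ E] {c : ℝ → E} {t : ℝ}
    (hc : ContDiffAt ℝ 2 c t) : DifferentiableAt ℝ (deriv c) t := by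
  have h1 : ContDiffAt ℝ 1 (fderiv ℝ c) t := hc.fderiv_right (by norm_num)
  have h2 : deriv c = fun s => fderiv ℝ c s 1 := by
    funext s
    exact (fderiv_apply_one_eq_deriv).symm
  rw [h2]
  exact (h1.differentiableAt (by norm_num)).clm_apply (differentiableAt_const _)

/-- **Covariance.** If `Φ ∘ c` satisfies the geodesic equation of the symmetric bilinear form field
`G` at `t`, then `c` satisfies the geodesic equation of the pulled back form field at `t`.

Proof. Let `C = Φ ∘ c`, `W = DΦ(c) w`. Then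
`d/dt [G(C)(C', W)] = (d/dt G(C)(C', ·)) (W) + G(C)(C', D²Φ(c', w))` and
`1/2 ∂_w [G(Φ x)(DΦ(x) c', DΦ(x) c')] = 1/2 (∂_W G)(C)(C', C') + G(C)(C', D²Φ(w, c'))` (symmetry of
`G`); the second derivative of `Φ` is symmetric. Subtract: the difference of the two sides of the
equation for `c` and `w` is the difference of the two sides of the equation for `C` and the constant
vector `W t`. -/
theorem GeodesicAt.of_comp (G : E₂ → E₂ →L[ℝ] E₂ →L[ℝ] ℝ) (hs : ∀ x v w, G x v w = G x w v)
    {Φ : E₁ → E₂} {c : ℝ → E₁} {t : ℝ} (hG : ContDiffAt ℝ 1 G (Φ (c t)))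
    (hΦ : ContDiffAt ℝ 2 Φ (c t)) (hc : ContDiffAt ℝ 2 c t)
    (h : GeodesicAt (fun x v w => G x v w) (fun s => Φ (c s)) t) :
    GeodesicAt (fun x v w => G (Φ x) (fderiv ℝ Φ x v) (fderiv ℝ Φ x w)) c t := by
  intro w
  -- differentiability
  have hc1 : DifferentiableAt ℝ c t := hc.differentiableAt (by norm_num)
  have hcd : DifferentiableAt ℝ (deriv c) t := diff_deriv' hc
  have hΦ1 : DifferentiableAt ℝ Φ (c t) := hΦ.differentiableAt (by norm_num)
  have hdΦ : DifferentiableAt ℝ (fderiv ℝ Φ) (c t) :=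
    (hΦ.fderiv_right (m := 1) (by norm_num)).differentiableAt (by norm_num)
  have hG1 : DifferentiableAt ℝ G (Φ (c t)) := hG.differentiableAt (by norm_num)
  have hC : ContDiffAt ℝ 2 (fun s => Φ (c s)) t := hΦ.comp t hc
  have hC1 : DifferentiableAt ℝ (fun s => Φ (c s)) t := hC.differentiableAt (by norm_num)
  have hCd : DifferentiableAt ℝ (deriv (fun s => Φ (c s))) t := diff_deriv' hC
  -- chain rule near `t`
  have hch : deriv (fun s => Φ (c s)) =ᶠ[𝓝 t] fun s => fderiv ℝ Φ (c s) (deriv c s) := by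
    have h1 : ∀ᶠ x in 𝓝 (c t), DifferentiableAt ℝ Φ x := by
      have := hΦ.eventually (by norm_num)
      exact this.mono fun x hx => hx.differentiableAt (by norm_num)
    have h2 : ∀ᶠ s in 𝓝 t, DifferentiableAt ℝ c s := by
      have := hc.eventually (by norm_num)
      exact this.mono fun x hx => hx.differentiableAt (by norm_num)
    filter_upwards [hc1.continuousAt.eventually h1, h2] with s hs1 hs2
    exact (hs1.hasFDerivAt.comp_hasDerivAt s hs2.hasDerivAt).deriv
  have hch0 : deriv (fun s => Φ (c s)) t = fderiv ℝ Φ (c t) (deriv c t) := hch.self_of_nhds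
  -- notation
  set y0 := Φ (c t) with hy0
  set D := fderiv ℝ Φ (c t) with hD
  set D2 := fderiv ℝ (fderiv ℝ Φ) (c t) with hD2
  set v0 := deriv c t with hv0
  -- left side
  have hA : DifferentiableAt ℝ (fun s => G (Φ (c s)) (deriv (fun s => Φ (c s)) s)) t :=
    (hG1.comp t hC1).clm_apply hCd
  have hW : HasDerivAt (fun s => fderiv ℝ Φ (c s) w) (D2 v0 w) t := by
    have h1 : HasDerivAt (fun s => fderiv ℝ Φ (c s)) (D2 v0) t :=
      hdΦ.hasFDerivAt.comp_hasDerivAt t hc1.hasDerivAt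
    simpa using h1.clm_apply (hasDerivAt_const t w)
  have hL : HasDerivAt (fun s => G (Φ (c s)) (deriv (fun s => Φ (c s)) s) (fderiv ℝ Φ (c s) w))
      (deriv (fun s => G (Φ (c s)) (deriv (fun s => Φ (c s)) s)) t (D w)
        + G y0 (D v0) (D2 v0 w)) t := by
    have := hA.hasDerivAt.clm_apply hW
    rw [hch0] at this
    exact this
  have hL1 : deriv (fun t' => G (Φ (c t')) (fderiv ℝ Φ (c t') (deriv c t'))
      (fderiv ℝ Φ (c t') w)) t =
      deriv (fun s => G (Φ (c s)) (deriv (fun s => Φ (c s)) s)) t (D w)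
        + G y0 (D v0) (D2 v0 w) := by
    rw [← hL.deriv]
    apply Filter.EventuallyEq.deriv_eq
    filter_upwards [hch] with s hs1
    rw [hs1]
  -- the geodesic equation for the vector `D w`
  have hgeo := h (D w)
  have hgL : deriv (fun t' => G (Φ (c t')) (deriv (fun s => Φ (c s)) t') (D w)) t =
      deriv (fun s => G (Φ (c s)) (deriv (fun s => Φ (c s)) s)) t (D w) := by
    have := (hA.hasDerivAt.clm_apply (hasDerivAt_const t (D w))).deriv
    simpa using this
  have hgR : deriv (fun a : ℝ => G (Φ (c t) + a • D w) (deriv (fun s => Φ (c s)) t)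
      (deriv (fun s => Φ (c s)) t)) 0 = fderiv ℝ G y0 (D w) (D v0) (D v0) := by
    have h1 : HasDerivAt (fun a : ℝ => y0 + a • D w) (D w) 0 := by
      have := ((hasDerivAt_id (0 : ℝ)).smul_const (D w)).const_add y0
      simpa using this
    have h2 : HasDerivAt (fun a : ℝ => G (y0 + a • D w)) (fderiv ℝ G y0 (D w)) 0 := by
      have h3 : HasFDerivAt G (fderiv ℝ G y0) (y0 + (0 : ℝ) • D w) := by
        rw [zero_smul, add_zero]
        exact hG1.hasFDerivAt
      exact HasFDerivAt.comp_hasDerivAt (E := E₂ →L[ℝ] E₂ →L[ℝ] ℝ) (0 : ℝ) h3 h1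
    have h4 := (h2.clm_apply (hasDerivAt_const (0 : ℝ) (D v0))).clm_apply
      (hasDerivAt_const (0 : ℝ) (D v0))
    rw [hch0]
    simpa using h4.deriv
  -- right side
  have hR : deriv (fun a : ℝ => G (Φ (c t + a • w)) (fderiv ℝ Φ (c t + a • w) v0)
      (fderiv ℝ Φ (c t + a • w) v0)) 0 =
      fderiv ℝ G y0 (D w) (D v0) (D v0) + 2 * G y0 (D v0) (D2 w v0) := by
    have h1 : HasDerivAt (fun a : ℝ => c t + a • w) w 0 := by
      have := ((hasDerivAt_id (0 : ℝ)).smul_const w).const_add (c t)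
      simpa using this
    have e0 : c t + (0 : ℝ) • w = c t := by rw [zero_smul, add_zero]
    have h2 : HasDerivAt (fun a : ℝ => Φ (c t + a • w)) (D w) 0 := by
      have h3 : HasFDerivAt Φ D (c t + (0 : ℝ) • w) := by
        rw [e0]
        exact hΦ1.hasFDerivAt
      exact h3.comp_hasDerivAt (0 : ℝ) h1
    have h3 : HasDerivAt (fun a : ℝ => G (Φ (c t + a • w))) (fderiv ℝ G y0 (D w)) 0 := by
      have h4 : HasFDerivAt G (fderiv ℝ G y0) (Φ (c t + (0 : ℝ) • w)) := by
        rw [e0]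
        exact hG1.hasFDerivAt
      exact HasFDerivAt.comp_hasDerivAt (E := E₂ →L[ℝ] E₂ →L[ℝ] ℝ) (0 : ℝ) h4 h2
    have h5 : HasDerivAt (fun a : ℝ => fderiv ℝ Φ (c t + a • w)) (D2 w) 0 := by
      have h6 : HasFDerivAt (fderiv ℝ Φ) D2 (c t + (0 : ℝ) • w) := by
        rw [e0]
        exact hdΦ.hasFDerivAt
      exact h6.comp_hasDerivAt (0 : ℝ) h1
    have h7 : HasDerivAt (fun a : ℝ => fderiv ℝ Φ (c t + a • w) v0) (D2 w v0) 0 := by
      simpa using h5.clm_apply (hasDerivAt_const (0 : ℝ) v0)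
    have h8 := ((h3.clm_apply h7).clm_apply h7).deriv
    rw [h8]
    simp only [e0, add_apply]
    rw [← hD, ← hy0, hs y0 (D2 w v0) (D v0)]
    ring
  have hsymm : D2 v0 w = D2 w v0 := by
    have h1 : IsSymmSndFDerivAt ℝ Φ (c t) := hΦ.isSymmSndFDerivAt (by simp)
    exact h1 v0 w
  show deriv (fun t' => G (Φ (c t')) (fderiv ℝ Φ (c t') (deriv c t'))
      (fderiv ℝ Φ (c t') w)) t = 1 / 2 * deriv (fun a : ℝ => G (Φ (c t + a • w))
      (fderiv ℝ Φ (c t + a • w) v0) (fderiv ℝ Φ (c t + a • w) v0)) 0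
  have hgeo' : deriv (fun t' => G (Φ (c t')) (deriv (fun s => Φ (c s)) t') (D w)) t
      = 1 / 2 * deriv (fun a : ℝ => G (Φ (c t) + a • D w) (deriv (fun s => Φ (c s)) t)
      (deriv (fun s => Φ (c s)) t)) 0 := hgeo
  rw [hL1, hR, ← hgL, hgeo', hgR, hsymm]
  ring

end Pool.Agent.NCQ
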