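import Pool.Agent.NCQ.NForm
import Pool.Agent.NCQ.Cov

/-! # NCQ: Jacobi fields in the flat part -/

open Set Filter Topology
open scoped ContDiff

namespace Pool.Agent.NCQ

variable {A : Matrix.SpecialLinearGroup (Fin 2) ℤ} {α : ℝ × ℝ → MBar A}

/-- The metric `g` of the copy `i` is the flat product metric near `z`. -/
def GMMetric.FlatNear (g : GMMetric A) (i : Fin 2) (z : ℂ × ℝ) : Prop :=
  ∃ a b : ℝ, 0 < a ∧ 0 < b ∧ ∀ᶠ x in 𝓝 z, ∀ v w : ℂ × ℝ,
    g.form i x v w = a * ((starRingEnd ℂ) v.1 * w.1).re + b * (v.2 * w.2)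

/-- geodesics of a constant metric are straight: the right-hand side of the geodesic equation is
`0`, so `B (c'' t, w) = 0` for all `w` -/
theorem deriv2_eq_zero_of_flat {a b : ℝ} (ha : 0 < a) (hb : 0 < b) {c : ℝ → ℂ × ℝ} {t : ℝ}
    (hc : ContDiffAt ℝ 2 c t)
    (h : GeodesicAt (fun _ v w : ℂ × ℝ => a * ((starRingEnd ℂ) v.1 * w.1).re + b * (v.2 * w.2))
      c t) : deriv (deriv c) t = 0 := by
  have hd : DifferentiableAt ℝ (deriv c) t := by
    have h1 : ContDiffAt ℝ 1 (fderiv ℝ c) t := hc.fderiv_right (m := 1) (by norm_num)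
    have h2 : DifferentiableAt ℝ (fderiv ℝ c) t := h1.differentiableAt (by norm_num)
    have h3 : deriv c = fun s => fderiv ℝ c s 1 := by
      funext s; exact (fderiv_apply_one_eq_deriv (f := c) (x := s)).symm
    rw [h3]
    exact h2.clm_apply (differentiableAt_const _)
  set u := deriv (deriv c) t with hu
  have hu' : HasDerivAt (deriv c) u t := hd.hasDerivAt
  let L : (ℂ × ℝ) →ₗ[ℝ] ℝ :=
    { toFun := fun v => a * ((starRingEnd ℂ) v.1 * u.1).re + b * (v.2 * u.2)
      map_add' := by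
        intro v w
        simp [add_mul]
        ring
      map_smul' := by
        intro r v
        simp
        ring }
  have hL := (LinearMap.toContinuousLinearMap L).hasFDerivAt.comp_hasDerivAt t hu'
  have h1 := h u
  have h2 : deriv (fun t' => a * ((starRingEnd ℂ) (deriv c t').1 * u.1).re
      + b * ((deriv c t').2 * u.2)) t = a * ((starRingEnd ℂ) u.1 * u.1).re + b * (u.2 * u.2) :=
    hL.deriv
  have h3 : a * ((starRingEnd ℂ) u.1 * u.1).re + b * (u.2 * u.2) = 0 := by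
    rw [← h2]
    rw [show deriv (fun t' => a * ((starRingEnd ℂ) (deriv c t').1 * u.1).re
      + b * ((deriv c t').2 * u.2)) t = _ from h1]
    simp
  have h4 : ((starRingEnd ℂ) u.1 * u.1).re = Complex.normSq u.1 := by
    rw [mul_comm, Complex.mul_conj]; simp
  rw [h4] at h3
  have h5 : 0 ≤ Complex.normSq u.1 := Complex.normSq_nonneg _
  have h6 : 0 ≤ u.2 * u.2 := mul_self_nonneg _
  have h7 : 0 ≤ a * Complex.normSq u.1 := mul_nonneg ha.le h5
  have h8 : 0 ≤ b * (u.2 * u.2) := mul_nonneg hb.le h6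
  have h9 : a * Complex.normSq u.1 = 0 := by linarith
  have h10 : b * (u.2 * u.2) = 0 := by linarith
  have h11 : u.1 = 0 := by
    rcases mul_eq_zero.mp h9 with h | h
    · exact absurd h ha.ne'
    · exact Complex.normSq_eq_zero.mp h
  have h12 : u.2 = 0 := by
    rcases mul_eq_zero.mp h10 with h | h
    · exact absurd h hb.ne'
    · exact mul_self_eq_zero.mp h
  exact Prod.ext h11 h12

/-- If `x (s, t)` is smooth near `(0, t₀)` and its second derivative in `t` vanishes near `(0, t₀)`,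
then `∂x/∂s (0, t)` is an affine function of `t` near `t₀`. -/
theorem dS_affine {x : ℝ × ℝ → ℂ × ℝ} {t₀ : ℝ} (hx : ∀ᶠ q in 𝓝 ((0 : ℝ), t₀), ContDiffAt ℝ ∞ x q)
    (h : ∀ᶠ q in 𝓝 ((0 : ℝ), t₀), deriv (deriv (fun t => x (q.1, t))) q.2 = 0) :
    ∃ J K : ℂ × ℝ, ∀ᶠ t in 𝓝 t₀, dS x (0, t) = J + (t - t₀) • K := by
  have hboth := hx.and h
  rw [nhds_prod_eq, Filter.eventually_prod_iff] at hboth
  obtain ⟨pa, hpa, pb, hpb, hab⟩ := hboth
  obtain ⟨ε, hε, hball⟩ := Metric.eventually_nhds_iff_ball.mp hpa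
  obtain ⟨δ, hδ, hball'⟩ := Metric.eventually_nhds_iff_ball.mp hpb
  -- pointwise facts
  have hsm : ∀ s ∈ Metric.ball (0 : ℝ) ε, ∀ t ∈ Metric.ball t₀ δ, ContDiffAt ℝ ∞ x (s, t) :=
    fun s hs t ht => (hab (hball s hs) (hball' t ht)).1
  have hz : ∀ s ∈ Metric.ball (0 : ℝ) ε, ∀ t ∈ Metric.ball t₀ δ,
      deriv (deriv (fun t => x (s, t))) t = 0 :=
    fun s hs t ht => (hab (hball s hs) (hball' t ht)).2
  have ht₀ : t₀ ∈ Metric.ball t₀ δ := Metric.mem_ball_self hδ
  have h0 : (0 : ℝ) ∈ Metric.ball (0 : ℝ) ε := Metric.mem_ball_self hε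
  have hpre : IsPreconnected (Metric.ball t₀ δ) := (convex_ball t₀ δ).isPreconnected
  -- the slices are smooth
  have hslice : ∀ s ∈ Metric.ball (0 : ℝ) ε, ∀ t ∈ Metric.ball t₀ δ,
      ContDiffAt ℝ ∞ (fun t => x (s, t)) t := by
    intro s hs t ht
    exact (hsm s hs t ht).comp t (contDiffAt_const.prodMk contDiffAt_id)
  have hder : ∀ s ∈ Metric.ball (0 : ℝ) ε, ∀ t ∈ Metric.ball t₀ δ,
      deriv (fun t => x (s, t)) t = fderiv ℝ x (s, t) (0, 1) := by
    intro s hs t ht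
    have h1 : HasFDerivAt x (fderiv ℝ x (s, t)) (s, t) :=
      ((hsm s hs t ht).differentiableAt (by simp)).hasFDerivAt
    have h2 : HasDerivAt (fun t : ℝ => (s, t)) ((0 : ℝ), (1 : ℝ)) t :=
      (hasDerivAt_const t s).prodMk (hasDerivAt_id t)
    exact (h1.comp_hasDerivAt t h2).deriv
  have hdd : ∀ s ∈ Metric.ball (0 : ℝ) ε, ∀ t ∈ Metric.ball t₀ δ,
      DifferentiableAt ℝ (deriv (fun t => x (s, t))) t := by
    intro s hs t ht
    have h1 : ContDiffAt ℝ 1 (fderiv ℝ (fun t => x (s, t))) t :=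
      (hslice s hs t ht).fderiv_right (m := 1) (by
        norm_cast)
    have h2 : DifferentiableAt ℝ (fderiv ℝ (fun t => x (s, t))) t :=
      h1.differentiableAt (by norm_num)
    have h3 : deriv (fun t => x (s, t)) = fun r => fderiv ℝ (fun t => x (s, t)) r 1 := by
      funext r; exact (fderiv_apply_one_eq_deriv (f := fun t => x (s, t)) (x := r)).symm
    rw [h3]
    exact h2.clm_apply (differentiableAt_const _)
  -- the formula
  have hform : ∀ s ∈ Metric.ball (0 : ℝ) ε, ∀ t ∈ Metric.ball t₀ δ,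
      x (s, t) = x (s, t₀) + (t - t₀) • fderiv ℝ x (s, t₀) (0, 1) := by
    intro s hs
    have hc1 : ∀ t ∈ Metric.ball t₀ δ,
        deriv (fun t => x (s, t)) t = deriv (fun t => x (s, t)) t₀ := by
      intro t ht
      exact Metric.isOpen_ball.is_const_of_deriv_eq_zero hpre
        (fun r hr => (hdd s hs r hr).differentiableWithinAt) (fun r hr => hz s hs r hr) ht ht₀
    intro t ht
    set v := deriv (fun t => x (s, t)) t₀ with hv
    have hc2 : ∀ r ∈ Metric.ball t₀ δ,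
        HasDerivAt (fun t => x (s, t) - (t - t₀) • v) 0 r := by
      intro r hr
      have h1 : HasDerivAt (fun t => x (s, t)) v r := by
        rw [← hc1 r hr]
        exact ((hslice s hs r hr).differentiableAt (by simp)).hasDerivAt
      have h2 : HasDerivAt (fun t : ℝ => (t - t₀) • v) ((1 : ℝ) • v) r :=
        ((hasDerivAt_id r).sub_const t₀).smul_const v
      have h3 := h1.sub h2
      rw [one_smul, sub_self] at h3
      exact h3
    have hc3 := Metric.isOpen_ball.is_const_of_deriv_eq_zero hpre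
        (f := fun t => x (s, t) - (t - t₀) • v)
        (fun r hr => (hc2 r hr).differentiableAt.differentiableWithinAt)
        (fun r hr => (hc2 r hr).deriv) ht ht₀
    simp only [sub_self, zero_smul, sub_zero] at hc3
    rw [← hder s hs t₀ ht₀, ← hv, ← hc3]
    simp
  refine ⟨deriv (fun s => x (s, t₀)) 0, deriv (fun s => fderiv ℝ x (s, t₀) (0, 1)) 0, ?_⟩
  have hnb : ∀ᶠ t in 𝓝 t₀, t ∈ Metric.ball t₀ δ := Metric.ball_mem_nhds t₀ hδ
  filter_upwards [hnb] with t ht
  have hev : (fun s => x (s, t)) =ᶠ[𝓝 0]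
      fun s => x (s, t₀) + (t - t₀) • fderiv ℝ x (s, t₀) (0, 1) := by
    filter_upwards [Metric.ball_mem_nhds (0 : ℝ) hε] with s hs
    exact hform s hs t ht
  have hd1 : DifferentiableAt ℝ (fun s => x (s, t₀)) 0 := by
    have h1 : DifferentiableAt ℝ x (0, t₀) := (hsm 0 h0 t₀ ht₀).differentiableAt (by simp)
    exact DifferentiableAt.comp (0 : ℝ) (f := fun s : ℝ => (s, t₀)) h1
      (differentiableAt_id.prodMk (differentiableAt_const _))
  have hd2 : DifferentiableAt ℝ (fun s => fderiv ℝ x (s, t₀) (0, 1)) 0 := by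
    have h1 : ContDiffAt ℝ 1 (fderiv ℝ x) (0, t₀) :=
      (hsm 0 h0 t₀ ht₀).fderiv_right (m := 1) (by norm_cast)
    have h2 : DifferentiableAt ℝ (fderiv ℝ x) (0, t₀) := h1.differentiableAt (by norm_num)
    have h3 : DifferentiableAt ℝ (fun s : ℝ => fderiv ℝ x (s, t₀)) 0 :=
      DifferentiableAt.comp (0 : ℝ) (f := fun s : ℝ => (s, t₀)) h2
      (differentiableAt_id.prodMk (differentiableAt_const _))
    exact h3.clm_apply (differentiableAt_const _)
  show deriv (fun s => x (s, t)) 0 = _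
  rw [hev.deriv_eq]
  exact (hd1.hasDerivAt.add (hd2.hasDerivAt.const_smul (t - t₀))).deriv

/-- In a flat part the squared length of the Jacobi field is a quadratic polynomial. -/
theorem GMMetric.flat_quadratic (g : GMMetric A) {t₀ : ℝ} {i : Fin 2} {x : ℝ × ℝ → ℂ × ℝ}
    (hx : IsLift α (0, t₀) i x)
    (hgeo : ∀ᶠ q in 𝓝 ((0 : ℝ), t₀), GeodesicAt (g.form i) (fun t => x (q.1, t)) q.2)
    (hflat : g.FlatNear i (x (0, t₀))) :
    ∃ a b c : ℝ, 0 ≤ c ∧ ∀ᶠ s in 𝓝 t₀, g.NN α s = a + b * (s - t₀) + c * (s - t₀) ^ 2 := by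
  obtain ⟨a, b, ha, hb, hfl⟩ := hflat
  have hsm : ∀ᶠ q in 𝓝 ((0 : ℝ), t₀), ContDiffAt ℝ ∞ x q := hx.mono (fun q hq => hq.1)
  have hcont : ContinuousAt x (0, t₀) := hsm.self_of_nhds.continuousAt
  have hfl2 : ∀ᶠ q in 𝓝 ((0 : ℝ), t₀), ∀ᶠ y in 𝓝 (x q), ∀ v w : ℂ × ℝ,
      g.form i y v w = a * ((starRingEnd ℂ) v.1 * w.1).re + b * (v.2 * w.2) :=
    hcont.eventually hfl.eventually_nhds
  have hdd : ∀ᶠ q in 𝓝 ((0 : ℝ), t₀), deriv (deriv (fun t => x (q.1, t))) q.2 = 0 := by
    filter_upwards [hsm, hfl2, hgeo] with q h1 h2 h3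
    have hsl : ContDiffAt ℝ ∞ (fun t => x (q.1, t)) q.2 := by
      have h1' : ContDiffAt ℝ ∞ x (q.1, q.2) := h1
      exact h1'.comp q.2 (contDiffAt_const.prodMk contDiffAt_id)
    refine deriv2_eq_zero_of_flat ha hb (hsl.of_le (by norm_cast)) ?_
    refine GeodesicAt.congr (g := g.form i) (c := fun t => x (q.1, t)) ?_ hsl.continuousAt
      (Eventually.of_forall fun _ => rfl) h3
    filter_upwards [h2] with y hy v w
    exact (hy v w).symm
  obtain ⟨J, K, hJK⟩ := dS_affine hsm hdd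
  refine ⟨a * Complex.normSq J.1 + b * (J.2 * J.2),
    2 * (a * ((starRingEnd ℂ) J.1 * K.1).re + b * (J.2 * K.2)),
    a * Complex.normSq K.1 + b * (K.2 * K.2), ?_, ?_⟩
  · have h5 : 0 ≤ Complex.normSq K.1 := Complex.normSq_nonneg _
    have h6 : 0 ≤ K.2 * K.2 := mul_self_nonneg _
    have h7 : 0 ≤ a * Complex.normSq K.1 := mul_nonneg ha.le h5
    have h8 : 0 ≤ b * (K.2 * K.2) := mul_nonneg hb.le h6
    linarith
  · have hpull : Tendsto (fun s : ℝ => ((0 : ℝ), s)) (𝓝 t₀) (𝓝 (0, t₀)) :=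
      (continuous_const.prodMk continuous_id).tendsto t₀
    filter_upwards [hJK, hpull.eventually hx.eventually, hpull.eventually hfl2] with s h1 h2 h3
    rw [g.NN_eq h2, h3.self_of_nhds, h1]
    simp only [Complex.normSq_apply, Prod.fst_add, Prod.snd_add, Prod.smul_fst, Prod.smul_snd,
      Complex.mul_re, Complex.conj_re, Complex.conj_im, Complex.add_re, Complex.add_im,
      Complex.smul_re, Complex.smul_im, smul_eq_mul]
    ring

end Pool.Agent.NCQ
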