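import Pool.Agent.NCQ.BuildDef
import Pool.Agent.NCQ.ColEx
import Pool.Agent.NCQ.FlatQ

/-! # NCQ: the sets of flat and collar times are open and cover; the flat part -/

open Set Filter Topology
open scoped ContDiff

namespace Pool.Agent.NCQ

variable {A : Matrix.SpecialLinearGroup (Fin 2) ℤ} {k0 : ℝ}

variable {α : ℝ × ℝ → MBar A}

theorem isOpen_FSet : IsOpen (FSet A k0 α) := by
  rw [isOpen_iff_mem_nhds]
  rintro t ⟨i, x, hx, hgeo, hfl⟩
  have hcont : ContinuousAt (fun t' : ℝ => ((0 : ℝ), t')) t := by fun_prop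
  have h1 : ∀ᶠ q in 𝓝 ((0 : ℝ), t), IsLift α q i x := hx.eventually
  have h2 : ∀ᶠ q in 𝓝 ((0 : ℝ), t), ∀ᶠ q' in 𝓝 q,
      GeodesicAt (gform A k0 i) (fun t => x (q'.1, t)) q'.2 := hgeo.eventually_nhds
  have hxc : ContinuousAt x ((0 : ℝ), t) := by
    have h3 := hx.self_of_nhds
    exact h3.1.continuousAt
  have h3 : ∀ᶠ q in 𝓝 ((0 : ℝ), t), x q ∈ FlatZone k0 i :=
    hxc.eventually ((isOpen_flatZone k0 i).mem_nhds hfl)
  have h4 := hcont.eventually (h1.and (h2.and h3))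
  filter_upwards [h4] with t' ht'
  exact ⟨i, x, ht'.1, ht'.2.1, ht'.2.2⟩

theorem isOpen_CSet : IsOpen (CSet A k0 α) := by
  rw [isOpen_iff_mem_nhds]
  rintro t ⟨κ, hκ⟩
  have hcont : ContinuousAt (fun t' : ℝ => ((0 : ℝ), t')) t := by fun_prop
  have h4 := hcont.eventually hκ.eventually
  filter_upwards [h4] with t' ht'
  exact ⟨κ, ht'⟩

/-- every time is in the flat part or in the collar: take a lift `x` through geodesics; if
`(x (0, t)).1` has distance `< 1/4` from a lattice point use `exists_col`, otherwise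
`x (0, t) ∈ FlatZone` because `rs < 1/4` -/
theorem cover_sets (hd : A.1 1 1 = 0) (hk : 0 < k0) (hk' : k0 ≤ 1 / 1000)
    (hα : (gm A hd k0 hk hk').IsVariation α) : FSet A k0 α ∪ CSet A k0 α = univ := by
  rw [eq_univ_iff_forall]
  intro t
  obtain ⟨i, x, hx, hgeo⟩ := hα ((0 : ℝ), t)
  by_cases h : ∃ m n : ℤ, ‖(x ((0 : ℝ), t)).1 - (m + n * Complex.I)‖ < 1 / 4
  · obtain ⟨m, n, hmn⟩ := h
    right
    exact exists_col hd hk hk' hx hgeo hmn
  · left
    refine ⟨i, x, hx, hgeo, ?_⟩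
    intro m n
    push Not at h
    exact lt_of_lt_of_le (rs_bounds hk hk' i).2 (h m n)

/-- `FlatZone` is open and the metric is constant there (`gform_flat`); `flat_quadratic` -/
theorem flat_N (hd : A.1 1 1 = 0) (hk : 0 < k0) (hk' : k0 ≤ 1 / 1000) {t : ℝ}
    (h : t ∈ FSet A k0 α) : ∃ a b c : ℝ, 0 ≤ c ∧
      ∀ᶠ s in 𝓝 t, (gm A hd k0 hk hk').NN α s = a + b * (s - t) + c * (s - t) ^ 2 := by
  obtain ⟨i, x, hx, hgeo, hfl⟩ := h
  refine (gm A hd k0 hk hk').flat_quadratic hx hgeo ?_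
  refine ⟨lam k0 ^ 2, LL k0 i ^ 2, ?_, ?_, ?_⟩
  · have := (cc_bounds hk hk').2.2
    positivity
  · have h1 := kH_pos
    have h2 := kF_pos hk
    unfold LL
    split_ifs <;> positivity
  · filter_upwards [(isOpen_flatZone k0 i).mem_nhds hfl] with y hy v w
    exact gform_flat hk hk' i hy v w

end Pool.Agent.NCQ
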