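import Pool.Agent.NCQ.ColLift

/-! # NCQ: the sets of flat and collar times, the collar data (definitions) -/

open Set Filter Topology
open scoped ContDiff

namespace Pool.Agent.NCQ

variable {A : Matrix.SpecialLinearGroup (Fin 2) ℤ} {k0 : ℝ}

/-- times in the flat part -/
def FSet (A : Matrix.SpecialLinearGroup (Fin 2) ℤ) (k0 : ℝ) (α : ℝ × ℝ → MBar A) : Set ℝ :=
  {t | ∃ (i : Fin 2) (x : ℝ × ℝ → ℂ × ℝ), IsLift α (0, t) i x ∧
    (∀ᶠ q in 𝓝 ((0 : ℝ), t), GeodesicAt (gform A k0 i) (fun t => x (q.1, t)) q.2) ∧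
    x (0, t) ∈ FlatZone k0 i}

/-- times in the collar -/
def CSet (A : Matrix.SpecialLinearGroup (Fin 2) ℤ) (k0 : ℝ) (α : ℝ × ℝ → MBar A) : Set ℝ :=
  {t | ∃ κ, IsCol A k0 α (0, t) κ}

open Classical in
/-- a collar lift at the time `t` -/
noncomputable def theCol (A : Matrix.SpecialLinearGroup (Fin 2) ℤ) (k0 : ℝ) (α : ℝ × ℝ → MBar A)
    (t : ℝ) : ℝ × ℝ → ℝ × ℝ × ℝ :=
  if h : ∃ κ, IsCol A k0 α (0, t) κ then h.choose else 0

/-- the collar data of the variation -/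
noncomputable def thePath (A : Matrix.SpecialLinearGroup (Fin 2) ℤ) (k0 : ℝ)
    (α : ℝ × ℝ → MBar A) : Path where
  r t := (pathOf (pr A k0) (theCol A k0 α t)).r t
  rd t := (pathOf (pr A k0) (theCol A k0 α t)).rd t
  dr t := (pathOf (pr A k0) (theCol A k0 α t)).dr t
  pi t := (pathOf (pr A k0) (theCol A k0 α t)).pi t
  dh t := (pathOf (pr A k0) (theCol A k0 α t)).dh t
  dy t := (pathOf (pr A k0) (theCol A k0 α t)).dy t
  u t := (pathOf (pr A k0) (theCol A k0 α t)).u t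
  v t := (pathOf (pr A k0) (theCol A k0 α t)).v t
  du t := (pathOf (pr A k0) (theCol A k0 α t)).du t
  dv t := (pathOf (pr A k0) (theCol A k0 α t)).dv t

end Pool.Agent.NCQ
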