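import Pool.Agent.NCQ.Prof

/-! # NCQ: the certificates (derivatives of the functions `W`) -/

open Set Filter Topology

namespace Pool.Agent.NCQ

namespace Profile

variable {P : Profile}

theorem Good.hasDerivAt_m (hP : P.Good) (u v r : ℝ) :
    HasDerivAt (fun r => P.m r u v) (-(P.T1 r) * u) r := by
  have h := ((hP.hT r).mul_const u).const_sub v
  refine h.congr_deriv ?_
  ring

theorem Good.hasDerivAt_q (hP : P.Good) (u v r : ℝ) :
    HasDerivAt (fun r => P.q r u v) (P.q1 r u v) r := by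
  have h := ((hP.hX r).mul_const (u ^ 2)).add ((hP.hY r).mul ((hP.hasDerivAt_m u v r).pow 2))
  refine h.congr_deriv ?_
  simp only [q1, Nat.cast_ofNat, Nat.add_one_sub_one, pow_one, Pi.pow_apply, Pi.mul_apply]
  ring

theorem Good.hasDerivAt_q1 (hP : P.Good) (u v r : ℝ) :
    HasDerivAt (fun r => P.q1 r u v) (P.q2 r u v) r := by
  have h := (((hP.hX1 r).mul_const (u ^ 2)).add
    ((hP.hY1 r).mul ((hP.hasDerivAt_m u v r).pow 2))).sub
    (((((hP.hY r).const_mul 2).mul (hP.hT1 r)).mul_const u).mul (hP.hasDerivAt_m u v r))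
  refine h.congr_deriv ?_
  simp only [q2, Nat.cast_ofNat, Nat.add_one_sub_one, pow_one, Pi.pow_apply, Pi.mul_apply]
  ring

theorem Good.hasDerivAt_ZF (hP : P.Good) (u v r : ℝ) :
    HasDerivAt (fun r => P.ZF r u v) (P.ZF1 r u v) r := by
  have h := (hP.hY r).mul (hP.hasDerivAt_m u v r)
  refine h.congr_deriv ?_
  simp only [ZF1]
  ring

theorem Good.hasDerivAt_ZH (hP : P.Good) (u v r : ℝ) :
    HasDerivAt (fun r => P.ZH r u v) (P.ZH1 r u v) r := by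
  have h := ((hP.hX r).mul_const u).sub (((hP.hT r).mul (hP.hY r)).mul (hP.hasDerivAt_m u v r))
  refine h.congr_deriv ?_
  simp only [ZH1, Pi.mul_apply]
  ring

end Profile

namespace Orb

variable {o : Orb} {P : Profile}

theorem Solves.hasDerivAt_w {t : ℝ} (h : o.Solves P t) :
    HasDerivAt o.w (o.pi t ^ 2 + P.q (o.r t) o.du o.dv
      - P.q2 (o.r t) o.u o.v * o.dr t ^ 2 / 2) t := by
  have h1 := ((h.hdr.mul h.hpi).add (h.hdh.mul_const o.du)).add (h.hdy.mul_const o.dv)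
  refine h1.congr_deriv ?_
  simp only [Profile.q, Profile.q1b, Profile.ZF, Profile.ZF1, Profile.ZH, Profile.ZH1, Profile.m]
  ring

/-- certificate for `WF` -/
theorem Solves.hasDerivAt_WF {t : ℝ} (hP : P.Good) (h : o.Solves P t)
    (hZ : P.ZF (o.r t) o.u o.v ≠ 0) :
    HasDerivAt (o.WF P)
      ((o.pi t + P.q1 (o.r t) o.u o.v * o.dy t / (2 * P.ZF (o.r t) o.u o.v)) ^ 2
        + P.q (o.r t) o.du (o.dv + P.q1 (o.r t) o.u o.v
          * (o.dr t - o.rd t * o.dy t / P.ZF (o.r t) o.u o.v) / (2 * P.ZF (o.r t) o.u o.v))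
        + (o.dr t - o.rd t * o.dy t / P.ZF (o.r t) o.u o.v) ^ 2 *
          (-(P.q2 (o.r t) o.u o.v) / 2 + P.q1 (o.r t) o.u o.v * P.ZF1 (o.r t) o.u o.v
            / P.ZF (o.r t) o.u o.v
            - P.q1 (o.r t) o.u o.v ^ 2 * P.Y (o.r t) / (4 * P.ZF (o.r t) o.u o.v ^ 2))) t := by
  have hq1 : HasDerivAt (fun s => P.q1 (o.r s) o.u o.v) (P.q2 (o.r t) o.u o.v * o.rd t) t :=
    (hP.hasDerivAt_q1 o.u o.v (o.r t)).comp t h.hr
  have hZF : HasDerivAt (fun s => P.ZF (o.r s) o.u o.v) (P.ZF1 (o.r t) o.u o.v * o.rd t) t :=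
    (hP.hasDerivAt_ZF o.u o.v (o.r t)).comp t h.hr
  have hne : 2 * ((fun s => P.ZF (o.r s) o.u o.v) ^ 2) t ≠ 0 := by
    simpa using hZ
  have h1 := (h.hasDerivAt_w.add (((hq1.div hZF hZ).mul h.hdr).mul h.hdy)).sub
    (((hq1.mul h.hrd).div ((hZF.pow 2).const_mul 2) hne).mul (h.hdy.pow 2))
  refine h1.congr_deriv ?_
  have hY : P.Y (o.r t) ≠ 0 := (hP.Y_pos _).ne'
  have hm : o.v - P.T (o.r t) * o.u ≠ 0 := right_ne_zero_of_mul hZ
  simp only [Pi.mul_apply, Pi.div_apply, Pi.pow_apply, Profile.q, Profile.q1b, Profile.ZF,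
    Profile.ZF1, Profile.m, Nat.cast_ofNat, Nat.add_one_sub_one, pow_one, Profile.q1] at *
  generalize P.q2 (o.r t) o.u o.v = q2 at *
  field_simp
  ring

/-- certificate for `WH` -/
theorem Solves.hasDerivAt_WH {t : ℝ} (hP : P.Good) (h : o.Solves P t)
    (hZ : P.ZH (o.r t) o.u o.v ≠ 0) :
    HasDerivAt (o.WH P)
      ((o.pi t + P.q1 (o.r t) o.u o.v * o.dh t / (2 * P.ZH (o.r t) o.u o.v)) ^ 2
        + P.q (o.r t) (o.du + P.q1 (o.r t) o.u o.v
          * (o.dr t - o.rd t * o.dh t / P.ZH (o.r t) o.u o.v) / (2 * P.ZH (o.r t) o.u o.v)) o.dv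
        + (o.dr t - o.rd t * o.dh t / P.ZH (o.r t) o.u o.v) ^ 2 *
          (-(P.q2 (o.r t) o.u o.v) / 2 + P.q1 (o.r t) o.u o.v * P.ZH1 (o.r t) o.u o.v
            / P.ZH (o.r t) o.u o.v
            - P.q1 (o.r t) o.u o.v ^ 2 * (P.X (o.r t) + P.Y (o.r t) * P.T (o.r t) ^ 2)
              / (4 * P.ZH (o.r t) o.u o.v ^ 2))) t := by
  have hq1 : HasDerivAt (fun s => P.q1 (o.r s) o.u o.v) (P.q2 (o.r t) o.u o.v * o.rd t) t :=
    (hP.hasDerivAt_q1 o.u o.v (o.r t)).comp t h.hr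
  have hZH : HasDerivAt (fun s => P.ZH (o.r s) o.u o.v) (P.ZH1 (o.r t) o.u o.v * o.rd t) t :=
    (hP.hasDerivAt_ZH o.u o.v (o.r t)).comp t h.hr
  have hne : 2 * ((fun s => P.ZH (o.r s) o.u o.v) ^ 2) t ≠ 0 := by
    simpa using hZ
  have h1 := (h.hasDerivAt_w.add (((hq1.div hZH hZ).mul h.hdr).mul h.hdh)).sub
    (((hq1.mul h.hrd).div ((hZH.pow 2).const_mul 2) hne).mul (h.hdh.pow 2))
  refine h1.congr_deriv ?_
  simp only [Pi.mul_apply, Pi.div_apply, Pi.pow_apply, Nat.cast_ofNat, Nat.add_one_sub_one,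
    pow_one] at *
  have key : ∀ c, P.q (o.r t) (o.du + c) o.dv = P.q (o.r t) o.du o.dv
      + 2 * c * P.ZH (o.r t) o.du o.dv
      + c ^ 2 * (P.X (o.r t) + P.Y (o.r t) * P.T (o.r t) ^ 2) := by
    intro c
    simp only [Profile.q, Profile.ZH, Profile.m]
    ring
  rw [key]
  generalize P.q (o.r t) o.du o.dv = q0
  generalize P.ZH (o.r t) o.du o.dv = zd
  generalize P.ZH (o.r t) o.u o.v = z at *
  generalize P.ZH1 (o.r t) o.u o.v = z1
  generalize P.q1 (o.r t) o.u o.v = k1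
  generalize P.q2 (o.r t) o.u o.v = k2
  generalize P.X (o.r t) + P.Y (o.r t) * P.T (o.r t) ^ 2 = b
  field_simp
  ring

/-- certificate for `W0` -/
theorem Solves.hasDerivAt_W0 {t : ℝ} (hP : P.Good) (h : o.Solves P t) (hr : o.rd t ≠ 0) :
    HasDerivAt (o.W0 P)
      ((o.pi t + P.q1 (o.r t) o.u o.v * o.dr t / (2 * o.rd t)) ^ 2
        + P.q (o.r t) o.du o.dv) t := by
  have hq1 : HasDerivAt (fun s => P.q1 (o.r s) o.u o.v) (P.q2 (o.r t) o.u o.v * o.rd t) t :=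
    (hP.hasDerivAt_q1 o.u o.v (o.r t)).comp t h.hr
  have h1 := h.hasDerivAt_w.add
    ((hq1.div (h.hrd.const_mul 2) (by simpa using hr)).mul (h.hdr.pow 2))
  refine h1.congr_deriv ?_
  simp only [Pi.mul_apply, Pi.div_apply, Pi.pow_apply, Nat.cast_ofNat, Nat.add_one_sub_one,
    pow_one] at *
  field_simp
  ring

/-- certificate for `WL` -/
theorem Solves.hasDerivAt_WL {t : ℝ} (hP : P.Good) (h : o.Solves P t) (hr : o.r t ≤ -2) :
    HasDerivAt (o.WL P)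
      ((o.pi t + P.Y1 (o.r t) * P.m (o.r t) o.u o.v * o.dy t / (2 * P.Y (o.r t))) ^ 2
        + P.q (o.r t) o.du (o.dv + P.Y1 (o.r t)
          * (P.m (o.r t) o.u o.v * o.dr t - o.rd t * o.dy t / P.Y (o.r t)) / (2 * P.Y (o.r t)))
        + (P.m (o.r t) o.u o.v * o.dr t - o.rd t * o.dy t / P.Y (o.r t)) ^ 2 *
          (3 * P.Y1 (o.r t) ^ 2 - 2 * P.Y (o.r t) * P.Y2 (o.r t)) / (4 * P.Y (o.r t))) t := by
  have hY : P.Y (o.r t) ≠ 0 := (hP.Y_pos _).ne'
  have hY' : HasDerivAt (fun s => P.Y (o.r s)) (P.Y1 (o.r t) * o.rd t) t :=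
    (hP.hY (o.r t)).comp t h.hr
  have hY1 : HasDerivAt (fun s => P.Y1 (o.r s)) (P.Y2 (o.r t) * o.rd t) t :=
    (hP.hY1 (o.r t)).comp t h.hr
  have hm : HasDerivAt (fun s => P.m (o.r s) o.u o.v) (-(P.T1 (o.r t)) * o.u * o.rd t) t :=
    (hP.hasDerivAt_m o.u o.v (o.r t)).comp t h.hr
  have hne : 2 * ((fun s => P.Y (o.r s)) ^ 2) t ≠ 0 := by
    simpa using hY
  have h1 := (h.hasDerivAt_w.add ((((hY1.mul hm).div hY' hY).mul h.hdr).mul h.hdy)).sub
    (((hY1.mul h.hrd).div ((hY'.pow 2).const_mul 2) hne).mul (h.hdy.pow 2))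
  refine h1.congr_deriv ?_
  have e1 := hP.left_X1 _ hr
  have e2 := hP.left_X2 _ hr
  have e3 := hP.left_T1 _ hr
  have e4 := hP.left_T2 _ hr
  simp only [Pi.mul_apply, Pi.div_apply, Pi.pow_apply, Nat.cast_ofNat, Nat.add_one_sub_one,
    pow_one, Profile.q, Profile.q1b, Profile.ZF, Profile.ZF1, Profile.m, Profile.q1,
    Profile.q2, e1, e2, e3, e4] at *
  field_simp
  ring

/-- certificate for `WR` -/
theorem Solves.hasDerivAt_WR {t : ℝ} (hP : P.Good) (h : o.Solves P t) (hr : 2 ≤ o.r t) :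
    HasDerivAt (o.WR P)
      ((o.pi t + P.X1 (o.r t) * o.u * o.dh t / (2 * P.X (o.r t))) ^ 2
        + P.q (o.r t) (o.du + P.X1 (o.r t)
          * (o.u * o.dr t - o.rd t * o.dh t / P.X (o.r t)) / (2 * P.X (o.r t))) o.dv
        + (o.u * o.dr t - o.rd t * o.dh t / P.X (o.r t)) ^ 2 *
          (3 * P.X1 (o.r t) ^ 2 - 2 * P.X (o.r t) * P.X2 (o.r t)) / (4 * P.X (o.r t))) t := by
  have hX : P.X (o.r t) ≠ 0 := (hP.X_pos _).ne'
  have hX' : HasDerivAt (fun s => P.X (o.r s)) (P.X1 (o.r t) * o.rd t) t :=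
    (hP.hX (o.r t)).comp t h.hr
  have hX1 : HasDerivAt (fun s => P.X1 (o.r s)) (P.X2 (o.r t) * o.rd t) t :=
    (hP.hX1 (o.r t)).comp t h.hr
  have hne : 2 * ((fun s => P.X (o.r s)) ^ 2) t ≠ 0 := by
    simpa using hX
  have h1 := (h.hasDerivAt_w.add ((((hX1.mul_const o.u).div hX' hX).mul h.hdr).mul h.hdh)).sub
    (((hX1.mul h.hrd).div ((hX'.pow 2).const_mul 2) hne).mul (h.hdh.pow 2))
  refine h1.congr_deriv ?_
  have e0 := hP.right_T _ hr
  have e1 := hP.right_Y1 _ hr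
  have e2 := hP.right_Y2 _ hr
  have e3 := hP.right_T1 _ hr
  have e4 := hP.right_T2 _ hr
  simp only [Pi.mul_apply, Pi.div_apply, Pi.pow_apply, Nat.cast_ofNat, Nat.add_one_sub_one,
    pow_one, Profile.q, Profile.q1b, Profile.ZH, Profile.ZH1, Profile.m, Profile.q1,
    Profile.q2, e0, e1, e2, e3, e4] at *
  field_simp
  ring

/-- the wall between the middle zone and the left zone -/
theorem W0_sub_WL {t : ℝ} (hP : P.Good) (hr : o.r t ≤ -2) (hrd : o.rd t ≠ 0) :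
    o.W0 P t - o.WL P t = P.Y1 (o.r t) / (2 * P.Y (o.r t) ^ 2 * o.rd t)
      * (P.ZF (o.r t) o.u o.v * o.dr t - o.rd t * o.dy t) ^ 2 := by
  have hY : P.Y (o.r t) ≠ 0 := (hP.Y_pos _).ne'
  have e1 := hP.left_X1 _ hr
  have e3 := hP.left_T1 _ hr
  simp only [W0, WL, Profile.q1, Profile.ZF, Profile.m, e1, e3]
  field_simp
  ring

/-- the wall between the middle zone and the right zone -/
theorem W0_sub_WR {t : ℝ} (hP : P.Good) (hr : 2 ≤ o.r t) (hrd : o.rd t ≠ 0) :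
    o.W0 P t - o.WR P t = P.X1 (o.r t) / (2 * P.X (o.r t) ^ 2 * o.rd t)
      * (P.ZH (o.r t) o.u o.v * o.dr t - o.rd t * o.dh t) ^ 2 := by
  have hX : P.X (o.r t) ≠ 0 := (hP.X_pos _).ne'
  have e0 := hP.right_T _ hr
  have e1 := hP.right_Y1 _ hr
  have e3 := hP.right_T1 _ hr
  simp only [W0, WR, Profile.q1, Profile.ZH, Profile.m, e0, e1, e3]
  field_simp
  ring

/-- in the left zone `WF = WL` -/
theorem WF_eq_WL {t : ℝ} (hP : P.Good) (hr : o.r t ≤ -2) (hZ : P.ZF (o.r t) o.u o.v ≠ 0) :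
    o.WF P t = o.WL P t := by
  have hY : P.Y (o.r t) ≠ 0 := (hP.Y_pos _).ne'
  have hm : o.v - P.T (o.r t) * o.u ≠ 0 := right_ne_zero_of_mul hZ
  have e1 := hP.left_X1 _ hr
  have e3 := hP.left_T1 _ hr
  simp only [WF, WL, Profile.q1, Profile.ZF, Profile.m, e1, e3]
  generalize o.v - P.T (o.r t) * o.u = m at *
  field_simp
  ring

/-- in the right zone `WH = WR` -/
theorem WH_eq_WR {t : ℝ} (hP : P.Good) (hr : 2 ≤ o.r t) (hZ : P.ZH (o.r t) o.u o.v ≠ 0) :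
    o.WH P t = o.WR P t := by
  have hX : P.X (o.r t) ≠ 0 := (hP.X_pos _).ne'
  have e0 := hP.right_T _ hr
  have e1 := hP.right_Y1 _ hr
  have e3 := hP.right_T1 _ hr
  have hu : o.u ≠ 0 := by
    rintro hu
    apply hZ
    simp [Profile.ZH, e0, hu]
  simp only [WH, WR, Profile.q1, Profile.ZH, Profile.m, e0, e1, e3]
  field_simp
  ring

/-- derivative of `N` in the left zone -/
theorem Solves.hasDerivAt_N_left {t : ℝ} (hP : P.Good) (h : o.Solves P t) (hr : o.r t ≤ -2) :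
    HasDerivAt (o.N P) (2 * o.WL P t) t := by
  have hY : P.Y (o.r t) ≠ 0 := (hP.Y_pos _).ne'
  have hX : P.X (o.r t) ≠ 0 := (hP.X_pos _).ne'
  have hX' : HasDerivAt (fun s => P.X (o.r s)) (P.X1 (o.r t) * o.rd t) t :=
    (hP.hX (o.r t)).comp t h.hr
  have hY' : HasDerivAt (fun s => P.Y (o.r s)) (P.Y1 (o.r t) * o.rd t) t :=
    (hP.hY (o.r t)).comp t h.hr
  have hT' : HasDerivAt (fun s => P.T (o.r s)) (P.T1 (o.r t) * o.rd t) t :=
    (hP.hT (o.r t)).comp t h.hr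
  have h1 := ((h.hdr.pow 2).add (((h.hdh.add (hT'.mul h.hdy)).pow 2).div hX' hX)).add
    ((h.hdy.pow 2).div hY' hY)
  refine h1.congr_deriv ?_
  have e1 := hP.left_X1 _ hr
  have e3 := hP.left_T1 _ hr
  simp only [Pi.mul_apply, Pi.div_apply, Pi.pow_apply, Pi.add_apply, Nat.cast_ofNat,
    Nat.add_one_sub_one, pow_one, WL, w, Profile.ZH, Profile.ZH1, Profile.ZF, Profile.ZF1,
    Profile.m, e1, e3] at *
  field_simp
  ring

/-- derivative of `N` in the right zone -/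
theorem Solves.hasDerivAt_N_right {t : ℝ} (hP : P.Good) (h : o.Solves P t) (hr : 2 ≤ o.r t) :
    HasDerivAt (o.N P) (2 * o.WR P t) t := by
  have hY : P.Y (o.r t) ≠ 0 := (hP.Y_pos _).ne'
  have hX : P.X (o.r t) ≠ 0 := (hP.X_pos _).ne'
  have hX' : HasDerivAt (fun s => P.X (o.r s)) (P.X1 (o.r t) * o.rd t) t :=
    (hP.hX (o.r t)).comp t h.hr
  have hY' : HasDerivAt (fun s => P.Y (o.r s)) (P.Y1 (o.r t) * o.rd t) t :=
    (hP.hY (o.r t)).comp t h.hr
  have hT' : HasDerivAt (fun s => P.T (o.r s)) (P.T1 (o.r t) * o.rd t) t :=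
    (hP.hT (o.r t)).comp t h.hr
  have h1 := ((h.hdr.pow 2).add (((h.hdh.add (hT'.mul h.hdy)).pow 2).div hX' hX)).add
    ((h.hdy.pow 2).div hY' hY)
  refine h1.congr_deriv ?_
  have e0 := hP.right_T _ hr
  have e1 := hP.right_Y1 _ hr
  have e3 := hP.right_T1 _ hr
  simp only [Pi.mul_apply, Pi.div_apply, Pi.pow_apply, Pi.add_apply, Nat.cast_ofNat,
    Nat.add_one_sub_one, pow_one, WR, w, Profile.ZH, Profile.ZH1, Profile.ZF, Profile.ZF1,
    Profile.m, e0, e1, e3] at *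
  field_simp
  ring

end Orb

end Pool.Agent.NCQ
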