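import Pool.Agent.NCQ.Exact

/-! # NCQ: the metric as a smooth field of continuous bilinear forms -/

open Set Filter Topology
open scoped ContDiff

namespace Pool.Agent.NCQ

variable {A : Matrix.SpecialLinearGroup (Fin 2) ℤ}

/-- the complement of a discrete closed set times `ℝ` -/
theorem isOpen_piece : IsOpen piece := by
  have hcl : IsClosed {x : ℂ × ℝ | x.1.re ∈ range ((↑) : ℤ → ℝ) ∧ x.1.im ∈ range ((↑) : ℤ → ℝ)} :=
    (Int.isClosedEmbedding_coe_real.isClosed_range.preimage
      (Complex.continuous_re.comp continuous_fst)).inter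
    (Int.isClosedEmbedding_coe_real.isClosed_range.preimage
      (Complex.continuous_im.comp continuous_fst))
  have e : piece =
      {x : ℂ × ℝ | x.1.re ∈ range ((↑) : ℤ → ℝ) ∧ x.1.im ∈ range ((↑) : ℤ → ℝ)}ᶜ := by
    ext x
    simp only [piece, mem_setOf_eq, mem_compl_iff]
    constructor
    · rintro h ⟨⟨m, hm⟩, ⟨n, hn⟩⟩
      exact h m n (Complex.ext (by simp [hm]) (by simp [hn]))
    · intro h m n hx
      exact h ⟨⟨m, by simp [hx]⟩, ⟨n, by simp [hx]⟩⟩
  rw [e]
  exact hcl.isOpen_compl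

/-- In finite dimension a bilinear form field which is smooth for all constant arguments is smooth
as a map to continuous bilinear maps (`LinearMap.mk₂`, `LinearMap.toContinuousLinearMap`,
`contDiffOn_clm_apply` or a basis). -/
theorem GMMetric.exists_clm (g : GMMetric A) (i : Fin 2) :
    ∃ G : ℂ × ℝ → (ℂ × ℝ) →L[ℝ] (ℂ × ℝ) →L[ℝ] ℝ, (∀ x v w, G x v w = g.form i x v w) ∧
      ∀ x ∈ piece, ContDiffAt ℝ ∞ G x := by
  let B : ℂ × ℝ → (ℂ × ℝ) →ₗ[ℝ] (ℂ × ℝ) →ₗ[ℝ] ℝ := fun x =>
    LinearMap.mk₂ ℝ (fun v w => g.form i x v w) (g.add_left i x) (fun c v w => g.smul_left i x c v w)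
      (fun v w w' => by
        rw [g.symm i x v, g.add_left, g.symm i x w, g.symm i x w'])
      (fun c v w => by
        rw [g.symm i x v, g.smul_left, g.symm i x w, smul_eq_mul])
  let G : ℂ × ℝ → (ℂ × ℝ) →L[ℝ] (ℂ × ℝ) →L[ℝ] ℝ := fun x =>
    LinearMap.toContinuousLinearMap
      { toFun := fun v => LinearMap.toContinuousLinearMap (B x v)
        map_add' := fun v v' => by simp
        map_smul' := fun c v => by simp }
  have hG : ∀ x v w, G x v w = g.form i x v w := fun x v w => rfl
  refine ⟨G, hG, ?_⟩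
  have hon : ContDiffOn ℝ ∞ G piece := by
    rw [contDiffOn_clm_apply]
    intro v
    rw [contDiffOn_clm_apply]
    intro w
    exact g.smooth i v w
  intro x hx
  exact hon.contDiffAt (isOpen_piece.mem_nhds hx)

end Pool.Agent.NCQ
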