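import Pool.Agent.NCQ.MDefs

/-! # NCQ: smoothness of polar coordinates, local smooth polar coordinates -/

open Set Filter Topology
open scoped ContDiff

namespace Pool.Agent.NCQ

variable {A : Matrix.SpecialLinearGroup (Fin 2) ℤ}

private theorem contDiff_re1 : ContDiff ℝ ∞ (fun y : ℝ × ℝ × ℝ => ((y.1 : ℝ) : ℂ)) :=
  Complex.ofRealCLM.contDiff.comp contDiff_fst

private theorem contDiff_re2 : ContDiff ℝ ∞ (fun y : ℝ × ℝ × ℝ => ((y.2.1 : ℝ) : ℂ)) :=
  Complex.ofRealCLM.contDiff.comp (contDiff_fst.comp contDiff_snd)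

theorem contDiff_polar : ContDiff ℝ ∞ polar := by
  unfold polar
  refine ContDiff.prodMk (contDiff_re1.mul (ContDiff.cexp ?_)) (contDiff_snd.comp contDiff_snd)
  exact (contDiff_const.mul contDiff_re2).mul contDiff_const

theorem contDiff_flip : ContDiff ℝ ∞ (flip A) := by
  unfold flip
  fun_prop

/-- A map near `p` whose value at `p` is `polar y₀` with `0 < y₀.1` has smooth polar coordinates near
`p` starting at `y₀`: with `z = (x q).1`, `z₀ = (x p).1 ≠ 0` and `L = log (z / z₀)` (smooth near `p`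
because `z / z₀` is near `1`): `ρ = y₀.1 exp (re L)`, `φ = y₀.2.1 + im L / (2π)`, `s = (x q).2`. -/
theorem exists_polar {x : ℝ × ℝ → ℂ × ℝ} {p : ℝ × ℝ} {y₀ : ℝ × ℝ × ℝ}
    (hx : ∀ᶠ q in 𝓝 p, ContDiffAt ℝ ∞ x q) (h0 : x p = polar y₀) (h1 : 0 < y₀.1) :
    ∃ κ : ℝ × ℝ → ℝ × ℝ × ℝ, κ p = y₀ ∧
      ∀ᶠ q in 𝓝 p, ContDiffAt ℝ ∞ κ q ∧ x q = polar (κ q) := by
  have hpi : (2 * Real.pi : ℝ) ≠ 0 := by positivity
  have hpiC : (2 * Real.pi : ℂ) ≠ 0 := by exact_mod_cast hpi
  have hz₀ : (x p).1 ≠ 0 := by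
    rw [h0]
    unfold polar
    exact mul_ne_zero (by exact_mod_cast h1.ne') (Complex.exp_ne_zero _)
  set z₀ := (x p).1 with hz₀def
  have hz₀' : z₀ = y₀.1 * Complex.exp (2 * Real.pi * y₀.2.1 * Complex.I) := by
    rw [hz₀def, h0]
    rfl
  have hx2 : (x p).2 = y₀.2.2 := by rw [h0]; rfl
  have hslit : ∀ᶠ q in 𝓝 p, (x q).1 / z₀ ∈ Complex.slitPlane := by
    have hc : ContinuousAt (fun q => (x q).1 / z₀) p := by
      have h2 : ContinuousAt x p := hx.self_of_nhds.continuousAt
      exact h2.fst.div_const z₀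
    apply hc.eventually_mem
    apply Complex.isOpen_slitPlane.mem_nhds
    rw [← hz₀def, div_self hz₀]
    exact Complex.one_mem_slitPlane
  refine ⟨fun q => (y₀.1 * Real.exp (Complex.log ((x q).1 / z₀)).re,
    y₀.2.1 + (Complex.log ((x q).1 / z₀)).im / (2 * Real.pi), (x q).2), ?_, ?_⟩
  · simp only
    rw [← hz₀def, div_self hz₀, Complex.log_one, hx2]
    simp
  · filter_upwards [hx, hslit] with q hq1 hq2
    have hne : (x q).1 / z₀ ≠ 0 := Complex.slitPlane_ne_zero hq2
    constructor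
    · have hz : ContDiffAt ℝ ∞ (fun q => (x q).1 / z₀) q := by
        have := hq1.fst
        exact this.div_const z₀
      have hlog : ContDiffAt ℝ ∞ (fun q => Complex.log ((x q).1 / z₀)) q := by
        have h3 : ContDiffAt ℝ ∞ Complex.log ((x q).1 / z₀) :=
          (Complex.contDiffAt_log hq2).restrict_scalars ℝ
        exact h3.comp q hz
      have hre : ContDiffAt ℝ ∞ (fun q => (Complex.log ((x q).1 / z₀)).re) q :=
        Complex.reCLM.contDiff.contDiffAt.comp q hlog
      have him : ContDiffAt ℝ ∞ (fun q => (Complex.log ((x q).1 / z₀)).im) q :=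
        Complex.imCLM.contDiff.contDiffAt.comp q hlog
      refine ContDiffAt.prodMk (contDiffAt_const.mul hre.exp) (ContDiffAt.prodMk
        (contDiffAt_const.add (him.div_const _)) hq1.snd)
    · refine Prod.ext ?_ rfl
      unfold polar
      simp only
      have h4 : (x q).1 = z₀ * Complex.exp (Complex.log ((x q).1 / z₀)) := by
        rw [Complex.exp_log hne]
        field_simp
      generalize Complex.log ((x q).1 / z₀) = L at h4 ⊢
      rw [h4, hz₀']
      push_cast
      have h5 : L = (L.re : ℂ) + L.im * Complex.I := (Complex.re_add_im L).symm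
      have h6 : (2 * Real.pi * ((y₀.2.1 : ℂ) + L.im / (2 * Real.pi)) * Complex.I : ℂ) =
          2 * Real.pi * y₀.2.1 * Complex.I + L.im * Complex.I := by
        field_simp
      rw [h6, Complex.exp_add]
      conv_lhs => rw [h5, Complex.exp_add]
      ring

/-- derivative of polar coordinates -/
theorem hasFDerivAt_polar (y v : ℝ × ℝ × ℝ) :
    fderiv ℝ polar y v = ((v.1 + 2 * Real.pi * y.1 * v.2.1 * Complex.I)
      * Complex.exp (2 * Real.pi * y.2.1 * Complex.I), v.2.2) := by
  have hd : DifferentiableAt ℝ polar y := contDiff_polar.differentiable (by simp) y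
  rw [← hd.lineDeriv_eq_fderiv]
  unfold lineDeriv
  apply HasDerivAt.deriv
  have hr : ∀ a b : ℝ, HasDerivAt (fun t : ℝ => ((a + t * b : ℝ) : ℂ)) (b : ℂ) 0 := by
    intro a b
    have h1 : HasDerivAt (fun t : ℝ => a + t * b) b 0 := by
      have := ((hasDerivAt_id (0 : ℝ)).mul_const b).const_add a
      simpa using this
    exact h1.ofReal_comp
  have e : (fun t : ℝ => polar (y + t • v)) = fun t : ℝ =>
      (((y.1 + t * v.1 : ℝ) : ℂ) *
        Complex.exp (2 * Real.pi * ((y.2.1 + t * v.2.1 : ℝ) : ℂ) * Complex.I),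
        y.2.2 + t * v.2.2) := by
    funext t
    rfl
  rw [e]
  refine HasDerivAt.prodMk ?_ ?_
  · have h1 := hr y.1 v.1
    have h2 := (((hr y.2.1 v.2.1).const_mul (2 * Real.pi : ℂ)).mul_const Complex.I).cexp
    have h3 := h1.mul h2
    refine h3.congr_deriv ?_
    simp only [zero_mul, add_zero]
    ring
  · have := ((hasDerivAt_id (0 : ℝ)).mul_const v.2.2).const_add y.2.2
    simpa using this

theorem fderiv_flip (y v : ℝ × ℝ × ℝ) :
    fderiv ℝ (fun z => polar (flip A z)) y v = fderiv ℝ polar (flip A y)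
      (-v.1, A.1 0 0 * v.2.1 + A.1 0 1 * v.2.2, A.1 1 0 * v.2.1 + A.1 1 1 * v.2.2) := by
  have hd1 : DifferentiableAt ℝ polar (flip A y) := contDiff_polar.differentiable (by simp) _
  have hd2 : DifferentiableAt ℝ (flip A) y := contDiff_flip.differentiable (by simp) _
  have h1 : fderiv ℝ (fun z => polar (flip A z)) y = (fderiv ℝ polar (flip A y)).comp
      (fderiv ℝ (flip A) y) := fderiv_comp y hd1 hd2
  rw [h1, ContinuousLinearMap.comp_apply]
  congr 1
  rw [← hd2.lineDeriv_eq_fderiv]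
  unfold lineDeriv
  apply HasDerivAt.deriv
  have hl : ∀ a b : ℝ, HasDerivAt (fun t : ℝ => a + t * b) b 0 := by
    intro a b
    have := ((hasDerivAt_id (0 : ℝ)).mul_const b).const_add a
    simpa using this
  have e : (fun t : ℝ => flip A (y + t • v)) = fun t : ℝ =>
      (1 / 4 - (y.1 + t * v.1), A.1 0 0 * (y.2.1 + t * v.2.1) + A.1 0 1 * (y.2.2 + t * v.2.2),
        A.1 1 0 * (y.2.1 + t * v.2.1) + A.1 1 1 * (y.2.2 + t * v.2.2)) := by
    funext t
    rfl
  rw [e]
  exact ((hl _ _).const_sub (1 / 4)).prodMk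
    ((((hl _ _).const_mul _).add ((hl _ _).const_mul _)).prodMk
      (((hl _ _).const_mul _).add ((hl _ _).const_mul _)))

end Pool.Agent.NCQ
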