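import Pool.Agent.NCQ.Exact
import Pool.Agent.NCQ.PolarInv

/-! # NCQ: comparison of lifts -/

open Set Filter Topology
open scoped ContDiff

namespace Pool.Agent.NCQ

variable {A : Matrix.SpecialLinearGroup (Fin 2) ℤ} {α : ℝ × ℝ → MBar A}

/-- being a lift is an open condition on the parameter -/
theorem IsLift.eventually {p : ℝ × ℝ} {i : Fin 2} {x : ℝ × ℝ → ℂ × ℝ} (h : IsLift α p i x) :
    ∀ᶠ q in 𝓝 p, IsLift α q i x :=
  Filter.Eventually.eventually_nhds h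

/-- a lift is continuous at the parameter -/
theorem IsLift.continuousAt {p : ℝ × ℝ} {i : Fin 2} {x : ℝ × ℝ → ℂ × ℝ} (h : IsLift α p i x) :
    ContinuousAt x p :=
  (Filter.Eventually.self_of_nhds h).1.continuousAt

theorem mk_congr {i : Fin 2} {x y : ℂ × ℝ} (hxy : y = x) (hx : x ∈ piece) (hy : y ∈ piece) :
    Quot.mk (Glue A) (i, ⟨x, hx⟩) = Quot.mk (Glue A) (i, ⟨y, hy⟩) := by
  subst hxy; rfl

/-- a lift can be changed by a lattice vector -/
theorem IsLift.add_lat {p : ℝ × ℝ} {i : Fin 2} {x : ℝ × ℝ → ℂ × ℝ} (h : IsLift α p i x)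
    (m n k : ℤ) : IsLift α p i (fun q => x q + lat m n k) := by
  unfold IsLift at h ⊢
  filter_upwards [h] with q hq
  obtain ⟨h1, h2, h3⟩ := hq
  refine ⟨h1.add contDiffAt_const, add_lat_mem h2 m n k, ?_⟩
  rw [h3, mk_add_lat]

/-- a map which is near `p` equal to a lift is a lift -/
theorem IsLift.congr {p : ℝ × ℝ} {i : Fin 2} {x y : ℝ × ℝ → ℂ × ℝ} (h : IsLift α p i x)
    (hy : ∀ᶠ q in 𝓝 p, y q = x q) : IsLift α p i y := by
  unfold IsLift at h ⊢
  filter_upwards [h, hy, hy.eventually_nhds] with q hq hyq hyq'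
  obtain ⟨h1, h2, h3⟩ := hq
  have h4 : y q ∈ piece := by rw [hyq]; exact h2
  refine ⟨h1.congr_of_eventuallyEq hyq', h4, ?_⟩
  rw [h3]
  exact mk_congr hyq h2 h4

/-- bounds near `p` -/
theorem eventually_bounds {p : ℝ × ℝ} {κ : ℝ × ℝ → ℝ × ℝ × ℝ}
    (hκ : ∀ᶠ q in 𝓝 p, ContDiffAt ℝ ∞ κ q) (h0 : 0 < (κ p).1) (h1 : (κ p).1 < 1 / 4) :
    ∀ᶠ q in 𝓝 p, 0 < (κ q).1 ∧ (κ q).1 < 1 / 4 := by
  have hc : ContinuousAt (fun q => (κ q).1) p := hκ.self_of_nhds.continuousAt.fst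
  exact (hc.eventually (lt_mem_nhds h0)).and (hc.eventually (gt_mem_nhds h1))

/-- a lift to copy `0` given in polar coordinates gives a lift to copy `1` -/
theorem IsLift.flip {p : ℝ × ℝ} {κ : ℝ × ℝ → ℝ × ℝ × ℝ}
    (hκ : ∀ᶠ q in 𝓝 p, ContDiffAt ℝ ∞ κ q) (h0 : 0 < (κ p).1) (h1 : (κ p).1 < 1 / 4)
    (h : IsLift α p 0 (fun q => polar (κ q))) :
    IsLift α p 1 (fun q => polar (Pool.Agent.NCQ.flip A (κ q))) := by
  unfold IsLift at h ⊢
  filter_upwards [h, hκ, eventually_bounds hκ h0 h1] with q hq hκq hb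
  obtain ⟨h2, h3, h4⟩ := hq
  refine ⟨?_, polar_mem (flip_bounds hb.1 hb.2).1 (flip_bounds hb.1 hb.2).2, ?_⟩
  · exact contDiff_polar.contDiffAt.comp q (contDiff_flip.contDiffAt.comp q hκq)
  · rw [h4]
    exact mk_polar hb.1 hb.2

/-- and conversely -/
theorem IsLift.unflip {p : ℝ × ℝ} {κ : ℝ × ℝ → ℝ × ℝ × ℝ}
    (hκ : ∀ᶠ q in 𝓝 p, ContDiffAt ℝ ∞ κ q) (h0 : 0 < (κ p).1) (h1 : (κ p).1 < 1 / 4)
    (h : IsLift α p 1 (fun q => polar (Pool.Agent.NCQ.flip A (κ q)))) :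
    IsLift α p 0 (fun q => polar (κ q)) := by
  unfold IsLift at h ⊢
  filter_upwards [h, hκ, eventually_bounds hκ h0 h1] with q hq hκq hb
  obtain ⟨h2, h3, h4⟩ := hq
  refine ⟨contDiff_polar.contDiffAt.comp q hκq, polar_mem hb.1 hb.2, ?_⟩
  rw [h4]
  exact (mk_polar hb.1 hb.2).symm

theorem lat_eq_of_norm_lt {m n k m' n' k' : ℤ} (h : ‖lat m n k - lat m' n' k'‖ < 1) :
    lat m n k = lat m' n' k' := by
  have h1 : ‖(lat m n k - lat m' n' k').1‖ < 1 := (norm_fst_le _).trans_lt h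
  have h2 : ‖(lat m n k - lat m' n' k').2‖ < 1 := (norm_snd_le _).trans_lt h
  have e1 : (lat m n k - lat m' n' k').1 = ((m - m' : ℤ) : ℂ) + ((n - n' : ℤ) : ℂ) * Complex.I := by
    simp only [lat, Prod.fst_sub]
    push_cast; ring
  have e2 : (lat m n k - lat m' n' k').2 = ((k - k' : ℤ) : ℝ) := by
    simp only [lat, Prod.snd_sub]
    push_cast; ring
  rw [e1] at h1
  rw [e2] at h2
  have a1 := (Complex.abs_re_le_norm _).trans_lt h1
  have a2 := (Complex.abs_im_le_norm _).trans_lt h1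
  simp only [Complex.add_re, Complex.intCast_re, Complex.mul_re, Complex.I_re, mul_zero,
    Complex.intCast_im, Complex.I_im, mul_one, sub_zero, add_zero, Complex.add_im,
    Complex.mul_im, zero_add] at a1 a2
  rw [Real.norm_eq_abs] at h2
  have b1 : |m - m'| < 1 := by exact_mod_cast a1
  have b2 : |n - n'| < 1 := by exact_mod_cast a2
  have b3 : |k - k'| < 1 := by exact_mod_cast h2
  have c1 : m = m' := by have := Int.abs_lt_one_iff.1 b1; omega
  have c2 : n = n' := by have := Int.abs_lt_one_iff.1 b2; omega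
  have c3 : k = k' := by have := Int.abs_lt_one_iff.1 b3; omega
  rw [c1, c2, c3]

/-- Two lifts to the same copy differ by a constant lattice vector near `p`: by `mk_eq_same` the
difference has values in the lattice, it is continuous, and the lattice is discrete. -/
theorem IsLift.unique {p : ℝ × ℝ} {i : Fin 2} {x y : ℝ × ℝ → ℂ × ℝ} (hx : IsLift α p i x)
    (hy : IsLift α p i y) : ∃ m n k : ℤ, ∀ᶠ q in 𝓝 p, y q = x q + lat m n k := by
  have key : ∀ᶠ q in 𝓝 p, ∃ m n k : ℤ, y q = x q + lat m n k := by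
    have hx' := hx
    have hy' := hy
    unfold IsLift at hx' hy'
    filter_upwards [hx', hy'] with q h1 h2
    obtain ⟨-, h3, h4⟩ := h1
    obtain ⟨-, h5, h6⟩ := h2
    exact mk_eq_same (h4.symm.trans h6)
  obtain ⟨m, n, k, hp⟩ := key.self_of_nhds
  refine ⟨m, n, k, ?_⟩
  have hc : ContinuousAt (fun q => y q - x q) p := hy.continuousAt.sub hx.continuousAt
  have hd : ∀ᶠ q in 𝓝 p, ‖(y q - x q) - (y p - x p)‖ < 1 := by
    have h8 : ContinuousAt (fun q => ‖(y q - x q) - (y p - x p)‖) p :=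
      (hc.sub continuousAt_const).norm
    refine h8.eventually (gt_mem_nhds ?_)
    simp
  filter_upwards [key, hd] with q hq hdq
  obtain ⟨m', n', k', h'⟩ := hq
  have e1 : y q - x q = lat m' n' k' := by rw [h']; abel
  have e2 : y p - x p = lat m n k := by rw [hp]; abel
  rw [e1, e2] at hdq
  rw [h', lat_eq_of_norm_lt hdq]

/-- Lifts to the two copies: polar coordinates `κ`. By `mk_eq_diff` at `p`,
`x p = polar y₀ + lat m n k`, `y p = polar (flip A y₀) + lat m' n' k'`; take `κ` from `exists_polar` for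
`x - lat m n k`; then `polar ∘ flip A ∘ κ + lat m' n' k'` is a lift to copy `1` with the same value at
`p` as `y`, so it is equal to `y` near `p` by `IsLift.unique`. -/
theorem IsLift.diff {p : ℝ × ℝ} {x y : ℝ × ℝ → ℂ × ℝ} (hx : IsLift α p 0 x)
    (hy : IsLift α p 1 y) : ∃ (κ : ℝ × ℝ → ℝ × ℝ × ℝ) (m n k m' n' k' : ℤ),
      0 < (κ p).1 ∧ (κ p).1 < 1 / 4 ∧ ∀ᶠ q in 𝓝 p, ContDiffAt ℝ ∞ κ q ∧
        x q = polar (κ q) + lat m n k ∧
        y q = polar (Pool.Agent.NCQ.flip A (κ q)) + lat m' n' k' := by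
  have hx' := hx
  have hy' := hy
  unfold IsLift at hx' hy'
  obtain ⟨-, h3, h4⟩ := hx'.self_of_nhds
  obtain ⟨-, h5, h6⟩ := hy'.self_of_nhds
  obtain ⟨y₀, m, n, k, m', n', k', b0, b1, e1, e2⟩ := mk_eq_diff (h4.symm.trans h6)
  simp only at e1 e2
  have hz := hx.add_lat (-m) (-n) (-k)
  have hz0 : (fun q => x q + lat (-m) (-n) (-k)) p = polar y₀ := by
    simp only
    rw [e1, ← lat_neg]; abel
  have hzs : ∀ᶠ q in 𝓝 p, ContDiffAt ℝ ∞ (fun q => x q + lat (-m) (-n) (-k)) q :=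
    Filter.Eventually.mono hz fun q hq => hq.1
  obtain ⟨κ, k1, k2⟩ := exists_polar hzs hz0 b0
  have k3 : ∀ᶠ q in 𝓝 p, ContDiffAt ℝ ∞ κ q := k2.mono fun q hq => hq.1
  have k4 : ∀ᶠ q in 𝓝 p, polar (κ q) = x q + lat (-m) (-n) (-k) := k2.mono fun q hq => hq.2.symm
  have l1 : IsLift α p 0 (fun q => polar (κ q)) := hz.congr k4
  have l2 := IsLift.flip k3 (by rw [k1]; exact b0) (by rw [k1]; exact b1) l1
  obtain ⟨m1, n1, r1, hm⟩ := l2.unique hy
  refine ⟨κ, m, n, k, m1, n1, r1, by rw [k1]; exact b0, by rw [k1]; exact b1, ?_⟩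
  filter_upwards [k3, k4, hm] with q g1 g2 g3
  refine ⟨g1, ?_, g3⟩
  rw [g2, ← lat_neg]; abel

end Pool.Agent.NCQ
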