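import Pool.Agent.NCQ.GeoCol
import Pool.Agent.NCQ.Cert

/-! # NCQ: linearization: the collar data of a variation through geodesics solve the equations -/

open Set Filter Topology
open scoped ContDiff

namespace Pool.Agent.NCQ

variable {P : Profile}

theorem linz_hasDerivAt_T {E : Type*} [NormedAddCommGroup E] [NormedSpace ℝ E] {f : ℝ × ℝ → E}
    {f' : ℝ × ℝ →L[ℝ] E} {q : ℝ × ℝ} (hf : HasFDerivAt f f' q) :
    HasDerivAt (fun t => f (q.1, t)) (f' (0, 1)) q.2 := by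
  have h1 : HasDerivAt (fun t : ℝ => ((q.1, t) : ℝ × ℝ)) (0, 1) q.2 :=
    (hasDerivAt_const q.2 q.1).prodMk (hasDerivAt_id q.2)
  exact HasFDerivAt.comp_hasDerivAt q.2 (l := f) (f := fun t : ℝ => ((q.1, t) : ℝ × ℝ)) hf h1

theorem linz_hasDerivAt_S {E : Type*} [NormedAddCommGroup E] [NormedSpace ℝ E] {f : ℝ × ℝ → E}
    {f' : ℝ × ℝ →L[ℝ] E} {q : ℝ × ℝ} (hf : HasFDerivAt f f' q) :
    HasDerivAt (fun s => f (s, q.2)) (f' (1, 0)) q.1 := by
  have h1 : HasDerivAt (fun s : ℝ => ((s, q.2) : ℝ × ℝ)) (1, 0) q.1 :=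
    (hasDerivAt_id q.1).prodMk (hasDerivAt_const q.1 q.2)
  exact HasFDerivAt.comp_hasDerivAt q.1 (l := f) (f := fun s : ℝ => ((s, q.2) : ℝ × ℝ)) hf h1

theorem linz_dT_eq {E : Type*} [NormedAddCommGroup E] [NormedSpace ℝ E] {f : ℝ × ℝ → E}
    {q : ℝ × ℝ} (hf : DifferentiableAt ℝ f q) : dT f q = fderiv ℝ f q (0, 1) :=
  (linz_hasDerivAt_T hf.hasFDerivAt).deriv

theorem linz_dS_eq {E : Type*} [NormedAddCommGroup E] [NormedSpace ℝ E] {f : ℝ × ℝ → E}
    {q : ℝ × ℝ} (hf : DifferentiableAt ℝ f q) : dS f q = fderiv ℝ f q (1, 0) :=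
  (linz_hasDerivAt_S hf.hasFDerivAt).deriv

/-- mixed partial derivatives commute: `∂_t ∂_s κ = ∂_s ∂_t κ` near a point where `κ` is smooth -/
theorem hasDerivAt_dS {E : Type*} [NormedAddCommGroup E] [NormedSpace ℝ E] {κ : ℝ × ℝ → E}
    {q : ℝ × ℝ} (hκ : ContDiffAt ℝ 2 κ q) :
    HasDerivAt (fun t => dS κ (q.1, t)) (dS (fun z => dT κ z) q) q.2 := by
  have hev : ∀ᶠ z in 𝓝 q, DifferentiableAt ℝ κ z :=
    (hκ.eventually (by simp)).mono fun z hz => hz.differentiableAt (by simp)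
  have hD : ContDiffAt ℝ 1 (fderiv ℝ κ) q := hκ.fderiv_right (m := 1) (by norm_num)
  have hD' : HasFDerivAt (fderiv ℝ κ) (fderiv ℝ (fderiv ℝ κ) q) q :=
    (hD.differentiableAt (by simp)).hasFDerivAt
  have hsymm : IsSymmSndFDerivAt ℝ κ q := hκ.isSymmSndFDerivAt (by simp)
  have hT : HasDerivAt (fun t => fderiv ℝ κ (q.1, t) (1, 0))
      (fderiv ℝ (fderiv ℝ κ) q (0, 1) (1, 0)) q.2 := by
    have := (linz_hasDerivAt_T hD').clm_apply (hasDerivAt_const q.2 ((1, 0) : ℝ × ℝ))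
    simpa using this
  have hS : HasDerivAt (fun s => fderiv ℝ κ (s, q.2) (0, 1))
      (fderiv ℝ (fderiv ℝ κ) q (1, 0) (0, 1)) q.1 := by
    have := (linz_hasDerivAt_S hD').clm_apply (hasDerivAt_const q.1 ((0, 1) : ℝ × ℝ))
    simpa using this
  have c1 : Tendsto (fun t : ℝ => ((q.1, t) : ℝ × ℝ)) (𝓝 q.2) (𝓝 q) :=
    Continuous.tendsto' (by fun_prop) _ _ rfl
  have c2 : Tendsto (fun s : ℝ => ((s, q.2) : ℝ × ℝ)) (𝓝 q.1) (𝓝 q) :=
    Continuous.tendsto' (by fun_prop) _ _ rfl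
  have e1 : (fun t => dS κ (q.1, t)) =ᶠ[𝓝 q.2] fun t => fderiv ℝ κ (q.1, t) (1, 0) :=
    (c1.eventually hev).mono fun t ht => linz_dS_eq ht
  have e2 : (fun s => dT κ (s, q.2)) =ᶠ[𝓝 q.1] fun s => fderiv ℝ κ (s, q.2) (0, 1) :=
    (c2.eventually hev).mono fun s hs => linz_dT_eq hs
  have e3 : dS (fun z => dT κ z) q = fderiv ℝ (fderiv ℝ κ) q (0, 1) (1, 0) := by
    have h4 : dS (fun z => dT κ z) q = deriv (fun s => dT κ (s, q.2)) q.1 := rfl
    rw [h4, (hS.congr_of_eventuallyEq e2).deriv]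
    exact hsymm _ _
  rw [e3]
  exact hT.congr_of_eventuallyEq e1

theorem linz_dT_smooth {E : Type*} [NormedAddCommGroup E] [NormedSpace ℝ E] {κ : ℝ × ℝ → E}
    {q : ℝ × ℝ} (hκ : ∀ᶠ z in 𝓝 q, ContDiffAt ℝ ∞ κ z) : ContDiffAt ℝ ∞ (dT κ) q := by
  have h1 : ContDiffAt ℝ ∞ (fun z => fderiv ℝ κ z (0, 1)) q := by
    have h2 : ContDiffAt ℝ ∞ (fderiv ℝ κ) q := hκ.self_of_nhds.fderiv_right (by simp)
    exact h2.clm_apply contDiffAt_const
  refine h1.congr_of_eventuallyEq ?_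
  exact hκ.mono fun z hz => linz_dT_eq (hz.differentiableAt (by simp))

theorem linz_hasDerivAt_m (hP : P.Good) {R U V : ℝ → ℝ} {s R' U' V' : ℝ}
    (hR : HasDerivAt R R' s) (hU : HasDerivAt U U' s) (hV : HasDerivAt V V' s) :
    HasDerivAt (fun s => P.m (R s) (U s) (V s))
      (P.m (R s) U' V' - P.T1 (R s) * R' * U s) s := by
  have hT : HasDerivAt (fun s => P.T (R s)) (P.T1 (R s) * R') s := (hP.hT (R s)).comp s hR
  refine (hV.sub (hT.mul hU)).congr_deriv ?_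
  simp only [Profile.m]
  ring

theorem linz_hasDerivAt_q1 (hP : P.Good) {R U V : ℝ → ℝ} {s R' U' V' : ℝ}
    (hR : HasDerivAt R R' s) (hU : HasDerivAt U U' s) (hV : HasDerivAt V V' s) :
    HasDerivAt (fun s => P.q1 (R s) (U s) (V s))
      (P.q2 (R s) (U s) (V s) * R' + 2 * P.q1b (R s) (U s) (V s) U' V') s := by
  have hm := linz_hasDerivAt_m hP hR hU hV
  have hX1 : HasDerivAt (fun s => P.X1 (R s)) (P.X2 (R s) * R') s := (hP.hX1 (R s)).comp s hR
  have hY1 : HasDerivAt (fun s => P.Y1 (R s)) (P.Y2 (R s) * R') s := (hP.hY1 (R s)).comp s hR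
  have hY : HasDerivAt (fun s => P.Y (R s)) (P.Y1 (R s) * R') s := (hP.hY (R s)).comp s hR
  have hT1 : HasDerivAt (fun s => P.T1 (R s)) (P.T2 (R s) * R') s := (hP.hT1 (R s)).comp s hR
  refine (((hX1.mul (hU.pow 2)).add (hY1.mul (hm.pow 2))).sub
    ((((hY.const_mul 2).mul hT1).mul hU).mul hm)).congr_deriv ?_
  simp only [Profile.q2, Profile.q1b, Profile.m, Pi.mul_apply, Pi.pow_apply, Nat.cast_ofNat,
    Nat.add_one_sub_one, pow_one]
  ring

theorem linz_hasDerivAt_ZF (hP : P.Good) {R U V : ℝ → ℝ} {s R' U' V' : ℝ}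
    (hR : HasDerivAt R R' s) (hU : HasDerivAt U U' s) (hV : HasDerivAt V V' s) :
    HasDerivAt (fun s => P.ZF (R s) (U s) (V s))
      (P.ZF (R s) U' V' + R' * P.ZF1 (R s) (U s) (V s)) s := by
  have hm := linz_hasDerivAt_m hP hR hU hV
  have hY : HasDerivAt (fun s => P.Y (R s)) (P.Y1 (R s) * R') s := (hP.hY (R s)).comp s hR
  refine (hY.mul hm).congr_deriv ?_
  simp only [Profile.ZF, Profile.ZF1, Profile.m]
  ring

theorem linz_hasDerivAt_ZH (hP : P.Good) {R U V : ℝ → ℝ} {s R' U' V' : ℝ}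
    (hR : HasDerivAt R R' s) (hU : HasDerivAt U U' s) (hV : HasDerivAt V V' s) :
    HasDerivAt (fun s => P.ZH (R s) (U s) (V s))
      (P.ZH (R s) U' V' + R' * P.ZH1 (R s) (U s) (V s)) s := by
  have hm := linz_hasDerivAt_m hP hR hU hV
  have hX : HasDerivAt (fun s => P.X (R s)) (P.X1 (R s) * R') s := (hP.hX (R s)).comp s hR
  have hY : HasDerivAt (fun s => P.Y (R s)) (P.Y1 (R s) * R') s := (hP.hY (R s)).comp s hR
  have hT : HasDerivAt (fun s => P.T (R s)) (P.T1 (R s) * R') s := (hP.hT (R s)).comp s hR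
  refine ((hX.mul hU).sub ((hT.mul hY).mul hm)).congr_deriv ?_
  simp only [Profile.ZH, Profile.ZH1, Profile.m, Pi.mul_apply]
  ring

/-- a function of `(s, t)` whose `t`-derivative vanishes near `(0, t₀)` is independent of `t` there -/
theorem linz_const {U : ℝ × ℝ → ℝ} {t₀ : ℝ}
    (h : ∀ᶠ q in 𝓝 ((0 : ℝ), t₀), HasDerivAt (fun t => U (q.1, t)) 0 q.2) :
    ∀ᶠ t in 𝓝 t₀, HasDerivAt (fun t' => deriv (fun s => U (s, t')) 0) 0 t := by
  obtain ⟨δ, hδ, hb⟩ := Metric.eventually_nhds_iff_ball.mp h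
  have key : ∀ s ∈ Metric.ball (0 : ℝ) δ, ∀ t ∈ Metric.ball t₀ δ, U (s, t) = U (s, t₀) := by
    intro s hs t ht
    have hd : ∀ t' ∈ Metric.ball t₀ δ, HasDerivAt (fun t => U (s, t)) 0 t' := by
      intro t' ht'
      refine hb (s, t') ?_
      rw [← ball_prod_same]
      exact ⟨hs, ht'⟩
    have hconv : Convex ℝ (Metric.ball t₀ δ) := convex_ball _ _
    have := hconv.is_const_of_fderivWithin_eq_zero (𝕜 := ℝ) (f := fun t => U (s, t))
      (fun t' ht' => (hd t' ht').differentiableAt.differentiableWithinAt)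
      (fun t' ht' => by
        rw [fderivWithin_of_isOpen Metric.isOpen_ball ht']
        ext
        simp [(hd t' ht').deriv])
      ht (Metric.mem_ball_self hδ)
    exact this
  have hconst : ∀ t ∈ Metric.ball t₀ δ,
      deriv (fun s => U (s, t)) 0 = deriv (fun s => U (s, t₀)) 0 := by
    intro t ht
    refine Filter.EventuallyEq.deriv_eq ?_
    filter_upwards [Metric.ball_mem_nhds (0 : ℝ) hδ] with s hs
    exact key s hs t ht
  filter_upwards [Metric.isOpen_ball.mem_nhds (Metric.mem_ball_self hδ)] with t ht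
  refine (hasDerivAt_const t (deriv (fun s => U (s, t₀)) 0)).congr_of_eventuallyEq ?_
  filter_upwards [Metric.isOpen_ball.mem_nhds ht] with t' ht'
  exact hconst t' ht'

/-- Let `κ` be smooth near `(0, t₀)` and let `t ↦ κ (s, t)` satisfy the geodesic equation of the
collar metric near `(0, t₀)`. Then the collar data of `κ` solve the equations near `t₀`.

Proof: by `GeodesicAt.hamilton`, near `(0, t₀)`: `∂_t (rd) = - q1 (r, U, V) / 2`, `∂_t U = ∂_t V = 0`,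
so `U, V` do not depend on `t` near `(0, t₀)` (mean value theorem on a small box) and neither do
their `s`-derivatives. By `hasDerivAt_dS`, `∂_t dy = ∂_s (∂_t y) = ∂_s ZF (r, U, V)
= ZF1 dr + ZF (du, dv)`, same for `dh`, and `∂_t pi = ∂_s ∂_t rd = ∂_s (- q1 (r, U, V) / 2)
= - q2 dr / 2 - q1b (U, V, du, dv)`. (`ZF, ZH` are linear in `(u, v)`, `q1` is a quadratic form in
`(u, v)` with polarization `q1b`; derivatives in `r` as in Cert.lean.) -/
theorem pathOf_solves (hP : P.Good) {κ : ℝ × ℝ → ℝ × ℝ × ℝ} {t₀ : ℝ}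
    (hκ : ∀ᶠ q in 𝓝 ((0 : ℝ), t₀), ContDiffAt ℝ ∞ κ q)
    (hgeo : ∀ᶠ q in 𝓝 ((0 : ℝ), t₀), GeodesicAt (gcol P) (fun t => κ (q.1, t)) q.2) :
    ∀ᶠ t in 𝓝 t₀, (pathOf P κ).Solves P t := by
  set U : ℝ × ℝ → ℝ := fun q => mu P (κ q) (dT κ q) with hU
  set V : ℝ × ℝ → ℝ := fun q => mv P (κ q) (dT κ q) with hV
  have hH : ∀ᶠ q in 𝓝 ((0 : ℝ), t₀),
      HasDerivAt (fun s => (dT κ (q.1, s)).1) (-(P.q1 (κ q).1 (U q) (V q)) / 2) q.2 ∧
      HasDerivAt (fun s => U (q.1, s)) 0 q.2 ∧ HasDerivAt (fun s => V (q.1, s)) 0 q.2 := by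
    filter_upwards [hκ, hgeo] with q h1 h2
    have hc : ContDiffAt ℝ 2 (fun t => κ (q.1, t)) q.2 := by
      have h3 : ContDiffAt ℝ 2 (fun t : ℝ => ((q.1, t) : ℝ × ℝ)) q.2 := by fun_prop
      have h4 : ContDiffAt ℝ 2 κ ((fun t : ℝ => ((q.1, t) : ℝ × ℝ)) q.2) :=
        h1.of_le (WithTop.coe_le_coe.2 (le_top : (2 : ℕ∞) ≤ ⊤))
      exact h4.comp q.2 h3
    exact h2.hamilton hP hc
  have hUc := linz_const (hH.mono fun q h => h.2.1)
  have hVc := linz_const (hH.mono fun q h => h.2.2)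
  have cont : Tendsto (fun t : ℝ => (((0 : ℝ), t) : ℝ × ℝ)) (𝓝 t₀) (𝓝 ((0 : ℝ), t₀)) :=
    Continuous.tendsto' (by fun_prop) _ _ rfl
  filter_upwards [hUc, hVc, cont.eventually hκ.eventually_nhds, cont.eventually hH.eventually_nhds]
    with t hdu hdv hκt hHt
  have hκt0 : ContDiffAt ℝ ∞ κ (0, t) := hκt.self_of_nhds
  have hdiff : DifferentiableAt ℝ κ (0, t) := hκt0.differentiableAt (by simp)
  have hTs : ContDiffAt ℝ ∞ (dT κ) (0, t) := linz_dT_smooth hκt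
  have hTd : DifferentiableAt ℝ (dT κ) (0, t) := hTs.differentiableAt (by simp)
  obtain ⟨hr1, hu1, hv1⟩ := hHt.self_of_nhds
  -- derivatives in the variation parameter at `(0, t)`
  have sK : HasDerivAt (fun s => κ (s, t)) (dS κ (0, t)) 0 := by
    rw [linz_dS_eq hdiff]
    exact linz_hasDerivAt_S (q := ((0 : ℝ), t)) hdiff.hasFDerivAt
  have sT : HasDerivAt (fun s => dT κ (s, t)) (dS (fun z => dT κ z) (0, t)) 0 := by
    rw [show dS (fun z => dT κ z) (0, t) = fderiv ℝ (dT κ) (0, t) (1, 0) from linz_dS_eq hTd]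
    exact linz_hasDerivAt_S (q := ((0 : ℝ), t)) hTd.hasFDerivAt
  have sK1 : HasDerivAt (fun s => (κ (s, t)).1) (dS κ (0, t)).1 0 := sK.fst
  have sT1 : HasDerivAt (fun s => (dT κ (s, t)).1) (dS (fun z => dT κ z) (0, t)).1 0 := sT.fst
  have sT2 : HasDerivAt (fun s => (dT κ (s, t)).2.1) (dS (fun z => dT κ z) (0, t)).2.1 0 :=
    sT.snd.fst
  have sT3 : HasDerivAt (fun s => (dT κ (s, t)).2.2) (dS (fun z => dT κ z) (0, t)).2.2 0 :=
    sT.snd.snd
  have sX : HasDerivAt (fun s => P.X (κ (s, t)).1) _ 0 := (hP.hX (κ (0, t)).1).comp (0 : ℝ) sK1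
  have sY : HasDerivAt (fun s => P.Y (κ (s, t)).1) _ 0 := (hP.hY (κ (0, t)).1).comp (0 : ℝ) sK1
  have sTT : HasDerivAt (fun s => P.T (κ (s, t)).1) _ 0 := (hP.hT (κ (0, t)).1).comp (0 : ℝ) sK1
  have dU : DifferentiableAt ℝ (fun s => U (s, t)) 0 := by
    have := ((sT2.add (sTT.mul sT3)).div sX (hP.X_pos _).ne').differentiableAt
    exact this
  have dV : DifferentiableAt ℝ (fun s => V (s, t)) 0 := by
    have := ((sTT.mul dU.hasDerivAt).add (sT3.div sY (hP.Y_pos _).ne')).differentiableAt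
    exact this
  have sU := dU.hasDerivAt
  have sV := dV.hasDerivAt
  -- time derivatives
  have tK : HasDerivAt (fun t' => κ (0, t')) (dT κ (0, t)) t := by
    rw [linz_dT_eq hdiff]
    exact linz_hasDerivAt_T (q := ((0 : ℝ), t)) hdiff.hasFDerivAt
  have tS : HasDerivAt (fun t' => dS κ (0, t')) (dS (fun z => dT κ z) (0, t)) t :=
    hasDerivAt_dS (q := ((0 : ℝ), t)) (hκt0.of_le (WithTop.coe_le_coe.2 (le_top : (2 : ℕ∞) ≤ ⊤)))
  refine ⟨⟨?_, ?_, ?_, ?_, ?_, ?_⟩, ?_, ?_, ?_, ?_⟩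
  · exact tK.fst
  · exact hr1
  · show HasDerivAt (fun t => (dS κ (0, t)).1) (deriv (fun s => (dT κ (s, t)).1) 0) t
    rw [sT1.deriv]
    exact tS.fst
  · show HasDerivAt (fun t => deriv (fun s => (dT κ (s, t)).1) 0)
      (-(P.q1b (κ (0, t)).1 (U (0, t)) (V (0, t)) (deriv (fun s => U (s, t)) 0)
        (deriv (fun s => V (s, t)) 0))
        - P.q2 (κ (0, t)).1 (U (0, t)) (V (0, t)) * (dS κ (0, t)).1 / 2) t
    have hc2 : ContDiffAt ℝ 2 (fun z => (dT κ z).1) (0, t) :=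
      (hTs.fst).of_le (WithTop.coe_le_coe.2 (le_top : (2 : ℕ∞) ≤ ⊤))
    have h1 : HasDerivAt (fun t' => dS (fun z => (dT κ z).1) (0, t'))
        (dS (fun z => dT (fun z => (dT κ z).1) z) (0, t)) t :=
      hasDerivAt_dS (q := ((0 : ℝ), t)) hc2
    have h2 : dS (fun z => dT (fun z => (dT κ z).1) z) (0, t)
        = deriv (fun s => -(P.q1 (κ (s, t)).1 (U (s, t)) (V (s, t))) / 2) 0 := by
      have c2 : Tendsto (fun s : ℝ => ((s, t) : ℝ × ℝ)) (𝓝 0) (𝓝 (0, t)) :=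
        Continuous.tendsto' (by fun_prop) _ _ rfl
      refine Filter.EventuallyEq.deriv_eq ?_
      filter_upwards [c2.eventually hHt] with s hs
      exact hs.1.deriv
    have h3 : HasDerivAt (fun s => -(P.q1 (κ (s, t)).1 (U (s, t)) (V (s, t))) / 2)
        (-(P.q2 (κ (0, t)).1 (U (0, t)) (V (0, t)) * (dS κ (0, t)).1
          + 2 * P.q1b (κ (0, t)).1 (U (0, t)) (V (0, t)) (deriv (fun s => U (s, t)) 0)
        (deriv (fun s => V (s, t)) 0)) / 2) 0 :=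
      ((linz_hasDerivAt_q1 hP sK1 sU sV).neg).div_const 2
    rw [h2, h3.deriv] at h1
    refine h1.congr_deriv ?_
    ring
  · show HasDerivAt (fun t => (dS κ (0, t)).2.1) (P.ZH (κ (0, t)).1 (deriv (fun s => U (s, t)) 0)
      (deriv (fun s => V (s, t)) 0) + (dS κ (0, t)).1 * P.ZH1 (κ (0, t)).1 (U (0, t)) (V (0, t))) t
    have h1 : (fun s => (dT κ (s, t)).2.1) = fun s => P.ZH (κ (s, t)).1 (U (s, t)) (V (s, t)) := by
      funext s
      exact (ZH_mu_mv hP (κ (s, t)) (dT κ (s, t))).symm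
    have h2 := linz_hasDerivAt_ZH hP sK1 sU sV
    rw [← h1] at h2
    rw [← h2.deriv, sT2.deriv]
    exact tS.snd.fst
  · show HasDerivAt (fun t => (dS κ (0, t)).2.2) (P.ZF (κ (0, t)).1 (deriv (fun s => U (s, t)) 0)
      (deriv (fun s => V (s, t)) 0) + (dS κ (0, t)).1 * P.ZF1 (κ (0, t)).1 (U (0, t)) (V (0, t))) t
    have h1 : (fun s => (dT κ (s, t)).2.2) = fun s => P.ZF (κ (s, t)).1 (U (s, t)) (V (s, t)) := by
      funext s
      exact (ZF_mu_mv hP (κ (s, t)) (dT κ (s, t))).symm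
    have h2 := linz_hasDerivAt_ZF hP sK1 sU sV
    rw [← h1] at h2
    rw [← h2.deriv, sT3.deriv]
    exact tS.snd.snd
  · exact hu1
  · exact hv1
  · exact hdu
  · exact hdv

end Pool.Agent.NCQ
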