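import Pool.Agent.NCQ.GCol

/-! # NCQ: invariance properties of the collar data -/

open Set Filter Topology
open scoped ContDiff

namespace Pool.Agent.NCQ

variable {P : Profile}

/-- squared length of the Jacobi field in the collar -/
theorem pathOf_N (κ : ℝ × ℝ → ℝ × ℝ × ℝ) (t : ℝ) :
    ((pathOf P κ).orb t).N P t = gcol P (κ (0, t)) (dS κ (0, t)) (dS κ (0, t)) := by
  simp only [Orb.N, Path.orb, pathOf, gcol]
  ring

private theorem lzb_dT {κ κ' : ℝ × ℝ → ℝ × ℝ × ℝ} {q : ℝ × ℝ} {c : ℝ × ℝ × ℝ}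
    (h : ∀ᶠ q' in 𝓝 q, κ' q' = κ q' + c) : dT κ' q = dT κ q := by
  unfold dT
  have hc : Filter.Tendsto (fun t : ℝ => (q.1, t)) (𝓝 q.2) (𝓝 q) := by
    have : Continuous (fun t : ℝ => (q.1, t)) := by fun_prop
    exact this.tendsto q.2
  have h1 : (fun t => κ' (q.1, t)) =ᶠ[𝓝 q.2] fun t => κ (q.1, t) + c := hc.eventually h
  rw [h1.deriv_eq]
  exact deriv_add_const c

private theorem lzb_dS {κ κ' : ℝ × ℝ → ℝ × ℝ × ℝ} {q : ℝ × ℝ} {c : ℝ × ℝ × ℝ}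
    (h : ∀ᶠ q' in 𝓝 q, κ' q' = κ q' + c) : dS κ' q = dS κ q := by
  unfold dS
  have hc : Filter.Tendsto (fun s : ℝ => (s, q.2)) (𝓝 q.1) (𝓝 q) := by
    have : Continuous (fun s : ℝ => (s, q.2)) := by fun_prop
    exact this.tendsto q.1
  have h1 : (fun s => κ' (s, q.2)) =ᶠ[𝓝 q.1] fun s => κ (s, q.2) + c := hc.eventually h
  rw [h1.deriv_eq]
  exact deriv_add_const c

private theorem lzb_s {κ κ' : ℝ × ℝ → ℝ × ℝ × ℝ} {t a b : ℝ}
    (h : ∀ᶠ q in 𝓝 ((0 : ℝ), t), κ' q = κ q + (0, a, b)) :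
    ∀ᶠ s in 𝓝 (0 : ℝ), dT κ' (s, t) = dT κ (s, t) ∧ (κ' (s, t)).1 = (κ (s, t)).1 := by
  have hc : Filter.Tendsto (fun s : ℝ => (s, t)) (𝓝 0) (𝓝 ((0 : ℝ), t)) := by
    have : Continuous (fun s : ℝ => (s, t)) := by fun_prop
    exact this.tendsto 0
  have h1 := hc.eventually (h.eventually_nhds)
  filter_upwards [h1] with s hs
  refine ⟨lzb_dT hs, ?_⟩
  have := hs.self_of_nhds
  rw [this]
  simp

/-- adding a constant torus vector does not change the collar data -/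
theorem pathOf_eqAt {κ κ' : ℝ × ℝ → ℝ × ℝ × ℝ} {t a b : ℝ}
    (h : ∀ᶠ q in 𝓝 ((0 : ℝ), t), κ' q = κ q + (0, a, b)) :
    (pathOf P κ').EqAt (pathOf P κ) t := by
  have h0 := lzb_s h
  have hT := lzb_dT h
  have hS := lzb_dS h
  have h1 : (κ' (0, t)).1 = (κ (0, t)).1 := h0.self_of_nhds.2
  have hmu : (fun s => mu P (κ' (s, t)) (dT κ' (s, t))) =ᶠ[𝓝 0]
      fun s => mu P (κ (s, t)) (dT κ (s, t)) := by
    filter_upwards [h0] with s hs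
    unfold mu
    rw [hs.1, hs.2]
  have hmv : (fun s => mv P (κ' (s, t)) (dT κ' (s, t))) =ᶠ[𝓝 0]
      fun s => mv P (κ (s, t)) (dT κ (s, t)) := by
    filter_upwards [h0] with s hs
    unfold mv mu
    rw [hs.1, hs.2]
  have hpi : (fun s => (dT κ' (s, t)).1) =ᶠ[𝓝 0] fun s => (dT κ (s, t)).1 := by
    filter_upwards [h0] with s hs
    rw [hs.1]
  unfold Path.EqAt pathOf
  refine ⟨h1, by simp only [hT], by simp only [hS], hpi.deriv_eq, by simp only [hS],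
    by simp only [hS], hmu.self_of_nhds, hmv.self_of_nhds, hmu.deriv_eq, hmv.deriv_eq⟩

/-- the equations at `t₀` only depend on the path near `t₀` -/
theorem Path.Solves.congr {p p' : Path} {t₀ : ℝ} (h : p.Solves P t₀)
    (he : ∀ᶠ t in 𝓝 t₀, p'.EqAt p t) : p'.Solves P t₀ := by
  obtain ⟨e1, e2, e3, e4, e5, e6, e7, e8, e9, e10⟩ := he.self_of_nhds
  have f1 : p'.r =ᶠ[𝓝 t₀] p.r := he.mono fun t ht => ht.1
  have f2 : p'.rd =ᶠ[𝓝 t₀] p.rd := he.mono fun t ht => ht.2.1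
  have f3 : p'.dr =ᶠ[𝓝 t₀] p.dr := he.mono fun t ht => ht.2.2.1
  have f4 : p'.pi =ᶠ[𝓝 t₀] p.pi := he.mono fun t ht => ht.2.2.2.1
  have f5 : p'.dh =ᶠ[𝓝 t₀] p.dh := he.mono fun t ht => ht.2.2.2.2.1
  have f6 : p'.dy =ᶠ[𝓝 t₀] p.dy := he.mono fun t ht => ht.2.2.2.2.2.1
  have f7 : p'.u =ᶠ[𝓝 t₀] p.u := he.mono fun t ht => ht.2.2.2.2.2.2.1
  have f8 : p'.v =ᶠ[𝓝 t₀] p.v := he.mono fun t ht => ht.2.2.2.2.2.2.2.1
  have f9 : p'.du =ᶠ[𝓝 t₀] p.du := he.mono fun t ht => ht.2.2.2.2.2.2.2.2.1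
  have f10 : p'.dv =ᶠ[𝓝 t₀] p.dv := he.mono fun t ht => ht.2.2.2.2.2.2.2.2.2
  obtain ⟨⟨g1, g2, g3, g4, g5, g6⟩, g7, g8, g9, g10⟩ := h
  refine ⟨⟨?_, ?_, ?_, ?_, ?_, ?_⟩, g7.congr_of_eventuallyEq f7, g8.congr_of_eventuallyEq f8,
    g9.congr_of_eventuallyEq f9, g10.congr_of_eventuallyEq f10⟩
  · simp only [Path.orb] at g1 ⊢
    rw [e2]
    exact g1.congr_of_eventuallyEq f1
  · simp only [Path.orb] at g2 ⊢
    rw [e1, e7, e8]
    exact g2.congr_of_eventuallyEq f2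
  · simp only [Path.orb] at g3 ⊢
    rw [e4]
    exact g3.congr_of_eventuallyEq f3
  · simp only [Path.orb] at g4 ⊢
    rw [e1, e3, e7, e8, e9, e10]
    exact g4.congr_of_eventuallyEq f4
  · simp only [Path.orb] at g5 ⊢
    rw [e1, e3, e7, e8, e9, e10]
    exact g5.congr_of_eventuallyEq f5
  · simp only [Path.orb] at g6 ⊢
    rw [e1, e3, e7, e8, e9, e10]
    exact g6.congr_of_eventuallyEq f6

theorem Path.EqAt.N_eq {p p' : Path} {t : ℝ} (he : p'.EqAt p t) :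
    (p'.orb t).N P t = (p.orb t).N P t := by
  obtain ⟨e1, e2, e3, e4, e5, e6, e7, e8, e9, e10⟩ := he
  simp only [Orb.N, Path.orb]
  rw [e1, e3, e5, e6]

end Pool.Agent.NCQ
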