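import Pool.Agent.NCQ.MetGlue

/-! # NCQ: pull back of the metric to the collar coordinates -/

open Set Filter Topology
open scoped ContDiff

namespace Pool.Agent.NCQ

variable {A : Matrix.SpecialLinearGroup (Fin 2) ℤ} {k0 : ℝ}

/-- the linear part of `col0` -/
private noncomputable def dcol (A : Matrix.SpecialLinearGroup (Fin 2) ℤ) (k0 : ℝ) :
    ℝ × ℝ × ℝ →L[ℝ] ℝ × ℝ × ℝ :=
  LinearMap.toContinuousLinearMap
    { toFun := fun v => (-v.1 / lam k0, v.2.2 / kF k0, (v.2.1 + ee A k0 * v.2.2) / kH)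
      map_add' := by
        intro v w
        ext <;> simp <;> ring
      map_smul' := by
        intro c v
        ext <;> simp <;> ring }

private theorem dcol_apply (v : ℝ × ℝ × ℝ) :
    dcol A k0 v = (-v.1 / lam k0, v.2.2 / kF k0, (v.2.1 + ee A k0 * v.2.2) / kH) := rfl

private theorem hasFDerivAt_col0 (x : ℝ × ℝ × ℝ) : HasFDerivAt (col0 A k0) (dcol A k0) x := by
  have h := ((dcol A k0).hasFDerivAt (x := x)).const_add (cc0 k0 / lam k0, (0 : ℝ), (0 : ℝ))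
  refine h.congr_of_eventuallyEq (Eventually.of_forall fun y => ?_)
  show col0 A k0 y = (cc0 k0 / lam k0, (0 : ℝ), (0 : ℝ)) + dcol A k0 y
  rw [dcol_apply]
  unfold col0
  ext <;> simp <;> ring

private theorem fderiv_comp_col0 {F : ℝ × ℝ × ℝ → ℂ × ℝ} (hF : Differentiable ℝ F)
    (x v : ℝ × ℝ × ℝ) :
    fderiv ℝ (fun z => F (col0 A k0 z)) x v = fderiv ℝ F (col0 A k0 x) (dcol A k0 v) := by
  have h : HasFDerivAt (fun z => F (col0 A k0 z))
      ((fderiv ℝ F (col0 A k0 x)).comp (dcol A k0)) x :=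
    (hF (col0 A k0 x)).hasFDerivAt.comp x (hasFDerivAt_col0 x)
  rw [h.fderiv]
  rfl

private theorem kF_ne (hk : 0 < k0) : kF k0 ≠ 0 := (kF_pos hk).ne'

private theorem kH_ne : kH ≠ 0 := kH_pos.ne'

/-- the torus form of copy `0` in the coordinates `(h, y)` -/
theorem tor_col0 (hk : 0 < k0) (r : ℝ) (v w : ℝ × ℝ × ℝ) :
    v.1 * w.1 + tor A k0 0 r (v.2.2 / kF k0, (v.2.1 + ee A k0 * v.2.2) / kH)
      (w.2.2 / kF k0, (w.2.1 + ee A k0 * w.2.2) / kH) =
      v.1 * w.1 + (v.2.1 + (pr A k0).T r * v.2.2) * (w.2.1 + (pr A k0).T r * w.2.2)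
        / (pr A k0).X r + v.2.2 * w.2.2 / (pr A k0).Y r := by
  have h1 : ∀ v : ℝ × ℝ × ℝ, kH * ((v.2.1 + ee A k0 * v.2.2) / kH)
      + (ee A k0 * theta r - ee A k0) * kF k0 * (v.2.2 / kF k0)
      = v.2.1 + ee A k0 * theta r * v.2.2 := by
    intro v
    rw [mul_div_cancel₀ _ kH_ne, mul_assoc, mul_div_cancel₀ _ (kF_ne hk)]
    ring
  have hX : (pr A k0).X r = 1 / eta k1 r ^ 2 := rfl
  have hY : (pr A k0).Y r = 1 / ff k0 r ^ 2 := rfl
  have hT : (pr A k0).T r = ee A k0 * theta r := rfl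
  unfold tor
  rw [if_pos rfl, hX, hY, hT]
  simp only []
  rw [h1 v, h1 w, div_div_eq_mul_div, div_one, div_div_eq_mul_div, div_one]
  have h2 : ff k0 r ^ 2 * kF k0 ^ 2 * (v.2.2 / kF k0 * (w.2.2 / kF k0))
      = ff k0 r ^ 2 * (v.2.2 * w.2.2) := by
    have := kF_ne hk
    field_simp
  rw [h2]
  ring

private theorem col0_bounds (hk : 0 < k0) (hk' : k0 ≤ 1 / 1000) {x : ℝ × ℝ × ℝ} (h0 : -cc1 < x.1)
    (h1 : x.1 < cc0 k0) : 0 < (col0 A k0 x).1 ∧ (col0 A k0 x).1 < 1 / 4 := by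
  have hl : 0 < lam k0 := (cc_bounds hk hk').2.2
  have e : (col0 A k0 x).1 = (cc0 k0 - x.1) / lam k0 := rfl
  rw [e]
  refine ⟨div_pos (by linarith) hl, ?_⟩
  rw [div_lt_iff₀ hl]
  unfold lam
  linarith

private theorem pull_aux (hk : 0 < k0) (hk' : k0 ≤ 1 / 1000) {x : ℝ × ℝ × ℝ} (h0 : -cc1 < x.1)
    (h1 : x.1 < cc0 k0) (v w : ℝ × ℝ × ℝ) :
    gform A k0 0 (polar (col0 A k0 x)) (fderiv ℝ polar (col0 A k0 x) (dcol A k0 v))
      (fderiv ℝ polar (col0 A k0 x) (dcol A k0 w)) = gcol (pr A k0) x v w := by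
  have hl : lam k0 ≠ 0 := (cc_bounds hk hk').2.2.ne'
  obtain ⟨b0, b1⟩ := col0_bounds (A := A) hk hk' h0 h1
  rw [gform_polar 0 b0 b1, dcol_apply, dcol_apply]
  have hr : rad k0 0 (col0 A k0 x).1 = x.1 := by
    have e : (col0 A k0 x).1 = (cc0 k0 - x.1) / lam k0 := rfl
    unfold rad
    rw [if_pos rfl, e, mul_div_cancel₀ _ hl]
    ring
  rw [hr]
  have h2 : lam k0 ^ 2 * (-v.1 / lam k0 * (-w.1 / lam k0)) = v.1 * w.1 := by
    field_simp
  simp only []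
  rw [h2, tor_col0 hk]
  rfl

/-- **The collar metric, copy 0.** `Φ = polar ∘ col0` is a local isometry. -/
theorem pull0 (hk : 0 < k0) (hk' : k0 ≤ 1 / 1000) {x : ℝ × ℝ × ℝ} (h0 : -cc1 < x.1)
    (h1 : x.1 < cc0 k0) (v w : ℝ × ℝ × ℝ) :
    gform A k0 0 (polar (col0 A k0 x)) (fderiv ℝ (fun z => polar (col0 A k0 z)) x v)
      (fderiv ℝ (fun z => polar (col0 A k0 z)) x w) = gcol (pr A k0) x v w := by
  have hp : Differentiable ℝ polar := contDiff_polar.differentiable (by simp)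
  rw [fderiv_comp_col0 hp, fderiv_comp_col0 hp]
  exact pull_aux hk hk' h0 h1 v w

/-- **The collar metric, copy 1.** -/
theorem pull1 (hd : A.1 1 1 = 0) (hk : 0 < k0) (hk' : k0 ≤ 1 / 1000) {x : ℝ × ℝ × ℝ}
    (h0 : -cc1 < x.1) (h1 : x.1 < cc0 k0) (v w : ℝ × ℝ × ℝ) :
    gform A k0 1 (polar (flip A (col0 A k0 x)))
      (fderiv ℝ (fun z => polar (flip A (col0 A k0 z))) x v)
      (fderiv ℝ (fun z => polar (flip A (col0 A k0 z))) x w) = gcol (pr A k0) x v w := by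
  have hp : Differentiable ℝ (fun z => polar (flip A z)) :=
    (contDiff_polar.comp contDiff_flip).differentiable (by simp)
  obtain ⟨b0, b1⟩ := col0_bounds (A := A) hk hk' h0 h1
  rw [fderiv_comp_col0 (F := fun z => polar (flip A z)) hp,
    fderiv_comp_col0 (F := fun z => polar (flip A z)) hp, ← gform_glue hd hk b0 b1]
  exact pull_aux hk hk' h0 h1 v w

end Pool.Agent.NCQ
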