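import Pool.Agent.NCQ.Gm
import Pool.Agent.NCQ.Pull
import Pool.Agent.NCQ.Lift
import Pool.Agent.NCQ.Linz
import Pool.Agent.NCQ.LinzB
import Pool.Agent.NCQ.Cov
import Pool.Agent.NCQ.GClm

/-! # NCQ: collar lifts of a variation through geodesics -/

open Set Filter Topology
open scoped ContDiff

namespace Pool.Agent.NCQ

variable {A : Matrix.SpecialLinearGroup (Fin 2) ℤ} {k0 : ℝ}

/-- `κ` is a lift of `α` near `p` to the collar coordinates `(r, h, y)`, through geodesics. -/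
structure IsCol (A : Matrix.SpecialLinearGroup (Fin 2) ℤ) (k0 : ℝ) (α : ℝ × ℝ → MBar A)
    (p : ℝ × ℝ) (κ : ℝ × ℝ → ℝ × ℝ × ℝ) : Prop where
  smooth : ∀ᶠ q in 𝓝 p, ContDiffAt ℝ ∞ κ q
  lower : -cc1 < (κ p).1
  upper : (κ p).1 < cc0 k0
  lift : IsLift α p 0 (fun q => polar (col0 A k0 (κ q)))
  geo : ∀ᶠ q in 𝓝 p, GeodesicAt (gcol (pr A k0)) (fun t => κ (q.1, t)) q.2

variable {α : ℝ × ℝ → MBar A}

theorem col0_col0inv (hk : 0 < k0) (hk' : k0 ≤ 1 / 1000) (y : ℝ × ℝ × ℝ) :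
    col0 A k0 (col0inv A k0 y) = y := by
  obtain ⟨-, -, hl⟩ := cc_bounds hk hk'
  have hF := kF_pos hk
  have hH := kH_pos
  obtain ⟨a, b, c⟩ := y
  simp only [col0, col0inv, Prod.mk.injEq]
  refine ⟨by field_simp; ring, by field_simp, by field_simp; ring⟩

theorem col0_bounds (hk : 0 < k0) (hk' : k0 ≤ 1 / 1000) {x : ℝ × ℝ × ℝ} (h0 : -cc1 < x.1)
    (h1 : x.1 < cc0 k0) : 0 < (col0 A k0 x).1 ∧ (col0 A k0 x).1 < 1 / 4 := by
  obtain ⟨-, -, hl⟩ := cc_bounds hk hk'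
  simp only [col0]
  refine ⟨div_pos (by linarith) hl, ?_⟩
  rw [div_lt_iff₀ hl]
  simp only [lam]
  linarith

theorem contDiff_col0 : ContDiff ℝ ∞ (col0 A k0) := by
  unfold col0
  fun_prop

/-- being a collar lift is an open condition -/
theorem IsCol.eventually {p : ℝ × ℝ} {κ : ℝ × ℝ → ℝ × ℝ × ℝ} (h : IsCol A k0 α p κ) :
    ∀ᶠ q in 𝓝 p, IsCol A k0 α q κ := by
  have hc : ContinuousAt κ p := h.smooth.self_of_nhds.continuousAt
  have hc1 : ContinuousAt (fun q => (κ q).1) p := hc.fst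
  filter_upwards [h.smooth.eventually_nhds, hc1.eventually (lt_mem_nhds h.lower),
    hc1.eventually (gt_mem_nhds h.upper), h.lift.eventually, h.geo.eventually_nhds]
    with q h1 h2 h3 h4 h5
  exact ⟨h1, h2, h3, h4, h5⟩

/-- From a collar lift we get a lift to copy `1`. (`IsLift.flip`) -/
theorem IsCol.lift1 (hk : 0 < k0) (hk' : k0 ≤ 1 / 1000) {p : ℝ × ℝ} {κ : ℝ × ℝ → ℝ × ℝ × ℝ}
    (h : IsCol A k0 α p κ) : IsLift α p 1 (fun q => polar (flip A (col0 A k0 (κ q)))) := by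
  obtain ⟨hb0, hb1⟩ := col0_bounds (A := A) hk hk' h.lower h.upper
  refine IsLift.flip (κ := fun q => col0 A k0 (κ q)) ?_ hb0 hb1 h.lift
  filter_upwards [h.smooth] with q hq
  exact contDiff_col0.contDiffAt.comp q hq

/-- common part of the two following lemmas -/
theorem geo_of_lift_aux (hd : A.1 1 1 = 0) (hk : 0 < k0) (hk' : k0 ≤ 1 / 1000) (i : Fin 2)
    {Φ : ℝ × ℝ × ℝ → ℂ × ℝ} (hΦ : ContDiff ℝ ∞ Φ)
    (hm : ∀ x : ℝ × ℝ × ℝ, -cc1 < x.1 → x.1 < cc0 k0 → Φ x ∈ piece)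
    (hp : ∀ x : ℝ × ℝ × ℝ, -cc1 < x.1 → x.1 < cc0 k0 → ∀ v w,
      gform A k0 i (Φ x) (fderiv ℝ Φ x v) (fderiv ℝ Φ x w) = gcol (pr A k0) x v w)
    {c : ℝ → ℝ × ℝ × ℝ}
    {t : ℝ} {m n k : ℤ} (hc : ContDiffAt ℝ 2 c t) (h0 : -cc1 < (c t).1) (h1 : (c t).1 < cc0 k0)
    (h : GeodesicAt (gform A k0 i) (fun s => Φ (c s) + lat m n k) t) :
    GeodesicAt (gcol (pr A k0)) c t := by
  obtain ⟨G, hG, hGs⟩ := (gm A hd k0 hk hk').exists_clm i
  have hmem : Φ (c t) + lat m n k ∈ piece := add_lat_mem (hm _ h0 h1) m n k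
  have hΨ : ContDiff ℝ ∞ (fun x => Φ x + lat m n k) := hΦ.add contDiff_const
  have e1 : GeodesicAt (fun x v w => G x v w) (fun s => Φ (c s) + lat m n k) t := by
    have : (fun x v w => G x v w) = gform A k0 i := by
      funext x v w
      exact hG x v w
    rw [this]
    exact h
  have h2 := GeodesicAt.of_comp G (fun x v w => by rw [hG, hG]; exact gform_symm i x v w)
    (Φ := fun x => Φ x + lat m n k) (c := c) (t := t)
    ((hGs _ hmem).of_le (by exact_mod_cast le_top))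
    (hΨ.of_le (by norm_cast)).contDiffAt hc e1
  refine GeodesicAt.congr ?_ hc.continuousAt (Eventually.of_forall fun _ => rfl) h2
  have ho : IsOpen {x : ℝ × ℝ × ℝ | -cc1 < x.1 ∧ x.1 < cc0 k0} :=
    (isOpen_lt continuous_const continuous_fst).inter (isOpen_lt continuous_fst continuous_const)
  filter_upwards [ho.mem_nhds (show c t ∈ _ from ⟨h0, h1⟩)] with x hx v w
  rw [fderiv_add_const, hG, ← hp x hx.1 hx.2 v w]
  have h3 := (gm A hd k0 hk hk').trans i (Φ x) (fderiv ℝ Φ x v) (fderiv ℝ Φ x w) m n k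
  rw [show Φ x + lat m n k = ((Φ x).1 + m + n * Complex.I, (Φ x).2 + k) by
    simp only [lat, Prod.ext_iff, Prod.fst_add, Prod.snd_add, and_true]
    ring]
  exact h3.symm

/-- The geodesic equation in the collar coordinates, copy `0`: `GeodesicAt.of_comp` for
`Φ = polar ∘ col0 + lat m n k`, `G` from `GMMetric.exists_clm`, then `pull0` and `GeodesicAt.congr`
(the metric is invariant under translations by `lat m n k`: `gm.trans`). -/
theorem geo_of_lift0 (hd : A.1 1 1 = 0) (hk : 0 < k0) (hk' : k0 ≤ 1 / 1000) {c : ℝ → ℝ × ℝ × ℝ}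
    {t : ℝ} {m n k : ℤ} (hc : ContDiffAt ℝ 2 c t) (h0 : -cc1 < (c t).1) (h1 : (c t).1 < cc0 k0)
    (h : GeodesicAt (gform A k0 0) (fun s => polar (col0 A k0 (c s)) + lat m n k) t) :
    GeodesicAt (gcol (pr A k0)) c t := by
  refine geo_of_lift_aux hd hk hk' 0 (contDiff_polar.comp contDiff_col0) ?_ ?_ hc h0 h1 h
  · intro x hx hx'
    obtain ⟨hb0, hb1⟩ := col0_bounds (A := A) hk hk' hx hx'
    exact polar_mem hb0 hb1
  · intro x hx hx' v w
    exact pull0 hk hk' hx hx' v w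

/-- same for copy `1`, with `pull1` -/
theorem geo_of_lift1 (hd : A.1 1 1 = 0) (hk : 0 < k0) (hk' : k0 ≤ 1 / 1000) {c : ℝ → ℝ × ℝ × ℝ}
    {t : ℝ} {m n k : ℤ} (hc : ContDiffAt ℝ 2 c t) (h0 : -cc1 < (c t).1) (h1 : (c t).1 < cc0 k0)
    (h : GeodesicAt (gform A k0 1) (fun s => polar (flip A (col0 A k0 (c s))) + lat m n k) t) :
    GeodesicAt (gcol (pr A k0)) c t := by
  refine geo_of_lift_aux hd hk hk' 1
    (contDiff_polar.comp (contDiff_flip.comp contDiff_col0)) ?_ ?_ hc h0 h1 h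
  · intro x hx hx'
    obtain ⟨hb0, hb1⟩ := col0_bounds (A := A) hk hk' hx hx'
    obtain ⟨hb0', hb1'⟩ := flip_bounds (A := A) hb0 hb1
    exact polar_mem hb0' hb1'
  · intro x hx hx' v w
    exact pull1 hd hk hk' hx hx' v w

end Pool.Agent.NCQ
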