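import Pool.Agent.NCQ.Prop

/-! # NCQ: the collar lemma, monotone case -/

open Set Filter Topology

namespace Pool.Agent.NCQ.Orb

variable {o : Orb} {P : Profile}

private theorem r_mono {a b : ℝ} (h : ∀ t ∈ Icc a b, o.Solves P t)
    (hs : ∀ t ∈ Icc a b, 0 < o.rd t) : MonotoneOn o.r (Icc a b) := by
  refine monotoneOn_of_deriv_nonneg (convex_Icc a b)
    (fun t ht => (h t ht).hr.continuousAt.continuousWithinAt)
    (fun t ht => (h t (interior_subset ht)).hr.differentiableAt.differentiableWithinAt)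
    (fun t ht => ?_)
  rw [(h t (interior_subset ht)).hr.deriv]
  exact (hs t (interior_subset ht)).le

private theorem r_anti {a b : ℝ} (h : ∀ t ∈ Icc a b, o.Solves P t)
    (hs : ∀ t ∈ Icc a b, o.rd t < 0) : AntitoneOn o.r (Icc a b) := by
  refine antitoneOn_of_deriv_nonpos (convex_Icc a b)
    (fun t ht => (h t ht).hr.continuousAt.continuousWithinAt)
    (fun t ht => (h t (interior_subset ht)).hr.differentiableAt.differentiableWithinAt)
    (fun t ht => ?_)
  rw [(h t (interior_subset ht)).hr.deriv]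
  exact (hs t (interior_subset ht)).le

private theorem fine_of_WL {b : ℝ} (hb : o.r b ≤ -3) (h : 0 < o.WL P b) : o.Fine P b := by
  refine ⟨fun hz => ?_, fun _ => h, fun h3 => by linarith⟩
  have := (hz.W_eq (P := P)).2.2.2.2.1
  linarith

private theorem fine_of_WR {b : ℝ} (hb : 3 ≤ o.r b) (h : 0 < o.WR P b) : o.Fine P b := by
  refine ⟨fun hz => ?_, fun h3 => by linarith, fun _ => h⟩
  have := (hz.W_eq (P := P)).2.2.2.2.2
  linarith

/-- No turning point, moving to the right; `r` is increasing. If `r b ≤ -3`: `WL_pos`. If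
`3 ≤ r a`: `WR_pos`. Otherwise use `W0_pos`: at the start either the field vanishes or
`r a ≤ -3`, `0 < WL a ≤ W0 a` (`W0_sub_WL`); at the end `r b > -3`, and if `3 ≤ r b` then
`WR b ≥ W0 b > 0` (`W0_sub_WR`, `X1 ≤ 0`). -/
theorem collar_right (hP : P.Good) {a b : ℝ} (hab : a < b) (h : ∀ t ∈ Icc a b, o.Solves P t)
    (h0 : o.Start P a) (hs : ∀ t ∈ Icc a b, 0 < o.rd t) : o.Fine P b := by
  have hm := r_mono h hs
  have ha : a ∈ Icc a b := left_mem_Icc.2 hab.le
  have hb : b ∈ Icc a b := right_mem_Icc.2 hab.le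
  rcases le_or_gt (o.r b) (-3) with h1 | h1
  · have hall : ∀ t ∈ Icc a b, o.r t ≤ -3 := fun t ht => (hm ht hb ht.2).trans h1
    refine fine_of_WL h1 (WL_pos hP hab h (fun t ht => (hall t ht).trans (by norm_num)) ?_)
    rcases h0 with h0 | h0 | h0
    · exact Or.inl h0
    · exact Or.inr h0.2
    · have := hall a ha
      linarith [h0.1]
  rcases le_or_gt 3 (o.r a) with h2 | h2
  · have hall : ∀ t ∈ Icc a b, 3 ≤ o.r t := fun t ht => h2.trans (hm ha ht ht.1)
    refine fine_of_WR (hall b hb) (WR_pos hP hab h (fun t ht => by linarith [hall t ht]) ?_)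
    rcases h0 with h0 | h0 | h0
    · exact Or.inl h0
    · linarith [h0.1]
    · exact Or.inr h0.2
  have hW : 0 < o.W0 P b := by
    refine W0_pos hP hab h (fun t ht => (hs t ht).ne') ?_
    rcases h0 with h0 | h0 | h0
    · exact Or.inl h0
    · right
      have e := W0_sub_WL (o := o) hP (t := a) (by linarith [h0.1]) (hs a ha).ne'
      have hY1 := hP.Y1_nonneg (o.r a)
      have hY := hP.Y_pos (o.r a)
      have hrd := hs a ha
      have : 0 ≤ P.Y1 (o.r a) / (2 * P.Y (o.r a) ^ 2 * o.rd a)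
          * (P.ZF (o.r a) o.u o.v * o.dr a - o.rd a * o.dy a) ^ 2 := by positivity
      linarith [h0.2]
    · linarith [h0.1]
  refine ⟨fun hz => ?_, fun h3 => by linarith, fun h3 => ?_⟩
  · have := (hz.W_eq (P := P)).2.2.2.1
    linarith
  · have e := W0_sub_WR (o := o) hP (t := b) (by linarith) (hs b hb).ne'
    have hX1 := hP.X1_nonpos (o.r b)
    have hX := hP.X_pos (o.r b)
    have hrd := hs b hb
    have : P.X1 (o.r b) / (2 * P.X (o.r b) ^ 2 * o.rd b)
        * (P.ZH (o.r b) o.u o.v * o.dr b - o.rd b * o.dh b) ^ 2 ≤ 0 :=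
      mul_nonpos_of_nonpos_of_nonneg (div_nonpos_of_nonpos_of_nonneg hX1 (by positivity))
        (sq_nonneg _)
    linarith

/-- No turning point, moving to the left: symmetric, with `W0 a ≥ WR a` and `WL b ≥ W0 b`. -/
theorem collar_left (hP : P.Good) {a b : ℝ} (hab : a < b) (h : ∀ t ∈ Icc a b, o.Solves P t)
    (h0 : o.Start P a) (hs : ∀ t ∈ Icc a b, o.rd t < 0) : o.Fine P b := by
  have hm := r_anti h hs
  have ha : a ∈ Icc a b := left_mem_Icc.2 hab.le
  have hb : b ∈ Icc a b := right_mem_Icc.2 hab.le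
  rcases le_or_gt 3 (o.r b) with h1 | h1
  · have hall : ∀ t ∈ Icc a b, 3 ≤ o.r t := fun t ht => h1.trans (hm ht hb ht.2)
    refine fine_of_WR h1 (WR_pos hP hab h (fun t ht => by linarith [hall t ht]) ?_)
    rcases h0 with h0 | h0 | h0
    · exact Or.inl h0
    · have := hall a ha
      linarith [h0.1]
    · exact Or.inr h0.2
  rcases le_or_gt (o.r a) (-3) with h2 | h2
  · have hall : ∀ t ∈ Icc a b, o.r t ≤ -3 := fun t ht => (hm ha ht ht.1).trans h2
    refine fine_of_WL (hall b hb)
      (WL_pos hP hab h (fun t ht => (hall t ht).trans (by norm_num)) ?_)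
    rcases h0 with h0 | h0 | h0
    · exact Or.inl h0
    · exact Or.inr h0.2
    · linarith [h0.1]
  have hW : 0 < o.W0 P b := by
    refine W0_pos hP hab h (fun t ht => (hs t ht).ne) ?_
    rcases h0 with h0 | h0 | h0
    · exact Or.inl h0
    · linarith [h0.1]
    · right
      have e := W0_sub_WR (o := o) hP (t := a) (by linarith [h0.1]) (hs a ha).ne
      have hX1 := hP.X1_nonpos (o.r a)
      have hX := hP.X_pos (o.r a)
      have hrd := hs a ha
      have : 0 ≤ P.X1 (o.r a) / (2 * P.X (o.r a) ^ 2 * o.rd a)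
          * (P.ZH (o.r a) o.u o.v * o.dr a - o.rd a * o.dh a) ^ 2 :=
        mul_nonneg (div_nonneg_of_nonpos hX1
          (mul_nonpos_of_nonneg_of_nonpos (by positivity) hrd.le)) (sq_nonneg _)
      linarith [h0.2]
  refine ⟨fun hz => ?_, fun h3 => ?_, fun h3 => by linarith⟩
  · have := (hz.W_eq (P := P)).2.2.2.1
    linarith
  · have e := W0_sub_WL (o := o) hP (t := b) (by linarith) (hs b hb).ne
    have hY1 := hP.Y1_nonneg (o.r b)
    have hY := hP.Y_pos (o.r b)
    have hrd := hs b hb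
    have : P.Y1 (o.r b) / (2 * P.Y (o.r b) ^ 2 * o.rd b)
        * (P.ZF (o.r b) o.u o.v * o.dr b - o.rd b * o.dy b) ^ 2 ≤ 0 :=
      mul_nonpos_of_nonpos_of_nonneg (div_nonpos_of_nonneg_of_nonpos hY1
        (mul_nonpos_of_nonneg_of_nonpos (by positivity) hrd.le)) (sq_nonneg _)
    linarith

end Pool.Agent.NCQ.Orb
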