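import Pool.Agent.NCQ.CollarTurn
import Pool.Agent.NCQ.CollarMono

/-! # NCQ: the collar lemma -/

open Set Filter Topology

namespace Pool.Agent.NCQ.Orb

variable {o : Orb} {P : Profile}

/-- **Collar lemma.** -/
theorem collar (hP : P.Good) {a b : ℝ} (hab : a < b) (h : ∀ t ∈ Icc a b, o.Solves P t)
    (h0 : o.Start P a) : o.Fine P b := by
  by_cases hs : ∃ s ∈ Icc a b, o.rd s = 0
  · exact collar_turn hP hab h h0 hs
  push Not at hs
  have hc : ContinuousOn o.rd (Icc a b) := fun t ht =>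
    (h t ht).hrd.continuousAt.continuousWithinAt
  rcases lt_or_gt_of_ne (hs a (left_mem_Icc.2 hab.le)) with ha | ha
  · refine collar_left hP hab h h0 fun t ht => ?_
    by_contra hcon
    push Not at hcon
    have : (0 : ℝ) ∈ o.rd '' Icc a t :=
      intermediate_value_Icc ht.1 (hc.mono (Icc_subset_Icc_right ht.2)) ⟨ha.le, hcon⟩
    obtain ⟨s, hs', e⟩ := this
    exact hs s ⟨hs'.1, hs'.2.trans ht.2⟩ e
  · refine collar_right hP hab h h0 fun t ht => ?_
    by_contra hcon
    push Not at hcon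
    have : (0 : ℝ) ∈ o.rd '' Icc a t :=
      intermediate_value_Icc' ht.1 (hc.mono (Icc_subset_Icc_right ht.2)) ⟨hcon, ha.le⟩
    obtain ⟨s, hs', e⟩ := this
    exact hs s ⟨hs'.1, hs'.2.trans ht.2⟩ e

end Pool.Agent.NCQ.Orb
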