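import Pool.Agent.NCQ.Prop

/-! # NCQ: the collar lemma, case of a turning point -/

open Set Filter Topology

namespace Pool.Agent.NCQ.Orb

variable {o : Orb} {P : Profile}

/-- A turning point `s` in the interval. Three cases by the sign of `q1` at `r s`.
`q1 > 0`: `le_turn` and `q1_pos_of_le` give `q1 > 0` on the whole interval, `r t ≤ r s < 2`, use
`WF_pos`; at the ends `WF = WL` if `r ≤ -3` (`WF_eq_WL`), and `3 ≤ r` does not occur.
`q1 < 0`: symmetric with `WH`, `WR`. `q1 = 0`: `const_turn`, `w_pos`; if `r ≤ -3` then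
`q1 = Y1 m² = 0` gives `m = 0` and `WL = w` (as `rd = 0`); similarly `WR = w` if `3 ≤ r`. If some
`W b > 0` then `b` is not a zero of the Jacobi field (`Zero.W_eq`). -/
theorem collar_turn (hP : P.Good) {a b : ℝ} (hab : a < b) (h : ∀ t ∈ Icc a b, o.Solves P t)
    (h0 : o.Start P a) (hs : ∃ s ∈ Icc a b, o.rd s = 0) : o.Fine P b := by
  obtain ⟨s, hs, hrd⟩ := hs
  have ha : a ∈ Icc a b := left_mem_Icc.2 hab.le
  have hb : b ∈ Icc a b := right_mem_Icc.2 hab.le
  rcases lt_trichotomy 0 (P.q1 (o.r s) o.u o.v) with hq | hq | hq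
  · -- `q1 > 0`
    have hle := le_turn hP h hs hrd hq
    have hqt : ∀ t ∈ Icc a b, 0 < P.q1 (o.r t) o.u o.v := fun t ht =>
      hP.q1_pos_of_le hq (hle t ht)
    have hW : 0 < o.WF P b := by
      refine WF_pos hP hab h hqt ?_
      rcases h0 with h0 | ⟨hra, hWL⟩ | ⟨hra, hWR⟩
      · exact Or.inl h0
      · refine Or.inr ?_
        rw [WF_eq_WL hP (by linarith) (hP.ZF_ne (hqt a ha))]
        exact hWL
      · have := hP.lt_two (hqt a ha)
        linarith
    refine ⟨fun hz => ?_, fun hrb => ?_, fun hrb => ?_⟩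
    · have := (Zero.W_eq (P := P) hz).2.1
      linarith
    · rw [← WF_eq_WL hP (by linarith) (hP.ZF_ne (hqt b hb))]
      exact hW
    · have := hP.lt_two (hqt b hb)
      linarith
  · -- `q1 = 0`
    have hc := const_turn hP h hs hrd hq.symm
    have hqt : ∀ t ∈ Icc a b, P.q1 (o.r t) o.u o.v = 0 := fun t ht => by
      rw [(hc t ht).1]; exact hq.symm
    have hL : ∀ t ∈ Icc a b, o.r t ≤ -3 → o.WL P t = o.w t := by
      intro t ht hrt
      have h1 := hqt t ht
      rw [hP.q1_left (by linarith)] at h1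
      have h2 := hP.left_Y1 (o.r t) (by linarith)
      have h3 : P.m (o.r t) o.u o.v = 0 := by
        rcases mul_eq_zero.1 h1 with h1 | h1
        · exact absurd h1 h2.ne'
        · exact pow_eq_zero_iff (two_ne_zero) |>.1 h1
      simp [WL, h3, (hc t ht).2]
    have hR : ∀ t ∈ Icc a b, 3 ≤ o.r t → o.WR P t = o.w t := by
      intro t ht hrt
      have h1 := hqt t ht
      rw [hP.q1_right (by linarith)] at h1
      have h2 := hP.right_X1 (o.r t) (by linarith)
      have h3 : o.u = 0 := by
        rcases mul_eq_zero.1 h1 with h1 | h1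
        · exact absurd h1 h2.ne
        · exact pow_eq_zero_iff (two_ne_zero) |>.1 h1
      simp [WR, h3, (hc t ht).2]
    have hW : 0 < o.w b := by
      refine w_pos hP hab h hqt ?_
      rcases h0 with h0 | ⟨hra, hWL⟩ | ⟨hra, hWR⟩
      · exact Or.inl h0
      · rw [hL a ha hra] at hWL
        exact Or.inr hWL
      · rw [hR a ha hra] at hWR
        exact Or.inr hWR
    refine ⟨fun hz => ?_, fun hrb => ?_, fun hrb => ?_⟩
    · have := (Zero.W_eq (P := P) hz).1
      linarith
    · rw [hL b hb hrb]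
      exact hW
    · rw [hR b hb hrb]
      exact hW
  · -- `q1 < 0`
    have hge := ge_turn hP h hs hrd hq
    have hqt : ∀ t ∈ Icc a b, P.q1 (o.r t) o.u o.v < 0 := fun t ht =>
      hP.q1_neg_of_ge hq (hge t ht)
    have hW : 0 < o.WH P b := by
      refine WH_pos hP hab h hqt ?_
      rcases h0 with h0 | ⟨hra, hWL⟩ | ⟨hra, hWR⟩
      · exact Or.inl h0
      · have := hP.neg_two_lt (hqt a ha)
        linarith
      · refine Or.inr ?_
        rw [WH_eq_WR hP (by linarith) (hP.ZH_ne (hqt a ha))]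
        exact hWR
    refine ⟨fun hz => ?_, fun hrb => ?_, fun hrb => ?_⟩
    · have := (Zero.W_eq (P := P) hz).2.2.1
      linarith
    · have := hP.neg_two_lt (hqt b hb)
      linarith
    · rw [← WH_eq_WR hP (by linarith) (hP.ZH_ne (hqt b hb))]
      exact hW

end Pool.Agent.NCQ.Orb
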