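import Pool.Agent.NCQ.MDefs

/-! # NCQ: equality in the quotient `MBar A`

Let `lat m n k = (m + n i, k)`. Explicit description of the equivalence relation generated by
`Glue A`: two points of the same copy are equivalent iff they differ by some `lat m n k`; the points
`(0, x)` and `(1, y)` are equivalent iff `x = polar p + lat m n k` and
`y = polar (flip A p) + lat m' n' k'` for some `p` with `0 < p.1 < 1/4`. Proof: show that this explicit
relation is an equivalence relation (transitivity: `polar_inj` below and integrality of `A` and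
`A⁻¹`), that it contains `Glue A`, and use `Quot.eqvGen_exact` / `Relation.EqvGen` induction. -/

open Set Filter Topology
open scoped ContDiff

namespace Pool.Agent.NCQ

variable {A : Matrix.SpecialLinearGroup (Fin 2) ℤ}

/-- the lattice vector `(m + n i, k)` -/
noncomputable def lat (m n k : ℤ) : ℂ × ℝ := (m + n * Complex.I, k)

theorem lat_add (m n k m' n' k' : ℤ) :
    lat m n k + lat m' n' k' = lat (m + m') (n + n') (k + k') := by
  refine Prod.ext ?_ ?_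
  · simp only [lat, Prod.mk_add_mk]
    push_cast
    ring
  · simp [lat]

theorem lat_neg (m n k : ℤ) : -lat m n k = lat (-m) (-n) (-k) := by
  refine Prod.ext ?_ ?_
  · simp only [lat, Prod.fst_neg]
    push_cast
    ring
  · simp [lat]

theorem lat_zero : lat 0 0 0 = 0 := by
  refine Prod.ext ?_ ?_ <;> simp [lat]

theorem add_lat_mem {x : ℂ × ℝ} (hx : x ∈ piece) (m n k : ℤ) : x + lat m n k ∈ piece := by
  intro m' n' h
  refine hx (m' - m) (n' - n) ?_
  have h' : x.1 + (m + n * Complex.I) = m' + n' * Complex.I := h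
  push_cast
  linear_combination h'

theorem exact_norm_polar_fst (p : ℝ × ℝ × ℝ) (h0 : 0 < p.1) : ‖(polar p).1‖ = p.1 := by
  have h : ‖Complex.exp (2 * Real.pi * p.2.1 * Complex.I)‖ = 1 := by
    have := Complex.norm_exp_ofReal_mul_I (2 * Real.pi * p.2.1)
    push_cast at this
    exact this
  simp only [polar, norm_mul, h, mul_one, Complex.norm_real, Real.norm_eq_abs, abs_of_pos h0]

theorem exact_int_zero_of_norm {m n : ℤ} (h : ‖(m : ℂ) + n * Complex.I‖ < 1) : m = 0 ∧ n = 0 := by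
  have h1 := (Complex.abs_re_le_norm ((m : ℂ) + n * Complex.I)).trans_lt h
  have h2 := (Complex.abs_im_le_norm ((m : ℂ) + n * Complex.I)).trans_lt h
  simp only [Complex.add_re, Complex.intCast_re, Complex.mul_re, Complex.intCast_im,
    Complex.I_re, Complex.I_im, Complex.add_im, Complex.mul_im, mul_zero, mul_one, add_zero,
    zero_add, sub_self] at h1 h2
  constructor
  · have : |m| < 1 := by exact_mod_cast h1
    exact Int.abs_lt_one_iff.mp this
  · have : |n| < 1 := by exact_mod_cast h2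
    exact Int.abs_lt_one_iff.mp this

theorem polar_mem {p : ℝ × ℝ × ℝ} (h0 : 0 < p.1) (h1 : p.1 < 1 / 4) : polar p ∈ piece := by
  intro m n h
  have hn := exact_norm_polar_fst p h0
  have h2 : ‖(m : ℂ) + n * Complex.I‖ < 1 := by
    rw [← h, hn]; linarith
  obtain ⟨rfl, rfl⟩ := exact_int_zero_of_norm h2
  rw [h] at hn
  simp at hn
  linarith

theorem flip_bounds {p : ℝ × ℝ × ℝ} (h0 : 0 < p.1) (h1 : p.1 < 1 / 4) :
    0 < (flip A p).1 ∧ (flip A p).1 < 1 / 4 := by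
  simp only [flip]
  constructor <;> linarith

/-- Polar coordinates in the disjoint discs of radius `1/4` around the lattice points. (The norm of
`(polar p').1 - (polar p).1` is `< 1/2`, so `m = n = 0`; then compare absolute values and
arguments.) -/
theorem polar_inj {p p' : ℝ × ℝ × ℝ} (h0 : 0 < p.1) (h1 : p.1 < 1 / 4) (h0' : 0 < p'.1)
    (h1' : p'.1 < 1 / 4) {m n k : ℤ} (h : polar p' = polar p + lat m n k) :
    m = 0 ∧ n = 0 ∧ ∃ j : ℤ, p' = (p.1, p.2.1 + j, p.2.2 + k) := by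
  have hn := exact_norm_polar_fst p h0
  have hn' := exact_norm_polar_fst p' h0'
  have hfst : (polar p').1 = (polar p).1 + ((m : ℂ) + n * Complex.I) := congrArg Prod.fst h
  have hsnd : p'.2.2 = p.2.2 + k := congrArg Prod.snd h
  have h2 : ‖(m : ℂ) + n * Complex.I‖ < 1 := by
    have e : (m : ℂ) + n * Complex.I = (polar p').1 - (polar p).1 := by rw [hfst]; ring
    rw [e]
    refine (norm_sub_le _ _).trans_lt ?_
    rw [hn, hn']; linarith
  obtain ⟨rfl, rfl⟩ := exact_int_zero_of_norm h2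
  refine ⟨rfl, rfl, ?_⟩
  have hfst' : (polar p').1 = (polar p).1 := by simpa using hfst
  have hp1 : p'.1 = p.1 := by rw [← hn, ← hn', hfst']
  have he : Complex.exp (2 * Real.pi * p'.2.1 * Complex.I)
      = Complex.exp (2 * Real.pi * p.2.1 * Complex.I) := by
    have hne : (p.1 : ℂ) ≠ 0 := by exact_mod_cast h0.ne'
    refine mul_left_cancel₀ hne ?_
    have := hfst'
    simp only [polar, hp1] at this
    exact this
  obtain ⟨j, hj⟩ := Complex.exp_eq_exp_iff_exists_int.mp he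
  refine ⟨j, ?_⟩
  refine Prod.ext hp1 (Prod.ext ?_ hsnd)
  show p'.2.1 = p.2.1 + j
  have hpi : (2 * Real.pi * Complex.I : ℂ) ≠ 0 := Complex.two_pi_I_ne_zero
  have : ((p'.2.1 : ℝ) : ℂ) = ((p.2.1 + j : ℝ) : ℂ) := by
    refine mul_left_cancel₀ hpi ?_
    push_cast
    linear_combination hj
  exact_mod_cast this

theorem exact_polar_add_int (p : ℝ × ℝ × ℝ) (j k : ℤ) :
    polar (p.1, p.2.1 + j, p.2.2 + k) = polar p + lat 0 0 k := by
  refine Prod.ext ?_ ?_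
  · simp only [polar, lat, Int.cast_zero, zero_mul, add_zero, Prod.fst_add]
    congr 1
    rw [Complex.exp_eq_exp_iff_exists_int]
    refine ⟨j, ?_⟩
    push_cast
    ring
  · simp [polar, lat]

theorem mk_add_lat (i : Fin 2) {x : ℂ × ℝ} (hx : x ∈ piece) (m n k : ℤ) :
    Quot.mk (Glue A) (i, ⟨x + lat m n k, add_lat_mem hx m n k⟩) =
      Quot.mk (Glue A) (i, ⟨x, hx⟩) := by
  refine (Quot.sound (Glue.trans i _ _ m n k ?_)).symm
  refine Prod.ext ?_ ?_
  · simp only [lat, Prod.fst_add]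
    ring
  · simp [lat]

theorem mk_polar {p : ℝ × ℝ × ℝ} (h0 : 0 < p.1) (h1 : p.1 < 1 / 4) :
    Quot.mk (Glue A) (0, ⟨polar p, polar_mem h0 h1⟩) =
      Quot.mk (Glue A) (1, ⟨polar (flip A p), polar_mem (flip_bounds h0 h1).1
        (flip_bounds h0 h1).2⟩) :=
  Quot.sound (Glue.collar _ _ p h0 h1 rfl rfl)

/-- the explicit relation between points of the copy `0` and the copy `1` -/
def ExactD (A : Matrix.SpecialLinearGroup (Fin 2) ℤ) (x y : ℂ × ℝ) : Prop :=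
  ∃ (p : ℝ × ℝ × ℝ) (m n k m' n' k' : ℤ), 0 < p.1 ∧ p.1 < 1 / 4 ∧
      x = polar p + lat m n k ∧ y = polar (flip A p) + lat m' n' k'

/-- difference in the lattice -/
def ExactS (x y : ℂ × ℝ) : Prop := ∃ m n k : ℤ, y = x + lat m n k

theorem ExactS.refl (x : ℂ × ℝ) : ExactS x x := ⟨0, 0, 0, by rw [lat_zero, add_zero]⟩

theorem ExactS.symm {x y : ℂ × ℝ} (h : ExactS x y) : ExactS y x := by
  obtain ⟨m, n, k, e⟩ := h
  exact ⟨-m, -n, -k, by rw [e, ← lat_neg]; abel⟩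

theorem ExactS.trans {x y z : ℂ × ℝ} (h : ExactS x y) (h' : ExactS y z) : ExactS x z := by
  obtain ⟨m, n, k, e⟩ := h
  obtain ⟨m', n', k', e'⟩ := h'
  exact ⟨m + m', n + n', k + k', by rw [e', e, ← lat_add]; abel⟩

theorem ExactD.sD {x y z : ℂ × ℝ} (h : ExactS x y) (h' : ExactD A y z) : ExactD A x z := by
  obtain ⟨m, n, k, e⟩ := h.symm
  obtain ⟨p, m1, n1, k1, m2, n2, k2, h0, h1, e1, e2⟩ := h'
  exact ⟨p, m1 + m, n1 + n, k1 + k, m2, n2, k2, h0, h1, by rw [e, e1, ← lat_add]; abel, e2⟩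

theorem ExactD.Ds {x y z : ℂ × ℝ} (h : ExactD A x y) (h' : ExactS y z) : ExactD A x z := by
  obtain ⟨m, n, k, e⟩ := h'
  obtain ⟨p, m1, n1, k1, m2, n2, k2, h0, h1, e1, e2⟩ := h
  exact ⟨p, m1, n1, k1, m2 + m, n2 + n, k2 + k, h0, h1, e1, by rw [e, e2, ← lat_add]; abel⟩

theorem ExactD.det (A : Matrix.SpecialLinearGroup (Fin 2) ℤ) :
    A.1 0 0 * A.1 1 1 - A.1 0 1 * A.1 1 0 = 1 := by
  have := A.2
  rwa [Matrix.det_fin_two] at this

theorem ExactD.left {x y y' : ℂ × ℝ} (h : ExactD A x y) (h' : ExactD A x y') : ExactS y y' := by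
  obtain ⟨p, m1, n1, k1, m2, n2, k2, h0, h1, e1, e2⟩ := h
  obtain ⟨p', m1', n1', k1', m2', n2', k2', h0', h1', e1', e2'⟩ := h'
  have e : polar p' = polar p + lat (m1 - m1') (n1 - n1') (k1 - k1') := by
    have : polar p' + lat m1' n1' k1' = polar p + lat m1 n1 k1 := by rw [← e1, ← e1']
    have h3 : lat (m1 - m1') (n1 - n1') (k1 - k1') = lat m1 n1 k1 + -lat m1' n1' k1' := by
      rw [lat_neg, lat_add]; rfl
    rw [h3, ← add_assoc, ← this]
    abel
  obtain ⟨-, -, j, hj⟩ := polar_inj h0 h1 h0' h1' e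
  have hf : flip A p' = ((flip A p).1, (flip A p).2.1 + ((A.1 0 0 * j + A.1 0 1 * (k1 - k1') : ℤ) : ℝ),
      (flip A p).2.2 + ((A.1 1 0 * j + A.1 1 1 * (k1 - k1') : ℤ) : ℝ)) := by
    rw [hj]
    simp only [flip]
    refine Prod.ext rfl (Prod.ext ?_ ?_)
    · push_cast; ring
    · push_cast; ring
  rw [e2, e2', hf, exact_polar_add_int]
  refine ⟨0 + m2' - m2, 0 + n2' - n2, (A.1 1 0 * j + A.1 1 1 * (k1 - k1')) + k2' - k2, ?_⟩
  have h3 : lat (0 + m2' - m2) (0 + n2' - n2) ((A.1 1 0 * j + A.1 1 1 * (k1 - k1')) + k2' - k2)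
      = lat 0 0 (A.1 1 0 * j + A.1 1 1 * (k1 - k1')) + lat m2' n2' k2' + -lat m2 n2 k2 := by
    rw [lat_neg, lat_add, lat_add]; rfl
  rw [h3]
  abel

theorem ExactD.right {x x' y : ℂ × ℝ} (h : ExactD A x y) (h' : ExactD A x' y) : ExactS x x' := by
  obtain ⟨p, m1, n1, k1, m2, n2, k2, h0, h1, e1, e2⟩ := h
  obtain ⟨p', m1', n1', k1', m2', n2', k2', h0', h1', e1', e2'⟩ := h'
  have e : polar (flip A p') = polar (flip A p) + lat (m2 - m2') (n2 - n2') (k2 - k2') := by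
    have : polar (flip A p') + lat m2' n2' k2' = polar (flip A p) + lat m2 n2 k2 := by
      rw [← e2, ← e2']
    have h3 : lat (m2 - m2') (n2 - n2') (k2 - k2') = lat m2 n2 k2 + -lat m2' n2' k2' := by
      rw [lat_neg, lat_add]; rfl
    rw [h3, ← add_assoc, ← this]
    abel
  obtain ⟨-, -, j, hj⟩ := polar_inj (flip_bounds h0 h1).1 (flip_bounds h0 h1).2
    (flip_bounds h0' h1').1 (flip_bounds h0' h1').2 e
  have hdet : ((A.1 0 0 : ℤ) : ℝ) * A.1 1 1 - A.1 0 1 * A.1 1 0 = 1 := by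
    exact_mod_cast ExactD.det A
  have hj1 : 1 / 4 - p'.1 = 1 / 4 - p.1 := congrArg Prod.fst hj
  have hj2 : A.1 0 0 * p'.2.1 + A.1 0 1 * p'.2.2
      = A.1 0 0 * p.2.1 + A.1 0 1 * p.2.2 + j := congrArg (fun z => z.2.1) hj
  have hj3 : A.1 1 0 * p'.2.1 + A.1 1 1 * p'.2.2
      = A.1 1 0 * p.2.1 + A.1 1 1 * p.2.2 + (k2 - k2' : ℤ) := congrArg (fun z => z.2.2) hj
  have hp : p' = (p.1, p.2.1 + ((A.1 1 1 * j - A.1 0 1 * (k2 - k2') : ℤ) : ℝ),
      p.2.2 + ((A.1 0 0 * (k2 - k2') - A.1 1 0 * j : ℤ) : ℝ)) := by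
    refine Prod.ext (by linarith) (Prod.ext ?_ ?_)
    · show p'.2.1 = p.2.1 + _
      push_cast at hj3 ⊢
      linear_combination (A.1 1 1 : ℝ) * hj2 - (A.1 0 1 : ℝ) * hj3
        - (p'.2.1 - p.2.1) * hdet
    · show p'.2.2 = p.2.2 + _
      push_cast at hj3 ⊢
      linear_combination (A.1 0 0 : ℝ) * hj3 - (A.1 1 0 : ℝ) * hj2
        - (p'.2.2 - p.2.2) * hdet
  rw [e1, e1', hp, exact_polar_add_int]
  refine ⟨0 + m1' - m1, 0 + n1' - n1, (A.1 0 0 * (k2 - k2') - A.1 1 0 * j) + k1' - k1, ?_⟩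
  have h3 : lat (0 + m1' - m1) (0 + n1' - n1) ((A.1 0 0 * (k2 - k2') - A.1 1 0 * j) + k1' - k1)
      = lat 0 0 (A.1 0 0 * (k2 - k2') - A.1 1 0 * j) + lat m1' n1' k1' + -lat m1 n1 k1 := by
    rw [lat_neg, lat_add, lat_add]; rfl
  rw [h3]
  abel

/-- the explicit relation -/
def ExactE (A : Matrix.SpecialLinearGroup (Fin 2) ℤ) (a b : Fin 2 × piece) : Prop :=
  (a.1 = b.1 ∧ ExactS a.2.1 b.2.1) ∨ (a.1 = 0 ∧ b.1 = 1 ∧ ExactD A a.2.1 b.2.1) ∨
    (a.1 = 1 ∧ b.1 = 0 ∧ ExactD A b.2.1 a.2.1)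

theorem ExactE.symm {a b : Fin 2 × piece} (h : ExactE A a b) : ExactE A b a := by
  rcases h with ⟨h1, h2⟩ | ⟨h1, h2, h3⟩ | ⟨h1, h2, h3⟩
  · exact Or.inl ⟨h1.symm, h2.symm⟩
  · exact Or.inr (Or.inr ⟨h2, h1, h3⟩)
  · exact Or.inr (Or.inl ⟨h2, h1, h3⟩)

theorem ExactE.trans {a b c : Fin 2 × piece} (h : ExactE A a b) (h' : ExactE A b c) : ExactE A a c := by
  rcases h with ⟨h1, h2⟩ | ⟨h1, h2, h3⟩ | ⟨h1, h2, h3⟩
  · rcases h' with ⟨h1', h2'⟩ | ⟨h1', h2', h3'⟩ | ⟨h1', h2', h3'⟩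
    · exact Or.inl ⟨h1.trans h1', h2.trans h2'⟩
    · exact Or.inr (Or.inl ⟨h1.trans h1', h2', ExactD.sD h2 h3'⟩)
    · exact Or.inr (Or.inr ⟨h1.trans h1', h2', ExactD.Ds h3' h2.symm⟩)
  · rcases h' with ⟨h1', h2'⟩ | ⟨h1', h2', h3'⟩ | ⟨h1', h2', h3'⟩
    · exact Or.inr (Or.inl ⟨h1, h1'.symm.trans h2, ExactD.Ds h3 h2'⟩)
    · rw [h2] at h1'
      exact absurd h1' (by decide)
    · exact Or.inl ⟨h1.trans h2'.symm, ExactD.right h3 h3'⟩
  · rcases h' with ⟨h1', h2'⟩ | ⟨h1', h2', h3'⟩ | ⟨h1', h2', h3'⟩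
    · exact Or.inr (Or.inr ⟨h1, h1'.symm.trans h2, ExactD.sD h2'.symm h3⟩)
    · exact Or.inl ⟨h1.trans h2'.symm, ExactD.left h3 h3'⟩
    · rw [h2] at h1'
      exact absurd h1' (by decide)

theorem ExactE.of_glue {a b : Fin 2 × piece} (h : Glue A a b) : ExactE A a b := by
  cases h with
  | trans i x y m n k h =>
    refine Or.inl ⟨rfl, m, n, k, ?_⟩
    show y.1 = x.1 + lat m n k
    rw [h]
    refine Prod.ext ?_ ?_
    · simp only [lat, Prod.fst_add]; ring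
    · simp [lat]
  | collar x y p h0 h1 hx hy =>
    refine Or.inr (Or.inl ⟨rfl, rfl, p, 0, 0, 0, 0, 0, 0, h0, h1, ?_, ?_⟩)
    · rw [lat_zero, add_zero]; exact hx
    · rw [lat_zero, add_zero]; exact hy

theorem ExactE.of_eqvGen {a b : Fin 2 × piece} (h : Relation.EqvGen (Glue A) a b) : ExactE A a b := by
  induction h with
  | rel _ _ h => exact ExactE.of_glue h
  | refl x => exact Or.inl ⟨rfl, ExactS.refl _⟩
  | symm _ _ _ ih => exact ih.symm
  | trans _ _ _ _ _ ih1 ih2 => exact ih1.trans ih2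

theorem mk_eq_same {i : Fin 2} {x y : piece}
    (h : Quot.mk (Glue A) (i, x) = Quot.mk (Glue A) (i, y)) :
    ∃ m n k : ℤ, y.1 = x.1 + lat m n k := by
  rcases ExactE.of_eqvGen (Quot.eqvGen_exact h) with ⟨-, h2⟩ | ⟨h1, h2, -⟩ | ⟨h1, h2, -⟩
  · exact h2
  · exact absurd (h1.symm.trans h2) (by decide)
  · exact absurd (h1.symm.trans h2) (by decide)

theorem mk_eq_diff {x y : piece} (h : Quot.mk (Glue A) (0, x) = Quot.mk (Glue A) (1, y)) :
    ∃ (p : ℝ × ℝ × ℝ) (m n k m' n' k' : ℤ), 0 < p.1 ∧ p.1 < 1 / 4 ∧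
      x.1 = polar p + lat m n k ∧ y.1 = polar (flip A p) + lat m' n' k' := by
  rcases ExactE.of_eqvGen (Quot.eqvGen_exact h) with ⟨h1, -⟩ | ⟨-, -, h3⟩ | ⟨h1, -, -⟩
  · exact absurd (show (0 : Fin 2) = 1 from h1) (by decide)
  · exact h3
  · exact absurd (show (0 : Fin 2) = 1 from h1) (by decide)

end Pool.Agent.NCQ
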