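import Mathlib

/-! # NCQ: the functions of one variable -/

open Set Filter Topology MeasureTheory
open scoped ContDiff

namespace Pool.Agent.NCQ

/-- `1` on `[-2, 1]`, `0` outside `(-3, 2)` -/
noncomputable def beta (r : ℝ) : ℝ := Real.smoothTransition (r + 3) * Real.smoothTransition (2 - r)

/-- `∫_r^2 beta` -/
noncomputable def G1 (r : ℝ) : ℝ := ∫ s in r..2, beta s

/-- `∫_r^2 G1` -/
noncomputable def G0 (r : ℝ) : ℝ := ∫ s in r..2, G1 s

/-- `1` on `(-∞, -1]`, `0` on `[1, ∞)` -/
noncomputable def theta (r : ℝ) : ℝ := 1 - Real.smoothTransition ((r + 1) / 2)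

theorem contDiff_beta : ContDiff ℝ ∞ beta := by
  unfold beta
  exact (Real.smoothTransition.contDiff.comp (contDiff_id.add contDiff_const)).mul
    (Real.smoothTransition.contDiff.comp (contDiff_const.sub contDiff_id))

theorem beta_nonneg (r : ℝ) : 0 ≤ beta r :=
  mul_nonneg (Real.smoothTransition.nonneg _) (Real.smoothTransition.nonneg _)

theorem beta_le_one (r : ℝ) : beta r ≤ 1 :=
  mul_le_one₀ (Real.smoothTransition.le_one _) (Real.smoothTransition.nonneg _)
    (Real.smoothTransition.le_one _)

theorem beta_eq_one {r : ℝ} (h : r ∈ Icc (-2 : ℝ) 1) : beta r = 1 := by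
  unfold beta
  rw [Real.smoothTransition.one_of_one_le (by linarith [h.1]),
    Real.smoothTransition.one_of_one_le (by linarith [h.2]), mul_one]

theorem beta_right {r : ℝ} (h : 2 ≤ r) : beta r = 0 := by
  unfold beta
  rw [Real.smoothTransition.zero_of_nonpos (x := 2 - r) (by linarith), mul_zero]

theorem beta_left {r : ℝ} (h : r ≤ -3) : beta r = 0 := by
  unfold beta
  rw [Real.smoothTransition.zero_of_nonpos (x := r + 3) (by linarith), zero_mul]

/-- monotonicity of `Real.smoothTransition` -/
theorem beta_antitone : AntitoneOn beta (Ici (-2)) := by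
  intro x hx y hy hxy
  rw [mem_Ici] at hx hy
  unfold beta
  rw [Real.smoothTransition.one_of_one_le (x := x + 3) (by linarith),
    Real.smoothTransition.one_of_one_le (x := y + 3) (by linarith), one_mul, one_mul]
  exact Real.smoothTransition.monotone (by linarith)

private theorem cont_beta : Continuous beta := contDiff_beta.continuous

theorem hasDerivAt_G1 (r : ℝ) : HasDerivAt G1 (-(beta r)) r := by
  unfold G1
  exact intervalIntegral.integral_hasDerivAt_left (cont_beta.intervalIntegrable _ _)
    (cont_beta.stronglyMeasurableAtFilter _ _) cont_beta.continuousAt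

private theorem diff_G1 : Differentiable ℝ G1 := fun r => (hasDerivAt_G1 r).differentiableAt

private theorem cont_G1 : Continuous G1 := diff_G1.continuous

theorem hasDerivAt_G0 (r : ℝ) : HasDerivAt G0 (-(G1 r)) r := by
  unfold G0
  exact intervalIntegral.integral_hasDerivAt_left (cont_G1.intervalIntegrable _ _)
    (cont_G1.stronglyMeasurableAtFilter _ _) cont_G1.continuousAt

/-- by `contDiff_infty_iff_deriv` -/
theorem contDiff_G1 : ContDiff ℝ ∞ G1 := by
  rw [contDiff_infty_iff_deriv]
  refine ⟨diff_G1, ?_⟩
  have : deriv G1 = fun r => -(beta r) := by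
    funext r
    exact (hasDerivAt_G1 r).deriv
  rw [this]
  exact contDiff_beta.neg

theorem contDiff_G0 : ContDiff ℝ ∞ G0 := by
  rw [contDiff_infty_iff_deriv]
  refine ⟨fun r => (hasDerivAt_G0 r).differentiableAt, ?_⟩
  have : deriv G0 = fun r => -(G1 r) := by
    funext r
    exact (hasDerivAt_G0 r).deriv
  rw [this]
  exact contDiff_G1.neg

theorem G1_right {r : ℝ} (h : 2 ≤ r) : G1 r = 0 := by
  unfold G1
  have h1 : ∫ s in r..2, beta s = ∫ s in r..2, (0 : ℝ) := by
    apply intervalIntegral.integral_congr
    intro x hx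
    rw [uIcc_of_ge h] at hx
    exact beta_right hx.1
  rw [h1]
  simp

theorem G1_nonneg (r : ℝ) : 0 ≤ G1 r := by
  rcases le_total r 2 with h | h
  · unfold G1
    exact intervalIntegral.integral_nonneg h (fun x _ => beta_nonneg x)
  · rw [G1_right h]

private theorem G1_antitone : Antitone G1 := by
  apply antitone_of_deriv_nonpos diff_G1
  intro x
  rw [(hasDerivAt_G1 x).deriv]
  have := beta_nonneg x
  linarith

theorem G1_pos {r : ℝ} (h : r < 2) : 0 < G1 r := by
  have hc : max r 1 < 2 := max_lt h (by norm_num)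
  have h1 : G1 (max r 1) ≤ G1 r := G1_antitone (le_max_left _ _)
  refine lt_of_lt_of_le ?_ h1
  unfold G1
  apply intervalIntegral.intervalIntegral_pos_of_pos_on (cont_beta.intervalIntegrable _ _) _ hc
  intro x hx
  have hx1 : 1 < x := lt_of_le_of_lt (le_max_right r 1) hx.1
  exact mul_pos (Real.smoothTransition.pos_of_pos (by linarith))
    (Real.smoothTransition.pos_of_pos (by linarith [hx.2]))

private theorem int_sT : ∫ x in (0 : ℝ)..1, Real.smoothTransition x = 1 / 2 := by
  have hc : Continuous Real.smoothTransition := Real.smoothTransition.continuous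
  have h1 : ∫ x in (0 : ℝ)..1, Real.smoothTransition (1 - x)
      = ∫ x in (0 : ℝ)..1, Real.smoothTransition x := by
    rw [intervalIntegral.integral_comp_sub_left (fun x => Real.smoothTransition x)]
    norm_num
  have h2 : ∀ x : ℝ, Real.smoothTransition x + Real.smoothTransition (1 - x) = 1 := by
    intro x
    unfold Real.smoothTransition
    have hd := Real.smoothTransition.pos_denom x
    have e1 : 1 - (1 - x) = x := by ring
    rw [e1, add_comm (expNegInvGlue (1 - x)) (expNegInvGlue x), ← add_div, div_self hd.ne']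
  have h3 : (∫ x in (0 : ℝ)..1, Real.smoothTransition x)
      + ∫ x in (0 : ℝ)..1, Real.smoothTransition (1 - x) = 1 := by
    have hc' : Continuous (fun x : ℝ => Real.smoothTransition (1 - x)) := by fun_prop
    rw [← intervalIntegral.integral_add (hc.intervalIntegrable _ _)
      (hc'.intervalIntegrable _ _)]
    simp only [h2]
    simp
  rw [h1] at h3
  linarith

private theorem G1_one : G1 1 = 1 / 2 := by
  unfold G1
  have h1 : ∫ s in (1 : ℝ)..2, beta s = ∫ s in (1 : ℝ)..2, Real.smoothTransition (2 - s) := by
    apply intervalIntegral.integral_congr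
    intro x hx
    rw [uIcc_of_le (by norm_num : (1 : ℝ) ≤ 2)] at hx
    show beta x = _
    unfold beta
    rw [Real.smoothTransition.one_of_one_le (x := x + 3) (by linarith [hx.1]), one_mul]
  rw [h1, intervalIntegral.integral_comp_sub_left (fun x => Real.smoothTransition x)]
  rw [show (2 : ℝ) - 2 = 0 by norm_num, show (2 : ℝ) - 1 = 1 by norm_num]
  exact int_sT

private theorem G1_neg_three : G1 (-3) = 4 := by
  have h0 : G1 (-3) = (∫ s in (-3 : ℝ)..(-2), beta s) + (∫ s in (-2 : ℝ)..1, beta s) + G1 1 := by
    unfold G1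
    rw [intervalIntegral.integral_add_adjacent_intervals (cont_beta.intervalIntegrable _ _)
      (cont_beta.intervalIntegrable _ _),
      intervalIntegral.integral_add_adjacent_intervals (cont_beta.intervalIntegrable _ _)
      (cont_beta.intervalIntegrable _ _)]
  have h1 : ∫ s in (-3 : ℝ)..(-2), beta s = 1 / 2 := by
    have h1 : ∫ s in (-3 : ℝ)..(-2), beta s
        = ∫ s in (-3 : ℝ)..(-2), Real.smoothTransition (s + 3) := by
      apply intervalIntegral.integral_congr
      intro x hx
      rw [uIcc_of_le (by norm_num : (-3 : ℝ) ≤ -2)] at hx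
      show beta x = _
      unfold beta
      rw [Real.smoothTransition.one_of_one_le (x := 2 - x) (by linarith [hx.2]), mul_one]
    rw [h1, intervalIntegral.integral_comp_add_right (fun x => Real.smoothTransition x)]
    rw [show (-3 : ℝ) + 3 = 0 by norm_num, show (-2 : ℝ) + 3 = 1 by norm_num]
    exact int_sT
  have h2 : ∫ s in (-2 : ℝ)..1, beta s = 3 := by
    have h1 : ∫ s in (-2 : ℝ)..1, beta s = ∫ s in (-2 : ℝ)..1, (1 : ℝ) := by
      apply intervalIntegral.integral_congr
      intro x hx
      rw [uIcc_of_le (by norm_num : (-2 : ℝ) ≤ 1)] at hx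
      exact beta_eq_one hx
    rw [h1]
    simp
    norm_num
  rw [h0, h1, h2, G1_one]
  norm_num

/-- the integral of `beta` is `4`: use `Real.smoothTransition x + Real.smoothTransition (1 - x) = 1`
to see that the integral of `Real.smoothTransition` over `[0, 1]` is `1 / 2` -/
theorem G1_left {r : ℝ} (h : r ≤ -3) : G1 r = 4 := by
  have h0 : G1 r = (∫ s in r..(-3), beta s) + G1 (-3) := by
    unfold G1
    rw [intervalIntegral.integral_add_adjacent_intervals (cont_beta.intervalIntegrable _ _)
      (cont_beta.intervalIntegrable _ _)]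
  have h1 : ∫ s in r..(-3), beta s = ∫ s in r..(-3), (0 : ℝ) := by
    apply intervalIntegral.integral_congr
    intro x hx
    rw [uIcc_of_le h] at hx
    exact beta_left hx.2
  rw [h0, h1, G1_neg_three]
  simp

theorem G1_le (r : ℝ) : G1 r ≤ 4 := by
  rw [← G1_left (min_le_right r (-3))]
  exact G1_antitone (min_le_left _ _)

/-- the integral of `Real.smoothTransition` over `[0, 1]` is `1 / 2` -/
theorem half_le_G1 {r : ℝ} (h : r ≤ 1) : 1 / 2 ≤ G1 r := by
  rw [← G1_one]
  exact G1_antitone h

/-- property (G): for `r ≤ 1` because `beta r = 1`, for `1 ≤ r ≤ 2` because `beta` is nonincreasing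
there: `G1 r ≤ (2 - r) beta r` -/
theorem G1_le_beta {r : ℝ} (h : r ∈ Icc (-2 : ℝ) 2) : G1 r ≤ 4 * beta r := by
  rcases le_total r 1 with h1 | h1
  · rw [beta_eq_one ⟨h.1, h1⟩, mul_one]
    exact G1_le r
  · have h2 : G1 r ≤ ∫ _s in r..2, beta r := by
      unfold G1
      apply intervalIntegral.integral_mono_on h.2 (cont_beta.intervalIntegrable _ _)
        (continuous_const.intervalIntegrable _ _)
      intro x hx
      exact beta_antitone (by rw [mem_Ici]; linarith) (by rw [mem_Ici]; linarith [hx.1]) hx.1
    rw [intervalIntegral.integral_const, smul_eq_mul] at h2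
    have := beta_nonneg r
    nlinarith [h.2]

theorem G0_right {r : ℝ} (h : 2 ≤ r) : G0 r = 0 := by
  unfold G0
  have h1 : ∫ s in r..2, G1 s = ∫ s in r..2, (0 : ℝ) := by
    apply intervalIntegral.integral_congr
    intro x hx
    rw [uIcc_of_ge h] at hx
    exact G1_right hx.1
  rw [h1]
  simp

theorem G0_nonneg (r : ℝ) : 0 ≤ G0 r := by
  rcases le_total r 2 with h | h
  · unfold G0
    exact intervalIntegral.integral_nonneg h (fun x _ => G1_nonneg x)
  · rw [G0_right h]

theorem G0_left {r : ℝ} (h : r ≤ -3) : G0 r = G0 (-3) + 4 * (-3 - r) := by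
  have h0 : G0 r = (∫ s in r..(-3), G1 s) + G0 (-3) := by
    unfold G0
    rw [intervalIntegral.integral_add_adjacent_intervals (cont_G1.intervalIntegrable _ _)
      (cont_G1.intervalIntegrable _ _)]
  have h1 : ∫ s in r..(-3), G1 s = ∫ s in r..(-3), (4 : ℝ) := by
    apply intervalIntegral.integral_congr
    intro x hx
    rw [uIcc_of_le h] at hx
    exact G1_left hx.2
  rw [h0, h1, intervalIntegral.integral_const, smul_eq_mul]
  ring

theorem G0_le {r : ℝ} (h : -2 ≤ r) : G0 r ≤ 16 := by
  rcases le_total r 2 with h1 | h1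
  · have h2 : G0 r ≤ ∫ _s in r..2, (4 : ℝ) := by
      unfold G0
      exact intervalIntegral.integral_mono_on h1 (cont_G1.intervalIntegrable _ _)
        (continuous_const.intervalIntegrable _ _) (fun x _ => G1_le x)
    rw [intervalIntegral.integral_const, smul_eq_mul] at h2
    linarith
  · rw [G0_right h1]
    norm_num

end Pool.Agent.NCQ
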