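import Pool.Agent.NCQ.Lift

/-! # NCQ: the squared length of the Jacobi field does not depend on the lift -/

open Set Filter Topology
open scoped ContDiff

namespace Pool.Agent.NCQ

variable {A : Matrix.SpecialLinearGroup (Fin 2) ℤ} {α : ℝ × ℝ → MBar A}

/-- partial derivative in the variation parameter -/
noncomputable def dS {E : Type*} [NormedAddCommGroup E] [NormedSpace ℝ E] (x : ℝ × ℝ → E)
    (p : ℝ × ℝ) : E := deriv (fun s => x (s, p.2)) p.1

/-- partial derivative in time -/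
noncomputable def dT {E : Type*} [NormedAddCommGroup E] [NormedSpace ℝ E] (x : ℝ × ℝ → E)
    (p : ℝ × ℝ) : E := deriv (fun t => x (p.1, t)) p.2

theorem dS_congr {E : Type*} [NormedAddCommGroup E] [NormedSpace ℝ E] {x y : ℝ × ℝ → E}
    {p : ℝ × ℝ} (h : ∀ᶠ q in 𝓝 p, x q = y q) : dS x p = dS y p := by
  unfold dS
  apply Filter.EventuallyEq.deriv_eq
  have hc : ContinuousAt (fun s : ℝ => (s, p.2)) p.1 := by fun_prop
  have h' : ∀ᶠ q in 𝓝 ((p.1, p.2) : ℝ × ℝ), x q = y q := h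
  exact hc.eventually h'

theorem dS_add_const {E : Type*} [NormedAddCommGroup E] [NormedSpace ℝ E] (x : ℝ × ℝ → E)
    (c : E) (p : ℝ × ℝ) : dS (fun q => x q + c) p = dS x p := by
  unfold dS
  exact deriv_add_const c

/-- chain rule -/
theorem dS_comp {E F : Type*} [NormedAddCommGroup E] [NormedSpace ℝ E] [NormedAddCommGroup F]
    [NormedSpace ℝ F] {f : E → F} {κ : ℝ × ℝ → E} {p : ℝ × ℝ}
    (hf : DifferentiableAt ℝ f (κ p)) (hκ : DifferentiableAt ℝ κ p) :
    dS (fun q => f (κ q)) p = fderiv ℝ f (κ p) (dS κ p) := by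
  unfold dS
  have h1 : DifferentiableAt ℝ (fun s : ℝ => (s, p.2)) p.1 := by fun_prop
  have h2 : DifferentiableAt ℝ κ ((fun s : ℝ => (s, p.2)) p.1) := hκ
  have h3 : DifferentiableAt ℝ (fun s : ℝ => κ (s, p.2)) p.1 :=
    DifferentiableAt.comp p.1 h2 h1
  have h4 : HasFDerivAt f (fderiv ℝ f (κ p)) ((fun s : ℝ => κ (s, p.2)) p.1) := hf.hasFDerivAt
  exact (h4.comp_hasDerivAt p.1 h3.hasDerivAt).deriv

theorem GMMetric.form_add_lat (g : GMMetric A) (i : Fin 2) (x v w : ℂ × ℝ) (m n k : ℤ) :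
    g.form i (x + lat m n k) v w = g.form i x v w := by
  rw [← g.trans i x v w m n k]
  congr 1
  refine Prod.ext ?_ rfl
  change x.1 + ((m : ℂ) + n * Complex.I) = x.1 + m + n * Complex.I
  ring

/-- the case of a lift to copy `0` and a lift to copy `1` -/
theorem GMMetric.form_lift_eq_01 (g : GMMetric A) {p : ℝ × ℝ}
    {x y : ℝ × ℝ → ℂ × ℝ} (hx : IsLift α p 0 x) (hy : IsLift α p 1 y) :
    g.form 0 (x p) (dS x p) (dS x p) = g.form 1 (y p) (dS y p) (dS y p) := by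
  obtain ⟨κ, m, n, k, m', n', k', h0, h1, h⟩ := hx.diff hy
  obtain ⟨hκ, hxp, hyp⟩ := h.self_of_nhds
  have hκd : DifferentiableAt ℝ κ p := hκ.differentiableAt (by simp)
  have e1 : dS x p = fderiv ℝ polar (κ p) (dS κ p) := by
    rw [dS_congr (h.mono fun q hq => hq.2.1), dS_add_const,
      dS_comp (contDiff_polar.differentiable (by simp) _) hκd]
  have hpf : DifferentiableAt ℝ (fun z => polar (Pool.Agent.NCQ.flip A z)) (κ p) :=
    ((contDiff_polar.comp contDiff_flip).differentiable (by simp)) _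
  have e2 : dS y p = fderiv ℝ (fun z => polar (Pool.Agent.NCQ.flip A z)) (κ p) (dS κ p) := by
    rw [dS_congr (h.mono fun q hq => hq.2.2), dS_add_const,
      dS_comp (f := fun z => polar (Pool.Agent.NCQ.flip A z)) hpf hκd]
  rw [e1, e2, hxp, hyp, g.form_add_lat, g.form_add_lat]
  exact g.glue (κ p) (dS κ p) h0 h1

/-- By `IsLift.unique` and `trans`, resp. `IsLift.diff`, `trans` and `glue` (chain rule:
`dS (polar ∘ κ) p = fderiv ℝ polar (κ p) (dS κ p)`). -/
theorem GMMetric.form_lift_eq (g : GMMetric A) {p : ℝ × ℝ} {i j : Fin 2}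
    {x y : ℝ × ℝ → ℂ × ℝ} (hx : IsLift α p i x) (hy : IsLift α p j y) :
    g.form i (x p) (dS x p) (dS x p) = g.form j (y p) (dS y p) (dS y p) := by
  have same : ∀ {l : Fin 2} {x y : ℝ × ℝ → ℂ × ℝ}, IsLift α p l x → IsLift α p l y →
      g.form l (x p) (dS x p) (dS x p) = g.form l (y p) (dS y p) (dS y p) := by
    intro l x y hx hy
    obtain ⟨m, n, k, h⟩ := hx.unique hy
    rw [dS_congr h, dS_add_const, h.self_of_nhds, g.form_add_lat]
  fin_cases i <;> fin_cases j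
  · exact same hx hy
  · exact g.form_lift_eq_01 hx hy
  · exact (g.form_lift_eq_01 hy hx).symm
  · exact same hx hy

open Classical in
/-- squared length of the Jacobi field at the time `t` -/
noncomputable def GMMetric.NN (g : GMMetric A) (α : ℝ × ℝ → MBar A) (t : ℝ) : ℝ :=
  if h : ∃ ix : Fin 2 × (ℝ × ℝ → ℂ × ℝ), IsLift α (0, t) ix.1 ix.2 then
    g.form h.choose.1 (h.choose.2 (0, t)) (dS h.choose.2 (0, t)) (dS h.choose.2 (0, t))
  else 0

theorem GMMetric.NN_eq (g : GMMetric A) {t : ℝ} {i : Fin 2} {x : ℝ × ℝ → ℂ × ℝ}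
    (hx : IsLift α (0, t) i x) :
    g.NN α t = g.form i (x (0, t)) (dS x (0, t)) (dS x (0, t)) := by
  have h : ∃ ix : Fin 2 × (ℝ × ℝ → ℂ × ℝ), IsLift α (0, t) ix.1 ix.2 := ⟨(i, x), hx⟩
  unfold GMMetric.NN
  rw [dif_pos h]
  exact g.form_lift_eq h.choose_spec hx

theorem GMMetric.form_zero (g : GMMetric A) (i : Fin 2) (x : ℂ × ℝ) : g.form i x 0 0 = 0 := by
  have := g.smul_left i x 0 0 0
  simpa using this

theorem GMMetric.form_nonneg (g : GMMetric A) (i : Fin 2) {x : ℂ × ℝ} (hx : x ∈ piece)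
    (v : ℂ × ℝ) : 0 ≤ g.form i x v v := by
  rcases eq_or_ne v 0 with h | h
  · rw [h, g.form_zero]
  · exact (g.pos i x hx v h).le

theorem GMMetric.form_eq_zero (g : GMMetric A) (i : Fin 2) {x : ℂ × ℝ} (hx : x ∈ piece)
    {v : ℂ × ℝ} : g.form i x v v = 0 ↔ v = 0 := by
  constructor
  · intro h
    by_contra hv
    exact (g.pos i x hx v hv).ne' h
  · intro h
    rw [h, g.form_zero]

theorem IsLift.mem_piece {p : ℝ × ℝ} {i : Fin 2} {x : ℝ × ℝ → ℂ × ℝ} (hx : IsLift α p i x) :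
    x p ∈ piece := by
  obtain ⟨-, h, -⟩ := (Filter.Eventually.self_of_nhds hx)
  exact h

theorem GMMetric.NN_nonneg (g : GMMetric A) (t : ℝ) : 0 ≤ g.NN α t := by
  by_cases h : ∃ ix : Fin 2 × (ℝ × ℝ → ℂ × ℝ), IsLift α (0, t) ix.1 ix.2
  · obtain ⟨ix, hx⟩ := h
    rw [g.NN_eq hx]
    exact g.form_nonneg _ hx.mem_piece _
  · unfold GMMetric.NN
    rw [dif_neg h]

/-- the Jacobi field vanishes iff its length does (`α` has a lift at `(0, t)`) -/
theorem GMMetric.jacobiZero_iff (g : GMMetric A) (hα : g.IsVariation α) (t : ℝ) :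
    JacobiZero α t ↔ g.NN α t = 0 := by
  constructor
  · rintro ⟨i, x, hx, h0⟩
    rw [g.NN_eq hx, g.form_eq_zero i hx.mem_piece]
    exact h0
  · intro h
    obtain ⟨i, x, hx, -⟩ := hα (0, t)
    rw [g.NN_eq hx, g.form_eq_zero i hx.mem_piece] at h
    exact ⟨i, x, hx, h⟩

end Pool.Agent.NCQ
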