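import Pool.Agent.NCQ.TrackDef
import Pool.Agent.NCQ.NForm

/-! # NCQ: the collar metric and the collar data of a variation (definitions) -/

open Set Filter Topology
open scoped ContDiff

namespace Pool.Agent.NCQ

/-- the collar metric `dr² + (dh + T dy)² / X + dy² / Y` in the coordinates `(r, h, y)` -/
noncomputable def gcol (P : Profile) (x v w : ℝ × ℝ × ℝ) : ℝ :=
  v.1 * w.1 + (v.2.1 + P.T x.1 * v.2.2) * (w.2.1 + P.T x.1 * w.2.2) / P.X x.1
    + v.2.2 * w.2.2 / P.Y x.1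

/-- momentum of the coordinate `h` for the position `x` and the velocity `v` -/
noncomputable def mu (P : Profile) (x v : ℝ × ℝ × ℝ) : ℝ := (v.2.1 + P.T x.1 * v.2.2) / P.X x.1

/-- momentum of the coordinate `y` -/
noncomputable def mv (P : Profile) (x v : ℝ × ℝ × ℝ) : ℝ :=
  P.T x.1 * mu P x v + v.2.2 / P.Y x.1

/-- collar data of a variation `κ (s, t)` of curves in the collar -/
noncomputable def pathOf (P : Profile) (κ : ℝ × ℝ → ℝ × ℝ × ℝ) : Path where
  r t := (κ (0, t)).1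
  rd t := (dT κ (0, t)).1
  dr t := (dS κ (0, t)).1
  pi t := deriv (fun s => (dT κ (s, t)).1) 0
  dh t := (dS κ (0, t)).2.1
  dy t := (dS κ (0, t)).2.2
  u t := mu P (κ (0, t)) (dT κ (0, t))
  v t := mv P (κ (0, t)) (dT κ (0, t))
  du t := deriv (fun s => mu P (κ (s, t)) (dT κ (s, t))) 0
  dv t := deriv (fun s => mv P (κ (s, t)) (dT κ (s, t))) 0

/-- two paths agree at the time `t` -/
def Path.EqAt (p p' : Path) (t : ℝ) : Prop :=
  p.r t = p'.r t ∧ p.rd t = p'.rd t ∧ p.dr t = p'.dr t ∧ p.pi t = p'.pi t ∧ p.dh t = p'.dh t ∧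
    p.dy t = p'.dy t ∧ p.u t = p'.u t ∧ p.v t = p'.v t ∧ p.du t = p'.du t ∧ p.dv t = p'.dv t

end Pool.Agent.NCQ
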