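import Pool.Agent.NCQ.GCol

/-! # NCQ: the geodesic equation of the collar metric -/

open Set Filter Topology
open scoped ContDiff

namespace Pool.Agent.NCQ

variable {P : Profile}

/-- velocities in terms of momenta -/
theorem ZF_mu_mv (hP : P.Good) (x v : ℝ × ℝ × ℝ) : P.ZF x.1 (mu P x v) (mv P x v) = v.2.2 := by
  have hY := (hP.Y_pos x.1).ne'
  unfold Profile.ZF Profile.m mv
  field_simp
  ring

theorem ZH_mu_mv (hP : P.Good) (x v : ℝ × ℝ × ℝ) : P.ZH x.1 (mu P x v) (mv P x v) = v.2.1 := by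
  have hY := (hP.Y_pos x.1).ne'
  have hX := (hP.X_pos x.1).ne'
  unfold Profile.ZH Profile.m mv mu
  field_simp
  ring

/-- `∂g/∂r (x; v, v) = - q1` for fixed velocity: with `m = v.2.2 / Y`, `u = mu`:
`d/dr [(h' + T y')² / X + y'² / Y] = 2 u T1 y' - X1 u² - Y1 m² = - q1 (r, u, v)` as `y' = Y m`. -/
theorem hasDerivAt_gcol (hP : P.Good) (x v : ℝ × ℝ × ℝ) :
    HasDerivAt (fun a : ℝ => gcol P (x.1 + a, x.2) v v)
      (-(P.q1 x.1 (mu P x v) (mv P x v))) 0 := by
  have hX : HasDerivAt (fun a : ℝ => P.X (x.1 + a)) (P.X1 x.1) 0 := by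
    apply HasDerivAt.comp_const_add
    simpa using hP.hX x.1
  have hY : HasDerivAt (fun a : ℝ => P.Y (x.1 + a)) (P.Y1 x.1) 0 := by
    apply HasDerivAt.comp_const_add
    simpa using hP.hY x.1
  have hT : HasDerivAt (fun a : ℝ => P.T (x.1 + a)) (P.T1 x.1) 0 := by
    apply HasDerivAt.comp_const_add
    simpa using hP.hT x.1
  have nX := (hP.X_pos x.1).ne'
  have nY := (hP.Y_pos x.1).ne'
  have nX' : P.X (x.1 + 0) ≠ 0 := by rw [add_zero]; exact nX
  have nY' : P.Y (x.1 + 0) ≠ 0 := by rw [add_zero]; exact nY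
  have h1 : HasDerivAt (fun a : ℝ => v.2.1 + P.T (x.1 + a) * v.2.2) (P.T1 x.1 * v.2.2) 0 := by
    have := (hT.mul_const v.2.2).const_add v.2.1
    exact this
  have h2 := ((h1.mul h1).div hX nX').const_add (v.1 * v.1)
  have h3 := h2.add ((hasDerivAt_const (0 : ℝ) (v.2.2 * v.2.2)).div hY nY')
  have h4 : (fun a : ℝ => gcol P (x.1 + a, x.2) v v) = fun a : ℝ =>
      v.1 * v.1 + (v.2.1 + P.T (x.1 + a) * v.2.2) * (v.2.1 + P.T (x.1 + a) * v.2.2)
        / P.X (x.1 + a) + v.2.2 * v.2.2 / P.Y (x.1 + a) := by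
    funext a
    rfl
  rw [h4]
  refine h3.congr_deriv ?_
  simp only [Pi.mul_apply, add_zero]
  unfold Profile.q1 Profile.m mv mu
  field_simp
  ring

private theorem diff_deriv {E : Type*} [NormedAddCommGroup E] [NormedSpace ℝ E] {c : ℝ → E} {t : ℝ}
    (hc : ContDiffAt ℝ 2 c t) : DifferentiableAt ℝ (deriv c) t := by
  have h1 : ContDiffAt ℝ 1 (fderiv ℝ c) t := hc.fderiv_right (by norm_num)
  have h2 : deriv c = fun s => fderiv ℝ c s 1 := by
    funext s
    exact (fderiv_apply_one_eq_deriv).symm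
  rw [h2]
  exact (h1.differentiableAt (by norm_num)).clm_apply (differentiableAt_const _)

/-- Hamilton's equations: take `w = (0, 1, 0)`, `(0, 0, 1)`, `(1, 0, 0)` in the geodesic equation
(the metric does not depend on `h, y`). -/
theorem GeodesicAt.hamilton (hP : P.Good) {c : ℝ → ℝ × ℝ × ℝ} {t : ℝ} (hc : ContDiffAt ℝ 2 c t)
    (h : GeodesicAt (gcol P) c t) :
    HasDerivAt (fun s => (deriv c s).1)
      (-(P.q1 (c t).1 (mu P (c t) (deriv c t)) (mv P (c t) (deriv c t))) / 2) t ∧
    HasDerivAt (fun s => mu P (c s) (deriv c s)) 0 t ∧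
    HasDerivAt (fun s => mv P (c s) (deriv c s)) 0 t := by
  have hd : DifferentiableAt ℝ (deriv c) t := diff_deriv hc
  have hc' : DifferentiableAt ℝ c t := hc.differentiableAt (by norm_num)
  have d1 : DifferentiableAt ℝ (fun s => (c s).1) t := hc'.fst
  have v1 : DifferentiableAt ℝ (fun s => (deriv c s).1) t := hd.fst
  have v2 : DifferentiableAt ℝ (fun s => (deriv c s).2.1) t := hd.snd.fst
  have v3 : DifferentiableAt ℝ (fun s => (deriv c s).2.2) t := hd.snd.snd
  have dX : DifferentiableAt ℝ (fun s => P.X (c s).1) t :=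
    (hP.hX _).differentiableAt.comp t d1
  have dY : DifferentiableAt ℝ (fun s => P.Y (c s).1) t :=
    (hP.hY _).differentiableAt.comp t d1
  have dT' : DifferentiableAt ℝ (fun s => P.T (c s).1) t :=
    (hP.hT _).differentiableAt.comp t d1
  have nX := (hP.X_pos (c t).1).ne'
  have nY := (hP.Y_pos (c t).1).ne'
  have dmu : DifferentiableAt ℝ (fun s => mu P (c s) (deriv c s)) t := by
    unfold mu
    exact (v2.add (dT'.mul v3)).div dX nX
  have dmv : DifferentiableAt ℝ (fun s => mv P (c s) (deriv c s)) t := by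
    unfold mv
    exact (dT'.mul dmu).add (v3.div dY nY)
  refine ⟨?_, ?_, ?_⟩
  · have h1 := h (1, 0, 0)
    have e1 : (fun t' => gcol P (c t') (deriv c t') (1, 0, 0)) = fun s => (deriv c s).1 := by
      funext s
      simp [gcol]
    have e2 : (fun a : ℝ => gcol P (c t + a • ((1 : ℝ), (0 : ℝ), (0 : ℝ))) (deriv c t)
        (deriv c t)) = fun a : ℝ => gcol P ((c t).1 + a, (c t).2) (deriv c t) (deriv c t) := by
      funext a
      congr 1
      ext <;> simp
    rw [e1, e2, (hasDerivAt_gcol hP (c t) (deriv c t)).deriv] at h1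
    have h2 := v1.hasDerivAt
    rw [h1] at h2
    refine h2.congr_deriv ?_
    ring
  · have h1 := h (0, 1, 0)
    have e1 : (fun t' => gcol P (c t') (deriv c t') (0, 1, 0)) =
        fun s => mu P (c s) (deriv c s) := by
      funext s
      simp [gcol, mu]
    have e2 : (fun a : ℝ => gcol P (c t + a • ((0 : ℝ), (1 : ℝ), (0 : ℝ))) (deriv c t)
        (deriv c t)) = fun _ : ℝ => gcol P (c t) (deriv c t) (deriv c t) := by
      funext a
      simp [gcol]
    rw [e1, e2, deriv_const, mul_zero] at h1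
    have h2 := dmu.hasDerivAt
    rwa [h1] at h2
  · have h1 := h (0, 0, 1)
    have e1 : (fun t' => gcol P (c t') (deriv c t') (0, 0, 1)) =
        fun s => mv P (c s) (deriv c s) := by
      funext s
      simp only [gcol, mv, mu]
      ring
    have e2 : (fun a : ℝ => gcol P (c t + a • ((0 : ℝ), (0 : ℝ), (1 : ℝ))) (deriv c t)
        (deriv c t)) = fun _ : ℝ => gcol P (c t) (deriv c t) (deriv c t) := by
      funext a
      simp [gcol]
    rw [e1, e2, deriv_const, mul_zero] at h1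
    have h2 := dmv.hasDerivAt
    rwa [h1] at h2

end Pool.Agent.NCQ
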