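import Pool.Agent.NCQ.MetGlue

/-! # NCQ: the concrete metric as a `GMMetric` -/

open Set Filter Topology
open scoped ContDiff

namespace Pool.Agent.NCQ

variable {A : Matrix.SpecialLinearGroup (Fin 2) ℤ} {k0 : ℝ}

private theorem gm_dphi_add (z a b : ℂ) : dphi z (a + b) = dphi z a + dphi z b := by
  unfold dphi
  rw [mul_add, Complex.add_im, add_div]

private theorem gm_dphi_smul (z : ℂ) (c : ℝ) (a : ℂ) : dphi z (c • a) = c * dphi z a := by
  unfold dphi
  rw [mul_smul_comm, Complex.smul_im, smul_eq_mul, mul_div_assoc]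

private theorem gm_tor_add (i : Fin 2) (r a a' b b' : ℝ) (q : ℝ × ℝ) :
    tor A k0 i r (a + a', b + b') q = tor A k0 i r (a, b) q + tor A k0 i r (a', b') q := by
  unfold tor
  split_ifs <;> ring

private theorem gm_tor_smul (i : Fin 2) (r c a b : ℝ) (q : ℝ × ℝ) :
    tor A k0 i r (c * a, c * b) q = c * tor A k0 i r (a, b) q := by
  unfold tor
  split_ifs <;> ring

private theorem gm_tor_symm (i : Fin 2) (r : ℝ) (p q : ℝ × ℝ) :
    tor A k0 i r p q = tor A k0 i r q p := by
  unfold tor
  split_ifs <;> ring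

theorem gform_add_left (i : Fin 2) (x v v' w : ℂ × ℝ) :
    gform A k0 i x (v + v') w = gform A k0 i x v w + gform A k0 i x v' w := by
  unfold gform loc
  rw [Prod.fst_add, Prod.snd_add, gm_dphi_add, gm_tor_add, mul_add, Complex.add_re]
  ring

theorem gform_smul_left (i : Fin 2) (x : ℂ × ℝ) (c : ℝ) (v w : ℂ × ℝ) :
    gform A k0 i x (c • v) w = c * gform A k0 i x v w := by
  unfold gform loc
  rw [Prod.smul_fst, Prod.smul_snd, gm_dphi_smul, smul_eq_mul, gm_tor_smul, mul_smul_comm,
    Complex.smul_re, smul_eq_mul]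
  ring

theorem gform_symm (i : Fin 2) (x v w : ℂ × ℝ) : gform A k0 i x v w = gform A k0 i x w v := by
  unfold gform loc
  rw [gm_tor_symm, mul_comm (((starRingEnd ℂ) (nearZ x.1) * v.1).re)]

/-- the metric on the closed manifold -/
noncomputable def gm (A : Matrix.SpecialLinearGroup (Fin 2) ℤ) (hd : A.1 1 1 = 0) (k0 : ℝ)
    (hk : 0 < k0) (hk' : k0 ≤ 1 / 1000) : GMMetric A where
  form := gform A k0
  smooth i v w := contDiffOn_gform hk hk' i v w
  add_left i x v v' w := gform_add_left i x v v' w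
  smul_left i x c v w := gform_smul_left i x c v w
  symm i x v w := gform_symm i x v w
  pos i x hx v hv := loc_pos hk hk' i (nearZ_ne_zero hx) hv
  trans i x v w m n k := by
    unfold gform
    rw [show x.1 + m + n * Complex.I = x.1 + (m + n * Complex.I) by ring, nearZ_add]
  glue y v h0 h1 := gform_glue hd hk h0 h1 v v

end Pool.Agent.NCQ
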