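import Mathlib

/-! # MP_23cc9a_gt: the closed graph manifold, its Riemannian metrics, geodesics and conjugate points
(definitions used in the final statement)

The closed manifold is obtained from two copies of `(ℂ ∖ ℤ[i]) / ℤ[i] × ℝ / ℤ` (punctured torus times
circle) by gluing the collars of the two punctures. Everything is expressed on the covering
`(ℂ ∖ ℤ[i]) × ℝ` of the pieces. -/

open Set Filter Topology
open scoped ContDiff

namespace Pool.Agent.NCQ

/-- `(ℂ ∖ ℤ[i]) × ℝ` -/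
def piece : Set (ℂ × ℝ) := {x | ∀ m n : ℤ, x.1 ≠ m + n * Complex.I}

/-- Polar coordinates around the puncture `0`: `(ρ, φ, s) ↦ (ρ e^{2πiφ}, s)`. -/
noncomputable def polar (y : ℝ × ℝ × ℝ) : ℂ × ℝ :=
  (y.1 * Complex.exp (2 * Real.pi * y.2.1 * Complex.I), y.2.2)

/-- The gluing map of the collars in polar coordinates: `(ρ, φ, s) ↦ (1/4 - ρ, A (φ, s))`. -/
noncomputable def flip (A : Matrix.SpecialLinearGroup (Fin 2) ℤ) (y : ℝ × ℝ × ℝ) : ℝ × ℝ × ℝ :=
  (1 / 4 - y.1, A.1 0 0 * y.2.1 + A.1 0 1 * y.2.2, A.1 1 0 * y.2.1 + A.1 1 1 * y.2.2)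

/-- The relation generating the identifications: translations by `ℤ[i] × ℤ` in both copies, and
the gluing of the collars `0 < ρ < 1/4`. -/
inductive Glue (A : Matrix.SpecialLinearGroup (Fin 2) ℤ) : Fin 2 × piece → Fin 2 × piece → Prop
  | trans (i : Fin 2) (x y : piece) (m n k : ℤ)
      (h : y.1 = (x.1.1 + m + n * Complex.I, x.1.2 + k)) : Glue A (i, x) (i, y)
  | collar (x y : piece) (p : ℝ × ℝ × ℝ) (h0 : 0 < p.1) (h1 : p.1 < 1 / 4)
      (hx : x.1 = polar p) (hy : y.1 = polar (flip A p)) : Glue A (0, x) (1, y)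

/-- The closed graph manifold `Σ × S¹ ∪_A Σ × S¹`. -/
def MBar (A : Matrix.SpecialLinearGroup (Fin 2) ℤ) : Type := Quot (Glue A)

/-- A smooth Riemannian metric on the closed graph manifold, given by the invariant metrics on the
coverings `(ℂ ∖ ℤ[i]) × ℝ` of the two pieces. -/
structure GMMetric (A : Matrix.SpecialLinearGroup (Fin 2) ℤ) where
  /-- the inner product `form i x v w` of the vectors `v, w` at the point `x` of the copy `i` -/
  form : Fin 2 → ℂ × ℝ → ℂ × ℝ → ℂ × ℝ → ℝ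
  smooth : ∀ i v w, ContDiffOn ℝ ∞ (fun x => form i x v w) piece
  add_left : ∀ i x v v' w, form i x (v + v') w = form i x v w + form i x v' w
  smul_left : ∀ i x (c : ℝ) v w, form i x (c • v) w = c * form i x v w
  symm : ∀ i x v w, form i x v w = form i x w v
  pos : ∀ i, ∀ x ∈ piece, ∀ v, v ≠ 0 → 0 < form i x v v
  trans : ∀ i (x v w : ℂ × ℝ) (m n k : ℤ),
    form i (x.1 + m + n * Complex.I, x.2 + k) v w = form i x v w
  glue : ∀ y v : ℝ × ℝ × ℝ, 0 < y.1 → y.1 < 1 / 4 →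
    form 0 (polar y) (fderiv ℝ polar y v) (fderiv ℝ polar y v) =
      form 1 (polar (flip A y)) (fderiv ℝ (fun z => polar (flip A z)) y v)
        (fderiv ℝ (fun z => polar (flip A z)) y v)

/-- The geodesic equation at the time `t` (Euler-Lagrange equation of the energy):
`d/dt g(c)(c', w) = 1/2 ∂_w g(c)(c', c')` for every constant vector `w`. -/
def GeodesicAt {E : Type*} [NormedAddCommGroup E] [NormedSpace ℝ E] (g : E → E → E → ℝ)
    (c : ℝ → E) (t : ℝ) : Prop :=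
  ∀ w : E, deriv (fun t' => g (c t') (deriv c t') w) t
    = 1 / 2 * deriv (fun a : ℝ => g (c t + a • w) (deriv c t) (deriv c t)) 0

variable {A : Matrix.SpecialLinearGroup (Fin 2) ℤ}

/-- `x` is a smooth lift of `α` to the copy `i` near the parameter `p`. -/
def IsLift (α : ℝ × ℝ → MBar A) (p : ℝ × ℝ) (i : Fin 2) (x : ℝ × ℝ → ℂ × ℝ) : Prop :=
  ∀ᶠ q in 𝓝 p, ContDiffAt ℝ ∞ x q ∧ ∃ h : x q ∈ piece, α q = Quot.mk (Glue A) (i, ⟨x q, h⟩)

/-- `α (s, t)` is a smooth variation through geodesics `t ↦ α (s, t)`. -/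
def GMMetric.IsVariation (g : GMMetric A) (α : ℝ × ℝ → MBar A) : Prop :=
  ∀ p : ℝ × ℝ, ∃ (i : Fin 2) (x : ℝ × ℝ → ℂ × ℝ), IsLift α p i x ∧
    ∀ᶠ q in 𝓝 p, GeodesicAt (g.form i) (fun t => x (q.1, t)) q.2

/-- The Jacobi field `∂α/∂s (0, ·)` vanishes at the time `t`. -/
def JacobiZero (α : ℝ × ℝ → MBar A) (t : ℝ) : Prop :=
  ∃ (i : Fin 2) (x : ℝ × ℝ → ℂ × ℝ), IsLift α (0, t) i x ∧ deriv (fun s => x (s, t)) 0 = 0

/-- No conjugate points: a Jacobi field that vanishes at two distinct times is identically zero. -/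
def GMMetric.NoConjugatePoints (g : GMMetric A) : Prop :=
  ∀ α : ℝ × ℝ → MBar A, g.IsVariation α → ∀ t₁ t₂ : ℝ, t₁ ≠ t₂ →
    JacobiZero α t₁ → JacobiZero α t₂ → ∀ t, JacobiZero α t

end Pool.Agent.NCQ
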