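import Pool.Agent.NCQ.Prof
import Pool.Agent.NCQ.Fun

/-! # NCQ: the concrete profile -/

open Set Filter Topology

namespace Pool.Agent.NCQ

/-- the warping function of the coordinate `y` -/
noncomputable def ff (k0 r : ℝ) : ℝ := 1 + k0 * G0 r

/-- the warping function of the coordinate `h` -/
noncomputable def eta (k1 r : ℝ) : ℝ := 1 + k1 * G0 (-r)

/-- The concrete profile: `X = 1 / eta²`, `Y = 1 / ff²`, `T = e theta`. -/
noncomputable def prof (k0 k1 e : ℝ) : Profile where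
  X r := 1 / eta k1 r ^ 2
  X1 r := -(2 * (k1 * G1 (-r))) / eta k1 r ^ 3
  X2 r := (6 * (k1 * G1 (-r)) ^ 2 - 2 * (k1 * beta (-r)) * eta k1 r) / eta k1 r ^ 4
  Y r := 1 / ff k0 r ^ 2
  Y1 r := 2 * (k0 * G1 r) / ff k0 r ^ 3
  Y2 r := (6 * (k0 * G1 r) ^ 2 - 2 * (k0 * beta r) * ff k0 r) / ff k0 r ^ 4
  T r := e * theta r
  T1 r := e * deriv theta r
  T2 r := e * deriv (deriv theta) r

end Pool.Agent.NCQ
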