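import Pool.Agent.NCQ.MDefs
import Pool.Agent.NCQ.ProfDef
import Pool.Agent.NCQ.GCol

/-! # NCQ: the concrete metric on the closed manifold (definitions)

`A.1 1 1 = 0`, so `A = (a b; c 0)` with `b c = -1`. Parameters: `k1 = 1/200`, `k0 > 0` small. -/

open Set Filter Topology
open scoped ContDiff

namespace Pool.Agent.NCQ

noncomputable def k1 : ℝ := 1 / 200

/-- circumference factor of the coordinate `h` : `kH = 2π / (4 k1)` -/
noncomputable def kH : ℝ := Real.pi / (2 * k1)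

/-- circumference factor of the coordinate `y` : `kF = 2π / (4 k0)` -/
noncomputable def kF (k0 : ℝ) : ℝ := Real.pi / (2 * k0)

/-- the total twist `e = - a b k0 / k1` -/
noncomputable def ee (A : Matrix.SpecialLinearGroup (Fin 2) ℤ) (k0 : ℝ) : ℝ :=
  -((A.1 0 0 : ℝ) * (A.1 0 1 : ℝ)) * k0 / k1

/-- the puncture of copy `0` is at `r = cc0` -/
noncomputable def cc0 (k0 : ℝ) : ℝ := (1 + k0 * G0 (-3)) / (4 * k0) - 3

/-- the puncture of copy `1` is at `r = - cc1` -/
noncomputable def cc1 : ℝ := (1 + k1 * G0 (-3)) / (4 * k1) - 3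

/-- scale of the flat metric of the pieces -/
noncomputable def lam (k0 : ℝ) : ℝ := 4 * (cc0 k0 + cc1)

/-- the profile -/
noncomputable def pr (A : Matrix.SpecialLinearGroup (Fin 2) ℤ) (k0 : ℝ) : Profile :=
  prof k0 k1 (ee A k0)

/-- `r` as a function of the distance `ρ` to the puncture of copy `i` -/
noncomputable def rad (k0 : ℝ) (i : Fin 2) (ρ : ℝ) : ℝ :=
  if i = 0 then cc0 k0 - lam k0 * ρ else -cc1 + lam k0 * ρ

/-- The torus part of the metric in the coordinates `(φ, s)` of copy `i`.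
Copy `0`: `y = kF φ`, `h = kH s - e y`; copy `1`: `h = b kH φ`, `y = - b kF s` with `b = A.1 0 1 = ± 1`. -/
noncomputable def tor (A : Matrix.SpecialLinearGroup (Fin 2) ℤ) (k0 : ℝ) (i : Fin 2) (r : ℝ)
    (p q : ℝ × ℝ) : ℝ :=
  if i = 0 then
    eta k1 r ^ 2 * ((kH * p.2 + (ee A k0 * theta r - ee A k0) * kF k0 * p.1)
      * (kH * q.2 + (ee A k0 * theta r - ee A k0) * kF k0 * q.1))
      + ff k0 r ^ 2 * kF k0 ^ 2 * (p.1 * q.1)
  else
    eta k1 r ^ 2 * ((kH * p.1 - ee A k0 * theta r * kF k0 * p.2)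
      * (kH * q.1 - ee A k0 * theta r * kF k0 * q.2))
      + ff k0 r ^ 2 * kF k0 ^ 2 * (p.2 * q.2)

/-- differential of the angle `φ` -/
noncomputable def dphi (z ζ : ℂ) : ℝ := ((starRingEnd ℂ) z * ζ).im / (2 * Real.pi * Complex.normSq z)

/-- the metric around the puncture `0` of copy `i` -/
noncomputable def loc (A : Matrix.SpecialLinearGroup (Fin 2) ℤ) (k0 : ℝ) (i : Fin 2) (z : ℂ)
    (v w : ℂ × ℝ) : ℝ :=
  lam k0 ^ 2 * (((starRingEnd ℂ) z * v.1).re * ((starRingEnd ℂ) z * w.1).re) / Complex.normSq z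
    + tor A k0 i (rad k0 i ‖z‖) (dphi z v.1, v.2) (dphi z w.1, w.2)

/-- the difference to the nearest lattice point -/
noncomputable def nearZ (z : ℂ) : ℂ := z - ((round z.re : ℤ) + (round z.im : ℤ) * Complex.I)

/-- the metric of copy `i` -/
noncomputable def gform (A : Matrix.SpecialLinearGroup (Fin 2) ℤ) (k0 : ℝ) (i : Fin 2)
    (x v w : ℂ × ℝ) : ℝ := loc A k0 i (nearZ x.1) v w

/-- the metric of copy `i` is flat at distance `≥ rs i` from the punctures -/
noncomputable def rs (k0 : ℝ) (i : Fin 2) : ℝ :=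
  if i = 0 then (cc0 k0 + 3) / lam k0 else (cc1 + 3) / lam k0

/-- length of the circle factor in the flat part of copy `i` -/
noncomputable def LL (k0 : ℝ) (i : Fin 2) : ℝ := if i = 0 then kH else kF k0

/-- linear change of coordinates from `(r, h, y)` to `(ρ, φ, s)` of copy `0` -/
noncomputable def col0 (A : Matrix.SpecialLinearGroup (Fin 2) ℤ) (k0 : ℝ) (x : ℝ × ℝ × ℝ) :
    ℝ × ℝ × ℝ :=
  ((cc0 k0 - x.1) / lam k0, x.2.2 / kF k0, (x.2.1 + ee A k0 * x.2.2) / kH)

/-- inverse of `col0` -/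
noncomputable def col0inv (A : Matrix.SpecialLinearGroup (Fin 2) ℤ) (k0 : ℝ) (y : ℝ × ℝ × ℝ) :
    ℝ × ℝ × ℝ :=
  (cc0 k0 - lam k0 * y.1, kH * y.2.2 - ee A k0 * (kF k0 * y.2.1), kF k0 * y.2.1)

end Pool.Agent.NCQ
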