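import Pool.Agent.NCQ.MetSm
import Pool.Agent.NCQ.PolarInv

/-! # NCQ: the metric in polar coordinates, gluing -/

open Set Filter Topology
open scoped ContDiff

namespace Pool.Agent.NCQ

variable {A : Matrix.SpecialLinearGroup (Fin 2) ℤ} {k0 : ℝ}

/-- The metric in polar coordinates, `0 < ρ < 1/4`: with `z = ρ e^{2πiφ}`, `ζ = (dρ + 2πρ dφ i) e^{2πiφ}`
one has `conj z ζ = ρ (dρ + 2πρ dφ i)`, `dphi z ζ = dφ`. -/
theorem gform_polar (i : Fin 2) {y : ℝ × ℝ × ℝ} (h0 : 0 < y.1) (h1 : y.1 < 1 / 4)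
    (v w : ℝ × ℝ × ℝ) :
    gform A k0 i (polar y) (fderiv ℝ polar y v) (fderiv ℝ polar y w) =
      lam k0 ^ 2 * (v.1 * w.1) + tor A k0 i (rad k0 i y.1) v.2 w.2 := by
  have hpi := Real.pi_pos
  have hr : y.1 ≠ 0 := h0.ne'
  set E : ℂ := Complex.exp (2 * Real.pi * y.2.1 * Complex.I) with hE
  have hEn : ‖E‖ = 1 := by
    have h2 : (2 * Real.pi * y.2.1 * Complex.I : ℂ) = ((2 * Real.pi * y.2.1 : ℝ) : ℂ) * Complex.I := by
      push_cast
      ring
    rw [hE, h2, Complex.norm_exp_ofReal_mul_I]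
  have hEE : (starRingEnd ℂ) E * E = 1 := by
    rw [mul_comm, Complex.mul_conj, Complex.normSq_eq_norm_sq, hEn]
    norm_num
  have hpol : (polar y).1 = (y.1 : ℂ) * E := rfl
  have hnorm : ‖(y.1 : ℂ) * E‖ = y.1 := by
    rw [norm_mul, hEn, mul_one, Complex.norm_real, Real.norm_of_nonneg h0.le]
  have hround : ∀ t : ℝ, |t| ≤ y.1 → round t = 0 := by
    intro t ht
    rw [round_eq_zero_iff]
    obtain ⟨ha, hb⟩ := abs_le.1 ht
    constructor <;> linarith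
  have hnear : nearZ ((y.1 : ℂ) * E) = (y.1 : ℂ) * E := by
    unfold nearZ
    rw [hround _ ((Complex.abs_re_le_norm _).trans hnorm.le),
      hround _ ((Complex.abs_im_le_norm _).trans hnorm.le)]
    simp
  have hnsq : Complex.normSq ((y.1 : ℂ) * E) = y.1 ^ 2 := by
    rw [Complex.normSq_eq_norm_sq, hnorm]
  have hcz : ∀ u : ℝ × ℝ × ℝ, (starRingEnd ℂ) ((y.1 : ℂ) * E) *
      ((u.1 + 2 * Real.pi * y.1 * u.2.1 * Complex.I) * E) =
      ((y.1 * u.1 : ℝ) : ℂ) + ((2 * Real.pi * y.1 ^ 2 * u.2.1 : ℝ) : ℂ) * Complex.I := by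
    intro u
    rw [map_mul, Complex.conj_ofReal]
    have : (y.1 : ℂ) * (starRingEnd ℂ) E * ((u.1 + 2 * Real.pi * y.1 * u.2.1 * Complex.I) * E) =
        ((starRingEnd ℂ) E * E) * ((y.1 : ℂ) * (u.1 + 2 * Real.pi * y.1 * u.2.1 * Complex.I)) := by
      ring
    rw [this, hEE]
    push_cast
    ring
  have hre : ∀ u : ℝ × ℝ × ℝ, ((starRingEnd ℂ) ((y.1 : ℂ) * E) *
      ((u.1 + 2 * Real.pi * y.1 * u.2.1 * Complex.I) * E)).re = y.1 * u.1 := by
    intro u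
    rw [hcz, Complex.add_re, Complex.ofReal_re, Complex.re_ofReal_mul, Complex.I_re]
    ring
  have him : ∀ u : ℝ × ℝ × ℝ, ((starRingEnd ℂ) ((y.1 : ℂ) * E) *
      ((u.1 + 2 * Real.pi * y.1 * u.2.1 * Complex.I) * E)).im = 2 * Real.pi * y.1 ^ 2 * u.2.1 := by
    intro u
    rw [hcz, Complex.add_im, Complex.ofReal_im, Complex.im_ofReal_mul, Complex.I_im]
    ring
  have hdphi : ∀ u : ℝ × ℝ × ℝ, dphi ((y.1 : ℂ) * E)
      ((u.1 + 2 * Real.pi * y.1 * u.2.1 * Complex.I) * E) = u.2.1 := by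
    intro u
    unfold dphi
    rw [him, hnsq]
    field_simp
  unfold gform loc
  rw [hpol, hnear, hasFDerivAt_polar, hasFDerivAt_polar]
  simp only
  rw [← hE, hdphi, hdphi, hre, hre, hnsq, hnorm]
  congr 1
  field_simp

/-- arithmetic of a matrix with `A.1 1 1 = 0` -/
theorem entries (hd : A.1 1 1 = 0) : A.1 0 1 * A.1 0 1 = 1 ∧ A.1 1 0 = -A.1 0 1 := by
  have hdet := A.2
  rw [Matrix.det_fin_two, hd, mul_zero, zero_sub] at hdet
  have h1 : A.1 0 1 * (-A.1 1 0) = 1 := by linarith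
  rcases Int.eq_one_or_neg_one_of_mul_eq_one h1 with h2 | h2
  · rw [h2] at h1 ⊢
    constructor
    · norm_num
    · linarith
  · rw [h2] at h1 ⊢
    constructor
    · norm_num
    · linarith

/-- The torus forms of the two copies correspond under `A`: with `b² = 1`, `c = - b`,
`kH a = - e b kF` (because `k0 kF = k1 kH`). -/
theorem tor_glue (hd : A.1 1 1 = 0) (hk : 0 < k0) (r : ℝ) (p q : ℝ × ℝ) :
    tor A k0 1 r (A.1 0 0 * p.1 + A.1 0 1 * p.2, A.1 1 0 * p.1 + A.1 1 1 * p.2)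
      (A.1 0 0 * q.1 + A.1 0 1 * q.2, A.1 1 0 * q.1 + A.1 1 1 * q.2) = tor A k0 0 r p q := by
  obtain ⟨hb, hc⟩ := entries hd
  have hb' : (A.1 0 1 : ℝ) * (A.1 0 1 : ℝ) = 1 := by exact_mod_cast hb
  have hc' : (A.1 1 0 : ℝ) = -(A.1 0 1 : ℝ) := by exact_mod_cast hc
  have hd' : (A.1 1 1 : ℝ) = 0 := by exact_mod_cast hd
  have hk1 : k1 ≠ 0 := by
    unfold k1
    norm_num
  have hek : ee A k0 * kF k0 = -((A.1 0 0 : ℝ) * (A.1 0 1 : ℝ)) * kH := by
    unfold ee kF kH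
    have := hk.ne'
    field_simp
  unfold tor
  rw [if_neg (by decide : ¬ ((1 : Fin 2) = 0)), if_pos rfl]
  simp only [hc', hd']
  set a : ℝ := (A.1 0 0 : ℝ) with ha
  set b : ℝ := (A.1 0 1 : ℝ) with hbb
  have e1 : ∀ u : ℝ × ℝ, kH * (a * u.1 + b * u.2) - ee A k0 * theta r * kF k0 * (-b * u.1 + 0 * u.2) =
      b * (kH * u.2 + (ee A k0 * theta r - ee A k0) * kF k0 * u.1) := by
    intro u
    have e2 : b * (kH * u.2 + (ee A k0 * theta r - ee A k0) * kF k0 * u.1) =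
        b * kH * u.2 + b * theta r * (ee A k0 * kF k0) * u.1 - b * (ee A k0 * kF k0) * u.1 := by
      ring
    have e3 : kH * (a * u.1 + b * u.2) - ee A k0 * theta r * kF k0 * (-b * u.1 + 0 * u.2) =
        kH * a * u.1 + b * kH * u.2 + b * theta r * (ee A k0 * kF k0) * u.1 := by
      ring
    have e4 : b * (ee A k0 * kF k0) * u.1 = -(kH * a * u.1) := by
      rw [hek]
      have : b * (-(a * b) * kH) * u.1 = -((b * b) * (kH * a * u.1)) := by ring
      rw [this, hb', one_mul]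
    rw [e2, e3, e4]
    ring
  rw [e1 p, e1 q]
  have e5 : b * (kH * p.2 + (ee A k0 * theta r - ee A k0) * kF k0 * p.1) *
      (b * (kH * q.2 + (ee A k0 * theta r - ee A k0) * kF k0 * q.1)) =
      (kH * p.2 + (ee A k0 * theta r - ee A k0) * kF k0 * p.1) *
      (kH * q.2 + (ee A k0 * theta r - ee A k0) * kF k0 * q.1) := by
    have : b * (kH * p.2 + (ee A k0 * theta r - ee A k0) * kF k0 * p.1) *
      (b * (kH * q.2 + (ee A k0 * theta r - ee A k0) * kF k0 * q.1)) = (b * b) *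
      ((kH * p.2 + (ee A k0 * theta r - ee A k0) * kF k0 * p.1) *
      (kH * q.2 + (ee A k0 * theta r - ee A k0) * kF k0 * q.1)) := by ring
    rw [this, hb', one_mul]
  have e6 : (-b * p.1 + 0 * p.2) * (-b * q.1 + 0 * q.2) = p.1 * q.1 := by
    have : (-b * p.1 + 0 * p.2) * (-b * q.1 + 0 * q.2) = (b * b) * (p.1 * q.1) := by ring
    rw [this, hb', one_mul]
  rw [e5, e6]

/-- `rad k0 1 (1/4 - ρ) = rad k0 0 ρ` -/
theorem rad_glue (ρ : ℝ) : rad k0 1 (1 / 4 - ρ) = rad k0 0 ρ := by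
  unfold rad
  rw [if_neg (by decide : ¬ ((1 : Fin 2) = 0)), if_pos rfl]
  unfold lam
  ring

theorem gform_glue (hd : A.1 1 1 = 0) (hk : 0 < k0) {y : ℝ × ℝ × ℝ} (h0 : 0 < y.1)
    (h1 : y.1 < 1 / 4) (v w : ℝ × ℝ × ℝ) :
    gform A k0 0 (polar y) (fderiv ℝ polar y v) (fderiv ℝ polar y w) =
      gform A k0 1 (polar (flip A y)) (fderiv ℝ (fun z => polar (flip A z)) y v)
        (fderiv ℝ (fun z => polar (flip A z)) y w) := by
  have h2 : (flip A y).1 = 1 / 4 - y.1 := rfl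
  rw [gform_polar 0 h0 h1, fderiv_flip, fderiv_flip,
    gform_polar 1 (by rw [h2]; linarith) (by rw [h2]; linarith), h2, rad_glue,
    tor_glue hd hk (rad k0 0 y.1) v.2 w.2]
  ring

end Pool.Agent.NCQ
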