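import Pool.Agent.NCQ.Met
import Pool.Agent.NCQ.Theta

/-! # NCQ: the local metric: constants and smoothness -/

open Set Filter Topology
open scoped ContDiff

namespace Pool.Agent.NCQ

variable {A : Matrix.SpecialLinearGroup (Fin 2) ℤ} {k0 : ℝ}

theorem one_le_eta (r : ℝ) : 1 ≤ eta k1 r := by
  have h := G0_nonneg (-r)
  unfold eta k1
  linarith [mul_nonneg (by norm_num : (0 : ℝ) ≤ 1 / 200) h]

theorem one_le_ff (hk : 0 < k0) (r : ℝ) : 1 ≤ ff k0 r := by
  have h := G0_nonneg r
  unfold ff
  linarith [mul_nonneg hk.le h]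

theorem contDiff_eta : ContDiff ℝ ∞ (eta k1) := by
  unfold eta
  exact contDiff_const.add (contDiff_const.mul (contDiff_G0.comp contDiff_neg))

theorem contDiff_ff : ContDiff ℝ ∞ (ff k0) := by
  unfold ff
  exact contDiff_const.add (contDiff_const.mul contDiff_G0)

/-- `cc1 > 3` (in fact `> 40`) and `cc0 > 3` -/
theorem cc_bounds (hk : 0 < k0) (hk' : k0 ≤ 1 / 1000) : 3 < cc1 ∧ 3 < cc0 k0 ∧ 0 < lam k0 := by
  have h := G0_nonneg (-3)
  have h1 : 3 < cc1 := by
    unfold cc1 k1
    have : (50 : ℝ) ≤ (1 + 1 / 200 * G0 (-3)) / (4 * (1 / 200)) := by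
      rw [le_div_iff₀ (by norm_num)]
      linarith
    linarith
  have h0 : 3 < cc0 k0 := by
    unfold cc0
    have : (50 : ℝ) ≤ (1 + k0 * G0 (-3)) / (4 * k0) := by
      rw [le_div_iff₀ (by linarith)]
      linarith [mul_nonneg hk.le h]
    linarith
  refine ⟨h1, h0, ?_⟩
  unfold lam
  linarith

/-- `(cc0 + 3) / (4 (cc0 + cc1)) < 1/4` because `cc1 > 3`, etc. -/
theorem rs_bounds (hk : 0 < k0) (hk' : k0 ≤ 1 / 1000) (i : Fin 2) :
    0 < rs k0 i ∧ rs k0 i < 1 / 4 := by
  obtain ⟨h1, h0, hl⟩ := cc_bounds hk hk'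
  unfold rs
  split_ifs
  · refine ⟨div_pos (by linarith) hl, ?_⟩
    rw [div_lt_iff₀ hl]
    unfold lam
    linarith
  · refine ⟨div_pos (by linarith) hl, ?_⟩
    rw [div_lt_iff₀ hl]
    unfold lam
    linarith

theorem kH_pos : 0 < kH := by
  unfold kH k1
  exact div_pos Real.pi_pos (by norm_num)

theorem kF_pos (hk : 0 < k0) : 0 < kF k0 := by
  unfold kF
  exact div_pos Real.pi_pos (by linarith)

private theorem contDiff_normSq : ContDiff ℝ ∞ (fun z : ℂ => Complex.normSq z) := by
  have : (fun z : ℂ => Complex.normSq z) = fun z => Complex.reCLM z * Complex.reCLM z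
      + Complex.imCLM z * Complex.imCLM z := by
    funext z
    simp [Complex.normSq_apply]
  rw [this]
  exact (Complex.reCLM.contDiff.mul Complex.reCLM.contDiff).add
    (Complex.imCLM.contDiff.mul Complex.imCLM.contDiff)

private theorem contDiff_conjRe (v : ℂ) : ContDiff ℝ ∞ (fun z : ℂ => ((starRingEnd ℂ) z * v).re) := by
  have : (fun z : ℂ => ((starRingEnd ℂ) z * v).re) = fun z => Complex.reCLM z * v.re
      + Complex.imCLM z * v.im := by
    funext z
    simp [Complex.mul_re]
  rw [this]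
  exact (Complex.reCLM.contDiff.mul contDiff_const).add
    (Complex.imCLM.contDiff.mul contDiff_const)

private theorem contDiff_conjIm (v : ℂ) : ContDiff ℝ ∞ (fun z : ℂ => ((starRingEnd ℂ) z * v).im) := by
  have : (fun z : ℂ => ((starRingEnd ℂ) z * v).im) = fun z => Complex.reCLM z * v.im
      - Complex.imCLM z * v.re := by
    funext z
    simp [Complex.mul_im]
    ring
  rw [this]
  exact (Complex.reCLM.contDiff.mul contDiff_const).sub
    (Complex.imCLM.contDiff.mul contDiff_const)

private theorem contDiffAt_dphi (ζ : ℂ) {z : ℂ} (hz : z ≠ 0) :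
    ContDiffAt ℝ ∞ (fun z => dphi z ζ) z := by
  unfold dphi
  refine (contDiff_conjIm ζ).contDiffAt.div ?_ ?_
  · exact (contDiff_const.mul contDiff_normSq).contDiffAt
  · have := Complex.normSq_pos.2 hz
    have := Real.pi_pos
    positivity

private theorem contDiffAt_rad (k0 : ℝ) (i : Fin 2) {z : ℂ} (hz : z ≠ 0) :
    ContDiffAt ℝ ∞ (fun z : ℂ => rad k0 i ‖z‖) z := by
  unfold rad
  split_ifs
  · exact contDiffAt_const.sub (contDiffAt_const.mul (contDiffAt_norm ℝ hz))
  · exact contDiffAt_const.add (contDiffAt_const.mul (contDiffAt_norm ℝ hz))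

theorem contDiffAt_loc (i : Fin 2) {z : ℂ} (hz : z ≠ 0) (v w : ℂ × ℝ) :
    ContDiffAt ℝ ∞ (fun z => loc A k0 i z v w) z := by
  have hr := contDiffAt_rad k0 i hz
  have hv := contDiffAt_dphi v.1 hz
  have hw := contDiffAt_dphi w.1 hz
  have he : ContDiffAt ℝ ∞ (fun z : ℂ => eta k1 (rad k0 i ‖z‖)) z :=
    contDiff_eta.contDiffAt.comp z hr
  have hf : ContDiffAt ℝ ∞ (fun z : ℂ => ff k0 (rad k0 i ‖z‖)) z :=
    contDiff_ff.contDiffAt.comp z hr
  have ht : ContDiffAt ℝ ∞ (fun z : ℂ => theta (rad k0 i ‖z‖)) z :=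
    contDiff_theta.contDiffAt.comp z hr
  unfold loc
  refine ContDiffAt.add ?_ ?_
  · refine ContDiffAt.div ?_ contDiff_normSq.contDiffAt (Complex.normSq_pos.2 hz).ne'
    exact contDiffAt_const.mul
      ((contDiff_conjRe v.1).contDiffAt.mul (contDiff_conjRe w.1).contDiffAt)
  · unfold tor
    split_ifs
    · simp only
      refine ContDiffAt.add ?_ ?_
      · refine (he.pow 2).mul (ContDiffAt.mul ?_ ?_)
        · exact contDiffAt_const.add ((((contDiffAt_const.mul ht).sub contDiffAt_const).mul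
            contDiffAt_const).mul hv)
        · exact contDiffAt_const.add ((((contDiffAt_const.mul ht).sub contDiffAt_const).mul
            contDiffAt_const).mul hw)
      · exact ((hf.pow 2).mul contDiffAt_const).mul (hv.mul hw)
    · simp only
      refine ContDiffAt.add ?_ ?_
      · refine (he.pow 2).mul (ContDiffAt.mul ?_ ?_)
        · exact (contDiffAt_const.mul hv).sub (((contDiffAt_const.mul ht).mul
            contDiffAt_const).mul contDiffAt_const)
        · exact (contDiffAt_const.mul hw).sub (((contDiffAt_const.mul ht).mul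
            contDiffAt_const).mul contDiffAt_const)
      · exact ((hf.pow 2).mul contDiffAt_const).mul (contDiffAt_const.mul contDiffAt_const)

end Pool.Agent.NCQ
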