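import Pool.Agent.NCQ.MetPF
import Pool.Agent.NCQ.Exact

/-! # NCQ: the metric of the pieces: nearest lattice point, smoothness, invariance -/

open Set Filter Topology
open scoped ContDiff

namespace Pool.Agent.NCQ

variable {A : Matrix.SpecialLinearGroup (Fin 2) ℤ} {k0 : ℝ}

theorem nearZ_add (z : ℂ) (m n : ℤ) : nearZ (z + (m + n * Complex.I)) = nearZ z := by
  have h1 : (z + (m + n * Complex.I)).re = z.re + (m : ℤ) := by simp
  have h2 : (z + (m + n * Complex.I)).im = z.im + (n : ℤ) := by simp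
  unfold nearZ
  rw [h1, h2, round_add_intCast, round_add_intCast]
  push_cast
  ring

/-- if `‖z‖ < 1/2` then the nearest lattice point is `0` -/
theorem nearZ_of_norm_lt {z : ℂ} (hz : ‖z‖ < 1 / 2) : nearZ z = z := by
  have h1 := (Complex.abs_re_le_norm z).trans_lt hz
  have h2 := (Complex.abs_im_le_norm z).trans_lt hz
  rw [abs_lt] at h1 h2
  have e1 : round z.re = 0 := round_eq_zero_iff.2 ⟨h1.1.le, h1.2⟩
  have e2 : round z.im = 0 := round_eq_zero_iff.2 ⟨h2.1.le, h2.2⟩
  unfold nearZ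
  rw [e1, e2]
  simp

theorem nearZ_ne_zero {x : ℂ × ℝ} (hx : x ∈ piece) : nearZ x.1 ≠ 0 := by
  unfold nearZ
  exact sub_ne_zero.2 (hx _ _)

/-- `nearZ z` is `z` minus a lattice point; so if all lattice points have distance `> c` from `z` then
`c < ‖nearZ z‖`. -/
theorem lt_norm_nearZ {z : ℂ} {c : ℝ} (h : ∀ m n : ℤ, c < ‖z - (m + n * Complex.I)‖) :
    c < ‖nearZ z‖ := h _ _

/-- the set where the metric of the copy `i` is flat by construction -/
def FlatZone (k0 : ℝ) (i : Fin 2) : Set (ℂ × ℝ) :=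
  {x | ∀ m n : ℤ, rs k0 i < ‖x.1 - (m + n * Complex.I)‖}

/-- the Gaussian integers -/
def gaussSet : Set ℂ := {z | z.re ∈ range ((↑) : ℤ → ℝ) ∧ z.im ∈ range ((↑) : ℤ → ℝ)}

theorem isClosed_gaussSet : IsClosed gaussSet :=
  (Int.isClosedEmbedding_coe_real.isClosed_range.preimage Complex.continuous_re).inter
    (Int.isClosedEmbedding_coe_real.isClosed_range.preimage Complex.continuous_im)

theorem mem_gaussSet_iff {z : ℂ} : z ∈ gaussSet ↔ ∃ m n : ℤ, z = m + n * Complex.I := by
  constructor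
  · rintro ⟨⟨m, hm⟩, ⟨n, hn⟩⟩
    refine ⟨m, n, ?_⟩
    apply Complex.ext
    · simp [hm]
    · simp [hn]
  · rintro ⟨m, n, rfl⟩
    exact ⟨⟨m, by simp⟩, ⟨n, by simp⟩⟩

/-- only finitely many lattice points are near a given point -/
theorem isOpen_flatZone (k0 : ℝ) (i : Fin 2) : IsOpen (FlatZone k0 i) := by
  have hne : gaussSet.Nonempty := ⟨0, mem_gaussSet_iff.2 ⟨0, 0, by simp⟩⟩
  have e : FlatZone k0 i = {x : ℂ × ℝ | rs k0 i < Metric.infDist x.1 gaussSet} := by
    ext x
    constructor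
    · intro hx
      obtain ⟨y, hy, hxy⟩ := isClosed_gaussSet.exists_infDist_eq_dist hne x.1
      obtain ⟨m, n, rfl⟩ := mem_gaussSet_iff.1 hy
      change rs k0 i < Metric.infDist x.1 gaussSet
      rw [hxy, dist_eq_norm]
      exact hx m n
    · intro hx m n
      refine lt_of_lt_of_le hx ?_
      rw [← dist_eq_norm]
      exact Metric.infDist_le_dist_of_mem (mem_gaussSet_iff.2 ⟨m, n, rfl⟩)
  rw [e]
  exact isOpen_lt continuous_const ((Metric.continuous_infDist_pt _).comp continuous_fst)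

end Pool.Agent.NCQ
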