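import Pool.Agent.NCQ.MetLoc

/-! # NCQ: the local metric: positivity, flat part -/

open Set Filter Topology
open scoped ContDiff

namespace Pool.Agent.NCQ

variable {A : Matrix.SpecialLinearGroup (Fin 2) ℤ} {k0 : ℝ}

private theorem tor_nonneg (i : Fin 2) (r : ℝ) (p : ℝ × ℝ) : 0 ≤ tor A k0 i r p p := by
  unfold tor
  split_ifs
  · have h1 := mul_self_nonneg (kH * p.2 + (ee A k0 * theta r - ee A k0) * kF k0 * p.1)
    have h2 := mul_self_nonneg p.1
    positivity
  · have h1 := mul_self_nonneg (kH * p.1 - ee A k0 * theta r * kF k0 * p.2)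
    have h2 := mul_self_nonneg p.2
    positivity

private theorem tor_eq_zero (hk : 0 < k0) {i : Fin 2} {r : ℝ} {p : ℝ × ℝ}
    (h : tor A k0 i r p p = 0) : p.1 = 0 ∧ p.2 = 0 := by
  have hH := kH_pos
  have hF := kF_pos hk
  have he : 0 < eta k1 r := lt_of_lt_of_le one_pos (one_le_eta r)
  have hf : 0 < ff k0 r := lt_of_lt_of_le one_pos (one_le_ff hk r)
  unfold tor at h
  split_ifs at h with hi
  · have h1 := mul_self_nonneg (kH * p.2 + (ee A k0 * theta r - ee A k0) * kF k0 * p.1)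
    have h2 := mul_self_nonneg p.1
    have h3 : 0 ≤ eta k1 r ^ 2 * ((kH * p.2 + (ee A k0 * theta r - ee A k0) * kF k0 * p.1)
      * (kH * p.2 + (ee A k0 * theta r - ee A k0) * kF k0 * p.1)) := by positivity
    have h4 : 0 ≤ ff k0 r ^ 2 * kF k0 ^ 2 * (p.1 * p.1) := by positivity
    have h5 : ff k0 r ^ 2 * kF k0 ^ 2 * (p.1 * p.1) = 0 := by linarith
    have h6 : eta k1 r ^ 2 * ((kH * p.2 + (ee A k0 * theta r - ee A k0) * kF k0 * p.1)
      * (kH * p.2 + (ee A k0 * theta r - ee A k0) * kF k0 * p.1)) = 0 := by linarith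
    have h7 : p.1 = 0 := by
      rcases mul_eq_zero.1 h5 with h7 | h7
      · exact absurd h7 (by positivity)
      · exact mul_self_eq_zero.1 h7
    refine ⟨h7, ?_⟩
    rcases mul_eq_zero.1 h6 with h8 | h8
    · exact absurd h8 (by positivity)
    · have h9 := mul_self_eq_zero.1 h8
      rw [h7, mul_zero, add_zero] at h9
      rcases mul_eq_zero.1 h9 with h10 | h10
      · exact absurd h10 hH.ne'
      · exact h10
  · have h1 := mul_self_nonneg (kH * p.1 - ee A k0 * theta r * kF k0 * p.2)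
    have h2 := mul_self_nonneg p.2
    have h3 : 0 ≤ eta k1 r ^ 2 * ((kH * p.1 - ee A k0 * theta r * kF k0 * p.2)
      * (kH * p.1 - ee A k0 * theta r * kF k0 * p.2)) := by positivity
    have h4 : 0 ≤ ff k0 r ^ 2 * kF k0 ^ 2 * (p.2 * p.2) := by positivity
    have h5 : ff k0 r ^ 2 * kF k0 ^ 2 * (p.2 * p.2) = 0 := by linarith
    have h6 : eta k1 r ^ 2 * ((kH * p.1 - ee A k0 * theta r * kF k0 * p.2)
      * (kH * p.1 - ee A k0 * theta r * kF k0 * p.2)) = 0 := by linarith
    have h7 : p.2 = 0 := by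
      rcases mul_eq_zero.1 h5 with h7 | h7
      · exact absurd h7 (by positivity)
      · exact mul_self_eq_zero.1 h7
    refine ⟨?_, h7⟩
    rcases mul_eq_zero.1 h6 with h8 | h8
    · exact absurd h8 (by positivity)
    · have h9 := mul_self_eq_zero.1 h8
      rw [h7, mul_zero, sub_zero] at h9
      rcases mul_eq_zero.1 h9 with h10 | h10
      · exact absurd h10 hH.ne'
      · exact h10

/-- positivity: if `loc = 0` then `re (conj z v.1) = 0` and the torus part vanishes; the torus part is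
positive definite in `(dphi z v.1, v.2)` (`eta, ff ≥ 1`, `kH, kF > 0`), so `dphi z v.1 = 0`, `v.2 = 0`,
`conj z v.1 = 0`. -/
theorem loc_pos (hk : 0 < k0) (hk' : k0 ≤ 1 / 1000) (i : Fin 2) {z : ℂ} (hz : z ≠ 0) {v : ℂ × ℝ}
    (hv : v ≠ 0) : 0 < loc A k0 i z v v := by
  have hN : 0 < Complex.normSq z := Complex.normSq_pos.2 hz
  have hlam : 0 < lam k0 := (cc_bounds hk hk').2.2
  have hpi := Real.pi_pos
  have h1 := mul_self_nonneg ((starRingEnd ℂ) z * v.1).re
  have h2 : 0 ≤ lam k0 ^ 2 * (((starRingEnd ℂ) z * v.1).re * ((starRingEnd ℂ) z * v.1).re) /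
      Complex.normSq z := by positivity
  have h3 := tor_nonneg (A := A) (k0 := k0) i (rad k0 i ‖z‖) (dphi z v.1, v.2)
  by_contra hcon
  rw [not_lt] at hcon
  unfold loc at hcon
  have h4 : tor A k0 i (rad k0 i ‖z‖) (dphi z v.1, v.2) (dphi z v.1, v.2) = 0 := by linarith
  have h5 : lam k0 ^ 2 * (((starRingEnd ℂ) z * v.1).re * ((starRingEnd ℂ) z * v.1).re) /
      Complex.normSq z = 0 := by linarith
  obtain ⟨h6, h7⟩ := tor_eq_zero hk h4
  simp only at h6 h7
  have hre : ((starRingEnd ℂ) z * v.1).re = 0 := by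
    rw [div_eq_zero_iff] at h5
    rcases h5 with h5 | h5
    · rcases mul_eq_zero.1 h5 with h8 | h8
      · exact absurd h8 (by positivity)
      · exact mul_self_eq_zero.1 h8
    · exact absurd h5 hN.ne'
  have him : ((starRingEnd ℂ) z * v.1).im = 0 := by
    unfold dphi at h6
    rw [div_eq_zero_iff] at h6
    rcases h6 with h6 | h6
    · exact h6
    · exact absurd h6 (by positivity)
  have h8 : (starRingEnd ℂ) z * v.1 = 0 := Complex.ext hre him
  rcases mul_eq_zero.1 h8 with h9 | h9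
  · exact hz ((map_eq_zero _).1 h9)
  · exact hv (Prod.ext h9 h7)

private theorem re_im_identity (z v w : ℂ) :
    ((starRingEnd ℂ) z * v).re * ((starRingEnd ℂ) z * w).re +
      ((starRingEnd ℂ) z * v).im * ((starRingEnd ℂ) z * w).im =
      Complex.normSq z * ((starRingEnd ℂ) v * w).re := by
  simp only [Complex.mul_re, Complex.mul_im, Complex.conj_re, Complex.conj_im, Complex.normSq_apply]
  ring

/-- The flat part. Copy `0`: `r ≤ -3`, so `theta = 1`, `eta = 1`,
`ff k0 r * kF k0 = 2π (cc0 - r) = 2π lam ‖z‖` (`G0_left`), and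
`re (conj z v) re (conj z w) + im (conj z v) im (conj z w) = normSq z * re (conj v * w)`.
Copy `1`: `3 ≤ r`, so `theta = 0`, `ff = 1`, `eta k1 r * kH = 2π (cc1 + r) = 2π lam ‖z‖`. -/
theorem loc_flat (hk : 0 < k0) (hk' : k0 ≤ 1 / 1000) (i : Fin 2) {z : ℂ} (hz : rs k0 i ≤ ‖z‖)
    (v w : ℂ × ℝ) : loc A k0 i z v w =
      lam k0 ^ 2 * ((starRingEnd ℂ) v.1 * w.1).re + LL k0 i ^ 2 * (v.2 * w.2) := by
  obtain ⟨hc1, hc0, hlam⟩ := cc_bounds hk hk'
  have hrs := (rs_bounds hk hk' i).1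
  have hz0 : 0 < ‖z‖ := lt_of_lt_of_le hrs hz
  have hzne : z ≠ 0 := norm_pos_iff.1 hz0
  have hN : 0 < Complex.normSq z := Complex.normSq_pos.2 hzne
  have hNz : Complex.normSq z = ‖z‖ ^ 2 := Complex.normSq_eq_norm_sq z
  have hpi := Real.pi_pos
  have hid := re_im_identity z v.1 w.1
  have hfin : ∀ X Y N c : ℝ, 0 < N → X + Y = N * c →
      lam k0 ^ 2 * X / N + lam k0 ^ 2 * Y / N = lam k0 ^ 2 * c := by
    intro X Y N c hN h
    rw [← add_div, ← mul_add, h]
    field_simp
  have hmid := hfin _ _ _ _ hN hid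
  unfold loc tor rad LL
  by_cases hi : i = 0
  · rw [if_pos hi, if_pos hi, if_pos hi]
    unfold rs at hz
    rw [if_pos hi, div_le_iff₀ hlam] at hz
    have hr : cc0 k0 - lam k0 * ‖z‖ ≤ -3 := by linarith
    have hth : theta (cc0 k0 - lam k0 * ‖z‖) = 1 := theta_left (by linarith)
    have hee : eta k1 (cc0 k0 - lam k0 * ‖z‖) = 1 := by
      unfold eta
      rw [G0_right (by linarith), mul_zero, add_zero]
    have hff : ff k0 (cc0 k0 - lam k0 * ‖z‖) * kF k0 = 2 * Real.pi * (lam k0 * ‖z‖) := by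
      unfold ff kF
      rw [G0_left hr]
      have : cc0 k0 = (1 + k0 * G0 (-3)) / (4 * k0) - 3 := rfl
      rw [this]
      field_simp
      ring
    have hff2 : ff k0 (cc0 k0 - lam k0 * ‖z‖) ^ 2 * kF k0 ^ 2 =
        (2 * Real.pi) ^ 2 * (lam k0 ^ 2 * Complex.normSq z) := by
      rw [← mul_pow, hff, hNz]
      ring
    rw [hth, hee, hff2, ← hmid]
    unfold dphi
    simp only
    field_simp
    ring
  · rw [if_neg hi, if_neg hi, if_neg hi]
    unfold rs at hz
    rw [if_neg hi, div_le_iff₀ hlam] at hz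
    have hr : 3 ≤ -cc1 + lam k0 * ‖z‖ := by linarith
    have hth : theta (-cc1 + lam k0 * ‖z‖) = 0 := theta_right (by linarith)
    have hff : ff k0 (-cc1 + lam k0 * ‖z‖) = 1 := by
      unfold ff
      rw [G0_right (by linarith), mul_zero, add_zero]
    have hee : eta k1 (-cc1 + lam k0 * ‖z‖) * kH = 2 * Real.pi * (lam k0 * ‖z‖) := by
      unfold eta kH
      rw [G0_left (by linarith)]
      have : cc1 = (1 + k1 * G0 (-3)) / (4 * k1) - 3 := rfl
      rw [this]
      unfold k1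
      field_simp
      ring
    have hee2 : eta k1 (-cc1 + lam k0 * ‖z‖) ^ 2 * kH ^ 2 =
        (2 * Real.pi) ^ 2 * (lam k0 ^ 2 * Complex.normSq z) := by
      rw [← mul_pow, hee, hNz]
      ring
    rw [hth, hff, ← hmid]
    unfold dphi
    simp only
    have h1 : eta k1 (-cc1 + lam k0 * ‖z‖) ^ 2 *
        ((kH * (((starRingEnd ℂ) z * v.1).im / (2 * Real.pi * Complex.normSq z)) -
          ee A k0 * 0 * kF k0 * v.2) *
        (kH * (((starRingEnd ℂ) z * w.1).im / (2 * Real.pi * Complex.normSq z)) -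
          ee A k0 * 0 * kF k0 * w.2)) = (eta k1 (-cc1 + lam k0 * ‖z‖) ^ 2 * kH ^ 2) *
        ((((starRingEnd ℂ) z * v.1).im / (2 * Real.pi * Complex.normSq z)) *
        (((starRingEnd ℂ) z * w.1).im / (2 * Real.pi * Complex.normSq z))) := by ring
    rw [h1, hee2]
    field_simp
    ring

end Pool.Agent.NCQ
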