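import Pool.Agent.NCQ.MetNear

/-! # NCQ: the metric of the pieces is smooth; the flat zone -/

open Set Filter Topology
open scoped ContDiff

namespace Pool.Agent.NCQ

variable {A : Matrix.SpecialLinearGroup (Fin 2) ℤ} {k0 : ℝ}

/-- the metric in the flat zone -/
theorem gform_flat (hk : 0 < k0) (hk' : k0 ≤ 1 / 1000) (i : Fin 2) {x : ℂ × ℝ}
    (hx : x ∈ FlatZone k0 i) (v w : ℂ × ℝ) : gform A k0 i x v w =
      lam k0 ^ 2 * ((starRingEnd ℂ) v.1 * w.1).re + LL k0 i ^ 2 * (v.2 * w.2) :=
  loc_flat hk hk' i (lt_norm_nearZ hx).le v w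

private theorem norm_nearZ_le (z : ℂ) (m n : ℤ) : ‖nearZ z‖ ≤ ‖z - (m + n * Complex.I)‖ := by
  have h1 : |z.re - round z.re| ≤ |z.re - m| := round_le _ _
  have h2 : |z.im - round z.im| ≤ |z.im - n| := round_le _ _
  rw [Complex.norm_def, Complex.norm_def]
  apply Real.sqrt_le_sqrt
  have e1 : Complex.normSq (nearZ z) = (z.re - round z.re) ^ 2 + (z.im - round z.im) ^ 2 := by
    simp [nearZ, Complex.normSq_apply]
    ring
  have e2 : Complex.normSq (z - (m + n * Complex.I)) = (z.re - m) ^ 2 + (z.im - n) ^ 2 := by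
    simp [Complex.normSq_apply]
    ring
  rw [e1, e2]
  have h3 := sq_le_sq.2 h1
  have h4 := sq_le_sq.2 h2
  linarith

/-- The metric of the copy `i` is smooth on `piece`. Near `x`: if `‖nearZ x.1‖ < 1/2` then
`nearZ z = z - ℓ` for `z` near `x.1` with a fixed lattice point `ℓ`, use `contDiffAt_loc`. Otherwise
`‖nearZ z‖ > 1/4 > rs` for `z` near `x.1` and the metric is constant near `x` by `loc_flat`.
(Continuity of `‖nearZ z‖`: it is the distance to the lattice; or treat the real and the imaginary part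
separately: if `|z.re - round z.re| < 1/2` then `round` is locally constant at `z.re`.) -/
theorem contDiffOn_gform (hk : 0 < k0) (hk' : k0 ≤ 1 / 1000) (i : Fin 2) (v w : ℂ × ℝ) :
    ContDiffOn ℝ ∞ (fun x => gform A k0 i x v w) piece := by
  intro x hx
  apply ContDiffAt.contDiffWithinAt
  rcases lt_or_ge ‖nearZ x.1‖ (1 / 2) with h | h
  · have hne : nearZ x.1 ≠ 0 := nearZ_ne_zero hx
    set m : ℤ := round x.1.re with hm
    set n : ℤ := round x.1.im with hn
    have hx1 : nearZ x.1 = x.1 - (m + n * Complex.I) := rfl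
    have hev : ∀ᶠ y : ℂ × ℝ in 𝓝 x, ‖y.1 - (m + n * Complex.I)‖ < 1 / 2 := by
      have hc : Continuous (fun y : ℂ × ℝ => ‖y.1 - ((m : ℂ) + n * Complex.I)‖) := by fun_prop
      have := hc.continuousAt (x := x)
      exact this.eventually (gt_mem_nhds (by simpa only [hx1] using h))
    have heq : (fun y : ℂ × ℝ => gform A k0 i y v w) =ᶠ[𝓝 x]
        (fun y : ℂ × ℝ => loc A k0 i (y.1 - (m + n * Complex.I)) v w) := by
      filter_upwards [hev] with y hy
      unfold gform
      have h1 : nearZ y.1 = y.1 - (m + n * Complex.I) := by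
        have h2 := nearZ_add (y.1 - (m + n * Complex.I)) m n
        rw [sub_add_cancel, nearZ_of_norm_lt hy] at h2
        exact h2
      rw [h1]
    refine ContDiffAt.congr_of_eventuallyEq ?_ heq
    have h3 : ContDiffAt ℝ ∞ (fun z => loc A k0 i z v w) (x.1 - (m + n * Complex.I)) :=
      contDiffAt_loc i (by rw [← hx1]; exact hne) v w
    have h4 : ContDiffAt ℝ ∞ (fun y : ℂ × ℝ => y.1 - ((m : ℂ) + n * Complex.I)) x := by fun_prop
    exact ContDiffAt.comp x (g := fun z => loc A k0 i z v w) h3 h4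
  · have hfz : x ∈ FlatZone k0 i := by
      intro m n
      have h1 := (rs_bounds hk hk' i).2
      have h2 := norm_nearZ_le x.1 m n
      linarith
    have heq : (fun y : ℂ × ℝ => gform A k0 i y v w) =ᶠ[𝓝 x]
        (fun _ => lam k0 ^ 2 * ((starRingEnd ℂ) v.1 * w.1).re + LL k0 i ^ 2 * (v.2 * w.2)) := by
      filter_upwards [(isOpen_flatZone k0 i).mem_nhds hfz] with y hy
      exact gform_flat hk hk' i hy v w
    exact contDiffAt_const.congr_of_eventuallyEq heq

end Pool.Agent.NCQ
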