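import Mathlib

/-! # NCQ: profiles of the collar metric, quadratic forms, orbits (definitions)

The collar is `ℝ × T²` with the metric `dr² + η(r)² (dh + τ(r) dy)² + f(r)² dy²`. We write
`X = 1/η²`, `Y = 1/f²`, `T = τ`. The cometric on the torus part is
`Q_r (u, v) = X u² + Y (v - T u)²`. -/

open Set Filter Topology

namespace Pool.Agent.NCQ

/-- The functions `X, Y, T` and (candidates for) their first and second derivatives. -/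
structure Profile where
  X : ℝ → ℝ
  X1 : ℝ → ℝ
  X2 : ℝ → ℝ
  Y : ℝ → ℝ
  Y1 : ℝ → ℝ
  Y2 : ℝ → ℝ
  T : ℝ → ℝ
  T1 : ℝ → ℝ
  T2 : ℝ → ℝ

namespace Profile

variable (P : Profile)

/-- `m = v - T u` -/
def m (r u v : ℝ) : ℝ := v - P.T r * u

/-- the cometric `Q_r (u, v)` -/
def q (r u v : ℝ) : ℝ := P.X r * u ^ 2 + P.Y r * P.m r u v ^ 2

/-- first derivative of `Q_r (u, v)` in `r` -/
def q1 (r u v : ℝ) : ℝ :=
  P.X1 r * u ^ 2 + P.Y1 r * P.m r u v ^ 2 - 2 * P.Y r * P.T1 r * u * P.m r u v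

/-- second derivative of `Q_r (u, v)` in `r` -/
def q2 (r u v : ℝ) : ℝ :=
  P.X2 r * u ^ 2 + P.Y2 r * P.m r u v ^ 2 - 4 * P.Y1 r * P.T1 r * u * P.m r u v
    + 2 * P.Y r * P.T1 r ^ 2 * u ^ 2 - 2 * P.Y r * P.T2 r * u * P.m r u v

/-- polarization of `q1` -/
def q1b (r u v u' v' : ℝ) : ℝ :=
  P.X1 r * u * u' + P.Y1 r * P.m r u v * P.m r u' v'
    - P.Y r * P.T1 r * (u * P.m r u' v' + u' * P.m r u v)

/-- velocity of `y` -/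
def ZF (r u v : ℝ) : ℝ := P.Y r * P.m r u v

/-- derivative of `ZF` in `r` -/
def ZF1 (r u v : ℝ) : ℝ := P.Y1 r * P.m r u v - P.Y r * P.T1 r * u

/-- velocity of `h` -/
def ZH (r u v : ℝ) : ℝ := P.X r * u - P.T r * P.Y r * P.m r u v

/-- derivative of `ZH` in `r` -/
def ZH1 (r u v : ℝ) : ℝ :=
  P.X1 r * u - P.T1 r * P.Y r * P.m r u v - P.T r * P.Y1 r * P.m r u v
    + P.T r * P.Y r * P.T1 r * u

/-- The properties of the profile that the dynamical part of the proof uses. -/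
structure Good (P : Profile) : Prop where
  hX : ∀ r, HasDerivAt P.X (P.X1 r) r
  hX1 : ∀ r, HasDerivAt P.X1 (P.X2 r) r
  cX2 : Continuous P.X2
  hY : ∀ r, HasDerivAt P.Y (P.Y1 r) r
  hY1 : ∀ r, HasDerivAt P.Y1 (P.Y2 r) r
  cY2 : Continuous P.Y2
  hT : ∀ r, HasDerivAt P.T (P.T1 r) r
  hT1 : ∀ r, HasDerivAt P.T1 (P.T2 r) r
  cT2 : Continuous P.T2
  X_pos : ∀ r, 0 < P.X r
  Y_pos : ∀ r, 0 < P.Y r
  X1_nonpos : ∀ r, P.X1 r ≤ 0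
  Y1_nonneg : ∀ r, 0 ≤ P.Y1 r
  left_X1 : ∀ r ≤ -2, P.X1 r = 0
  left_X2 : ∀ r ≤ -2, P.X2 r = 0
  left_T1 : ∀ r ≤ -2, P.T1 r = 0
  left_T2 : ∀ r ≤ -2, P.T2 r = 0
  left_Y1 : ∀ r ≤ -2, 0 < P.Y1 r
  left_conv : ∀ r ≤ -2, 2 * P.Y r * P.Y2 r ≤ 3 * P.Y1 r ^ 2
  right_T : ∀ r, 2 ≤ r → P.T r = 0
  right_T1 : ∀ r, 2 ≤ r → P.T1 r = 0
  right_T2 : ∀ r, 2 ≤ r → P.T2 r = 0
  right_Y1 : ∀ r, 2 ≤ r → P.Y1 r = 0
  right_Y2 : ∀ r, 2 ≤ r → P.Y2 r = 0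
  right_X1 : ∀ r, 2 ≤ r → P.X1 r < 0
  right_conv : ∀ r, 2 ≤ r → 2 * P.X r * P.X2 r ≤ 3 * P.X1 r ^ 2
  q2_nonpos : ∀ r ∈ Icc (-2 : ℝ) 2, ∀ u v, P.q2 r u v ≤ 0
  H_ne : ∀ r ∈ Icc (-2 : ℝ) 2, ∀ u v, P.q1 r u v < 0 → P.ZH r u v ≠ 0
  H_ineq : ∀ r ∈ Icc (-2 : ℝ) 2, ∀ u v, P.q1 r u v < 0 →
    2 * P.ZH r u v ^ 2 * P.q2 r u v - 4 * P.ZH r u v * P.q1 r u v * P.ZH1 r u v
      + P.q1 r u v ^ 2 * (P.X r + P.Y r * P.T r ^ 2) ≤ 0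

end Profile

/-- A geodesic together with a Jacobi field in the collar: position `r`, velocity `rd`, momenta
`u, v` of the torus directions; variation `dr, dh, dy` of the position, `pi` of `rd`, `du, dv` of
the momenta. -/
structure Orb where
  r : ℝ → ℝ
  rd : ℝ → ℝ
  dr : ℝ → ℝ
  pi : ℝ → ℝ
  dh : ℝ → ℝ
  dy : ℝ → ℝ
  u : ℝ
  v : ℝ
  du : ℝ
  dv : ℝ

namespace Orb

variable (o : Orb) (P : Profile)

/-- The equations of motion and their linearization hold at the time `t`. -/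
structure Solves (t : ℝ) : Prop where
  hr : HasDerivAt o.r (o.rd t) t
  hrd : HasDerivAt o.rd (-(P.q1 (o.r t) o.u o.v) / 2) t
  hdr : HasDerivAt o.dr (o.pi t) t
  hpi : HasDerivAt o.pi
    (-(P.q1b (o.r t) o.u o.v o.du o.dv) - P.q2 (o.r t) o.u o.v * o.dr t / 2) t
  hdh : HasDerivAt o.dh
    (P.ZH (o.r t) o.du o.dv + o.dr t * P.ZH1 (o.r t) o.u o.v) t
  hdy : HasDerivAt o.dy
    (P.ZF (o.r t) o.du o.dv + o.dr t * P.ZF1 (o.r t) o.u o.v) t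

/-- the Jacobi field vanishes at `t` -/
def Zero (t : ℝ) : Prop := o.dr t = 0 ∧ o.dh t = 0 ∧ o.dy t = 0

/-- the Jacobi field has nonzero derivative at `t` (for a zero `t`) -/
def Nontriv (t : ℝ) : Prop := o.pi t ≠ 0 ∨ o.du ≠ 0 ∨ o.dv ≠ 0

/-- `w = ⟨δq, δp⟩` -/
def w (t : ℝ) : ℝ := o.dr t * o.pi t + o.dh t * o.du + o.dy t * o.dv

/-- square of the length of the Jacobi field -/
noncomputable def N (t : ℝ) : ℝ :=
  o.dr t ^ 2 + (o.dh t + P.T (o.r t) * o.dy t) ^ 2 / P.X (o.r t) + o.dy t ^ 2 / P.Y (o.r t)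

/-- `WL` : half the derivative of `N` for `r ≤ -2` -/
noncomputable def WL (t : ℝ) : ℝ :=
  o.w t + P.Y1 (o.r t) * P.m (o.r t) o.u o.v / P.Y (o.r t) * o.dr t * o.dy t
    - P.Y1 (o.r t) * o.rd t / (2 * P.Y (o.r t) ^ 2) * o.dy t ^ 2

/-- `WR` : half the derivative of `N` for `2 ≤ r` -/
noncomputable def WR (t : ℝ) : ℝ :=
  o.w t + P.X1 (o.r t) * o.u / P.X (o.r t) * o.dr t * o.dh t
    - P.X1 (o.r t) * o.rd t / (2 * P.X (o.r t) ^ 2) * o.dh t ^ 2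

/-- `WF` -/
noncomputable def WF (t : ℝ) : ℝ :=
  o.w t + P.q1 (o.r t) o.u o.v / P.ZF (o.r t) o.u o.v * o.dr t * o.dy t
    - P.q1 (o.r t) o.u o.v * o.rd t / (2 * P.ZF (o.r t) o.u o.v ^ 2) * o.dy t ^ 2

/-- `WH` -/
noncomputable def WH (t : ℝ) : ℝ :=
  o.w t + P.q1 (o.r t) o.u o.v / P.ZH (o.r t) o.u o.v * o.dr t * o.dh t
    - P.q1 (o.r t) o.u o.v * o.rd t / (2 * P.ZH (o.r t) o.u o.v ^ 2) * o.dh t ^ 2

/-- `W0` -/
noncomputable def W0 (t : ℝ) : ℝ :=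
  o.w t + P.q1 (o.r t) o.u o.v / (2 * o.rd t) * o.dr t ^ 2

/-- the condition at the start of a collar interval -/
def Start (t : ℝ) : Prop :=
  (o.Zero t ∧ o.Nontriv t) ∨ (o.r t ≤ -3 ∧ 0 < o.WL P t) ∨ (3 ≤ o.r t ∧ 0 < o.WR P t)

/-- the condition at the end of a collar interval -/
def Fine (t : ℝ) : Prop :=
  ¬ o.Zero t ∧ (o.r t ≤ -3 → 0 < o.WL P t) ∧ (3 ≤ o.r t → 0 < o.WR P t)

end Orb

end Pool.Agent.NCQ
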