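import Pool.Agent.NCQ.ProfDef

/-! # NCQ: bounds for the concrete profile -/

open Set Filter Topology

namespace Pool.Agent.NCQ

/-- the common shape of the second derivative -/
private theorem second_bound {k g b E : ℝ} (hk : 0 < k) (hb : 0 ≤ b) (hg : 0 ≤ g) (hg4 : g ≤ 4)
    (hgb : g ≤ 4 * b) (hE : 1 ≤ E) (h : E ^ 4 + 96 * k ≤ 2 * E) :
    (6 * (k * g) ^ 2 - 2 * (k * b) * E) / E ^ 4 ≤ -(k * b) := by
  have hE4 : 0 < E ^ 4 := by positivity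
  rw [div_le_iff₀ hE4]
  have h1 : g ^ 2 ≤ 16 * b := by nlinarith
  have h2 : 6 * (k * g) ^ 2 ≤ 96 * k * (k * b) := by
    have : 6 * (k * g) ^ 2 = 6 * k ^ 2 * g ^ 2 := by ring
    rw [this]
    have hk2 : 0 ≤ 6 * k ^ 2 := by positivity
    calc 6 * k ^ 2 * g ^ 2 ≤ 6 * k ^ 2 * (16 * b) := mul_le_mul_of_nonneg_left h1 hk2
      _ = 96 * k * (k * b) := by ring
  have h3 : 0 ≤ (k * b) * (2 * E - E ^ 4 - 96 * k) :=
    mul_nonneg (mul_nonneg hk.le hb) (by linarith)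
  nlinarith [h2, h3]

/-- bounds for the profile on `[-2, 2]`, `k1 = 1/200`, `0 < k0 ≤ 1/1000`:
`eta ∈ [1, 1.08]`, `ff ∈ [1, 1.016]`; with `b = beta (-r)`, property (G):
`X2 ≤ (96 k1² b - 2 k1 b) / eta⁴ ≤ -(k1 b)`. -/
theorem prof_X_bounds {k0 e r : ℝ} (hr : r ∈ Icc (-2 : ℝ) 2) :
    1 / 2 ≤ (prof k0 (1 / 200) e).X r ∧ (prof k0 (1 / 200) e).X r ≤ 1 ∧
    (prof k0 (1 / 200) e).X1 r ≤ 0 ∧
    -(8 * (1 / 200) * beta (-r)) ≤ (prof k0 (1 / 200) e).X1 r ∧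
    (-1 ≤ r → (prof k0 (1 / 200) e).X1 r ≤ -((1 / 200) / 2)) ∧
    (prof k0 (1 / 200) e).X2 r ≤ -(1 / 200 * beta (-r)) := by
  have hr' : -r ∈ Icc (-2 : ℝ) 2 := ⟨by linarith [hr.2], by linarith [hr.1]⟩
  have e1 : 1 ≤ eta (1 / 200) r := by
    unfold eta
    linarith [G0_nonneg (-r)]
  have e2 : eta (1 / 200) r ≤ 1.08 := by
    unfold eta
    linarith [G0_le hr'.1]
  have g0 := G1_nonneg (-r)
  have g4 := G1_le (-r)
  have gb := G1_le_beta hr'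
  have b0 := beta_nonneg (-r)
  have e2' : eta (1 / 200) r ^ 2 ≤ 1.08 ^ 2 := pow_le_pow_left₀ (by linarith) e2 2
  have e3' : eta (1 / 200) r ^ 3 ≤ 1.08 ^ 3 := pow_le_pow_left₀ (by linarith) e2 3
  have e4' : eta (1 / 200) r ^ 4 ≤ 1.08 ^ 4 := pow_le_pow_left₀ (by linarith) e2 4
  have p2 : 1 ≤ eta (1 / 200) r ^ 2 := one_le_pow₀ e1
  have p3 : 1 ≤ eta (1 / 200) r ^ 3 := one_le_pow₀ e1
  have p4 : 1 ≤ eta (1 / 200) r ^ 4 := one_le_pow₀ e1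
  refine ⟨?_, ?_, ?_, ?_, ?_, ?_⟩
  · show 1 / 2 ≤ 1 / eta (1 / 200) r ^ 2
    rw [div_le_div_iff₀ (by norm_num) (by linarith)]
    norm_num at e2' ⊢
    linarith
  · show 1 / eta (1 / 200) r ^ 2 ≤ 1
    rw [div_le_one (by linarith)]
    exact p2
  · show -(2 * (1 / 200 * G1 (-r))) / eta (1 / 200) r ^ 3 ≤ 0
    apply div_nonpos_of_nonpos_of_nonneg
    · linarith
    · linarith
  · show -(8 * (1 / 200) * beta (-r)) ≤ -(2 * (1 / 200 * G1 (-r))) / eta (1 / 200) r ^ 3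
    rw [le_div_iff₀ (by linarith)]
    nlinarith [mul_nonneg b0 (sub_nonneg.2 p3)]
  · intro h
    have gh := half_le_G1 (r := -r) (by linarith)
    show -(2 * (1 / 200 * G1 (-r))) / eta (1 / 200) r ^ 3 ≤ -((1 / 200) / 2)
    rw [div_le_iff₀ (by linarith)]
    norm_num at e3' ⊢
    linarith
  · show (6 * (1 / 200 * G1 (-r)) ^ 2 - 2 * (1 / 200 * beta (-r)) * eta (1 / 200) r) /
      eta (1 / 200) r ^ 4 ≤ -(1 / 200 * beta (-r))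
    refine second_bound (by norm_num) b0 g0 g4 gb e1 ?_
    set E := eta (1 / 200) r
    nlinarith [mul_nonneg (sub_nonneg.2 e1) (sub_nonneg.2 e2),
      mul_nonneg (mul_nonneg (sub_nonneg.2 e1) (sub_nonneg.2 e2)) (by positivity : 0 ≤ E ^ 2)]

theorem prof_Y_bounds {k0 e r : ℝ} (hk0 : 0 < k0) (hk0' : k0 ≤ 1 / 1000)
    (hr : r ∈ Icc (-2 : ℝ) 2) :
    0 ≤ (prof k0 (1 / 200) e).Y r ∧ (prof k0 (1 / 200) e).Y r ≤ 1 ∧
    0 ≤ (prof k0 (1 / 200) e).Y1 r ∧ (prof k0 (1 / 200) e).Y1 r ≤ 8 * k0 ∧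
    (r ≤ 1 → k0 / 2 ≤ (prof k0 (1 / 200) e).Y1 r) ∧
    (prof k0 (1 / 200) e).Y2 r ≤ -(k0 * beta r) := by
  have G0n := G0_nonneg r
  have G0l := G0_le hr.1
  have e1 : 1 ≤ ff k0 r := by
    unfold ff
    nlinarith [mul_nonneg hk0.le G0n]
  have e2 : ff k0 r ≤ 1.016 := by
    unfold ff
    nlinarith [mul_le_mul hk0' G0l G0n (by norm_num)]
  have g0 := G1_nonneg r
  have g4 := G1_le r
  have gb := G1_le_beta hr
  have b0 := beta_nonneg r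
  have e3' : ff k0 r ^ 3 ≤ 1.016 ^ 3 := pow_le_pow_left₀ (by linarith) e2 3
  have p2 : 1 ≤ ff k0 r ^ 2 := one_le_pow₀ e1
  have p3 : 1 ≤ ff k0 r ^ 3 := one_le_pow₀ e1
  have hkg : 0 ≤ k0 * G1 r := mul_nonneg hk0.le g0
  refine ⟨?_, ?_, ?_, ?_, ?_, ?_⟩
  · show 0 ≤ 1 / ff k0 r ^ 2
    positivity
  · show 1 / ff k0 r ^ 2 ≤ 1
    rw [div_le_one (by linarith)]
    exact p2
  · show 0 ≤ 2 * (k0 * G1 r) / ff k0 r ^ 3
    apply div_nonneg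
    · linarith
    · linarith
  · show 2 * (k0 * G1 r) / ff k0 r ^ 3 ≤ 8 * k0
    rw [div_le_iff₀ (by linarith)]
    nlinarith [mul_le_mul_of_nonneg_left g4 hk0.le, mul_nonneg hk0.le (sub_nonneg.2 p3)]
  · intro h
    have gh := half_le_G1 (r := r) h
    show k0 / 2 ≤ 2 * (k0 * G1 r) / ff k0 r ^ 3
    rw [le_div_iff₀ (by linarith)]
    norm_num at e3'
    nlinarith [mul_le_mul_of_nonneg_left gh hk0.le, mul_le_mul_of_nonneg_left e3' hk0.le]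
  · show (6 * (k0 * G1 r) ^ 2 - 2 * (k0 * beta r) * ff k0 r) / ff k0 r ^ 4 ≤ -(k0 * beta r)
    refine second_bound hk0 b0 g0 g4 gb e1 ?_
    set E := ff k0 r
    nlinarith [mul_nonneg (sub_nonneg.2 e1) (sub_nonneg.2 e2),
      mul_nonneg (mul_nonneg (sub_nonneg.2 e1) (sub_nonneg.2 e2)) (by positivity : 0 ≤ E ^ 2)]

end Pool.Agent.NCQ
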