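import Pool.Agent.NCQ.Zone

/-! # NCQ: nonnegativity of the coefficients `B` in the certificates -/

open Set Filter Topology

namespace Pool.Agent.NCQ.Profile

variable {P : Profile}

/-- `q1 > 0` implies `ZF ≠ 0` : otherwise `m = 0` and `q1 = X1 u² ≤ 0`. -/
theorem Good.ZF_ne (hP : P.Good) {r u v : ℝ} (h : 0 < P.q1 r u v) : P.ZF r u v ≠ 0 := by
  intro h0
  have hY := hP.Y_pos r
  have hm : P.m r u v = 0 := by
    unfold ZF at h0
    rcases mul_eq_zero.1 h0 with h1 | h1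
    · exact absurd h1 hY.ne'
    · exact h1
  unfold q1 at h
  rw [hm] at h
  have := mul_nonneg (neg_nonneg.2 (hP.X1_nonpos r)) (sq_nonneg u)
  nlinarith

/-- The coefficient `BF` is nonnegative where `q1 > 0`. Proof: with `m ≠ 0`,
`q1 ZF1 / ZF - q1² Y / (4 ZF²) = q1 (4 m (Y1 m - Y T1 u) - q1) / (4 Y m²)
 = q1 (q1 + 2 Y1 m² - 2 X1 u²) / (4 Y m²) ≥ 0`, and `- q2 / 2 ≥ 0` if `r ∈ [-2, 2]`. If `r ≤ -2` then
`q1 = Y1 m²`, `q2 = Y2 m²`, `ZF1 = Y1 m` and the coefficient is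
`m² (3 Y1² - 2 Y Y2) / (4 Y) ≥ 0` by `left_conv`. (`r > 2` is impossible by `lt_two`.) -/
theorem Good.BF_nonneg (hP : P.Good) {r u v : ℝ} (h : 0 < P.q1 r u v) :
    0 ≤ -(P.q2 r u v) / 2 + P.q1 r u v * P.ZF1 r u v / P.ZF r u v
      - P.q1 r u v ^ 2 * P.Y r / (4 * P.ZF r u v ^ 2) := by
  have hZ := hP.ZF_ne h
  have hY := hP.Y_pos r
  have hm : P.m r u v ≠ 0 := by
    intro h0
    apply hZ
    unfold ZF
    rw [h0, mul_zero]
  have h2 := hP.lt_two h
  have hm2 : 0 < P.m r u v ^ 2 := by positivity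
  have key : P.q1 r u v * P.ZF1 r u v / P.ZF r u v - P.q1 r u v ^ 2 * P.Y r / (4 * P.ZF r u v ^ 2)
      = P.q1 r u v * (4 * P.m r u v * P.ZF1 r u v - P.q1 r u v) / (4 * P.Y r * P.m r u v ^ 2) := by
    unfold ZF
    have := hY.ne'
    field_simp
  rcases le_or_gt r (-2) with hr | hr
  · have e1 : P.q1 r u v = P.Y1 r * P.m r u v ^ 2 := hP.q1_left hr u v
    have e2 : P.q2 r u v = P.Y2 r * P.m r u v ^ 2 := by
      unfold q2
      rw [hP.left_X2 r hr, hP.left_T1 r hr, hP.left_T2 r hr]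
      ring
    have e3 : P.ZF1 r u v = P.Y1 r * P.m r u v := by
      unfold ZF1
      rw [hP.left_T1 r hr]
      ring
    have hc := hP.left_conv r hr
    have e : -(P.q2 r u v) / 2 + P.q1 r u v * P.ZF1 r u v / P.ZF r u v
        - P.q1 r u v ^ 2 * P.Y r / (4 * P.ZF r u v ^ 2)
        = P.m r u v ^ 2 * (3 * P.Y1 r ^ 2 - 2 * P.Y r * P.Y2 r) / (4 * P.Y r) := by
      rw [add_sub_assoc, key, e1, e2, e3]
      have := hY.ne'
      field_simp
      ring
    rw [e]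
    apply div_nonneg _ (by positivity)
    exact mul_nonneg hm2.le (by linarith)
  · have hq2 := hP.q2_nonpos r ⟨hr.le, h2.le⟩ u v
    have e : 4 * P.m r u v * P.ZF1 r u v - P.q1 r u v
        = P.q1 r u v + 2 * P.Y1 r * P.m r u v ^ 2 - 2 * P.X1 r * u ^ 2 := by
      unfold q1 ZF1
      ring
    have h3 : 0 ≤ P.Y1 r * P.m r u v ^ 2 := mul_nonneg (hP.Y1_nonneg r) (sq_nonneg _)
    have h4 : P.X1 r * u ^ 2 ≤ 0 := mul_nonpos_of_nonpos_of_nonneg (hP.X1_nonpos r) (sq_nonneg _)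
    have h5 : 0 ≤ P.q1 r u v * (4 * P.m r u v * P.ZF1 r u v - P.q1 r u v) /
        (4 * P.Y r * P.m r u v ^ 2) := by
      rw [e]
      apply div_nonneg _ (by positivity)
      exact mul_nonneg h.le (by nlinarith)
    rw [add_sub_assoc, key]
    linarith

/-- `q1 < 0` implies `ZH ≠ 0`: `H_ne` for `r ∈ [-2, 2]`; for `2 ≤ r`: `ZH = X u`, `q1 = X1 u²`. -/
theorem Good.ZH_ne (hP : P.Good) {r u v : ℝ} (h : P.q1 r u v < 0) : P.ZH r u v ≠ 0 := by
  have h2 := hP.neg_two_lt h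
  rcases le_or_gt r 2 with hr | hr
  · exact hP.H_ne r ⟨h2.le, hr⟩ u v h
  · rw [hP.q1_right hr.le] at h
    have hu : u ≠ 0 := by
      rintro rfl
      simp at h
    unfold ZH
    rw [hP.right_T r hr.le, zero_mul, zero_mul, sub_zero]
    exact mul_ne_zero (hP.X_pos r).ne' hu

/-- The coefficient `BH` is nonnegative where `q1 < 0`: it equals `-1/(4 ZH²)` times the expression
of `H_ineq` (for `r ∈ [-2, 2]`; `r < -2` is impossible by `neg_two_lt`), and for `2 ≤ r` it is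
`u² (3 X1² - 2 X X2) / (4 X) ≥ 0` by `right_conv`. -/
theorem Good.BH_nonneg (hP : P.Good) {r u v : ℝ} (h : P.q1 r u v < 0) :
    0 ≤ -(P.q2 r u v) / 2 + P.q1 r u v * P.ZH1 r u v / P.ZH r u v
      - P.q1 r u v ^ 2 * (P.X r + P.Y r * P.T r ^ 2) / (4 * P.ZH r u v ^ 2) := by
  have hZ := hP.ZH_ne h
  have h2 := hP.neg_two_lt h
  rcases le_or_gt r 2 with hr | hr
  · have hi := hP.H_ineq r ⟨h2.le, hr⟩ u v h
    have e : -(P.q2 r u v) / 2 + P.q1 r u v * P.ZH1 r u v / P.ZH r u v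
        - P.q1 r u v ^ 2 * (P.X r + P.Y r * P.T r ^ 2) / (4 * P.ZH r u v ^ 2)
        = -(2 * P.ZH r u v ^ 2 * P.q2 r u v - 4 * P.ZH r u v * P.q1 r u v * P.ZH1 r u v
          + P.q1 r u v ^ 2 * (P.X r + P.Y r * P.T r ^ 2)) / (4 * P.ZH r u v ^ 2) := by
      field_simp
      ring
    rw [e]
    apply div_nonneg _ (by positivity)
    linarith
  · have hr' := hr.le
    have hX := hP.X_pos r
    have e1 : P.q1 r u v = P.X1 r * u ^ 2 := hP.q1_right hr' u v
    have e2 : P.q2 r u v = P.X2 r * u ^ 2 := by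
      unfold q2
      rw [hP.right_T1 r hr', hP.right_T2 r hr', hP.right_Y1 r hr', hP.right_Y2 r hr']
      ring
    have e3 : P.ZH1 r u v = P.X1 r * u := by
      unfold ZH1
      rw [hP.right_T r hr', hP.right_T1 r hr']
      ring
    have e4 : P.ZH r u v = P.X r * u := by
      unfold ZH
      rw [hP.right_T r hr']
      ring
    have hu : u ≠ 0 := by
      rintro rfl
      rw [e1] at h
      simp at h
    have hc := hP.right_conv r hr'
    have e : -(P.q2 r u v) / 2 + P.q1 r u v * P.ZH1 r u v / P.ZH r u v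
        - P.q1 r u v ^ 2 * (P.X r + P.Y r * P.T r ^ 2) / (4 * P.ZH r u v ^ 2)
        = u ^ 2 * (3 * P.X1 r ^ 2 - 2 * P.X r * P.X2 r) / (4 * P.X r) := by
      rw [e1, e2, e3, e4, hP.right_T r hr']
      have := hX.ne'
      field_simp
      ring
    rw [e]
    apply div_nonneg _ (by positivity)
    exact mul_nonneg (sq_nonneg u) (by linarith)

end Pool.Agent.NCQ.Profile
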