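import Pool.Agent.NCQ.Turn
import Pool.Agent.NCQ.ZoneB

/-! # NCQ: propagation of positivity of the functions `W` -/

open Set Filter Topology

namespace Pool.Agent.NCQ

/-- A function with nonnegative derivative on `[a, b]` which is positive at `a`, or zero with
positive derivative at `a`, is positive at `b`. -/
theorem pos_of_deriv {W W' : ℝ → ℝ} {a b : ℝ} (hab : a < b)
    (hW : ∀ t ∈ Icc a b, HasDerivAt W (W' t) t) (hn : ∀ t ∈ Icc a b, 0 ≤ W' t)
    (h0 : 0 < W a ∨ (W a = 0 ∧ 0 < W' a)) : 0 < W b := by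
  have hmono : MonotoneOn W (Icc a b) := by
    apply monotoneOn_of_deriv_nonneg (convex_Icc a b)
    · intro t ht
      exact (hW t ht).continuousAt.continuousWithinAt
    · intro t ht
      exact (hW t (interior_subset ht)).differentiableAt.differentiableWithinAt
    · intro t ht
      rw [(hW t (interior_subset ht)).deriv]
      exact hn t (interior_subset ht)
  have ha : a ∈ Icc a b := ⟨le_rfl, hab.le⟩
  have hb : b ∈ Icc a b := ⟨hab.le, le_rfl⟩
  rcases h0 with h0 | ⟨h0, h1⟩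
  · exact lt_of_lt_of_le h0 (hmono ha hb hab.le)
  · by_contra hc
    push Not at hc
    have hz : ∀ t ∈ Icc a b, W t = 0 := by
      intro t ht
      have h2 := hmono ha ht ht.1
      have h3 := hmono ht hb ht.2
      rw [h0] at h2
      linarith
    have h2 : HasDerivWithinAt W (W' a) (Icc a b) a := (hW a ha).hasDerivWithinAt
    have h3 : HasDerivWithinAt W 0 (Icc a b) a :=
      (hasDerivWithinAt_const a (Icc a b) (0 : ℝ)).congr hz (hz a ha)
    have h4 := (uniqueDiffOn_Icc hab a ha).eq_deriv _ h2 h3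
    linarith

namespace Orb

variable {o : Orb} {P : Profile}

/-- at a zero of the Jacobi field all functions `W` vanish -/
theorem Zero.W_eq {t : ℝ} (h : o.Zero t) : o.w t = 0 ∧ o.WF P t = 0 ∧ o.WH P t = 0 ∧
    o.W0 P t = 0 ∧ o.WL P t = 0 ∧ o.WR P t = 0 := by
  obtain ⟨h1, h2, h3⟩ := h
  have hw : o.w t = 0 := by
    unfold w
    rw [h1, h2, h3]
    ring
  refine ⟨hw, ?_, ?_, ?_, ?_, ?_⟩
  · unfold WF; rw [hw, h1, h3]; ring
  · unfold WH; rw [hw, h1, h2]; ring
  · unfold W0; rw [hw, h1]; ring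
  · unfold WL; rw [hw, h1, h3]; ring
  · unfold WR; rw [hw, h1, h2]; ring

private theorem start_pos (hP : P.Good) {t : ℝ} (h : o.Nontriv t) :
    0 < o.pi t ^ 2 + P.q (o.r t) o.du o.dv := by
  rcases h with h | h
  · have := hP.q_nonneg (o.r t) o.du o.dv
    positivity
  · have := hP.q_pos (o.r t) h
    positivity

/-- `WF` stays positive as long as `q1 > 0`. (Use `Solves.hasDerivAt_WF`, `Good.BF_nonneg`,
`Good.q_nonneg`, `pos_of_deriv`; at a zero of the Jacobi field `WF = 0` and the derivative is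
`pi² + Q (du, dv) > 0` if it is nontrivial.) -/
theorem WF_pos (hP : P.Good) {a b : ℝ} (hab : a < b) (h : ∀ t ∈ Icc a b, o.Solves P t)
    (hq : ∀ t ∈ Icc a b, 0 < P.q1 (o.r t) o.u o.v)
    (h0 : (o.Zero a ∧ o.Nontriv a) ∨ 0 < o.WF P a) : 0 < o.WF P b := by
  apply pos_of_deriv hab (fun t ht => (h t ht).hasDerivAt_WF hP (hP.ZF_ne (hq t ht)))
  · intro t ht
    have h1 := hP.BF_nonneg (hq t ht)
    exact add_nonneg (add_nonneg (sq_nonneg _) (hP.q_nonneg _ _ _)) (mul_nonneg (sq_nonneg _) h1)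
  · rcases h0 with ⟨h1, h2⟩ | h0
    · right
      refine ⟨(Zero.W_eq h1).2.1, ?_⟩
      obtain ⟨e1, e2, e3⟩ := h1
      have h3 := start_pos hP h2
      rw [e1, e3]
      simpa using h3
    · exact Or.inl h0

theorem WH_pos (hP : P.Good) {a b : ℝ} (hab : a < b) (h : ∀ t ∈ Icc a b, o.Solves P t)
    (hq : ∀ t ∈ Icc a b, P.q1 (o.r t) o.u o.v < 0)
    (h0 : (o.Zero a ∧ o.Nontriv a) ∨ 0 < o.WH P a) : 0 < o.WH P b := by
  apply pos_of_deriv hab (fun t ht => (h t ht).hasDerivAt_WH hP (hP.ZH_ne (hq t ht)))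
  · intro t ht
    have h1 := hP.BH_nonneg (hq t ht)
    exact add_nonneg (add_nonneg (sq_nonneg _) (hP.q_nonneg _ _ _)) (mul_nonneg (sq_nonneg _) h1)
  · rcases h0 with ⟨h1, h2⟩ | h0
    · right
      refine ⟨(Zero.W_eq h1).2.2.1, ?_⟩
      obtain ⟨e1, e2, e3⟩ := h1
      have h3 := start_pos hP h2
      rw [e1, e2]
      simpa using h3
    · exact Or.inl h0

/-- the case of constant `r` with `q1 = 0` -/
theorem w_pos (hP : P.Good) {a b : ℝ} (hab : a < b) (h : ∀ t ∈ Icc a b, o.Solves P t)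
    (hq : ∀ t ∈ Icc a b, P.q1 (o.r t) o.u o.v = 0)
    (h0 : (o.Zero a ∧ o.Nontriv a) ∨ 0 < o.w a) : 0 < o.w b := by
  apply pos_of_deriv hab (fun t ht => (h t ht).hasDerivAt_w)
  · intro t ht
    have h1 := hP.q2_nonpos' (hq t ht)
    have h2 := hP.q_nonneg (o.r t) o.du o.dv
    have h3 : P.q2 (o.r t) o.u o.v * o.dr t ^ 2 ≤ 0 :=
      mul_nonpos_of_nonpos_of_nonneg h1 (sq_nonneg _)
    have h4 := sq_nonneg (o.pi t)
    linarith
  · rcases h0 with ⟨h1, h2⟩ | h0
    · right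
      refine ⟨(Zero.W_eq (P := P) h1).1, ?_⟩
      obtain ⟨e1, e2, e3⟩ := h1
      have h3 := start_pos hP h2
      rw [e1]
      simpa using h3
    · exact Or.inl h0

theorem W0_pos (hP : P.Good) {a b : ℝ} (hab : a < b) (h : ∀ t ∈ Icc a b, o.Solves P t)
    (hr : ∀ t ∈ Icc a b, o.rd t ≠ 0)
    (h0 : (o.Zero a ∧ o.Nontriv a) ∨ 0 < o.W0 P a) : 0 < o.W0 P b := by
  apply pos_of_deriv hab (fun t ht => (h t ht).hasDerivAt_W0 hP (hr t ht))
  · intro t ht
    exact add_nonneg (sq_nonneg _) (hP.q_nonneg _ _ _)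
  · rcases h0 with ⟨h1, h2⟩ | h0
    · right
      refine ⟨(Zero.W_eq h1).2.2.2.1, ?_⟩
      obtain ⟨e1, e2, e3⟩ := h1
      have h3 := start_pos hP h2
      rw [e1]
      simpa using h3
    · exact Or.inl h0

theorem WL_pos (hP : P.Good) {a b : ℝ} (hab : a < b) (h : ∀ t ∈ Icc a b, o.Solves P t)
    (hr : ∀ t ∈ Icc a b, o.r t ≤ -2)
    (h0 : (o.Zero a ∧ o.Nontriv a) ∨ 0 < o.WL P a) : 0 < o.WL P b := by
  apply pos_of_deriv hab (fun t ht => (h t ht).hasDerivAt_WL hP (hr t ht))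
  · intro t ht
    have h1 := hP.left_conv _ (hr t ht)
    have h2 := hP.Y_pos (o.r t)
    refine add_nonneg (add_nonneg (sq_nonneg _) (hP.q_nonneg _ _ _)) ?_
    exact div_nonneg (mul_nonneg (sq_nonneg _) (by linarith)) (by linarith)
  · rcases h0 with ⟨h1, h2⟩ | h0
    · right
      refine ⟨(Zero.W_eq h1).2.2.2.2.1, ?_⟩
      obtain ⟨e1, e2, e3⟩ := h1
      have h3 := start_pos hP h2
      rw [e1, e3]
      simpa using h3
    · exact Or.inl h0

theorem WR_pos (hP : P.Good) {a b : ℝ} (hab : a < b) (h : ∀ t ∈ Icc a b, o.Solves P t)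
    (hr : ∀ t ∈ Icc a b, 2 ≤ o.r t)
    (h0 : (o.Zero a ∧ o.Nontriv a) ∨ 0 < o.WR P a) : 0 < o.WR P b := by
  apply pos_of_deriv hab (fun t ht => (h t ht).hasDerivAt_WR hP (hr t ht))
  · intro t ht
    have h1 := hP.right_conv _ (hr t ht)
    have h2 := hP.X_pos (o.r t)
    refine add_nonneg (add_nonneg (sq_nonneg _) (hP.q_nonneg _ _ _)) ?_
    exact div_nonneg (mul_nonneg (sq_nonneg _) (by linarith)) (by linarith)
  · rcases h0 with ⟨h1, h2⟩ | h0
    · right
      refine ⟨(Zero.W_eq h1).2.2.2.2.2, ?_⟩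
      obtain ⟨e1, e2, e3⟩ := h1
      have h3 := start_pos hP h2
      rw [e1, e2]
      simpa using h3
    · exact Or.inl h0

end Orb

end Pool.Agent.NCQ
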