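import Pool.Agent.NCQ.TrackConst

/-! # NCQ: propagation in the collar -/

open Set Filter Topology

namespace Pool.Agent.NCQ

namespace Track

variable {P : Profile} (T : Track P)

/-- Propagation in the collar: reduction to the collar lemma `Orb.collar` for the orbit
`T.p.orb a` (see `Path.const_on`). A zero `a` of `N` is a zero of the Jacobi field
(`Orb.N_eq_zero_iff`), and `Nontriv` holds because otherwise the field vanishes near `a`
(`Orb.zero_of_zero` on a small interval around `a`, `C` being open). For `a ∈ F` use `T.sep` and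
`deriv N = 2 WL` resp. `2 WR` (`Solves.hasDerivAt_N_left`, `Solves.hasDerivAt_N_right`; `N` and
`(T.p.orb a).N P` agree near `a`: `p.orb` is constant on a small interval around `a`). -/
theorem good_of_collar (hP : P.Good) {a b : ℝ} (hab : a < b) (h : Icc a b ⊆ T.C)
    (h0 : T.Start a) : T.Good b := by
  -- enlarge the interval
  obtain ⟨ε₁, hε₁, h₁⟩ := Metric.isOpen_iff.1 T.C_open a (h (left_mem_Icc.2 hab.le))
  obtain ⟨ε₂, hε₂, h₂⟩ := Metric.isOpen_iff.1 T.C_open b (h (right_mem_Icc.2 hab.le))
  set δ : ℝ := min ε₁ ε₂ / 2 with hδ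
  have hδ0 : 0 < δ := by rw [hδ]; have := lt_min hε₁ hε₂; linarith
  have hδ₁ : δ < ε₁ := by
    rw [hδ]; have h3 := lt_min hε₁ hε₂; have h4 := min_le_left ε₁ ε₂; linarith
  have hδ₂ : δ < ε₂ := by
    rw [hδ]; have h3 := lt_min hε₁ hε₂; have h4 := min_le_right ε₁ ε₂; linarith
  have hI : Icc (a - δ) (b + δ) ⊆ T.C := by
    intro t ht
    rcases lt_or_ge t a with h3 | h3
    · apply h₁
      rw [Metric.mem_ball, Real.dist_eq, abs_lt]
      constructor <;> linarith [ht.1]
    · rcases le_or_gt t b with h4 | h4
      · exact h ⟨h3, h4⟩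
      · apply h₂
        rw [Metric.mem_ball, Real.dist_eq, abs_lt]
        constructor <;> linarith [ht.2]
  have haI : a ∈ Icc (a - δ) (b + δ) := ⟨by linarith, by linarith⟩
  have hbI : b ∈ Icc (a - δ) (b + δ) := ⟨by linarith, by linarith⟩
  have hc := Path.const_on (p := T.p) (P := P) (fun t ht => T.solves t (hI ht)) haI
  have hsol : ∀ t ∈ Icc (a - δ) (b + δ), (T.p.orb a).Solves P t := fun t ht => (hc t ht).2
  have hN : ∀ t ∈ Icc (a - δ) (b + δ), T.N t = (T.p.orb a).N P t := fun t ht => by
    rw [T.N_col t (hI ht), (hc t ht).1]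
  have hnha : Icc (a - δ) (b + δ) ∈ 𝓝 a := Icc_mem_nhds (by linarith) (by linarith)
  have hnhb : Icc (a - δ) (b + δ) ∈ 𝓝 b := Icc_mem_nhds (by linarith) (by linarith)
  have hda : deriv T.N a = deriv ((T.p.orb a).N P) a :=
    Filter.EventuallyEq.deriv_eq (by filter_upwards [hnha] with t ht using hN t ht)
  have hdb : deriv T.N b = deriv ((T.p.orb a).N P) b :=
    Filter.EventuallyEq.deriv_eq (by filter_upwards [hnhb] with t ht using hN t ht)
  -- the start condition
  have hstart : (T.p.orb a).Start P a := by
    rcases h0 with ⟨hz, hnz⟩ | ⟨hF, hpos⟩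
    · left
      have hz' : (T.p.orb a).Zero a := by
        rw [← Orb.N_eq_zero_iff hP, ← hN a haI]
        exact hz
      refine ⟨hz', ?_⟩
      by_contra hnt
      apply hnz
      filter_upwards [hnha] with t ht
      rw [hN t ht, Orb.N_eq_zero_iff hP]
      exact Orb.zero_of_zero hP hsol haI hz' hnt t ht
    · right
      rcases T.sep a hF (hI haI) with h3 | h3
      · left
        refine ⟨h3, ?_⟩
        have h4 := (Orb.Solves.hasDerivAt_N_left hP (hsol a haI)
          (by show T.p.r a ≤ -2; linarith)).deriv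
        rw [hda, h4] at hpos
        linarith
      · right
        refine ⟨h3, ?_⟩
        have h4 := (Orb.Solves.hasDerivAt_N_right hP (hsol a haI)
          (by show 2 ≤ T.p.r a; linarith)).deriv
        rw [hda, h4] at hpos
        linarith
  have hfine := Orb.collar hP hab
    (fun t ht => hsol t ⟨by linarith [ht.1], by linarith [ht.2]⟩) hstart
  constructor
  · intro hNb
    apply hfine.1
    rw [← Orb.N_eq_zero_iff hP, ← hN b hbI]
    exact hNb
  · intro hF
    rcases T.sep b hF (hI hbI) with h3 | h3
    · have h4 := (Orb.Solves.hasDerivAt_N_left hP (hsol b hbI)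
        (by show T.p.r b ≤ -2; linarith)).deriv
      rw [hdb, h4]
      have := hfine.2.1 h3
      linarith
    · have h4 := (Orb.Solves.hasDerivAt_N_right hP (hsol b hbI)
        (by show 2 ≤ T.p.r b; linarith)).deriv
      rw [hdb, h4]
      have := hfine.2.2 h3
      linarith

end Track

end Pool.Agent.NCQ
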