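import Pool.Agent.NCQ.TrackDef

/-! # NCQ: constant momenta on intervals in the collar -/

open Set Filter Topology

namespace Pool.Agent.NCQ

private theorem const_of_deriv {f : ℝ → ℝ} {a b : ℝ} (h : ∀ t ∈ Icc a b, HasDerivAt f 0 t)
    {s t : ℝ} (hs : s ∈ Icc a b) (ht : t ∈ Icc a b) : f t = f s := by
  have h1 := (convex_Icc a b).norm_image_sub_le_of_norm_hasDerivWithin_le (f := f)
    (f' := fun _ => 0) (C := 0) (fun x hx => (h x hx).hasDerivWithinAt) (fun x _ => by simp) hs ht
  rw [zero_mul] at h1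
  have h2 := norm_le_zero_iff.mp h1
  linarith

/-- On an interval in `C` the momenta are constant. -/
theorem Path.const_on {p : Path} {P : Profile} {a b : ℝ} (h : ∀ t ∈ Icc a b, p.Solves P t)
    {s : ℝ} (hs : s ∈ Icc a b) : ∀ t ∈ Icc a b, p.orb t = p.orb s ∧ (p.orb s).Solves P t := by
  intro t ht
  have h1 : p.orb t = p.orb s := by
    unfold Path.orb
    rw [const_of_deriv (fun t ht => (h t ht).hu) hs ht,
      const_of_deriv (fun t ht => (h t ht).hv) hs ht,
      const_of_deriv (fun t ht => (h t ht).hdu) hs ht,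
      const_of_deriv (fun t ht => (h t ht).hdv) hs ht]
  refine ⟨h1, ?_⟩
  rw [← h1]
  exact (h t ht).orb

end Pool.Agent.NCQ
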