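import Pool.Agent.NCQ.Cert

/-! # NCQ: uniqueness of the Jacobi field with zero initial data -/

open Set Filter Topology

namespace Pool.Agent.NCQ.Orb

variable {o : Orb} {P : Profile}

private theorem cont_all (hP : P.Good) : Continuous P.X ∧ Continuous P.X1 ∧ Continuous P.Y ∧
    Continuous P.Y1 ∧ Continuous P.T ∧ Continuous P.T1 :=
  ⟨continuous_iff_continuousAt.2 fun r => (hP.hX r).continuousAt,
    continuous_iff_continuousAt.2 fun r => (hP.hX1 r).continuousAt,
    continuous_iff_continuousAt.2 fun r => (hP.hY r).continuousAt,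
    continuous_iff_continuousAt.2 fun r => (hP.hY1 r).continuousAt,
    continuous_iff_continuousAt.2 fun r => (hP.hT r).continuousAt,
    continuous_iff_continuousAt.2 fun r => (hP.hT1 r).continuousAt⟩

private theorem cont_q2 (hP : P.Good) (u v : ℝ) : Continuous (fun r => P.q2 r u v) := by
  obtain ⟨h1, h2, h3, h4, h5, h6⟩ := cont_all hP
  have h7 := hP.cX2
  have h8 := hP.cY2
  have h9 := hP.cT2
  unfold Profile.q2 Profile.m
  fun_prop

private theorem cont_ZH1 (hP : P.Good) (u v : ℝ) : Continuous (fun r => P.ZH1 r u v) := by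
  obtain ⟨h1, h2, h3, h4, h5, h6⟩ := cont_all hP
  unfold Profile.ZH1 Profile.m
  fun_prop

private theorem cont_ZF1 (hP : P.Good) (u v : ℝ) : Continuous (fun r => P.ZF1 r u v) := by
  obtain ⟨h1, h2, h3, h4, h5, h6⟩ := cont_all hP
  unfold Profile.ZF1 Profile.m
  fun_prop

/-- Grönwall's inequality for a nonnegative function vanishing at one point -/
private theorem gron {E E' : ℝ → ℝ} {a b s K : ℝ} (hE : ∀ t ∈ Icc a b, HasDerivAt E (E' t) t)
    (hK : ∀ t ∈ Icc a b, |E' t| ≤ K * E t) (h0 : ∀ t, 0 ≤ E t) (hs : s ∈ Icc a b)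
    (hs0 : E s = 0) : ∀ t ∈ Icc a b, E t = 0 := by
  have key : ∀ c : ℝ, ∀ t ∈ Icc a b, HasDerivAt (fun t => E t * Real.exp (c * t))
      (E' t * Real.exp (c * t) + E t * (Real.exp (c * t) * c)) t := by
    intro c t ht
    have h1 : HasDerivAt (fun t : ℝ => Real.exp (c * t)) (Real.exp (c * t) * c) t := by
      have := ((hasDerivAt_id t).const_mul c).exp
      simpa using this
    exact (hE t ht).mul h1
  intro t ht
  rcases le_total s t with hst | hst
  · have hanti : AntitoneOn (fun t => E t * Real.exp (-K * t)) (Icc a b) := by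
      apply antitoneOn_of_deriv_nonpos (convex_Icc a b)
      · intro x hx
        exact (key (-K) x hx).continuousAt.continuousWithinAt
      · intro x hx
        exact (key (-K) x (interior_subset hx)).differentiableAt.differentiableWithinAt
      · intro x hx
        have hx' := interior_subset hx
        rw [(key (-K) x hx').deriv]
        have h1 := hK x hx'
        have h2 := Real.exp_pos (-K * x)
        have h3 := le_abs_self (E' x)
        have h4 : E' x * Real.exp (-K * x) + E x * (Real.exp (-K * x) * -K)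
            = (E' x - K * E x) * Real.exp (-K * x) := by ring
        rw [h4]
        exact mul_nonpos_of_nonpos_of_nonneg (by linarith) h2.le
    have h1 := hanti hs ht hst
    simp only [hs0, zero_mul] at h1
    have h2 := Real.exp_pos (-K * t)
    have h3 : E t ≤ 0 := by
      by_contra h4
      push Not at h4
      have := mul_pos h4 h2
      linarith
    exact le_antisymm h3 (h0 t)
  · have hmono : MonotoneOn (fun t => E t * Real.exp (K * t)) (Icc a b) := by
      apply monotoneOn_of_deriv_nonneg (convex_Icc a b)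
      · intro x hx
        exact (key K x hx).continuousAt.continuousWithinAt
      · intro x hx
        exact (key K x (interior_subset hx)).differentiableAt.differentiableWithinAt
      · intro x hx
        have hx' := interior_subset hx
        rw [(key K x hx').deriv]
        have h1 := hK x hx'
        have h2 := Real.exp_pos (K * x)
        have h3 := neg_abs_le (E' x)
        have h4 : E' x * Real.exp (K * x) + E x * (Real.exp (K * x) * K)
            = (E' x + K * E x) * Real.exp (K * x) := by ring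
        rw [h4]
        exact mul_nonneg (by linarith) h2.le
    have h1 := hmono ht hs hst
    simp only [hs0, zero_mul] at h1
    have h2 := Real.exp_pos (K * t)
    have h3 : E t ≤ 0 := by
      by_contra h4
      push Not at h4
      have := mul_pos h4 h2
      linarith
    exact le_antisymm h3 (h0 t)

/-- A Jacobi field with zero initial data at `s ∈ [a, b]` vanishes on `[a, b]`. Since `du = dv = 0`,
`(dr, pi)` solves the linear system `dr' = pi`, `pi' = -(q2 / 2) dr` (note `q1b .. 0 0 = 0`), with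
continuous coefficient, so `dr = pi = 0` on `[a, b]` by uniqueness (`ODE_solution_unique` style lemmas
or Grönwall), and then `dh' = dy' = 0`. -/
theorem zero_of_zero (hP : P.Good) {a b : ℝ} (h : ∀ t ∈ Icc a b, o.Solves P t) {s : ℝ}
    (hs : s ∈ Icc a b) (h0 : o.Zero s) (h1 : ¬ o.Nontriv s) : ∀ t ∈ Icc a b, o.Zero t := by
  unfold Nontriv at h1
  push Not at h1
  obtain ⟨hpi, hdu, hdv⟩ := h1
  obtain ⟨hdr, hdh, hdy⟩ := h0
  have hr : ContinuousOn o.r (Icc a b) := fun t ht => (h t ht).hr.continuousAt.continuousWithinAt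
  have c1 : ContinuousOn (fun t => P.q2 (o.r t) o.u o.v) (Icc a b) :=
    (cont_q2 hP o.u o.v).comp_continuousOn hr
  have c2 : ContinuousOn (fun t => P.ZH1 (o.r t) o.u o.v) (Icc a b) :=
    (cont_ZH1 hP o.u o.v).comp_continuousOn hr
  have c3 : ContinuousOn (fun t => P.ZF1 (o.r t) o.u o.v) (Icc a b) :=
    (cont_ZF1 hP o.u o.v).comp_continuousOn hr
  obtain ⟨K1, hK1⟩ := isCompact_Icc.exists_bound_of_continuousOn c1
  obtain ⟨K2, hK2⟩ := isCompact_Icc.exists_bound_of_continuousOn c2
  obtain ⟨K3, hK3⟩ := isCompact_Icc.exists_bound_of_continuousOn c3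
  simp only [Real.norm_eq_abs] at hK1 hK2 hK3
  have p1 : 0 ≤ K1 := (abs_nonneg _).trans (hK1 s hs)
  have p2 : 0 ≤ K2 := (abs_nonneg _).trans (hK2 s hs)
  have p3 : 0 ≤ K3 := (abs_nonneg _).trans (hK3 s hs)
  have hE : ∀ t ∈ Icc a b, HasDerivAt
      (fun t => o.dr t ^ 2 + o.pi t ^ 2 + o.dh t ^ 2 + o.dy t ^ 2)
      (2 * o.dr t * o.pi t - P.q2 (o.r t) o.u o.v * o.dr t * o.pi t
        + 2 * o.dh t * (o.dr t * P.ZH1 (o.r t) o.u o.v)
        + 2 * o.dy t * (o.dr t * P.ZF1 (o.r t) o.u o.v)) t := by
    intro t ht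
    have hS := h t ht
    have hd := (((hS.hdr.pow 2).add (hS.hpi.pow 2)).add (hS.hdh.pow 2)).add (hS.hdy.pow 2)
    refine hd.congr_deriv ?_
    simp only [hdu, hdv, Profile.q1b, Profile.ZH, Profile.ZF, Profile.m, Nat.cast_ofNat,
      Nat.add_one_sub_one, pow_one]
    ring
  have hfin := gron (K := 1 + K1 + K2 + K3) hE (by
    intro t ht
    have b1 := hK1 t ht
    have b2 := hK2 t ht
    have b3 := hK3 t ht
    set x := o.dr t
    set y := o.pi t
    set z := o.dh t
    set w := o.dy t
    set A := P.q2 (o.r t) o.u o.v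
    set B := P.ZH1 (o.r t) o.u o.v
    set C := P.ZF1 (o.r t) o.u o.v
    have e1 : |2 * x * y| ≤ x ^ 2 + y ^ 2 := by
      rw [abs_le]; constructor <;> nlinarith [sq_nonneg (x + y), sq_nonneg (x - y)]
    have e2 : |2 * z * x| ≤ z ^ 2 + x ^ 2 := by
      rw [abs_le]; constructor <;> nlinarith [sq_nonneg (z + x), sq_nonneg (z - x)]
    have e3 : |2 * w * x| ≤ w ^ 2 + x ^ 2 := by
      rw [abs_le]; constructor <;> nlinarith [sq_nonneg (w + x), sq_nonneg (w - x)]
    have f1 : |A * x * y| ≤ K1 * (x ^ 2 + y ^ 2) := by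
      have : A * x * y = A * (2 * x * y) / 2 := by ring
      rw [this, abs_div, abs_mul, abs_of_pos (by norm_num : (0 : ℝ) < 2)]
      have h3 := mul_le_mul b1 e1 (abs_nonneg _) p1
      have h4 : 0 ≤ K1 * (x ^ 2 + y ^ 2) := by positivity
      linarith
    have f2 : |2 * z * (x * B)| ≤ K2 * (z ^ 2 + x ^ 2) := by
      have : 2 * z * (x * B) = B * (2 * z * x) := by ring
      rw [this, abs_mul]
      exact mul_le_mul b2 e2 (abs_nonneg _) p2
    have f3 : |2 * w * (x * C)| ≤ K3 * (w ^ 2 + x ^ 2) := by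
      have : 2 * w * (x * C) = C * (2 * w * x) := by ring
      rw [this, abs_mul]
      exact mul_le_mul b3 e3 (abs_nonneg _) p3
    have g1 := abs_add_le (2 * x * y - A * x * y + 2 * z * (x * B)) (2 * w * (x * C))
    have g2 := abs_add_le (2 * x * y - A * x * y) (2 * z * (x * B))
    have g3 := abs_sub (2 * x * y) (A * x * y)
    have q1 : 0 ≤ K1 * (z ^ 2 + w ^ 2) := by positivity
    have q2 : 0 ≤ K2 * (y ^ 2 + w ^ 2) := by positivity
    have q3 : 0 ≤ K3 * (y ^ 2 + z ^ 2) := by positivity
    have q4 := sq_nonneg z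
    have q5 := sq_nonneg w
    nlinarith) (fun t => by positivity) hs (by
      simp only [hdr, hpi, hdh, hdy]
      ring)
  intro t ht
  have h3 := hfin t ht
  have s1 := sq_nonneg (o.dr t)
  have s2 := sq_nonneg (o.pi t)
  have s3 := sq_nonneg (o.dh t)
  have s4 := sq_nonneg (o.dy t)
  refine ⟨pow_eq_zero_iff (two_ne_zero) |>.1 (by linarith),
    pow_eq_zero_iff (two_ne_zero) |>.1 (by linarith),
    pow_eq_zero_iff (two_ne_zero) |>.1 (by linarith)⟩

/-- If the Jacobi field vanishes at all times near `s` (where the equations hold) then it has zero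
initial data at `s`: `dr = 0` near `s` gives `pi s = 0`, `dy' (s) = 0` gives `Y m (du, dv) = 0`,
`dh' (s) = 0` gives `X du = 0`. -/
theorem not_nontriv_of_eventually (hP : P.Good) {s : ℝ} (h : o.Solves P s)
    (h0 : ∀ᶠ t in 𝓝 s, o.Zero t) : ¬ o.Nontriv s := by
  have hs0 : o.Zero s := h0.self_of_nhds
  have e1 : o.pi s = 0 := by
    have : HasDerivAt o.dr 0 s :=
      (hasDerivAt_const s (0 : ℝ)).congr_of_eventuallyEq (h0.mono fun t ht => ht.1)
    exact h.hdr.unique this
  have e2 : P.ZH (o.r s) o.du o.dv + o.dr s * P.ZH1 (o.r s) o.u o.v = 0 := by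
    have : HasDerivAt o.dh 0 s :=
      (hasDerivAt_const s (0 : ℝ)).congr_of_eventuallyEq (h0.mono fun t ht => ht.2.1)
    exact h.hdh.unique this
  have e3 : P.ZF (o.r s) o.du o.dv + o.dr s * P.ZF1 (o.r s) o.u o.v = 0 := by
    have : HasDerivAt o.dy 0 s :=
      (hasDerivAt_const s (0 : ℝ)).congr_of_eventuallyEq (h0.mono fun t ht => ht.2.2)
    exact h.hdy.unique this
  rw [hs0.1, zero_mul, add_zero] at e2 e3
  have hX := hP.X_pos (o.r s)
  have hY := hP.Y_pos (o.r s)
  have e4 : P.m (o.r s) o.du o.dv = 0 := by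
    unfold Profile.ZF at e3
    exact (mul_eq_zero.1 e3).resolve_left hY.ne'
  have e5 : o.du = 0 := by
    unfold Profile.ZH at e2
    rw [e4, mul_zero, sub_zero] at e2
    exact (mul_eq_zero.1 e2).resolve_left hX.ne'
  have e6 : o.dv = 0 := by
    unfold Profile.m at e4
    rw [e5] at e4
    linarith
  rintro (h1 | h1 | h1)
  · exact h1 e1
  · exact h1 e5
  · exact h1 e6

theorem N_nonneg (hP : P.Good) (t : ℝ) : 0 ≤ o.N P t := by
  have hX := hP.X_pos (o.r t)
  have hY := hP.Y_pos (o.r t)
  unfold N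
  positivity

/-- the length of the Jacobi field is zero iff the field is zero -/
theorem N_eq_zero_iff (hP : P.Good) (t : ℝ) : o.N P t = 0 ↔ o.Zero t := by
  have hX := hP.X_pos (o.r t)
  have hY := hP.Y_pos (o.r t)
  constructor
  · intro h
    unfold N at h
    have h1 : 0 ≤ o.dr t ^ 2 := sq_nonneg _
    have h2 : 0 ≤ (o.dh t + P.T (o.r t) * o.dy t) ^ 2 / P.X (o.r t) := by positivity
    have h3 : 0 ≤ o.dy t ^ 2 / P.Y (o.r t) := by positivity
    have e1 : o.dr t = 0 := pow_eq_zero_iff (two_ne_zero) |>.1 (by linarith)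
    have e3 : o.dy t ^ 2 / P.Y (o.r t) = 0 := by linarith
    have e2 : (o.dh t + P.T (o.r t) * o.dy t) ^ 2 / P.X (o.r t) = 0 := by linarith
    have e3' : o.dy t = 0 := by
      rcases div_eq_zero_iff.1 e3 with h4 | h4
      · exact pow_eq_zero_iff (two_ne_zero) |>.1 h4
      · exact absurd h4 hY.ne'
    have e2' : o.dh t + P.T (o.r t) * o.dy t = 0 := by
      rcases div_eq_zero_iff.1 e2 with h4 | h4
      · exact pow_eq_zero_iff (two_ne_zero) |>.1 h4
      · exact absurd h4 hX.ne'
    rw [e3', mul_zero, add_zero] at e2'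
    exact ⟨e1, e2', e3'⟩
  · rintro ⟨h1, h2, h3⟩
    unfold N
    rw [h1, h2, h3]
    simp

end Pool.Agent.NCQ.Orb
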