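import Pool.Agent.NCQ.Collar
import Pool.Agent.NCQ.Unique

/-! # NCQ: the abstract global argument -/

open Set Filter Topology

namespace Pool.Agent.NCQ

/-- Collar data with time dependent momenta (constant as long as the orbit stays in the collar). -/
structure Path where
  r : ℝ → ℝ
  rd : ℝ → ℝ
  dr : ℝ → ℝ
  pi : ℝ → ℝ
  dh : ℝ → ℝ
  dy : ℝ → ℝ
  u : ℝ → ℝ
  v : ℝ → ℝ
  du : ℝ → ℝ
  dv : ℝ → ℝ

/-- the orbit whose constant momenta are those of the path at the time `s` -/
def Path.orb (p : Path) (s : ℝ) : Orb where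
  r := p.r
  rd := p.rd
  dr := p.dr
  pi := p.pi
  dh := p.dh
  dy := p.dy
  u := p.u s
  v := p.v s
  du := p.du s
  dv := p.dv s

/-- The equations hold at `t`. -/
structure Path.Solves (p : Path) (P : Profile) (t : ℝ) : Prop where
  orb : (p.orb t).Solves P t
  hu : HasDerivAt p.u 0 t
  hv : HasDerivAt p.v 0 t
  hdu : HasDerivAt p.du 0 t
  hdv : HasDerivAt p.dv 0 t

/-- A geodesic with a Jacobi field in the closed manifold, as seen by the global argument:
`N` is the squared length of the Jacobi field, `F` the set of times in the flat part, `C` the set of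
times in the collar. -/
structure Track (P : Profile) where
  N : ℝ → ℝ
  F : Set ℝ
  C : Set ℝ
  p : Path
  F_open : IsOpen F
  C_open : IsOpen C
  cover : F ∪ C = univ
  N_nonneg : ∀ t, 0 ≤ N t
  solves : ∀ t ∈ C, p.Solves P t
  N_col : ∀ t ∈ C, N t = (p.orb t).N P t
  sep : ∀ t ∈ F, t ∈ C → p.r t ≤ -3 ∨ 3 ≤ p.r t
  flat : ∀ t ∈ F, ∃ a b c : ℝ, 0 ≤ c ∧ ∀ᶠ s in 𝓝 t, N s = a + b * (s - t) + c * (s - t) ^ 2

namespace Track

variable {P : Profile} (T : Track P)

/-- the condition to start the propagation: either a zero of `N` where `N` is not locally zero, or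
a flat time with `N' > 0` -/
def Start (t : ℝ) : Prop :=
  (T.N t = 0 ∧ ¬ ∀ᶠ s in 𝓝 t, T.N s = 0) ∨ (t ∈ T.F ∧ 0 < deriv T.N t)

/-- the property to be propagated -/
def Good (t : ℝ) : Prop := T.N t ≠ 0 ∧ (t ∈ T.F → 0 < deriv T.N t)

end Track

end Pool.Agent.NCQ
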