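import Pool.Agent.NCQ.TrackDef

/-! # NCQ: propagation in the flat part -/

open Set Filter Topology

namespace Pool.Agent.NCQ

namespace Track

variable {P : Profile} (T : Track P)

/-- near a time of the flat part the derivative of `N` is affine with nonnegative slope -/
private theorem flat_deriv {t : ℝ} (ht : t ∈ T.F) : ∃ a b c : ℝ, 0 ≤ c ∧
    (∀ᶠ s in 𝓝 t, T.N s = a + b * (s - t) + c * (s - t) ^ 2) ∧
    (∀ᶠ s in 𝓝 t, deriv T.N s = b + 2 * c * (s - t)) := by
  obtain ⟨a, b, c, hc, hN⟩ := T.flat t ht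
  refine ⟨a, b, c, hc, hN, ?_⟩
  filter_upwards [hN.eventually_nhds] with s hs
  have h1 : HasDerivAt (fun s : ℝ => a + b * (s - t) + c * (s - t) ^ 2) (b + 2 * c * (s - t)) s := by
    have h2 := (hasDerivAt_id s).sub_const t
    have h3 := ((h2.const_mul b).const_add a).add ((h2.pow 2).const_mul c)
    refine h3.congr_deriv ?_
    simp only [id, Nat.cast_ofNat, Nat.add_one_sub_one, pow_one]
    ring
  exact (h1.congr_of_eventuallyEq hs).deriv

private theorem hasDerivAt_deriv {t : ℝ} (ht : t ∈ T.F) : ∃ c : ℝ, 0 ≤ c ∧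
    HasDerivAt (deriv T.N) (2 * c) t := by
  obtain ⟨a, b, c, hc, -, h⟩ := flat_deriv T ht
  refine ⟨c, hc, ?_⟩
  have h1 : HasDerivAt (fun s : ℝ => b + 2 * c * (s - t)) (2 * c) t := by
    have h2 := (hasDerivAt_id t).sub_const t
    have h3 := (h2.const_mul (2 * c)).const_add b
    refine h3.congr_deriv ?_
    ring
  exact h1.congr_of_eventuallyEq h

private theorem mono_deriv {a b : ℝ} (h : Icc a b ⊆ T.F) : MonotoneOn (deriv T.N) (Icc a b) := by
  refine monotoneOn_of_deriv_nonneg (convex_Icc a b) ?_ ?_ ?_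
  · intro t ht
    obtain ⟨c, -, hc⟩ := hasDerivAt_deriv T (h ht)
    exact hc.continuousAt.continuousWithinAt
  · intro t ht
    obtain ⟨c, -, hc⟩ := hasDerivAt_deriv T (h (interior_subset ht))
    exact hc.differentiableAt.differentiableWithinAt
  · intro t ht
    obtain ⟨c, h0, hc⟩ := hasDerivAt_deriv T (h (interior_subset ht))
    rw [hc.deriv]
    positivity

private theorem deriv_eq_zero_of_zero {t : ℝ} (ht : T.N t = 0) : deriv T.N t = 0 := by
  have h : IsLocalMin T.N t := by
    refine Filter.Eventually.of_forall (fun s => ?_)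
    rw [ht]
    exact T.N_nonneg s
  exact h.deriv_eq_zero

/-- Propagation in the flat part: near every time of `F` the function `N` is a quadratic polynomial
with nonnegative leading coefficient, so `deriv N` is nondecreasing on `[a, b]` (it is locally
nondecreasing and continuous; or: `deriv (deriv N) ≥ 0` and `monotoneOn_of_deriv_nonneg`). If
`N a = 0` then `N = c (t - a)²` near `a` (as `N ≥ 0`) with `c > 0` because `N` is not locally zero,
so `deriv N > 0` right after `a`. Finally `deriv N b > 0` implies `N b ≠ 0` because `N ≥ 0`. -/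
theorem good_of_flat {a b : ℝ} (hab : a < b) (h : Icc a b ⊆ T.F) (h0 : T.Start a) :
    T.Good b := by
  have hmono := mono_deriv T h
  have key : ∃ s ∈ Icc a b, 0 < deriv T.N s := by
    rcases h0 with ⟨h1, h2⟩ | ⟨-, h2⟩
    · obtain ⟨a0, b0, c, hc, hN, hD⟩ := flat_deriv T (h (left_mem_Icc.2 hab.le))
      have e1 : a0 = 0 := by
        have := hN.self_of_nhds
        rw [h1] at this
        simpa using this.symm
      have e2 : b0 = 0 := by
        have := hD.self_of_nhds
        rw [deriv_eq_zero_of_zero T h1] at this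
        simpa using this.symm
      have hc' : 0 < c := by
        rcases hc.lt_or_eq with h3 | h3
        · exact h3
        · exfalso
          apply h2
          filter_upwards [hN] with s hs
          rw [hs, e1, e2, ← h3]
          ring
      have hD' : ∀ᶠ s in 𝓝[>] a, deriv T.N s = b0 + 2 * c * (s - a) := hD.filter_mono nhdsWithin_le_nhds
      have hI : ∀ᶠ s in 𝓝[>] a, s ∈ Ioo a b := Ioo_mem_nhdsGT hab
      obtain ⟨s, hs1, hs2⟩ := (hD'.and hI).exists
      refine ⟨s, Ioo_subset_Icc_self hs2, ?_⟩
      rw [hs1, e2]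
      have := sub_pos.2 hs2.1
      positivity
    · exact ⟨a, left_mem_Icc.2 hab.le, h2⟩
  obtain ⟨s, hs, hs'⟩ := key
  have hb : 0 < deriv T.N b := lt_of_lt_of_le hs' (hmono hs (right_mem_Icc.2 hab.le) hs.2)
  refine ⟨fun h1 => ?_, fun _ => hb⟩
  rw [deriv_eq_zero_of_zero T h1] at hb
  exact lt_irrefl _ hb

end Track

end Pool.Agent.NCQ
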