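import Pool.Agent.NCQ.TrackFlat
import Pool.Agent.NCQ.TrackCol

/-! # NCQ: propagation (real induction) -/

open Set Filter Topology

namespace Pool.Agent.NCQ

namespace Track

variable {P : Profile} (T : Track P)

/-- a small closed interval around a point of an open set -/
private theorem exists_Icc {U : Set ℝ} (hU : IsOpen U) {t : ℝ} (ht : t ∈ U) :
    ∃ δ > 0, Icc (t - δ) (t + δ) ⊆ U := by
  obtain ⟨ε, hε, h⟩ := Metric.isOpen_iff.1 hU t ht
  refine ⟨ε / 2, by positivity, fun x hx => h ?_⟩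
  rw [Metric.mem_ball, Real.dist_eq, abs_lt]
  constructor <;> linarith [hx.1, hx.2]

/-- Propagation: real induction. Let `S` be the set of `t ∈ [a, b]` such that all times of `(a, t]`
are good; `t₀ = sup S`. If `t₀ ∈ F`, use `good_of_flat` on a small interval around `t₀` starting at a
time `< t₀` (or at `a`). If `t₀ ∉ F`, then `t₀ ∈ C`; let `s` be the supremum of the times of
`F ∩ [a, t₀]` (or `a` if there is none); `s` is not in `F` (or equals `a`), so it is in `C`, and there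
is a start time `s' ≤ s` in `F` (or `a`) with `[s', t₀ + ε] ⊆ C`; use `good_of_collar`. -/
theorem propagate (hP : P.Good) {a b : ℝ} (hab : a < b) (h0 : T.Start a) : T.Good b := by
  by_contra hb
  set B : Set ℝ := {t | a < t ∧ ¬ T.Good t} with hB
  have hbB : b ∈ B := ⟨hab, hb⟩
  have hbdd : BddBelow B := ⟨a, fun t ht => ht.1.le⟩
  set t₀ := sInf B with ht₀
  have hat₀ : a ≤ t₀ := le_csInf ⟨b, hbB⟩ fun t ht => ht.1.le
  have hlow : ∀ t, a < t → t < t₀ → T.Good t := by
    intro t h1 h2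
    by_contra h3
    exact absurd (csInf_le hbdd (show t ∈ B from ⟨h1, h3⟩)) (not_le.2 h2)
  have key : ∀ s ε, (s = a ∨ s < t₀) → 0 < ε → T.Start s →
      (Icc s (t₀ + ε) ⊆ T.F ∨ Icc s (t₀ + ε) ⊆ T.C) → False := by
    intro s ε hs hε hst hsub
    obtain ⟨t, htB, ht⟩ := exists_lt_of_csInf_lt ⟨b, hbB⟩ (show sInf B < t₀ + ε by linarith)
    have hst' : s < t := by
      rcases hs with hs | hs
      · rw [hs]; exact htB.1
      · exact lt_of_lt_of_le hs (csInf_le hbdd htB)
    have hI : Icc s t ⊆ Icc s (t₀ + ε) := Icc_subset_Icc_right ht.le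
    rcases hsub with h | h
    · exact htB.2 (T.good_of_flat hst' (hI.trans h) hst)
    · exact htB.2 (T.good_of_collar hP hst' (hI.trans h) hst)
  have hcov : t₀ ∈ T.F ∪ T.C := by rw [T.cover]; trivial
  rcases hcov with hF | hC
  · obtain ⟨δ, hδ, hI⟩ := exists_Icc T.F_open hF
    rcases le_or_gt (t₀ - δ) a with h1 | h1
    · exact key a δ (Or.inl rfl) hδ h0 (Or.inl ((Icc_subset_Icc_left h1).trans hI))
    · have h2 : t₀ - δ ∈ T.F := hI ⟨le_refl _, by linarith⟩
      exact key (t₀ - δ) δ (Or.inr (by linarith)) hδ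
        (Or.inr ⟨h2, (hlow _ h1 (by linarith)).2 h2⟩) (Or.inl hI)
  · obtain ⟨ε, hε, hI⟩ := exists_Icc T.C_open hC
    set E : Set ℝ := {s | a ≤ s ∧ s ≤ t₀ ∧ Icc s t₀ ⊆ T.C} with hE
    have ht₀E : t₀ ∈ E := ⟨hat₀, le_refl _, by rw [Icc_self]; exact singleton_subset_iff.2 hC⟩
    have hEb : BddBelow E := ⟨a, fun s hs => hs.1⟩
    set s₁ := sInf E with hs₁
    have has₁ : a ≤ s₁ := le_csInf ⟨t₀, ht₀E⟩ fun s hs => hs.1
    have hs₁t₀ : s₁ ≤ t₀ := csInf_le hEb ht₀E
    have hIoc : Ioc s₁ t₀ ⊆ T.C := by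
      intro x hx
      obtain ⟨s, hsE, hs⟩ := exists_lt_of_csInf_lt ⟨t₀, ht₀E⟩ hx.1
      exact hsE.2.2 ⟨hs.le, hx.2⟩
    by_cases h1 : s₁ ∈ T.C
    · have hIcc : Icc s₁ (t₀ + ε) ⊆ T.C := by
        intro x hx
        rcases le_or_gt x t₀ with h2 | h2
        · rcases eq_or_lt_of_le hx.1 with h3 | h3
          · rw [← h3]; exact h1
          · exact hIoc ⟨h3, h2⟩
        · exact hI ⟨by linarith, hx.2⟩
      rcases eq_or_lt_of_le has₁ with h2 | h2
      · rw [← h2] at hIcc
        exact key a ε (Or.inl rfl) hε h0 (Or.inr hIcc)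
      · obtain ⟨δ, hδ, hJ⟩ := exists_Icc T.C_open h1
        have h3 : max a (s₁ - δ) < s₁ := max_lt h2 (by linarith)
        have h4 : max a (s₁ - δ) ∈ E := by
          refine ⟨le_max_left _ _, h3.le.trans hs₁t₀, fun x hx => ?_⟩
          rcases le_or_gt x s₁ with h5 | h5
          · exact hJ ⟨(le_max_right _ _).trans hx.1, by linarith⟩
          · exact hIoc ⟨h5, hx.2⟩
        exact absurd (csInf_le hEb h4) (not_le.2 h3)
    · have h2 : s₁ ∈ T.F := by
        have : s₁ ∈ T.F ∪ T.C := by rw [T.cover]; trivial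
        exact this.resolve_right h1
      have h3 : s₁ < t₀ := by
        rcases eq_or_lt_of_le hs₁t₀ with h | h
        · exact absurd (h ▸ hC) h1
        · exact h
      obtain ⟨δ, hδ, hJ⟩ := exists_Icc T.F_open h2
      set s' := min (s₁ + δ) ((s₁ + t₀) / 2) with hs'
      have h4 : s₁ < s' := lt_min (by linarith) (by linarith)
      have h5 : s' < t₀ := lt_of_le_of_lt (min_le_right _ _) (by linarith)
      have h6 : s' ∈ T.F := hJ ⟨by linarith, min_le_left _ _⟩
      have h7 : T.Start s' := Or.inr ⟨h6, (hlow s' (by linarith) h5).2 h6⟩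
      refine key s' ε (Or.inr h5) hε h7 (Or.inr fun x hx => ?_)
      rcases le_or_gt x t₀ with h8 | h8
      · exact hIoc ⟨by linarith [hx.1], h8⟩
      · exact hI ⟨by linarith, hx.2⟩

end Track

end Pool.Agent.NCQ
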