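import Pool.Agent.NCQ.Zone

/-! # NCQ: turning points of the radial coordinate -/

open Set Filter Topology

namespace Pool.Agent.NCQ.Orb

variable {o : Orb} {P : Profile}

/-- energy `rd² + Q_r (u, v)` is constant on an interval: the derivative is
`2 rd (-(q1)/2) + q1 rd = 0`. -/
theorem energy (hP : P.Good) {a b : ℝ} (h : ∀ t ∈ Icc a b, o.Solves P t) {s t : ℝ}
    (hs : s ∈ Icc a b) (ht : t ∈ Icc a b) :
    o.rd s ^ 2 + P.q (o.r s) o.u o.v = o.rd t ^ 2 + P.q (o.r t) o.u o.v := by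
  have hd : ∀ x ∈ Icc a b, HasDerivAt (fun t => o.rd t ^ 2 + P.q (o.r t) o.u o.v) 0 x := by
    intro x hx
    have h1 := ((h x hx).hrd.pow 2).add ((hP.hasDerivAt_q o.u o.v (o.r x)).comp x (h x hx).hr)
    refine h1.congr_deriv ?_
    simp only [Nat.cast_ofNat, Nat.add_one_sub_one, pow_one]
    ring
  have hc : ContinuousOn (fun t => o.rd t ^ 2 + P.q (o.r t) o.u o.v) (Icc a b) :=
    fun x hx => (hd x hx).continuousAt.continuousWithinAt
  have h2 := constant_of_has_deriv_right_zero hc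
    (fun x hx => (hd x (Ico_subset_Icc_self hx)).hasDerivWithinAt)
  rw [h2 s hs, h2 t ht]

theorem q_le_turn (hP : P.Good) {a b : ℝ} (h : ∀ t ∈ Icc a b, o.Solves P t) {s : ℝ}
    (hs : s ∈ Icc a b) (h0 : o.rd s = 0) :
    ∀ t ∈ Icc a b, P.q (o.r t) o.u o.v ≤ P.q (o.r s) o.u o.v := by
  intro t ht
  have h1 := energy hP h hs ht
  rw [h0] at h1
  nlinarith [sq_nonneg (o.rd t)]

theorem r_contOn {a b : ℝ} (h : ∀ t ∈ Icc a b, o.Solves P t) : ContinuousOn o.r (Icc a b) :=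
  fun x hx => (h x hx).hr.continuousAt.continuousWithinAt

/-- A turning point with `q1 > 0`: the orbit stays on the left of it. Proof: by energy,
`Q_{r t} ≤ Q_{r s}` for all `t`, while `Q_ρ > Q_{r s}` for `ρ` in some interval `(r s, r s + δ)`
(positive derivative `q1` at `r s`); so the continuous function `r` never takes a value in
`(r s, r s + δ)` and the intermediate value theorem gives `r t ≤ r s`. -/
theorem le_turn (hP : P.Good) {a b : ℝ} (h : ∀ t ∈ Icc a b, o.Solves P t) {s : ℝ}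
    (hs : s ∈ Icc a b) (h0 : o.rd s = 0) (hq : 0 < P.q1 (o.r s) o.u o.v) :
    ∀ t ∈ Icc a b, o.r t ≤ o.r s := by
  intro t ht
  by_contra hlt
  push Not at hlt
  have hd := hP.hasDerivAt_q o.u o.v (o.r s)
  have hev : ∀ᶠ ρ in 𝓝[>] (o.r s), P.q (o.r s) o.u o.v < P.q ρ o.u o.v := by
    have h1 := (hasDerivAt_iff_tendsto_slope.1 hd).eventually (lt_mem_nhds hq)
    have h2 : ∀ᶠ ρ in 𝓝[>] (o.r s), 0 < slope (fun r => P.q r o.u o.v) (o.r s) ρ :=
      h1.filter_mono (nhdsWithin_mono _ fun x hx => ne_of_gt hx)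
    filter_upwards [h2, self_mem_nhdsWithin] with ρ hρ hρ'
    have hρ'' : o.r s < ρ := hρ'
    rw [slope_def_field] at hρ
    have h3 := (div_pos_iff_of_pos_right (sub_pos.2 hρ'')).1 hρ
    linarith
  have hev2 : ∀ᶠ ρ in 𝓝[>] (o.r s), ρ ≤ o.r t :=
    (eventually_le_nhds hlt).filter_mono nhdsWithin_le_nhds
  obtain ⟨ρ, ⟨h1, h2⟩, h3⟩ := ((hev.and hev2).and self_mem_nhdsWithin).exists
  have h3' : o.r s < ρ := h3
  have hsub : uIcc s t ⊆ Icc a b := (ordConnected_Icc.uIcc_subset hs ht)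
  obtain ⟨x, hx, hxρ⟩ := intermediate_value_uIcc ((r_contOn h).mono hsub)
    (show ρ ∈ uIcc (o.r s) (o.r t) from ⟨by rw [min_eq_left hlt.le]; exact h3'.le,
      by rw [max_eq_right hlt.le]; exact h2⟩)
  have h4 := q_le_turn hP h hs h0 x (hsub hx)
  rw [hxρ] at h4
  linarith

/-- A turning point with `q1 < 0`: the orbit stays on the right of it. -/
theorem ge_turn (hP : P.Good) {a b : ℝ} (h : ∀ t ∈ Icc a b, o.Solves P t) {s : ℝ}
    (hs : s ∈ Icc a b) (h0 : o.rd s = 0) (hq : P.q1 (o.r s) o.u o.v < 0) :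
    ∀ t ∈ Icc a b, o.r s ≤ o.r t := by
  intro t ht
  by_contra hlt
  push Not at hlt
  have hd := hP.hasDerivAt_q o.u o.v (o.r s)
  have hev : ∀ᶠ ρ in 𝓝[<] (o.r s), P.q (o.r s) o.u o.v < P.q ρ o.u o.v := by
    have h1 := (hasDerivAt_iff_tendsto_slope.1 hd).eventually (gt_mem_nhds hq)
    have h2 : ∀ᶠ ρ in 𝓝[<] (o.r s), slope (fun r => P.q r o.u o.v) (o.r s) ρ < 0 :=
      h1.filter_mono (nhdsWithin_mono _ fun x hx => ne_of_lt hx)
    filter_upwards [h2, self_mem_nhdsWithin] with ρ hρ hρ'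
    have hρ'' : ρ < o.r s := hρ'
    rw [slope_def_field, div_neg_iff] at hρ
    rcases hρ with ⟨h3, _⟩ | ⟨_, h3⟩
    · linarith
    · linarith
  have hev2 : ∀ᶠ ρ in 𝓝[<] (o.r s), o.r t ≤ ρ :=
    (eventually_ge_nhds hlt).filter_mono nhdsWithin_le_nhds
  obtain ⟨ρ, ⟨h1, h2⟩, h3⟩ := ((hev.and hev2).and self_mem_nhdsWithin).exists
  have h3' : ρ < o.r s := h3
  have hsub : uIcc s t ⊆ Icc a b := (ordConnected_Icc.uIcc_subset hs ht)
  obtain ⟨x, hx, hxρ⟩ := intermediate_value_uIcc ((r_contOn h).mono hsub)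
    (show ρ ∈ uIcc (o.r s) (o.r t) from ⟨by rw [min_eq_right hlt.le]; exact h2,
      by rw [max_eq_left hlt.le]; exact h3'.le⟩)
  have h4 := q_le_turn hP h hs h0 x (hsub hx)
  rw [hxρ] at h4
  linarith

/-- `q1` is Lipschitz on compact sets. -/
theorem q1_lip (hP : P.Good) (u v : ℝ) {s : Set ℝ} (hs : IsCompact s) :
    ∃ K : NNReal, ∀ x y, x ∈ s → y ∈ s → |P.q1 x u v - P.q1 y u v| ≤ K * |x - y| := by
  obtain ⟨A, hA⟩ := hs.isBounded.subset_closedBall 0
  have hcX1 : Continuous P.X1 := continuous_iff_continuousAt.2 fun r => (hP.hX1 r).continuousAt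
  have hcY : Continuous P.Y := continuous_iff_continuousAt.2 fun r => (hP.hY r).continuousAt
  have hcY1 : Continuous P.Y1 := continuous_iff_continuousAt.2 fun r => (hP.hY1 r).continuousAt
  have hcT : Continuous P.T := continuous_iff_continuousAt.2 fun r => (hP.hT r).continuousAt
  have hcT1 : Continuous P.T1 := continuous_iff_continuousAt.2 fun r => (hP.hT1 r).continuousAt
  have hcX2 := hP.cX2
  have hcY2 := hP.cY2
  have hcT2 := hP.cT2
  have hc : Continuous (fun r => P.q2 r u v) := by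
    unfold Profile.q2 Profile.m
    fun_prop
  obtain ⟨B, hB⟩ := (isCompact_closedBall (0 : ℝ) A).exists_bound_of_continuousOn hc.continuousOn
  refine ⟨⟨max B 0, le_max_right _ _⟩, fun x y hx hy => ?_⟩
  have h1 := (convex_closedBall (0 : ℝ) A).norm_image_sub_le_of_norm_hasDerivWithin_le
    (f := fun r => P.q1 r u v) (f' := fun r => P.q2 r u v) (C := max B 0)
    (fun r _ => (hP.hasDerivAt_q1 u v r).hasDerivWithinAt)
    (fun r hr => (hB r hr).trans (le_max_left _ _)) (hA hy) (hA hx)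
  rw [Real.norm_eq_abs, Real.norm_eq_abs] at h1
  exact h1

/-- A turning point with `q1 = 0`: the orbit has constant `r` (uniqueness for the ordinary
differential equation `r'' = - q1 (r) / 2`, whose right-hand side is continuously differentiable in
`r`; compare with the constant solution. `ODE_solution_unique_of_mem_Icc` or similar, with a
Lipschitz constant on the compact range of `r` on `[a, b]`). -/
theorem const_turn (hP : P.Good) {a b : ℝ} (h : ∀ t ∈ Icc a b, o.Solves P t) {s : ℝ}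
    (hs : s ∈ Icc a b) (h0 : o.rd s = 0) (hq : P.q1 (o.r s) o.u o.v = 0) :
    ∀ t ∈ Icc a b, o.r t = o.r s ∧ o.rd t = 0 := by
  obtain ⟨K, hK⟩ := q1_lip hP o.u o.v ((isCompact_Icc.image_of_continuousOn (r_contOn h)))
  have key : ∀ x y, x ∈ o.r '' Icc a b → y ∈ o.r '' Icc a b →
      |P.q1 x o.u o.v - P.q1 y o.u o.v| ≤ K * |x - y| := hK
  set f : ℝ → ℝ × ℝ := fun t => (o.r t, o.rd t) with hf
  set g : ℝ → ℝ × ℝ := fun _ => (o.r s, 0) with hg
  set V : ℝ → ℝ × ℝ → ℝ × ℝ := fun _ z => (z.2, -(P.q1 z.1 o.u o.v) / 2) with hV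
  set S : ℝ → Set (ℝ × ℝ) := fun _ => (o.r '' Icc a b) ×ˢ univ with hS
  have hLip : ∀ t, LipschitzOnWith (max 1 K) (V t) (S t) := by
    intro t
    apply LipschitzOnWith.of_dist_le_mul
    rintro ⟨x, y⟩ ⟨hx, _⟩ ⟨x', y'⟩ ⟨hx', _⟩
    have h1 := key x x' hx hx'
    simp only [hV, Prod.dist_eq, Real.dist_eq, NNReal.coe_max, NNReal.coe_one]
    apply max_le
    · calc |y - y'| ≤ 1 * max |x - x'| |y - y'| := by rw [one_mul]; exact le_max_right _ _
        _ ≤ _ := mul_le_mul_of_nonneg_right (le_max_left _ _) (le_max_of_le_left (abs_nonneg _))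
    · have h2 : |-(P.q1 x o.u o.v) / 2 - -(P.q1 x' o.u o.v) / 2|
          = |P.q1 x o.u o.v - P.q1 x' o.u o.v| / 2 := by
        rw [← abs_neg, show -(-(P.q1 x o.u o.v) / 2 - -(P.q1 x' o.u o.v) / 2)
          = (P.q1 x o.u o.v - P.q1 x' o.u o.v) / 2 by ring, abs_div, abs_two]
      rw [h2]
      have h3 : (0 : ℝ) ≤ K := K.2
      have h4 : (K : ℝ) * |x - x'| ≤ max 1 (K : ℝ) * max |x - x'| |y - y'| :=
        mul_le_mul (le_max_right _ _) (le_max_left _ _) (abs_nonneg _)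
          (le_max_of_le_left zero_le_one)
      have h5 := abs_nonneg (P.q1 x o.u o.v - P.q1 x' o.u o.v)
      linarith
  have hfd : ∀ t ∈ Icc a b, HasDerivAt f (V t (f t)) t := fun t ht =>
    (h t ht).hr.prodMk (h t ht).hrd
  have hgd : ∀ t, HasDerivAt g (V t (g t)) t := by
    intro t
    have h1 : V t (g t) = 0 := by simp [hV, hg, hq]
    rw [h1]
    exact hasDerivAt_const _ _
  have hfS : ∀ t ∈ Icc a b, f t ∈ S t := fun t ht => ⟨⟨t, ht, rfl⟩, trivial⟩
  have hgS : ∀ t, g t ∈ S t := fun t => ⟨⟨s, hs, rfl⟩, trivial⟩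
  have hfg : f s = g s := by simp [hf, hg, h0]
  have hfc : ContinuousOn f (Icc a b) := fun t ht => (hfd t ht).continuousAt.continuousWithinAt
  have hgc : Continuous g := continuous_const
  have hR : EqOn f g (Icc s b) := by
    apply ODE_solution_unique_of_mem_Icc_right (v := V) (s := S) (K := max 1 K)
      (fun t _ => hLip t) (hfc.mono (Icc_subset_Icc_left hs.1))
      (fun t ht => (hfd t ⟨hs.1.trans ht.1, ht.2.le⟩).hasDerivWithinAt)
      (fun t ht => hfS t ⟨hs.1.trans ht.1, ht.2.le⟩) hgc.continuousOn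
      (fun t _ => (hgd t).hasDerivWithinAt) (fun t _ => hgS t) hfg
  have hL : EqOn f g (Icc a s) := by
    apply ODE_solution_unique_of_mem_Icc_left (v := V) (s := S) (K := max 1 K)
      (fun t _ => hLip t) (hfc.mono (Icc_subset_Icc_right hs.2))
      (fun t ht => (hfd t ⟨ht.1.le, ht.2.trans hs.2⟩).hasDerivWithinAt)
      (fun t ht => hfS t ⟨ht.1.le, ht.2.trans hs.2⟩) hgc.continuousOn
      (fun t _ => (hgd t).hasDerivWithinAt) (fun t _ => hgS t) hfg
  intro t ht
  have h1 : f t = g t := by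
    rcases le_total t s with h2 | h2
    · exact hL ⟨ht.1, h2⟩
    · exact hR ⟨h2, ht.2⟩
  simpa [hf, hg] using h1

end Pool.Agent.NCQ.Orb
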