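import Pool.Agent.NCQ.Cert

/-! # NCQ: signs of `q1` and of the coefficients `B` in the certificates

Everything here is elementary real algebra + monotonicity of `r ↦ q1 r u v` on `[-2, 2]`.

* left zone `r ≤ -2`: `X1 = T1 = 0`, so `m` does not depend on `r` and `q1 = Y1 m²`;
* right zone `2 ≤ r`: `Y1 = T1 = T = 0`, so `q1 = X1 u²`;
* on `[-2, 2]`: `q1` is nonincreasing in `r` because its derivative `q2` is `≤ 0`. -/

open Set Filter Topology

namespace Pool.Agent.NCQ.Profile

variable {P : Profile}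

/-- `T` is constant on `(-∞, -2]` (derivative zero). -/
theorem Good.T_left (hP : P.Good) {r r' : ℝ} (hr : r ≤ -2) (hr' : r' ≤ -2) : P.T r = P.T r' := by
  have key : ∀ a b : ℝ, a < b → b ≤ -2 → P.T a = P.T b := by
    intro a b hab hb
    obtain ⟨c, hc, h⟩ := exists_hasDerivAt_eq_slope P.T P.T1 hab
      (fun x _ => (hP.hT x).continuousAt.continuousWithinAt) (fun x _ => hP.hT x)
    rw [hP.left_T1 c (by linarith [hc.2])] at h
    have hne : b - a ≠ 0 := by linarith
    rw [eq_comm, div_eq_zero_iff] at h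
    rcases h with h | h
    · linarith
    · exact absurd h hne
  rcases lt_trichotomy r r' with h | h | h
  · exact key r r' h hr'
  · rw [h]
  · exact (key r' r h hr).symm

theorem Good.q1_left (hP : P.Good) {r : ℝ} (hr : r ≤ -2) (u v : ℝ) :
    P.q1 r u v = P.Y1 r * P.m r u v ^ 2 := by
  simp only [q1, hP.left_X1 r hr, hP.left_T1 r hr]
  ring

theorem Good.q1_right (hP : P.Good) {r : ℝ} (hr : 2 ≤ r) (u v : ℝ) :
    P.q1 r u v = P.X1 r * u ^ 2 := by
  simp only [q1, hP.right_Y1 r hr, hP.right_T1 r hr]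
  ring

/-- `q1` is nonincreasing on `[-2, 2]`. -/
theorem Good.q1_antitone (hP : P.Good) (u v : ℝ) :
    AntitoneOn (fun r => P.q1 r u v) (Icc (-2) 2) := by
  apply antitoneOn_of_deriv_nonpos (convex_Icc _ _)
  · exact fun x _ => (hP.hasDerivAt_q1 u v x).continuousAt.continuousWithinAt
  · exact fun x _ => (hP.hasDerivAt_q1 u v x).differentiableAt.differentiableWithinAt
  · intro x hx
    rw [(hP.hasDerivAt_q1 u v x).deriv]
    rw [interior_Icc] at hx
    exact hP.q2_nonpos x ⟨hx.1.le, hx.2.le⟩ u v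

theorem Good.lt_two (hP : P.Good) {r u v : ℝ} (h : 0 < P.q1 r u v) : r < 2 := by
  by_contra hr
  rw [not_lt] at hr
  rw [hP.q1_right hr] at h
  have := mul_nonpos_of_nonpos_of_nonneg (hP.X1_nonpos r) (sq_nonneg u)
  linarith

theorem Good.neg_two_lt (hP : P.Good) {r u v : ℝ} (h : P.q1 r u v < 0) : -2 < r := by
  by_contra hr
  rw [not_lt] at hr
  rw [hP.q1_left hr] at h
  have := mul_nonneg (hP.Y1_nonneg r) (sq_nonneg (P.m r u v))
  linarith

/-- (U+) `q1 > 0` at `r` implies `q1 > 0` at every smaller point. -/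
theorem Good.q1_pos_of_le (hP : P.Good) {r r' u v : ℝ} (h : 0 < P.q1 r u v) (hr : r' ≤ r) :
    0 < P.q1 r' u v := by
  have left : ∀ a b : ℝ, b ≤ -2 → 0 < P.q1 b u v → a ≤ -2 → 0 < P.q1 a u v := by
    intro a b hb hq ha
    rw [hP.q1_left hb] at hq
    rw [hP.q1_left ha]
    have hm : P.m b u v ≠ 0 := by
      rintro h0
      rw [h0] at hq
      simp at hq
    have hm' : P.m a u v = P.m b u v := by
      simp only [m, hP.T_left ha hb]
    rw [hm']
    exact mul_pos (hP.left_Y1 a ha) (by positivity)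
  have hr2 := hP.lt_two h
  rcases le_total r (-2) with h1 | h1
  · exact left r' r h1 h (by linarith)
  · rcases le_total r' (-2) with h2 | h2
    · have h3 : P.q1 r u v ≤ P.q1 (-2) u v :=
        hP.q1_antitone u v (left_mem_Icc.2 (by norm_num)) ⟨h1, hr2.le⟩ h1
      exact left r' (-2) le_rfl (by linarith) h2
    · have h3 : P.q1 r u v ≤ P.q1 r' u v :=
        hP.q1_antitone u v ⟨h2, by linarith⟩ ⟨h1, hr2.le⟩ hr
      linarith

/-- (U-) `q1 < 0` at `r` implies `q1 < 0` at every larger point. -/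
theorem Good.q1_neg_of_ge (hP : P.Good) {r r' u v : ℝ} (h : P.q1 r u v < 0) (hr : r ≤ r') :
    P.q1 r' u v < 0 := by
  have right : ∀ a b : ℝ, 2 ≤ b → P.q1 b u v < 0 → 2 ≤ a → P.q1 a u v < 0 := by
    intro a b hb hq ha
    rw [hP.q1_right hb] at hq
    rw [hP.q1_right ha]
    have hu : u ≠ 0 := by
      rintro h0
      rw [h0] at hq
      simp at hq
    exact mul_neg_of_neg_of_pos (hP.right_X1 a ha) (by positivity)
  have hr2 := hP.neg_two_lt h
  rcases le_total 2 r with h1 | h1
  · exact right r' r h1 h (by linarith)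
  · rcases le_total 2 r' with h2 | h2
    · have h3 : P.q1 2 u v ≤ P.q1 r u v :=
        hP.q1_antitone u v ⟨hr2.le, h1⟩ (right_mem_Icc.2 (by norm_num)) h1
      exact right r' 2 le_rfl (by linarith) h2
    · have h3 : P.q1 r' u v ≤ P.q1 r u v :=
        hP.q1_antitone u v ⟨hr2.le, h1⟩ ⟨by linarith, h2⟩ hr
      linarith

/-- `q1 = 0` implies `q2 ≤ 0`: on `[-2, 2]` always; for `r ≤ -2`: `Y1 > 0` gives `m = 0`, `q2 = 0`;
for `2 ≤ r`: `X1 < 0` gives `u = 0`, `q2 = 0`. -/
theorem Good.q2_nonpos' (hP : P.Good) {r u v : ℝ} (h : P.q1 r u v = 0) : P.q2 r u v ≤ 0 := by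
  rcases le_total r (-2) with h1 | h1
  · rw [hP.q1_left h1] at h
    have hm : P.m r u v = 0 := by
      rcases mul_eq_zero.1 h with h2 | h2
      · exact absurd h2 (hP.left_Y1 r h1).ne'
      · exact pow_eq_zero_iff (two_ne_zero) |>.1 h2
    simp only [q2, hm, hP.left_X2 r h1, hP.left_T1 r h1]
    apply le_of_eq
    ring
  · rcases le_total r 2 with h2 | h2
    · exact hP.q2_nonpos r ⟨h1, h2⟩ u v
    · rw [hP.q1_right h2] at h
      have hu : u = 0 := by
        rcases mul_eq_zero.1 h with h3 | h3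
        · exact absurd h3 (hP.right_X1 r h2).ne
        · exact pow_eq_zero_iff (two_ne_zero) |>.1 h3
      simp only [q2, hu, hP.right_Y2 r h2]
      apply le_of_eq
      ring

theorem Good.q_nonneg (hP : P.Good) (r u v : ℝ) : 0 ≤ P.q r u v := by
  have h1 := hP.X_pos r
  have h2 := hP.Y_pos r
  unfold q
  positivity

/-- the cometric is positive definite -/
theorem Good.q_pos (hP : P.Good) (r : ℝ) {u v : ℝ} (h : u ≠ 0 ∨ v ≠ 0) : 0 < P.q r u v := by
  have h1 := hP.X_pos r
  have h2 := hP.Y_pos r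
  unfold q
  by_cases hu : u = 0
  · have hv : v ≠ 0 := by
      rcases h with h | h
      · exact absurd hu h
      · exact h
    have hm : P.m r u v = v := by simp [m, hu]
    rw [hm, hu]
    positivity
  · positivity

end Pool.Agent.NCQ.Profile
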